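import Pool.Agent.Lib.MP_696deb_nt.EV.Main
import Pool.Agent.Lib.MP_696deb_nt.CT.Top

/-! The converse theorem for all twists, and the density statement. -/

set_option autoImplicit false

open scoped Classical
open Filter Topology Module Finset

namespace Pool.Agent.Lib.MP_696deb_nt.CT

open CK CL

theorem fin_cnt {a m p : ℕ} (hp : p.Prime) (h : ¬ p ∣ m) : CL.cnt (a * m ^ 3) p = CL.cnt a p := by
  have := Fact.mk hp
  have h0 : (m : ZMod p) ≠ 0 := fun e => h ((ZMod.natCast_eq_zero_iff m p).1 e)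
  refine (Nat.card_congr (((Equiv.mulLeft₀ _ (pow_ne_zero 2 h0)).prodCongr
    (Equiv.mulLeft₀ _ (pow_ne_zero 3 h0))).subtypeEquiv fun q => ?_)).symm
  simp only [Equiv.prodCongr_apply, Prod.map_fst, Prod.map_snd, Equiv.mulLeft₀_apply]
  push_cast
  refine ⟨fun e => by linear_combination (m : ZMod p) ^ 6 * e,
    fun e => mul_left_cancel₀ (pow_ne_zero 6 h0) (by linear_combination e)⟩

/-- The primes of the Euler product. -/
abbrev Gd (n p : ℕ) : Prop :=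
  p.Prime ∧ ¬ ((p : ℤ) ∣ 2 * (-4 * 0 ^ 3 - 27 * (-432 * (n : ℤ) ^ 2) ^ 2))

/-- The inverse Euler factor. -/
noncomputable def ef (n p : ℕ) (s : ℂ) : ℂ :=
  1 - ((p : ℂ) - (CL.cnt n p : ℂ)) * (p : ℂ) ^ (-s) + (p : ℂ) ^ (1 - 2 * s)

theorem gd_mul {a m p : ℕ} : Gd (a * m ^ 3) p ↔ Gd a p ∧ ¬ p ∣ m := by
  have e : 2 * (-4 * 0 ^ 3 - 27 * (-432 * ((a * m ^ 3 : ℕ) : ℤ) ^ 2) ^ 2) =
      2 * (-4 * 0 ^ 3 - 27 * (-432 * (a : ℤ) ^ 2) ^ 2) * m ^ 12 := by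
    push_cast
    ring
  rw [Gd, Gd, e, and_assoc]
  refine and_congr_right fun hp => ?_
  have k := Nat.prime_iff_prime_int.1 hp
  rw [k.dvd_mul, not_or, k.dvd_pow_iff_dvd (by norm_num), Int.natCast_dvd_natCast]

theorem ef_diff (n : ℕ) {p : ℕ} (hp : p ≠ 0) : Differentiable ℂ (ef n p) := by
  have h : (p : ℂ) ≠ 0 := Nat.cast_ne_zero.2 hp
  refine ((differentiable_const _).sub ((differentiable_const _).mul ?_)).add ?_
  · exact differentiable_neg.const_cpow (.inl h)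
  · exact ((differentiable_const _).sub ((differentiable_const _).mul differentiable_id)).const_cpow
      (.inl h)

theorem ef_one (n : ℕ) {p : ℕ} (hp : p ≠ 0) : ef n p 1 ≠ 0 := by
  have h : (p : ℂ) ≠ 0 := Nat.cast_ne_zero.2 hp
  have e : ef n p 1 * p = ((CL.cnt n p + 1 : ℕ) : ℂ) := by
    rw [ef, show (1 - 2 * 1 : ℂ) = -1 by norm_num, Complex.cpow_neg_one]
    push_cast
    field_simp
    ring
  exact left_ne_zero_of_mul (e ▸ Nat.cast_ne_zero.2 (Nat.succ_ne_zero _))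

theorem fin_cube {a m : ℕ} (hm : m ≠ 0) {F F' : ℂ → ℂ} (h : Differentiable ℂ F)
    (h' : Differentiable ℂ F')
    (k : ∀ s : ℂ, (3 : ℝ) / 2 < s.re →
      HasProd (fun p : ℕ => if Gd (a * m ^ 3) p then (ef (a * m ^ 3) p s)⁻¹ else 1) (F s))
    (k' : ∀ s : ℂ, (3 : ℝ) / 2 < s.re →
      HasProd (fun p : ℕ => if Gd a p then (ef a p s)⁻¹ else 1) (F' s)) (h1 : F' 1 ≠ 0) :
    F 1 ≠ 0 := by
  set S := m.primeFactors.filter (Gd a) with hS
  set E : ℂ → ℂ := fun s => ∏ p ∈ S, ef a p s with hE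
  have p0 : ∀ p ∈ S, p ≠ 0 := fun p hp => (mem_filter.1 hp).2.1.ne_zero
  have dE : Differentiable ℂ E := Differentiable.fun_finsetProd fun p hp => ef_diff a (p0 p hp)
  have E1 : E 1 ≠ 0 := prod_ne_zero_iff.2 fun p hp => ef_one a (p0 p hp)
  have key : ∀ s : ℂ, (3 : ℝ) / 2 < s.re → (F' s * E s - F s) * E s = 0 := fun s hs => by
    by_cases e0 : E s = 0
    · rw [e0, mul_zero]
    have q : HasProd (fun p : ℕ => if p ∈ S then (ef a p s)⁻¹ else 1) (E s)⁻¹ := by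
      have := hasProd_prod_of_ne_finset_one (L := .unconditional ℕ) (s := S)
        (f := fun p : ℕ => if p ∈ S then (ef a p s)⁻¹ else 1) fun p hp => if_neg hp
      rwa [prod_congr rfl fun p hp => if_pos hp, prod_inv_distrib] at this
    have r : F' s = F s * (E s)⁻¹ := (k' s hs).unique (((k s hs).mul q).congr_fun fun p => by
      by_cases g : Gd a p
      · by_cases d : p ∣ m
        · rw [if_pos g, if_neg fun e => (gd_mul.1 e).2 d,
            if_pos (mem_filter.2 ⟨Nat.mem_primeFactors.2 ⟨g.1, d, hm⟩, g⟩), one_mul]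
        · rw [if_pos g, if_pos (gd_mul.2 ⟨g, d⟩),
            if_neg fun e => d (Nat.dvd_of_mem_primeFactors (mem_filter.1 e).1), mul_one, ef, ef,
            fin_cnt g.1 d]
      · rw [if_neg g, if_neg fun e => g (gd_mul.1 e).1, if_neg fun e => g (mem_filter.1 e).2,
          mul_one])
    rw [r, inv_mul_cancel_right₀ e0, sub_self, zero_mul]
  have an : AnalyticOnNhd ℂ (fun s => (F' s * E s - F s) * E s) Set.univ := fun s _ =>
    (((h'.mul dE).sub h).mul dE).analyticAt s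
  have z := an.eq_of_eventuallyEq (g := fun _ => 0) analyticOnNhd_const (z₀ := 2)
    (((isOpen_lt continuous_const Complex.continuous_re).eventually_mem
      (show (3 : ℝ) / 2 < (2 : ℂ).re by norm_num)).mono key)
  have z1 := (mul_eq_zero.1 (congrFun z 1)).resolve_right E1
  rw [← sub_eq_zero.1 z1]
  exact mul_ne_zero h1 E1

/-- The converse theorem in rank zero for the curves `x ^ 3 + y ^ 3 = n`. -/
theorem conv {n : ℕ} (hn : n ≠ 0) (hc : ¬ ∃ m : ℕ, n = m ^ 3 ∨ n = 3 * m ^ 3 ∨ n = 9 * m ^ 3)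
    (h : CU.Gro n 2) {F : ℂ → ℂ} (hF : Differentiable ℂ F)
    (k : ∀ s : ℂ, (3 : ℝ) / 2 < s.re →
      HasProd (fun p : ℕ => if Gd n p then (ef n p s)⁻¹ else 1) (F s)) : F 1 ≠ 0 := by
  obtain ⟨a, m, h1, h2, rfl, -⟩ := CU.CP.exists_cf hn
  obtain ⟨F', k1, k2, -⟩ := fe h1.1
  have : ∃ q : ℕ, q.Prime ∧ q ≠ 3 ∧ q ∣ a := by
    by_contra e
    have e1 := Nat.eq_prime_pow_of_unique_prime_dvd h1.1 (p := 3) fun {d} hd k =>
      by_contra fun k' => e ⟨d, hd, k', k⟩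
    have e2 := h1.2 3
    generalize a.primeFactorsList.length = j at e1
    rw [e1, Nat.prime_three.factorization_pow, Finsupp.single_eq_same] at e2
    refine hc ⟨m, ?_⟩
    interval_cases j <;> simp [e1]
  obtain ⟨q, q1, q2, q3⟩ := this
  refine fin_cube h2 hF k1 k k2 (EV.conv h1 q1 q2 q3 ?_ k1 k2)
  simpa only [CU.Gro, zs_cube h1.1 h2] using h

theorem cubes3 {ε : ℝ} (hε : 0 < ε) : ∃ X0 : ℕ, ∀ X ≥ X0, (Set.ncard {n : ℕ | 1 ≤ n ∧ n ≤ X ∧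
    ∃ i ≤ 9, ∃ m : ℕ, n = i * m ^ 3} : ℝ) ≤ ε * X := by
  obtain ⟨K, hK⟩ := exists_nat_ge (10 / ε)
  refine ⟨K ^ 2, fun X hX => ?_⟩
  have s1 : {n : ℕ | 1 ≤ n ∧ n ≤ X ∧ ∃ i ≤ 9, ∃ m : ℕ, n = i * m ^ 3} ⊆
      ((range 10 ×ˢ Icc 1 X.sqrt).image fun x => x.1 * x.2 ^ 3 : Finset ℕ) := by
    rintro n ⟨a, b, i, hi, m, c⟩
    have m1 : 1 ≤ m := Nat.pos_of_ne_zero fun e => by simp [e] at c; omega
    have m0 : 1 ≤ i := Nat.pos_of_ne_zero fun e => by simp [e] at c; omega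
    have m2 : m ^ 2 ≤ m ^ 3 := Nat.pow_le_pow_right m1 (by norm_num)
    have m4 : m ^ 3 ≤ i * m ^ 3 := Nat.le_mul_of_pos_left _ m0
    have m3 : m ∈ Icc 1 X.sqrt := mem_Icc.2 ⟨m1, Nat.le_sqrt'.2 (by omega)⟩
    exact mem_coe.2 (mem_image.2 ⟨(i, m), mem_product.2 ⟨mem_range.2 (Nat.lt_succ_of_le hi), m3⟩,
      c.symm⟩)
  have s2 := ((Set.ncard_le_ncard s1 (finite_toSet _)).trans_eq (Set.ncard_coe_finset _)).trans
    card_image_le
  rw [card_product, card_range, Nat.card_Icc, Nat.add_sub_cancel] at s2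
  refine (Nat.cast_le.2 s2).trans ?_
  have k1 : (K : ℝ) ≤ X.sqrt := by exact_mod_cast Nat.le_sqrt'.2 hX
  have k2 : (X.sqrt : ℝ) ^ 2 ≤ X := by exact_mod_cast Nat.sqrt_le' X
  have k3 : 10 ≤ (X.sqrt : ℝ) * ε := (div_le_iff₀ hε).1 (hK.trans k1)
  have k4 : (0 : ℝ) ≤ X.sqrt := Nat.cast_nonneg _
  push_cast
  nlinarith

/-- The property of the twist by `n` that is counted. -/
def GoodE (r n : ℕ) : Prop :=
  (r = 0 ↔ Wp n) ∧ (r = 0 → ¬ ∃ x y : ℚ, x ^ 3 + y ^ 3 = n) ∧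
  ∀ a b : ℤ, a = 0 → b = -432 * (n : ℤ) ^ 2 → ∀ W : WeierstrassCurve ℚ,
    W = { a₁ := 0, a₂ := 0, a₃ := 0, a₄ := (a : ℚ), a₆ := (b : ℚ) } →
    ∃ F : ℂ → ℂ, Differentiable ℂ F ∧
      (∀ s : ℂ, (3 : ℝ) / 2 < s.re →
        HasProd
          (fun p : ℕ =>
            if p.Prime ∧ ¬ ((p : ℤ) ∣ 2 * (-4 * a ^ 3 - 27 * b ^ 2)) then
              (1 - ((p : ℂ) - (Nat.card {q : ZMod p × ZMod p //
                  q.2 ^ 2 = q.1 ^ 3 + (a : ZMod p) * q.1 + (b : ZMod p)} : ℂ))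
                  * (p : ℂ) ^ (-s) + (p : ℂ) ^ (1 - 2 * s))⁻¹
            else 1)
          (F s)) ∧
      IsLeast {k : ℕ | CorankLE3 W k} r ∧ Module.Finite ℤ W.toAffine.Point ∧
      finrank ℤ W.toAffine.Point ≤ r ∧ (r : ℕ∞) ≤ analyticOrderAt F 1 ∧
      (r = 0 → analyticOrderAt F 1 = (finrank ℤ W.toAffine.Point : ℕ∞))

theorem goodE {n : ℕ} (hn : n ≠ 0) (h : CU.Gro n 3) (hc : ¬ ∃ i ≤ 9, ∃ m : ℕ, n = i * m ^ 3) :
    GoodE (if Wp n then 0 else 1) n := by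
  obtain ⟨k0, k1, k⟩ := good hn h fun ⟨m, e⟩ => hc (e.elim
    (fun e => ⟨1, by norm_num, m, by rw [e, one_mul]⟩) fun e => ⟨2, by norm_num, m, e⟩)
  refine ⟨k0, k1, ?_⟩
  rintro _ _ rfl rfl _ rfl
  obtain ⟨F, h1, h2, h3, h4, h5, h6⟩ := k _ _ rfl rfl _ rfl
  refine ⟨F, h1, h2, h3, h4, h5, h6, fun e => ?_⟩
  rw [e] at h3 h5
  rw [Nat.le_zero.1 h5, Nat.cast_zero]
  refine (h1.analyticAt 1).analyticOrderAt_eq_zero.2 (conv hn ?_ (gro_of_corank hn h3.1) h1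
    fun s hs => (h2 s hs).congr_fun fun p => by congr)
  rintro ⟨m, e | e | e⟩
  · exact hc ⟨1, by norm_num, m, by rw [e, one_mul]⟩
  · exact hc ⟨3, by norm_num, m, e⟩
  · exact hc ⟨9, le_rfl, m, e⟩

theorem tendE_of (core : CU.CoreStmt) {r : ℕ} (hr : r ≤ 1) :
    Tendsto (fun X : ℕ => (Set.ncard {n : ℕ | 1 ≤ n ∧ n ≤ X ∧ GoodE r n} : ℝ) / X)
      atTop (𝓝 (1 / 2)) := by
  refine half (fun _ _ h => h.1) (fun ε hε => ?_) hr
  obtain ⟨X0, h0⟩ := core (ε / 2) (half_pos hε)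
  obtain ⟨X1, h1⟩ := cubes3 (half_pos hε)
  refine ⟨max X0 X1, fun X hX => ?_⟩
  have k1 : {n : ℕ | 1 ≤ n ∧ n ≤ X ∧ ¬ GoodE (if Wp n then 0 else 1) n} ⊆
      {n : ℕ | 1 ≤ n ∧ n ≤ X ∧ ¬ CU.Gro n 3} ∪
        {n : ℕ | 1 ≤ n ∧ n ≤ X ∧ ∃ i ≤ 9, ∃ m : ℕ, n = i * m ^ 3} := fun n hn => by
    by_contra k
    simp only [Set.mem_union, not_or] at k
    exact hn.2.2 (goodE (by have := hn.1; omega) (not_not.1 fun e => k.1 ⟨hn.1, hn.2.1, e⟩)
      fun e => k.2 ⟨hn.1, hn.2.1, e⟩)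
  have k2 := (Set.ncard_le_ncard k1 (((Set.finite_Iic X).subset fun _ h => h.2.1).union
    ((Set.finite_Iic X).subset fun _ h => h.2.1))).trans (Set.ncard_union_le _ _)
  have k3 := Nat.cast_le (α := ℝ).2 k2
  have k4 := h0 X (le_of_max_le_left hX)
  have k5 := h1 X (le_of_max_le_right hX)
  push_cast at k3
  linarith

end Pool.Agent.Lib.MP_696deb_nt.CT
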