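import Pool.Agent.Lib.MP_696deb_nt.EV.C1
import Pool.Agent.Lib.MP_696deb_nt.EW.L2

/-! Valuations of elliptic units and of the local parameter. -/

set_option autoImplicit false

open scoped Classical NNReal
open Finset

namespace Pool.Agent.Lib.MP_696deb_nt.EV

export EW (Kr dl ub zc)

/-- A root of the elliptic unit. -/
noncomputable def yb (b : O) (e : ℕ) (P : A) : Qbar := rt3 e (ub b P)

variable {g : Gam} {v : Plc} {a b m n : O} {P Q R : A}

theorem ub_act (hb : b ≠ 0) (hg : g ∈ G) (P : A) : ub b (g • P) = g (ub b P) :=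
  EW.ub_vm hb hg P

theorem w3_two : w3.p ≠ 2 := by rw [w3_p]; norm_num

theorem C4_red (h : ¬ w ∣ a) : CU.red a ≠ 0 := fun e => h (EW.w_dvd e)

theorem C4_odd (h : CU.red a ≠ 0) : ¬ w ∣ a := fun e => h (EW.w_dvd_iff.1 e)

theorem w_dvd_three : w ∣ 3 := ⟨-w, by decide⟩

theorem zc_exact (h : P ∈ Kr w3) (k : w3.V (zc P) ^ 2 < w3.V (io w)) (a : O) :
    w3.V (zc (a • P)) = w3.V (io a) * w3.V (zc P) := by
  rcases eq_or_ne a 0 with rfl | a0
  · simp [EW.zc_zero]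
  obtain ⟨s, c, hc, rfl⟩ := WfDvdMonoid.max_power_factor' a0 (x := w) EW.th_prime.not_isUnit
  clear a0
  induction s with
  | zero =>
    rw [pow_zero, one_mul]
    refine EW.V_zc_smul w3_two h (k.trans_le ?_)
    rw [V_w3_odd (C4_red hc)]
    exact EW.V_io_le _ _
  | succ s ih =>
    rw [pow_succ', mul_assoc, mul_smul, EW.V_zc_smul w3_two ((Kr w3).smul_mem _ h)
      ((pow_le_pow_left' (EW.zc_smul w3_two h _).1 2).trans_lt k), ih, map_mul io w, map_mul _ (io w),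
      mul_assoc]

theorem zc_om_pow (k : ℕ) (P : A) : zc (om ^ k • P) = io om ^ k * zc P := by
  induction k with
  | zero => simp
  | succ k ih => rw [pow_succ', mul_smul, EW.zc_om, ih, pow_succ', mul_assoc]

theorem zc_tw (t : Tw) (hg : g ∈ G) (P : A) : zc (t.tw g P) * t.ρ⁻¹ = g (zc P * t.ρ⁻¹) := by
  have z : zeta 1 ^ 2 * zeta 1 = 1 := by rw [← pow_succ]; exact H3.TA.zeta_cube
  rw [tw_eq t hg, CU.un, zc_om_pow, EW.zc_vm, map_mul, map_inv₀, Tw.ρ, CU.kk_spec, EW.io_om,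
    eq_inv_of_mul_eq_one_left z, mul_inv, inv_pow]
  ring

theorem ub_pole (h : CU.red b ≠ 0) (hv : v.p ≠ 3) (k : v.V (io b) = 1) (hP : P ∈ Kr v)
    (h0 : P ≠ 0) : v.V (ub b P) = v.V (xco P) ^ (2 * ((En b).erase 0).card) := by
  have h1 := (EW.mem_Kr.1 hP).resolve_left h0
  rw [EW.ub, map_div₀, map_pow, map_pow, EW.u0_T3_unit hv h, one_pow, div_one, EW.u0, map_prod,
    mul_comm, pow_mul, ← prod_const]
  refine congrArg (· ^ 2) (prod_congr rfl fun R hR => ?_)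
  obtain ⟨r0, r1⟩ := (EW.mem_En0 (EW.ne_of_red h)).1 hR
  have h2 : v.V (xco P / xco R) = v.V (xco P) := by
    rw [map_div₀, EW.V_x_one hv fun e => r0 (EW.Kr_tors k (EW.Kr_cop (EW.cop_w h) r1 e) r1),
      div_one]
  rw [v.V.map_sub_eq_of_lt_right (by rwa [map_one, h2]), h2]

theorem C4_not (hm : m ≠ 0) (hd : a ∣ m) (hv : v.V (io a) = 1) (hP : P ∈ Im m)
    (hn : ∀ c, c ≠ 0 → ¬ a * c ∣ n * c) (hR : n • R = 0) : P + R ∉ Kr v := by
  obtain ⟨c, rfl⟩ := hd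
  have e : (n * c) • (P + R) = (n * c) • P := by
    rw [smul_add, mul_comm n, mul_smul c n R, hR, smul_zero, add_zero]
  refine EW.not_Kr hv (c := n * c) ?_ fun k => hn c (right_ne_zero_of_mul hm) (Im_dvd hm hP ?_)
  · rw [e, smul_smul, mul_left_comm, mul_smul, Im_kill hm hP, smul_zero]
  · rwa [e] at k

theorem Im_notMem (hm : m ≠ 0) (k : (3 : O) ∣ m) (hv : v.p ≠ 3) (hP : P ∈ Im m)
    (hn : CU.red n ≠ 0) (hR : n • R = 0) : P + R ∉ Kr v := by
  exact C4_not hm (w_dvd_three.trans k) (EW.V_w hv) hP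
    (fun c hc e => C4_odd hn ((mul_dvd_mul_iff_right hc).1 e)) hR

theorem Im_ne (hm : m ≠ 0) (k : (3 : O) ∣ m) (hP : P ∈ Im m) (hn : CU.red n ≠ 0) : n • P ≠ 0 := by
  exact fun e => C4_odd hn ((w_dvd_three.trans k).trans (Im_dvd hm hP e))

theorem Im_unit (h : CU.red b ≠ 0) (hm : m ≠ 0) (k : (3 : O) ∣ m) (hv : v.p ≠ 3)
    (hP : P ∈ Im m) : v.V (ub b P) = 1 := by
  exact EW.ub_unit hv h fun R hR => Im_notMem hm k hv hP h hR

theorem Im_notMem_w3 (hm : m ≠ 0) {π : O} (hp : Prime π) (hπ : CU.red π ≠ 0) (hd : π ∣ m)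
    (hP : P ∈ Im m) (hn : ¬ π ∣ n) (hR : n • R = 0) : P + R ∉ Kr w3 := by
  have _ := hp
  exact C4_not hm hd (V_w3_odd hπ) hP (fun c hc e => hn ((mul_dvd_mul_iff_right hc).1 e)) hR

theorem C4_y (h0 : R ≠ 0) (h : (2 : O) • R ≠ 0) : EW.y2 R ≠ 0 := fun e => h (by
  have e1 : yco R = yco (-R) := sub_eq_zero.1 e
  rcases R with _ | ⟨x, y, k⟩
  · exact smul_zero _
  · rw [two_smul, add_eq_zero_iff_eq_neg]
    exact WeierstrassCurve.Affine.Point.some.congr_simp _ _ rfl _ _ e1 _)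

theorem V_three_lt : w3.V 3 < 1 := by simpa [w3_p] using (B2.b4a_V_p w3).2

/-- The denominators at three are bounded. -/
theorem x_bd (h : CU.red b ≠ 0) (h2 : IsCoprime 2 b) : ∃ c : ℕ, ∀ P : A,
    (∀ R, b • R = 0 → P + R ∉ Kr w3) →
      ∀ R ∈ (En b).erase 0, w3.V (3 ^ c) ≤ w3.V (xco P - xco R) := by
  have b0 := EW.ne_of_red h
  obtain ⟨c, hc⟩ := (((En b).erase 0).eventually_all.2 fun R hR =>
    (NNReal.tendsto_pow_atTop_nhds_zero_of_lt_one V_three_lt).eventually_le_const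
      (u := w3.V (EW.y2 R)) (pos_iff_ne_zero.2 (w3.V.ne_zero_iff.2 (C4_y ((EW.mem_En0 b0).1 hR).1
        fun e => ((EW.mem_En0 b0).1 hR).1 (EW.cop_smul h2 ((EW.mem_En0 b0).1 hR).2 e))))).exists
  refine ⟨c, fun P hP R hR => ?_⟩
  obtain ⟨r0, r1⟩ := (EW.mem_En0 b0).1 hR
  rw [map_pow]
  exact (hc R hR).trans (EW.sep (add_zero P ▸ hP 0 (smul_zero _))
    (fun e => r0 (EW.Kr_tors (V_w3_odd h) e r1)) (hP R r1)
    (sub_eq_add_neg P R ▸ hP _ (by rw [smul_neg, r1, neg_zero])))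

theorem C4_add (hP : P ≠ 0) (hQ : Q ≠ 0) (hx : xco P - xco Q ≠ 0) :
    xco (P + Q) = xco P + (3 * xco P ^ 2 * xco Q - (xco P ^ 3 + 2 * (27 / 4))) / (xco P - xco Q) ^ 2 +
      -2 * yh P * yh Q / (xco P - xco Q) ^ 2 := by
  rw [EW.x_add hP hQ (sub_ne_zero.1 hx)]
  field_simp
  linear_combination 4 * EW.co_eq hP + 4 * EW.co_eq hQ

/-- The abscissas of the translates by a point of the formal group. -/
theorem x_shift (hv : v.p ≠ 2) (hP : P ∉ Kr v) (h : Q ∈ Kr v) : ∃ δ ε : Qbar,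
    xco (P + Q) = xco P + δ + ε ∧ xco (P - Q) = xco P + δ - ε ∧
    v.V δ ≤ v.V (zc Q) ^ 2 ∧ v.V (ε - 2 * yh P * zc Q) ≤ v.V (zc Q) ^ 3 := by
  by_cases q0 : Q = 0
  · exact ⟨0, 0, by simp [q0], by simp [q0], by simp, by simp [q0, EW.zc_zero]⟩
  have a1 := (EW.mem_Kr.1 h).resolve_left q0
  have a0 := zero_lt_one.trans a1
  have hx := EW.V_x hP
  have p0 : P ≠ 0 := fun e => hP (e ▸ zero_mem _)
  have d1 : v.V (xco P - xco Q) = v.V (xco Q) := v.V.map_sub_eq_of_lt_right (hx.trans_lt a1)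
  have d0 : xco P - xco Q ≠ 0 := v.V.ne_zero_iff.1 (d1 ▸ a0.ne')
  have y0 : yh Q ≠ 0 := fun e => by
    have := EW.V_xy hv a1
    rw [e, map_zero, zero_pow two_ne_zero] at this
    exact pow_ne_zero _ a0.ne' this.symm
  have z2 := EW.V_zc hv a1
  have i2 : v.V 2 ≤ 1 := EW.V_two_le v
  have i3 : v.V 3 ≤ 1 := EW.V_three_le v
  have i4 := EW.V_c hv
  have x2 : ∀ j : ℕ, v.V (xco P ^ j) ≤ 1 := fun j => by rw [map_pow]; exact pow_le_one' hx j
  have e1 := C4_add p0 q0 d0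
  have e2 := C4_add p0 (neg_ne_zero.2 q0) (by rwa [xco_neg])
  rw [xco_neg, EW.co_neg, mul_neg, neg_div, ← sub_eq_add_neg, ← sub_eq_add_neg] at e2
  refine ⟨_, _, e1, e2, ?_, ?_⟩
  · rw [map_div₀, map_pow, d1, div_le_iff₀ (pow_pos a0 2), sq (v.V (xco Q)), ← mul_assoc, z2,
      one_mul]
    refine v.V.map_sub_le ?_ ((v.V.map_add_le (x2 3) (by
      rw [map_mul]; exact mul_le_one' i2 i4)).trans a1.le)
    rw [map_mul, map_mul]
    exact mul_le_of_le_one_left' (mul_le_one' i3 (x2 2))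
  · have z3 : v.V (zc Q) ^ 3 * v.V (yh Q) = 1 := by
      rw [pow_succ, mul_assoc, ← map_mul, EW.zc, div_mul_cancel₀ _ y0, v.V.map_neg]
      exact z2
    have e3 : -2 * yh P * yh Q / (xco P - xco Q) ^ 2 - 2 * yh P * zc Q =
        2 * yh P * (27 / 4 + xco P ^ 2 * xco Q - 2 * xco P * xco Q ^ 2) /
          (yh Q * (xco P - xco Q) ^ 2) := by
      rw [EW.zc]
      field_simp
      linear_combination -4 * yh P * EW.co_eq q0
    rw [e3, map_div₀, map_mul _ (yh Q), map_pow, d1, div_le_iff₀ (mul_pos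
      (pos_iff_ne_zero.2 (v.V.ne_zero_iff.2 y0)) (pow_pos a0 2)), ← mul_assoc, z3, one_mul,
      map_mul, map_mul]
    refine (mul_le_of_le_one_left' (mul_le_one' i2 (EW.V_yh hv hP))).trans (v.V.map_sub_le ?_ ?_)
    · refine (v.V.map_add_le (i4.trans a1.le) ?_).trans (le_self_pow₀ a1.le two_ne_zero)
      rw [map_mul]
      exact mul_le_of_le_one_left' (x2 2)
    · rw [map_mul, map_mul, map_pow]
      exact mul_le_of_le_one_left' (mul_le_one' i2 hx)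

end Pool.Agent.Lib.MP_696deb_nt.EV
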