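import Pool.Agent.Lib.MP_696deb_nt.EW.K5
import Pool.Agent.Lib.MP_696deb_nt.CU.D0
import Pool.Agent.Lib.MP_23455a_nt.H3.GWc
import Pool.Agent.Lib.MP_23455a_nt.H3.CH

/-! Definitions on the Galois side. -/

set_option autoImplicit false

open scoped Classical
open Finset

namespace Pool.Agent.Lib.MP_696deb_nt.EV

export B2 (Qbar Gam Plc Dec Ine IsFrob Op Sm IsHom Fx GK cc)
export Pool.Agent.H3 (Gen zeta cyc cy C2 Spl Kum cup CFT Tm Act Coc)
export CU (O A om red)
export CL (Prim Per)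
export EW (io)

/-- The prime above three. -/
abbrev w : O := CU.th

/-- The Galois group of the field of Eisenstein numbers. -/
noncomputable abbrev G : Subgroup Gam := GK 3

/-- A place above three. -/
noncomputable def w3 : Plc := (B2.exists_plc Nat.prime_three).choose

theorem w3_p : w3.p = 3 := (B2.exists_plc Nat.prime_three).choose_spec

/-- The decomposition group at the place above three. -/
noncomputable abbrev Hw : Subgroup Gam := G ⊓ Dec w3

/-- The norm as a natural number. -/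
def nm (a : O) : ℕ := (CL.nm a).natAbs

/-- A root of order `3 ^ e`. -/
noncomputable def rt3 (e : ℕ) (x : Qbar) : Qbar :=
  (IsAlgClosed.exists_pow_nat_eq x (pow_pos three_pos e)).choose

theorem rt3_pow (e : ℕ) (x : Qbar) : rt3 e x ^ 3 ^ e = x :=
  (IsAlgClosed.exists_pow_nat_eq x (pow_pos three_pos e)).choose_spec

/-- The exponent by which `g` moves the cube root of `x`. -/
noncomputable def chC (x : Qbar) (g : Gam) : ZMod 3 :=
  if g (rt3 1 x) = rt3 1 x then 0 else if g (rt3 1 x) = rt3 1 x * zeta 1 then 1 else 2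

/-- Smooth cubic characters. -/
def B4bG (D : Subgroup Gam) (x : Gam → ZMod 3) : Prop := Sm D x ∧ IsHom D x

theorem B4bG.add {D : Subgroup Gam} {x y : Gam → ZMod 3} (hx : B4bG D x) (hy : B4bG D y) :
    B4bG D fun g => x g + y g :=
  ⟨hx.1.comp₂ hy.1 (· + ·), fun g hg h hh => by
    simp only [hx.2 g hg h hh, hy.2 g hg h hh]; ring⟩

theorem B4bG.smul {D : Subgroup Gam} {x : Gam → ZMod 3} (hx : B4bG D x) (a : ZMod 3) :
    B4bG D fun g => a * x g :=
  ⟨hx.1.comp (a * ·), fun g hg h hh => by simp only [hx.2 g hg h hh]; ring⟩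

theorem B4bG.mono {D D' : Subgroup Gam} {x : Gam → ZMod 3} (hx : B4bG D x) (h : D' ≤ D) :
    B4bG D' x := ⟨hx.1.mono h, fun g hg k hk => hx.2 g (h hg) k (h hk)⟩

/-- A primary prime with a place, a Frobenius element and a generator of tame inertia. -/
structure TP where
  π : O
  v : Plc
  φ : Gam
  σ : Gam
  prime : Prime π
  prim : Prim π
  lt : v.V (io π) < 1
  tm : Tm G v (nm π) φ σ

/-- The place is prime to three and to the given elements. -/
def Off {ι : Type} (t : ι → TP) (v : Plc) : Prop := v.p ≠ 3 ∧ ∀ i, v.V (io (t i).π) = 1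

/-- Functions that vanish on the inertia groups away from three and the given primes. -/
def Unr {ι M : Type} [Zero M] (t : ι → TP) (c : Gam → M) : Prop :=
  ∀ v, Off t v → ∀ σ ∈ Ine v, c σ = 0

/-- Two elements of the inertia group at three that are dual to the characters of the cube root of
unity and of the prime above three. -/
def IsGw (x : Fin 2 → Gam) : Prop :=
  (∀ j, x j ∈ G ⊓ Ine w3) ∧ chC (io om) (x 0) = 1 ∧ chC (io w) (x 0) = 0 ∧
    chC (io om) (x 1) = 0 ∧ chC (io w) (x 1) = 1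

/-- The chosen elements. -/
noncomputable def gw : Fin 2 → Gam := if h : ∃ x, IsGw x then h.choose else 1

/-- Four elements of the decomposition group at three that detect its cubic characters. -/
def IsEw (x : Fin 4 → Gam) : Prop :=
  (∀ j, x j ∈ Hw) ∧ ∀ χ, B4bG Hw χ → (∀ j, χ (x j) = 0) → ∀ g ∈ Hw, χ g = 0

/-- The chosen elements. -/
noncomputable def ew : Fin 4 → Gam := if h : ∃ x, IsEw x then h.choose else 1

/-- Generators. -/
noncomputable def gen {ι : Type} (t : ι → TP) : ι ⊕ Fin 2 → Gam := Sum.elim (fun i => (t i).σ) gw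

section

variable {R : Type} [CommRing R]

/-- Smooth characters whose values have three-power order. -/
structure Chr (ρ : Gam → R) : Prop where
  sm : Sm G ρ
  one : ρ 1 = 1
  mul : ∀ g ∈ G, ∀ h ∈ G, ρ (g * h) = ρ g * ρ h
  three : ∀ g ∈ G, ∃ n : ℕ, ρ g ^ 3 ^ n = 1

/-- The action through a character. -/
def sa (M : Type) [AddCommGroup M] [Module R M] (ρ : Gam → R) (g : Gam) : M →+ M :=
  DistribSMul.toAddMonoidHom M (ρ g)

theorem sa_apply {M : Type} [AddCommGroup M] [Module R M] (ρ : Gam → R) (g : Gam) (x : M) :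
    sa M ρ g x = ρ g • x := rfl

/-- Cocycles for a character. -/
def Zc {M : Type} [AddCommGroup M] [Module R M] (H : Subgroup Gam) (ρ : Gam → R) (c : Gam → M) :
    Prop := Sm H c ∧ ∀ g ∈ H, ∀ h ∈ H, c (g * h) = c g + ρ g • c h

theorem zc_iff {M : Type} [AddCommGroup M] [Module R M] {H : Subgroup Gam} {ρ : Gam → R}
    {c : Gam → M} : Zc H ρ c ↔ Coc H (sa M ρ) c := Iff.rfl

/-- Linear forms that express the values of all cocycles by their values at the generators. -/
def Val {ι : Type} [Fintype ι] (t : ι → TP) (ρ : Gam → R) (L : Gam → ι ⊕ Fin 2 → R) : Prop :=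
  ∀ (M : Type) [AddCommGroup M] [Module R M] [Finite M] (c : Gam → M), Zc G ρ c → Unr t c →
    ∀ g ∈ G, c g = ∑ j, L g j • c (gen t j)

/-- The order of the tame generator divides the order of the multiplicative group, strongly. -/
def Geo (ρ : Gam → R) (t : TP) : Prop := ∑ i ∈ range (nm t.π - 1), ρ t.σ ^ i = 0

/-- What is needed of a character and a family of primes. -/
structure Adm {ι : Type} (t : ι → TP) (ρ : Gam → R) : Prop where
  inj : ∀ i j, (t i).π = (t j).π → i = j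
  chr : Chr ρ
  unr : Unr t fun g => ρ g - 1
  geo : ∀ i, Geo ρ (t i)

theorem three_mul {a b : R} (h : ∃ n : ℕ, a ^ 3 ^ n = 1) (k : ∃ n : ℕ, b ^ 3 ^ n = 1) :
    ∃ n : ℕ, (a * b) ^ 3 ^ n = 1 := by
  obtain ⟨m, hm⟩ := h
  obtain ⟨n, hn⟩ := k
  exact ⟨m + n, by rw [mul_pow, pow_add, pow_mul, hm, mul_comm (3 ^ m), pow_mul b, hn, one_pow,
    one_pow, mul_one]⟩

end

/-- Open subgroups, normal and of three-power exponent in `G`. -/
structure Nice (U : Subgroup Gam) : Prop where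
  le : U ≤ G
  op : Op U
  conj : ∀ g ∈ G, ∀ u ∈ U, g * u * g⁻¹ ∈ U
  three : ∀ g ∈ G, ∃ n : ℕ, g ^ 3 ^ n ∈ U

section

variable {H : Subgroup Gam} {x y z : Qbar} {g : Gam} {a : ZMod 3}

theorem cy_one_G (hg : g ∈ G) : cy 1 g = 1 := H3.mem_GK3.1 hg

theorem cy_three {e : ℕ} (hg : g ∈ G) : cy e g ^ 3 ^ e = 1 := by
  have h : ∀ k, (3 : ℤ_[3]) ^ (k + 1) ∣ cyc g ^ 3 ^ k - 1 := fun k => by
    have h1 : ((3 : ℕ) : ℤ_[3]) ∣ cyc g - 1 := by
      rw [← Ideal.mem_span_singleton, ← pow_one ((3 : ℕ) : ℤ_[3]), ← PadicInt.ker_toZModPow,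
        RingHom.mem_ker, map_sub, map_one, sub_eq_zero]
      exact cy_one_G hg
    simpa using dvd_sub_pow_of_dvd_sub h1 k
  obtain ⟨c, hc⟩ := h e
  rw [cy, ← map_pow, eq_add_of_sub_eq hc, map_add, map_mul, map_one, map_pow, map_ofNat, pow_succ,
    ← Nat.cast_ofNat (R := ZMod (3 ^ e)), ← Nat.cast_pow, ZMod.natCast_self, zero_mul, zero_mul,
    zero_add]

theorem zeta_chC (a b : ZMod 3) : zeta 1 ^ (a + b).val = zeta 1 ^ a.val * zeta 1 ^ b.val :=
  H3.zeta_val_add 1 a b

theorem chC_spec (h0 : x ≠ 0) (hx : g x = x) :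
    g (rt3 1 x) = rt3 1 x * zeta 1 ^ (chC x g).val := by
  have r0 : rt3 1 x ≠ 0 := fun e => h0 (by rw [← rt3_pow 1 x, e]; simp)
  obtain ⟨a, ha⟩ := H3.exists_zeta_val (m := 1) (x := g (rt3 1 x) / rt3 1 x) (by
    rw [div_pow, ← map_pow, rt3_pow, hx, div_self h0])
  rw [div_eq_iff r0, mul_comm] at ha
  unfold chC
  split_ifs with h1 h2
  · rw [h1, ZMod.val_zero, pow_zero, mul_one]
  · rw [h2]
    exact congrArg _ (pow_one _).symm
  · rcases (by decide : ∀ a : ZMod (3 ^ 1), a.val = 0 ∨ a.val = 1 ∨ a.val = 2) a with e | e | e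
    · exact absurd (by rw [ha, e, pow_zero, mul_one]) h1
    · exact absurd (by rw [ha, e, pow_one]) h2
    · rw [ha, e]
      rfl

/-- The character can be computed with any cube root. -/
theorem chC_eq (hg : g ∈ G) (h0 : z ≠ 0) (hz : z ^ 3 = x) (h : g z = z * zeta 1 ^ a.val) :
    chC x g = a := by
  have x0 : x ≠ 0 := hz ▸ pow_ne_zero 3 h0
  have hx : g x = x := by
    rw [← hz, map_pow, h, mul_pow, show (zeta 1 ^ a.val) ^ 3 = 1 from H3.b3b_pow 1 a, mul_one]
  obtain ⟨b, hb⟩ := H3.exists_zeta_val (m := 1) (x := rt3 1 x / z) (by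
    rw [div_pow, rt3_pow, pow_one, hz, div_self x0])
  rw [div_eq_iff h0] at hb
  have k := chC_spec x0 hx
  rw [hb, map_mul, map_pow, H3.smul_zeta_one hg, h, mul_assoc] at k
  exact (H3.zeta_val_inj (m := 1) (mul_left_cancel₀ h0
    (mul_left_cancel₀ (H3.b3b_ne 1 b) k))).symm

theorem kum_chC (h0 : x ≠ 0) (hx : Fx H x) : Kum 1 H x (chC x) :=
  ⟨rt3 1 x, fun e => h0 (by rw [← rt3_pow 1 x, e]; simp), rt3_pow 1 x,
    fun g hg => chC_spec h0 (hx g hg)⟩

theorem chC_of_kum {κ : Gam → ZMod 3} (hH : H ≤ G) (h : Kum 1 H x κ) (hg : g ∈ H) :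
    κ g = chC x g := by
  obtain ⟨r, r0, r1, r2⟩ := h
  exact (chC_eq (hH hg) r0 r1 (r2 g hg)).symm

theorem b4_chC (hH : H ≤ G) (h0 : x ≠ 0) (hx : Fx H x) : B4bG H (chC x) :=
  ⟨(kum_chC h0 hx).sm, H3.b3b_hom hH (kum_chC h0 hx)⟩

theorem chC_mul (hg : g ∈ G) (h0 : x ≠ 0) (k0 : y ≠ 0) (hx : g x = x) (hy : g y = y) :
    chC (x * y) g = chC x g + chC y g :=
  chC_eq hg (z := rt3 1 x * rt3 1 y) (fun e => mul_ne_zero h0 k0 (by
      rw [← rt3_pow 1 x, ← rt3_pow 1 y, ← mul_pow, e]; simp))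
    (by rw [mul_pow]; exact congrArg₂ _ (rt3_pow 1 x) (rt3_pow 1 y))
    (by rw [map_mul, chC_spec h0 hx, chC_spec k0 hy, zeta_chC]; ring)

theorem chC_zero (hg : g ∈ G) (hz : z ^ 3 = x) : chC x g = 0 ↔ g z = z := by
  by_cases h0 : z = 0
  · have e : rt3 1 x = 0 := pow_eq_zero_iff (n := 3 ^ 1) (by norm_num) |>.1 (by
      rw [rt3_pow, ← hz, h0]; simp)
    simp [chC, e, h0]
  refine ⟨fun h => ?_, fun h => chC_eq hg h0 hz (by rw [h]; simp)⟩
  have x0 : x ≠ 0 := hz ▸ pow_ne_zero 3 h0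
  have h1 : g (rt3 1 x) = rt3 1 x := by
    by_contra k
    rw [chC, if_neg k] at h
    split_ifs at h <;> exact absurd h (by decide)
  obtain ⟨b, hb⟩ := H3.exists_zeta_val (m := 1) (x := z / rt3 1 x) (by
    rw [div_pow, rt3_pow, pow_one, hz, div_self x0])
  rw [div_eq_iff fun e => x0 (by rw [← rt3_pow 1 x, e]; simp)] at hb
  rw [hb, map_mul, map_pow, H3.smul_zeta_one hg, h1]

theorem chC_cube (hg : g ∈ G) (hx : g x = x) : chC (x ^ 3) g = 0 := (chC_zero hg rfl).2 hx

theorem chC_one (hg : g ∈ G) : chC 1 g = 0 := (chC_zero hg (one_pow 3)).2 (map_one g)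

theorem chC_neg (hg : g ∈ G) (h0 : x ≠ 0) (hx : g x = x) : chC (-x) g = chC x g := by
  rw [← neg_one_mul, chC_mul hg (by norm_num) h0 (by simp) hx,
    (chC_zero hg (z := -1) (by norm_num)).2 (by simp), zero_add]

theorem chC_pow (hg : g ∈ G) (h0 : x ≠ 0) (hx : g x = x) (k : ℕ) :
    chC (x ^ k) g = k * chC x g := by
  induction k with
  | zero => simpa using chC_one hg
  | succ k ih =>
    rw [pow_succ, chC_mul hg (pow_ne_zero k h0) h0 (by rw [map_pow, hx]) hx, ih]
    push_cast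
    ring

theorem F3_cases (a : ZMod 3) : a = 0 ∨ a = 1 ∨ a = -1 := by revert a; decide

theorem F3_sq (h : a ≠ 0) : a * a = 1 := by revert a; decide

end

end Pool.Agent.Lib.MP_696deb_nt.EV
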