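import Pool.Agent.Lib.MP_696deb_nt.EV.P1
import Pool.Agent.Lib.MP_696deb_nt.EW.L3

/-! The character of the twisted curve. -/

set_option autoImplicit false

open scoped Classical NNReal
open Finset

namespace Pool.Agent.Lib.MP_696deb_nt.EV

variable {g h σ : Gam} {v : Plc} {a : O} {P : A}

/-- The finite part of the Hecke character. -/
structure Phi (D : ℕ) (φ : O → O) : Prop where
  gch : Gch (3 * D) φ
  per : Per (9 * D) φ
  qc : ∀ (p : ℕ) [Fact p.Prime] (z : O) (ρ : O →+* ZMod p) (χ : MulChar (ZMod p) O),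
    CL.Qc p z ρ χ → ¬ p ∣ D → φ z = star (χ D)

theorem c7_cm {m : O} (hm : m ≠ 0) (hg : g ∈ G) : m ∣ cm m g - EW.cm m g :=
  cm_dvd hm hg (EW.cm_spec hm hg (EW.m_tq hm))

theorem c7_ine {n : ℕ} (hv : v.p ≠ 3) (k : ¬ v.p ∣ n) (hσ : σ ∈ Ine v) : kk n σ = 0 :=
  (CU.kum_kk (n := n) (fun e => k (e ▸ dvd_zero _)) ⊤).unr hv (by
    rw [← Int.cast_natCast]
    exact v.V_int_eq_one.2 (mt Int.natCast_dvd_natCast.1 k)) σ ⟨trivial, hσ⟩

theorem c7_pow {x : Gam → ZMod 3} (hx : IsHom G x) (hg : g ∈ G) (n : ℕ) : x (g ^ n) = n * x g := by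
  induction n with
  | zero => rw [pow_zero, p1_one hx, Nat.cast_zero, zero_mul]
  | succ n ih => rw [pow_succ, hx _ (pow_mem hg n) g hg, ih, Nat.cast_succ, add_one_mul]

theorem c7_ne (t : Tw) : t.ρ ≠ 0 := CU.rho_ne t.ne

theorem norm_psi (hg : g ∈ G) : (psi g).norm = cyc g := by
  refine PadicInt.ext_of_toZModPow.1 fun e => ?_
  obtain ⟨h1, h2⟩ := two_pow_dvd_Ow.1 (psi_spec e hg)
  have k : ((3 : ℕ) : ℤ_[3]) ^ e ∣ (psi g).norm - (oW (cm (3 ^ e) g)).norm := by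
    rw [QuadraticAlgebra.re_sub] at h1
    rw [QuadraticAlgebra.im_sub] at h2
    rw [norm_Ow, norm_Ow, Nat.cast_ofNat]
    generalize (psi g).re = a, (psi g).im = b, (oW (cm (3 ^ e) g)).re = c,
      (oW (cm (3 ^ e) g)).im = d at h1 h2
    convert (h1.mul_right (a + c - b)).add (h2.mul_right (b + d - c)) using 1
    ring
  rw [← Ideal.mem_span_singleton, ← PadicInt.ker_toZModPow, RingHom.mem_ker, map_sub,
    sub_eq_zero, oW_norm, map_intCast] at k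
  rw [k, EW.norm_cong (c7_cm (pow_ne_zero _ (by decide)) hg), EW.link_cy e hg]
  rfl

theorem un_four (u : ZMod 3) : un u ^ 3 = 1 ∧ un u * star (un u) = 1 := by
  revert u
  decide

theorem io_un (u : ZMod 3) : io (un u) * zeta 1 ^ u.val = 1 := EW.io_un u

theorem un_zq_mul (t : Tw) (hg : g ∈ G) (h : Gam) :
    un (kk t.N (g * h)) = un (kk t.N g) * un (kk t.N h) := by
  rw [EW.kk_mul_g t.ne hg, CU.un_add]

theorem Phi.per' {D : ℕ} {φ : O → O} (hφ : Phi D φ) {m a b : O} (hm : ((9 * D : ℕ) : O) ∣ m)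
    (k : m ∣ a - b) : φ a = φ b := EW.per_dvd hφ.per (hm.trans k)

theorem Phi.unit {D : ℕ} {φ : O → O} (hφ : Phi D φ) (hD : D ≠ 0)
    (k : IsCoprime a ((3 * D : ℕ) : O)) : φ a ^ 6 = 1 ∧ φ a * star (φ a) = 1 := by
  have k0 := EW.phi_ne hφ.gch hφ.per ((k.pow_right (n := 2)).of_isCoprime_of_dvd_right
    ⟨D, by push_cast; ring⟩)
  have k1 := hφ.gch.bd a
  have k2 := EW.nm_pos k0
  exact ⟨EW.unit_six k0 k1, by rw [CL.mul_star_self, show CL.nm (φ a) = 1 by omega, Int.cast_one]⟩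

theorem Phi.link {φ : O → O} (t : Tw) (hφ : Phi t.N φ) {m : O} (h0 : m ≠ 0)
    (hm : ((9 * t.N : ℕ) : O) ∣ m) (hg : g ∈ G) : φ (cm m g) = un (kk t.N g) := by
  have hM : 0 < 9 * t.N := mul_pos (by norm_num) (Nat.pos_of_ne_zero t.ne)
  rw [EW.per_dvd hφ.per (cm_of_dvd h0 hg hm),
    EW.per_dvd hφ.per (c7_cm (Nat.cast_ne_zero.2 hM.ne') hg)]
  exact EW.link_phi t.ne hφ.gch hM hφ.per hφ.qc hg

variable (t : Tw)

theorem rho0_mul (hg : g ∈ G) (hh : h ∈ G) : rho0 t (g * h) = rho0 t g * rho0 t h := by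
  rw [rho0, rho0, rho0, un_zq_mul t hg, psi_mul hg hh, map_mul, mul_mul_mul_comm]

theorem rho0_one : rho0 t 1 = 1 := by
  rw [rho0, psi_one, (CU.kc_kk t.N ⊤).one, CU.un_zero, map_one, one_mul]

theorem sm_rho0 (e : ℕ) :
    Sm G fun g => Ideal.Quotient.mk (Ideal.span {(3 : Ow) ^ e}) (rho0 t g) :=
  ((EW.sm_kk t.N G).comp₂ (sm_psi e) fun x y =>
    Ideal.Quotient.mk _ (oW (un x)) * y).congr fun _ _ => (map_mul _ _ _).symm

theorem norm_rho0 (hg : g ∈ G) : (rho0 t g).norm = cyc g := by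
  rw [rho0, map_mul, oW_norm, (by decide : ∀ u, CL.nm (un u) = 1), norm_psi hg, Int.cast_one,
    one_mul]

theorem rho0_w (hg : g ∈ G) : wO ∣ rho0 t g - 1 := by
  obtain ⟨c, e⟩ := psi_w3 hg
  refine ⟨oW (CU.nu (kk t.N g)) * psi g + wO * c, ?_⟩
  rw [rho0, CU.un_eq, map_add, map_one, map_mul, show oW CU.th = wO from rfl]
  linear_combination e

theorem rho0_w2 (hg : g ∈ G) : wO ^ 2 ∣ rho0 t g - 1 ↔ kk t.N g = 0 := by
  have k := (psi_w3 hg).mul_left (oW (un (kk t.N g)))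
  rw [show rho0 t g - 1 = oW (un (kk t.N g)) * (psi g - 1) + oW (un (kk t.N g) - 1) by
    rw [rho0, map_sub, map_one]; ring, dvd_add_right k, wO_sq, neg_dvd, ← pow_one (3 : Ow), dvd_oW,
    pow_one, ← prim_iff]
  generalize kk t.N g = u
  unfold CL.Prim
  revert u
  decide

theorem tw_rho0 {e : ℕ} (hg : g ∈ G) (hP : (3 : O) ^ e • P = 0)
    (k : (3 : Ow) ^ e ∣ rho0 t g - oW a) : t.tw g P = a • P := by
  obtain ⟨c, e1⟩ : (3 : O) ^ e ∣ un (kk t.N g) * cm (3 ^ e) g - a := by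
    refine dvd_oW.1 ?_
    convert k.sub ((psi_spec e hg).mul_left (oW (un (kk t.N g)))) using 1
    rw [rho0, map_sub, map_mul]
    ring
  rw [tw_eq t hg, cm_spec (pow_ne_zero _ (by decide)) hg hP, smul_smul, eq_add_of_sub_eq e1,
    add_smul, mul_comm, mul_smul, hP, smul_zero, zero_add]

theorem rho0_ine (hv : v.p ≠ 3) (k : ¬ v.p ∣ t.N) (hσ : σ ∈ Ine v) : rho0 t σ = 1 := by
  rw [rho0, psi_ine hv hσ, c7_ine hv k hσ, CU.un_zero, map_one, one_mul]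

theorem rho0_sigma (r : TP) (k : ¬ 3 ∣ t.N.factorization r.v.p) :
    rho0 t r.σ = oW om ∨ rho0 t r.σ = oW (om ^ 2) := by
  have hp := r.v.prime
  have h1 : kk t.N r.σ = t.N.factorization r.v.p * kk r.v.p r.σ := by
    rw [CU.kk_fac t.ne, sum_eq_single r.v.p]
    · intro p m e
      rw [c7_ine r.odd (fun d => e ((Nat.prime_dvd_prime_iff_eq hp
        (Nat.prime_of_mem_primeFactors m)).1 d).symm) r.σ_ine, mul_zero]
    · intro m
      rw [← Nat.support_factorization, Finsupp.notMem_support_iff] at m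
      rw [m, Nat.cast_zero, zero_mul]
  have h2 : kk r.v.p r.σ ≠ 0 := fun e => r.tm.gen.2 _ (CU.rho_cube _) (by
    rw [CU.kk_spec, e, ZMod.val_zero, pow_zero, mul_one])
  have h3 : kk t.N r.σ ≠ 0 := h1 ▸ mul_ne_zero (mt (ZMod.natCast_eq_zero_iff _ _).1 k) h2
  rw [rho0, psi_ine r.odd r.σ_ine, mul_one]
  exact ((by decide : ∀ u, u ≠ 0 → un u = om ∨ un u = om ^ 2) _ h3).imp (congrArg oW)
    (congrArg oW)

/-- The auxiliary prime. -/
theorem exists_alpha {D : ℕ} (hD : D ≠ 0) : ∃ α : Bool → TP, (α false).π ≠ (α true).π ∧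
    (∀ b, nm (α b).π % 9 ≠ 1 ∧ ¬ (α b).π ∣ (D : O) ∧ ¬ (α b).π ∣ 2) ∧ chC (io w) (α true).φ = 0 := by
  obtain ⟨U, u1, u2⟩ := nice_hom (m := 1) (p1_b4 p1_ii).1 (p1_b4 p1_ii).2
  obtain ⟨U', u3, u4⟩ := nice_hom (m := 1) (p1_b4 p1_w).1 (p1_b4 p1_w).2
  obtain ⟨r, n, h1, h2, h3, h4⟩ := cheb (u1.inf u3) (gw_mem 0) (2 * D).primeFactors
  have hp := r.v.prime
  have key : ∀ {x : Gam → ZMod 3}, B4bG G x → x (r.φ⁻¹ * gw 0 ^ n) = 0 → x r.φ = n * x (gw 0) :=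
    fun {x} hx e => by
    have k := hx.2 _ r.φ_mem _ (u1.le h4.1)
    rw [mul_inv_cancel_left, e, add_zero, c7_pow hx.2 (gw_mem 0)] at k
    exact k.symm
  have a1 : nm r.π % 9 ≠ 1 := fun e => by
    have k := (chC_ii_frob r).2 e
    rw [key (p1_b4 p1_ii) (u2 _ h4.1), gw_spec.2.1, mul_one, ZMod.natCast_eq_zero_iff] at k
    exact h1 k
  have a2 : chC (io w) r.φ = 0 := by rw [key (p1_b4 p1_w) (u4 _ h4.2), gw_spec.2.2.1, mul_zero]
  have z2 : CL.nm r.π = r.v.p := by rw [← h3, nm, Int.natAbs_of_nonneg (CL.nm_nonneg _)]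
  have z4 : CL.nm (star r.π) = r.v.p := (CL.nm_star _).trans z2
  obtain ⟨r', hr'⟩ := exists_tp (CL.f3_prime hp (h3 ▸ r.nm_mod) z4) (EW.prim_star r.prim)
  have n0 : ∀ (y : O) (c : ℕ), CL.nm y = r.v.p → y ∣ c → r.v.p ∣ c := by
    rintro y c e ⟨d, k⟩
    have k1 : (r.v.p : ℤ) ∣ (c : ℤ) ^ 2 := ⟨CL.nm d, by rw [← CL.nm_nat, k, CL.nm_mul, e]⟩
    exact hp.dvd_of_dvd_pow (n := 2) (by exact_mod_cast k1)
  have n1 : ∀ y : O, CL.nm y = r.v.p → nm y % 9 ≠ 1 ∧ ¬ y ∣ (D : O) ∧ ¬ y ∣ 2 := fun y e => by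
    have m : ¬ r.v.p ∣ 2 * D := fun k => h2 (Nat.mem_primeFactors.2 ⟨hp, k, by positivity⟩)
    exact ⟨by rwa [nm, e, Int.natAbs_natCast, ← h3], fun k => m ((n0 y D e k).mul_left 2),
      fun k => m ((n0 y 2 e k).mul_right D)⟩
  refine ⟨fun b => bif b then r else r', fun e => ?_, ?_, a2⟩
  · have e1 : star r.π = r.π := hr' ▸ e
    have e2 := congrArg QuadraticAlgebra.im e1
    rw [QuadraticAlgebra.im_star] at e2
    rw [CL.nm, show r.π.im = 0 by omega] at z2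
    exact (Nat.prime_iff_prime_int.1 hp).irreducible.not_isSquare ⟨r.π.re, by rw [← z2]; ring⟩
  · rintro (_ | _)
    exacts [n1 _ (hr' ▸ z4), n1 _ z2]

end Pool.Agent.Lib.MP_696deb_nt.EV

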