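import Pool.Agent.Lib.MP_696deb_nt.EV.C4

/-! Local points at three. -/

set_option autoImplicit false

open scoped Classical NNReal
open Finset

namespace Pool.Agent.Lib.MP_696deb_nt.EV

variable {v : Plc} {P Q : A}

theorem ind_near (hP : P ∉ Kr v) (hQ : Q ∉ Kr v) (hx : v.V (xco P - xco Q) < v.V 81)
    (hy : v.V (yco P - yco Q) < v.V 81) : P - Q ∈ Kr v := by
  by_contra h
  have n0 : ∀ {S : A}, S ∉ Kr v → S ≠ 0 := fun k e => k (e ▸ zero_mem _)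
  rw [sub_eq_add_neg] at h
  obtain ⟨l, n, h1, h2, -, e1, e2, -⟩ := EW.line (n0 hP) (neg_ne_zero.2 (n0 hQ)) (n0 h)
  rw [xco_neg] at h2 e1 e2
  rw [EW.co_neg, EW.yh_eq (n0 hQ)] at h2
  rw [EW.yh_eq (n0 hP)] at h1
  have a1 := EW.V_x hP
  have a2 := EW.V_x hQ
  have a3 : v.V l ≤ 1 := (pow_le_one_iff_of_nonneg zero_le two_ne_zero).1 (by
    rw [← map_pow, ← e1]
    exact v.V.map_add_le (v.V.map_add_le a1 a2) (EW.V_x h))
  have m : ∀ {a b : Qbar}, v.V a ≤ 1 → v.V b < v.V 81 → v.V (a * b) < v.V 81 := fun h k => by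
    rw [map_mul]
    exact (mul_le_of_le_one_left' h).trans_lt k
  have i : ∀ a : ℤ, v.V a ≤ 1 := v.V_int_le
  have b1 : v.V (EW.y2 P) < v.V 81 := by
    convert v.V.map_add_lt (m a3 hx) hy using 2
    linear_combination EW.y2_eq (n0 hP) + h1 - h2
  have b2 : v.V (3 * xco P ^ 2) < v.V 81 := by
    convert v.V.map_add_lt (m a3 hy) (m (v.V.map_add_le (v.V.map_add_le a1 a1) a2) hx) using 2
    linear_combination (xco P + xco Q) * e1 - e2 - l * (h1 + h2)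
  refine lt_irrefl (v.V 81) ?_
  convert v.V.map_sub_lt (m (a := 4 * xco P) ?_ b2) (m (a := 3 * EW.y2 P) ?_ b1) using 2
  · linear_combination 3 * EW.y2_sq (n0 hP)
  · rw [map_mul]
    exact mul_le_one' (by simpa using i 4) a1
  · rw [map_mul]
    exact mul_le_one' (EW.V_three_le v) (EW.V_y2 hP)

theorem ind_q : 0 < w3.V (io w) ∧ w3.V (io w) < 1 ∧ w3.V (io w) ^ 2 = w3.V 3 :=
  ⟨g1_w_pos, g1_w_lt, V_w3.trans (by simpa [w3_p] using w3.hV.symm)⟩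

variable (t : Tw)

theorem ind_rho : t.ρ ≠ 0 ∧ w3.V t.ρ ≤ 1 :=
  ⟨CU.rho_ne t.ne, (pow_le_one_iff_of_nonneg zero_le three_ne_zero).1
    (by rw [← map_pow, t.pw, ← Int.cast_natCast]; exact w3.V_int_le _)⟩

theorem ind_co {g : Gam} (hg : g ∈ G) (P : A) : xco (t.tw g P) * t.ρ ^ 2 = g (xco P * t.ρ ^ 2) ∧
    yco (t.tw g P) * t.ρ ^ 0 = g (yco P * t.ρ ^ 0) := by
  have k : ∀ (j : ℕ) (P : A), xco (om ^ j • P) = (zeta 1 ^ j) ^ 2 * xco P ∧
      yco (om ^ j • P) = yco P := fun j P => by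
    induction j with
    | zero => simp
    | succ j ih =>
      rw [pow_succ', mul_smul, EW.x_om, EW.y_om, ih.1]
      exact ⟨by ring, ih.2⟩
  rw [tw_eq t hg, CU.un, (k _ _).1, (k _ _).2, xco_act, yco_act, pow_zero, mul_one, mul_one,
    map_mul, map_pow, Tw.ρ, CU.kk_spec]
  exact ⟨by ring, rfl⟩

/-- A local point of infinite order. -/
theorem exists_Q0 : ∃ Q ∈ Kr w3, Q ≠ 0 ∧ (∀ g ∈ Hw, t.tw g Q = Q) ∧
    w3.V (zc Q) ^ 2 < w3.V (io w) := by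
  obtain ⟨q0, q1, q2⟩ := ind_q
  obtain ⟨r0, r1⟩ := ind_rho t
  have t1 := V_three_lt
  have t4 : w3.V 4 = 1 := by
    rw [show (4 : Qbar) = 2 ^ 2 by norm_num, map_pow, EW.V_two w3_two, one_pow]
  have N0 : (t.N : Qbar) ≠ 0 := Nat.cast_ne_zero.2 t.ne
  obtain ⟨s, s1, s2, -⟩ := B2.exists_sqrt (D := Hw) (w := w3) inf_le_right
    (a := 1 - 19683 * t.N ^ 2 / 4) (fun g _ => by simp [map_ofNat]) (by
      rw [sub_sub_cancel_left, w3.V.map_neg, map_div₀, t4, div_one, show (19683 * t.N ^ 2 : Qbar) =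
        3 * ((6561 * t.N ^ 2 : ℤ) : Qbar) by push_cast; ring, map_mul]
      exact mul_lt_one_of_lt_of_le t1 (w3.V_int_le _))
  have k := MP_23455a_nt.ns_iff.2 (show (s / (27 * t.N) - 1 / 2) ^ 2 + (s / (27 * t.N) - 1 / 2) =
      (9 * t.ρ ^ 2)⁻¹ ^ 3 - 7 by
    rw [inv_pow, mul_pow, pow_right_comm, t.pw]
    field_simp
    linear_combination 2916 * s2)
  have a1 : w3.V (9 * t.ρ ^ 2) ≤ w3.V 3 ^ 2 := by
    rw [map_mul, show (9 : Qbar) = 3 ^ 2 by norm_num, map_pow, map_pow]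
    exact mul_le_of_le_one_right' (pow_le_one' r1 2)
  have a0 := B2.b3a_pos w3 (x := 9 * t.ρ ^ 2) (mul_ne_zero (by norm_num) (pow_ne_zero 2 r0))
  have a2 : 1 < w3.V (9 * t.ρ ^ 2)⁻¹ := by
    rw [map_inv₀]
    exact (one_lt_inv₀ a0).2 (a1.trans_lt (pow_lt_one' t1 two_ne_zero))
  have p0 : (.some _ _ k : A) ≠ 0 := WeierstrassCurve.Affine.Point.some_ne_zero _
  refine ⟨.some _ _ k, EW.mem_Kr.2 (.inr a2), p0, fun g hg => ?_, ?_⟩
  · obtain ⟨h1, h2⟩ := ind_co t hg.1 (.some _ _ k)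
    have e : (9 * t.ρ ^ 2)⁻¹ * t.ρ ^ 2 = 9⁻¹ := by field_simp
    rw [xco_some, e, map_inv₀, map_ofNat, ← e] at h1
    have h3 := mul_right_cancel₀ (pow_ne_zero 2 r0) h1
    refine H3.rd_ext (fun e => ?_) p0 h3 ?_
    · rw [e, xco_zero] at h3
      simp [← h3] at a2
    · simpa [s1 g hg, map_ofNat] using h2
  · have h := EW.V_zc w3_two (P := .some _ _ k) a2
    rw [xco_some, map_inv₀, mul_inv_eq_one₀ a0.ne'] at h
    rw [h]
    refine a1.trans_lt ?_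
    rw [← q2, ← pow_mul]
    exact pow_lt_self_of_lt_one₀ q0 q1 (by norm_num)

/-- The formal group has finite index in the group of local points. -/
theorem exists_idx : ∃ N : ℕ, 0 < N ∧ ∀ R : A, (∀ g ∈ Hw, t.tw g R = R) → (N : O) • R ∈ Kr w3 := by
  obtain ⟨q0, q1, -⟩ := ind_q
  obtain ⟨r0, r1⟩ := ind_rho t
  have r2 := B2.b3a_pos w3 r0
  obtain ⟨n, hn⟩ := (B2.b3a_small 1 q1
    (mul_pos (B2.b3a_pos w3 (x := 81) (by norm_num)) (pow_pos r2 2))).exists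
  rw [one_mul] at hn
  obtain ⟨S, hS, -⟩ := EW.exists_rep (n := w ^ n) (pow_ne_zero _ (by decide))
  have ap : ∀ x : Qbar, ∃ a, Fx Hw x → w3.V x ≤ 1 → a ∈ S ∧ w3.V (x - io a) ≤ w3.V (io w) ^ n :=
    fun x => by
      by_cases h : Fx Hw x ∧ w3.V x ≤ 1
      · obtain ⟨a, ha⟩ := approx_w3 h.1 h.2 n
        obtain ⟨r, hr, k⟩ := hS.ex a
        refine ⟨r, fun _ _ => ⟨hr, ?_⟩⟩
        convert w3.V.map_add_le ha (V_w3_dvd.2 k) using 2
        rw [map_sub, sub_add_sub_cancel]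
      · exact ⟨0, fun h1 h2 => absurd ⟨h1, h2⟩ h⟩
  choose f hf using ap
  refine ⟨((S ×ˢ S).card + 1).factorial, Nat.factorial_pos _, fun R hR => by_contra fun h => ?_⟩
  have k : ∀ j : ℕ, 0 < j → j ≤ (S ×ˢ S).card + 1 → (j : O) • R ∉ Kr w3 := fun j j0 j1 e => h (by
    obtain ⟨c, hc⟩ := Nat.dvd_factorial j0 j1
    rw [hc, mul_comm, Nat.cast_mul, mul_smul]
    exact (Kr w3).smul_mem _ e)
  have fx : ∀ j ∈ Icc 1 ((S ×ˢ S).card + 1),
      (Fx Hw (xco ((j : O) • R) * t.ρ ^ 2) ∧ w3.V (xco ((j : O) • R) * t.ρ ^ 2) ≤ 1) ∧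
        Fx Hw (yco ((j : O) • R) * t.ρ ^ 0) ∧ w3.V (yco ((j : O) • R) * t.ρ ^ 0) ≤ 1 := fun j hj => by
    have h1 := k j (mem_Icc.1 hj).1 (mem_Icc.1 hj).2
    refine ⟨⟨fun g hg => ?_, ?_⟩, fun g hg => ?_, ?_⟩
    · rw [← (ind_co t hg.1 _).1, tw_smul t hg.1, hR g hg]
    · rw [map_mul, map_pow]
      exact mul_le_one' (EW.V_x h1) (pow_le_one' r1 _)
    · rw [← (ind_co t hg.1 _).2, tw_smul t hg.1, hR g hg]
    · rw [map_mul, map_pow]
      exact mul_le_one' (EW.V_y h1) (pow_le_one' r1 _)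
  have cl : ∀ {x y : Qbar} {e : ℕ}, e ≤ 2 → Fx Hw (x * t.ρ ^ e) ∧ w3.V (x * t.ρ ^ e) ≤ 1 →
      Fx Hw (y * t.ρ ^ e) ∧ w3.V (y * t.ρ ^ e) ≤ 1 → f (x * t.ρ ^ e) = f (y * t.ρ ^ e) →
      w3.V (x - y) < w3.V 81 := fun {x y e} he hx hy h => by
    have := w3.V.map_sub_le (hf _ hx.1 hx.2).2 (hf _ hy.1 hy.2).2
    rw [h, sub_sub_sub_cancel_right, ← sub_mul, map_mul, map_pow] at this
    exact lt_of_mul_lt_mul_right ((this.trans_lt hn).trans_le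
      (mul_le_mul_right (pow_le_pow_of_le_one zero_le r1 he) _)) zero_le
  have key : ∀ i ∈ Icc 1 ((S ×ˢ S).card + 1), ∀ j ∈ Icc 1 ((S ×ˢ S).card + 1), i < j →
      (f (xco ((j : O) • R) * t.ρ ^ 2), f (yco ((j : O) • R) * t.ρ ^ 0)) ≠
        (f (xco ((i : O) • R) * t.ρ ^ 2), f (yco ((i : O) • R) * t.ρ ^ 0)) := fun i hi j hj h e => by
    have := ind_near (k j (mem_Icc.1 hj).1 (mem_Icc.1 hj).2) (k i (mem_Icc.1 hi).1 (mem_Icc.1 hi).2)
      (cl le_rfl (fx j hj).1 (fx i hi).1 (congrArg Prod.fst e))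
      (cl (by norm_num) (fx j hj).2 (fx i hi).2 (congrArg Prod.snd e))
    rw [← sub_smul, ← Nat.cast_sub h.le] at this
    exact k _ (Nat.sub_pos_of_lt h) ((Nat.sub_le _ _).trans (mem_Icc.1 hj).2) this
  obtain ⟨i, hi, j, hj, h1, h2⟩ := exists_ne_map_eq_of_card_lt_of_maps_to
    (s := Icc 1 ((S ×ˢ S).card + 1)) (t := S ×ˢ S) (by simp)
    (f := fun j => (f (xco ((j : O) • R) * t.ρ ^ 2), f (yco ((j : O) • R) * t.ρ ^ 0))) fun j hj =>
      mem_product.2 ⟨(hf _ (fx j hj).1.1 (fx j hj).1.2).1, (hf _ (fx j hj).2.1 (fx j hj).2.2).1⟩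
  rcases h1.lt_or_gt with h | h
  · exact key i hi j hj h h2.symm
  · exact key j hj i hi h h2

theorem ind_small (h : P ∈ Kr w3) (k : ∀ g ∈ Hw, t.tw g P = P) (j : ℕ) :
    w3.V (zc ((3 : O) ^ (j + 1) • P)) ≤ w3.V 3 ^ j := by
  obtain ⟨q0, q1, q2⟩ := ind_q
  have r0 := (ind_rho t).1
  have i2 : io 3 = 3 := map_ofNat io 3
  have a1 : w3.V (zc P) ^ 3 ≤ w3.V (io w) ^ 1 := by
    by_cases z0 : zc P = 0
    · simp [z0]
    obtain ⟨n, hn⟩ := V_fx_w3 (x := zc P ^ 3) (fun g hg => by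
      have := congrArg (· ^ 3) (zc_tw t hg.1 P)
      simp only [k g hg, map_mul, mul_pow, map_inv₀, inv_pow, ← map_pow, t.pw, map_natCast] at this
      exact (mul_right_cancel₀ (inv_ne_zero (Nat.cast_ne_zero.2 t.ne)) this).symm)
      (pow_ne_zero 3 z0)
    have h1 := pow_lt_one' (EW.V_zc_lt w3_two h) three_ne_zero
    rw [← map_pow, hn] at h1 ⊢
    rw [← zpow_natCast]
    exact zpow_le_zpow_right_of_le_one₀ q0 q1.le ((zpow_lt_one_iff_right_of_lt_one₀ q0 q1).1 h1)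
  have a2 : w3.V (zc ((3 : O) • P)) ^ 2 ≤ w3.V 3 := by
    rw [← q2, ← sub_add_cancel (zc ((3 : O) • P)) (io 3 * zc P)]
    refine pow_le_pow_left' (w3.V.map_add_le ((EW.zc_smul w3_two h 3).2.trans
      (a1.trans_eq (pow_one _))) ?_) 2
    rw [map_mul, i2, ← q2, sq, mul_assoc]
    exact mul_le_of_le_one_right' (mul_le_one' q1.le (EW.V_zc_lt w3_two h).le)
  have h2 := (Kr w3).smul_mem 3 h
  rw [pow_succ, mul_smul]
  generalize (3 : O) • P = Q at a2 h2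
  induction j with
  | zero => simpa using (EW.V_zc_lt w3_two h2).le
  | succ j ih =>
    rw [pow_succ', mul_smul, pow_succ']
    refine (EW.V_zc_smul_le w3_two ((Kr w3).smul_mem _ h2) ?_).trans
      (by rw [i2]; exact mul_le_mul_right ih _)
    exact (pow_le_pow_left' (EW.zc_smul w3_two h2 _).1 2).trans (by rwa [i2])

/-- The local point is not divisible. -/
theorem ind_dvd (h : Q ∈ Kr w3) (h0 : Q ≠ 0) (hz : w3.V (zc Q) ^ 2 < w3.V (io w)) :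
    ∃ c : ℕ, ∀ (j : ℕ) (d : O) (R : A), (∀ g ∈ Hw, t.tw g R = R) →
      d • Q = (3 : O) ^ (j + c) • R → 3 ^ j ∣ d := by
  obtain ⟨q0, q1, q2⟩ := ind_q
  obtain ⟨N, N0, hN⟩ := exists_idx t
  have p0 : 0 < w3.V (io N) * w3.V (zc Q) := mul_pos
    (B2.b3a_pos _ (EW.io_ne (Nat.cast_ne_zero.2 N0.ne')))
    (B2.b3a_pos _ (mt (EW.zc_eq_zero w3_two h) h0))
  obtain ⟨c, hc⟩ := (B2.b3a_small 1 V_three_lt p0).exists
  refine ⟨c + 1, fun j d R hR e => ?_⟩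
  have k := ind_small t (hN R hR) (fun g hg => by rw [tw_smul t hg.1, hR g hg]) (j + c)
  rw [smul_comm, add_assoc, ← e, smul_smul, zc_exact h hz, map_mul, map_mul, pow_add,
    mul_right_comm, mul_comm] at k
  have k2 := le_of_mul_le_mul_right (k.trans (mul_le_mul_right (one_mul (w3.V 3 ^ c) ▸ hc.le) _)) p0
  rw [← q2, ← pow_mul, V_w3_dvd, pow_mul] at k2
  exact (pow_dvd_pow_of_dvd ⟨-1, by decide⟩ j).trans k2

end Pool.Agent.Lib.MP_696deb_nt.EV
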