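import Pool.Agent.Lib.MP_696deb_nt.EV.C5
import Pool.Agent.Lib.MP_696deb_nt.EW.K6
import Pool.Agent.Lib.MP_23455a_nt.H3.GWg

/-! Cubic characters with restricted ramification. -/

set_option autoImplicit false

open scoped Classical NNReal
open Finset

namespace Pool.Agent.Lib.MP_696deb_nt.EV

variable {ι : Type} {t : ι → TP}

theorem p1_ii : (om : O) ≠ 0 := by decide

theorem p1_w : (w : O) ≠ 0 := by decide

theorem p1_V_ii (v : Plc) : v.V (io om) = 1 := by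
  rw [EW.io_om, map_pow, EW.V_zeta, one_pow]

theorem p1_V_sq (v : Plc) : v.V (io w) ^ 2 = v.V 3 := by
  rw [← map_pow, ← map_pow, CU.th_sq, map_neg, v.V.map_neg, map_ofNat]

theorem p1_V_w {v : Plc} (hv : v.p ≠ 3) : v.V (io w) = 1 := EW.V_w hv

theorem p1_lt : w3.V (io w) < 1 := g1_w_lt

theorem p1_odd {x : Qbar} (h : w3.V x ^ 3 = w3.V (io w)) : ∃ σ ∈ G ⊓ Ine w3, σ x ≠ x := by
  by_contra! k
  have h0 := B2.b3a_pos w3 (EW.io_ne p1_w)
  have x0 : x ≠ 0 := by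
    rintro rfl
    rw [map_zero, zero_pow three_ne_zero] at h
    exact h0.ne h
  obtain ⟨y, hy, e⟩ := B2.b3a_unr op_G (w := w3) k x0
  obtain ⟨n, hn⟩ := V_fx_w3 hy fun e' => (B2.b3a_pos w3 x0).ne (by rw [← e, e', map_zero])
  rw [← e, hn, ← zpow_natCast, ← zpow_mul] at h
  have := zpow_right_injective₀ h0 p1_lt.ne (h.trans (zpow_one _).symm)
  omega

theorem p1_mul {a b : O} (ha : a ≠ 0) (hb : b ≠ 0) {g : Gam} (hg : g ∈ G) :
    chC (io (a * b)) g = chC (io a) g + chC (io b) g := by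
  rw [map_mul, chC_mul hg (EW.io_ne ha) (EW.io_ne hb) (io_fx a g hg) (io_fx b g hg)]

theorem p1_b4 {a : O} (ha : a ≠ 0) : B4bG G (chC (io a)) := b4_chC le_rfl (EW.io_ne ha) (io_fx a)

theorem p1_one {D : Subgroup Gam} {χ : Gam → ZMod 3} (h : IsHom D χ) : χ 1 = 0 := by
  simpa using h 1 D.one_mem 1 D.one_mem

theorem p1_nat {D : Subgroup Gam} {χ : Gam → ZMod 3} (h : IsHom D χ) {g : Gam} (hg : g ∈ D)
    (n : ℕ) : χ (g ^ n) = n * χ g := by
  induction n with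
  | zero => rw [pow_zero, p1_one h, Nat.cast_zero, zero_mul]
  | succ n ih =>
    rw [pow_succ, h _ (pow_mem hg n) _ hg, ih]
    push_cast
    ring

theorem p1_val {D : Subgroup Gam} {χ : Gam → ZMod 3} (h : IsHom D χ) {g : Gam} (hg : g ∈ D)
    (a : ZMod 3) : χ (g ^ a.val) = a * χ g := by
  rw [p1_nat h hg, ZMod.natCast_zmod_val]

theorem p1_norm {χ : Gam → ZMod 3} (h : IsHom G χ) {σ : Gam} (h1 : σ ∈ G ⊓ Ine w3)
    (h2 : χ σ ≠ 0) : ∃ σ ∈ G ⊓ Ine w3, χ σ = 1 :=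
  ⟨_, pow_mem h1 (χ σ).val, by rw [p1_val h h1.1, F3_sq h2]⟩

theorem p1_ram {a : O} (h : w3.V (io a) = w3.V (io w)) : ∃ σ ∈ G ⊓ Ine w3, chC (io a) σ = 1 := by
  have r : rt3 1 (io a) ^ 3 = io a := rt3_pow 1 _
  obtain ⟨σ, h1, h2⟩ := p1_odd (x := rt3 1 (io a)) (by rw [← map_pow, r, h])
  refine p1_norm (p1_b4 fun e => ?_).2 h1 (mt (chC_zero h1.1 r).1 h2)
  rw [e, map_zero, map_zero] at h
  exact (B2.b3a_pos w3 (EW.io_ne p1_w)).ne h

theorem p1_ram_ii : ∃ σ ∈ G ⊓ Ine w3, chC (io om) σ = 1 := by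
  have h0 := B2.b3a_pos w3 (EW.io_ne p1_w)
  have r : rt3 1 (io om) ^ 3 = io om := rt3_pow 1 _
  generalize rt3 1 (io om) = x at r
  have v1 : w3.V x = 1 := (pow_eq_one_iff_of_nonneg zero_le three_ne_zero).1 (by
    rw [← map_pow, r, p1_V_ii])
  have h1 : w3.V (io om - 1) = w3.V (io w) := by
    rw [← map_one io, ← map_sub, show om - 1 = -(om * om * w) by decide, map_neg, w3.V.map_neg,
      map_mul, map_mul, map_mul, map_mul, p1_V_ii, one_mul, one_mul]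
  have h2 : w3.V (3 * x * (1 - x)) < w3.V (io om - 1) := by
    rw [h1, map_mul, map_mul, v1, mul_one, ← p1_V_sq]
    exact (mul_le_of_le_one_right' (w3.V.map_sub_le w3.V.map_one.le v1.le)).trans_lt
      (pow_lt_self_of_lt_one₀ h0 p1_lt one_lt_two)
  obtain ⟨σ, h3, h4⟩ := p1_odd (x := x - 1) (by
    rw [← map_pow, ← h1, ← w3.V.map_add_eq_of_lt_left h2, ← r]
    congr 1
    ring)
  exact p1_norm (p1_b4 p1_ii).2 h3 fun k => h4 (by
    rw [map_sub, (chC_zero h3.1 r).1 k, map_one])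

theorem p1_pow (k : ℕ) {g : Gam} (hg : g ∈ G) : chC (io (om ^ k)) g = k * chC (io om) g := by
  rw [map_pow, chC_pow hg (EW.io_ne p1_ii) (io_fx _ g hg)]

theorem gw_spec : IsGw gw := by
  have key : ∃ x, IsGw x := by
    have mi := (p1_b4 p1_ii).2
    have mw := (p1_b4 p1_w).2
    obtain ⟨b, hb, b1⟩ := p1_ram (a := w) rfl
    obtain ⟨s, hs⟩ : ∃ s, chC (io om) b = s := ⟨_, rfl⟩
    obtain ⟨c, hc, c1⟩ : ∃ c ∈ G ⊓ Ine w3, chC (io om) c + -s * chC (io w) c = 1 := by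
      by_cases s0 : s = 0
      · simpa only [s0, neg_zero, zero_mul, add_zero] using p1_ram_ii
      obtain ⟨c, hc, c1⟩ := p1_ram (a := om ^ (-s).val * w) (by
        rw [map_mul, map_mul, map_pow, map_pow, p1_V_ii, one_pow, one_mul])
      rw [p1_mul (pow_ne_zero _ p1_ii) p1_w hc.1, p1_pow _ hc.1, ZMod.natCast_zmod_val] at c1
      refine p1_norm ((p1_b4 p1_ii).add ((p1_b4 p1_w).smul (-s))).2 hc fun e => s0 ?_
      linear_combination -s * c1 - e - chC (io om) c * F3_sq s0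
    have h0 := mul_mem hc (pow_mem hb (-chC (io w) c).val)
    have e1 : chC (io om) (c * b ^ (-chC (io w) c).val) = 1 := by
      rw [mi _ hc.1 _ (pow_mem hb.1 _), p1_val mi hb.1, hs, ← c1]
      ring
    have e2 : chC (io w) (c * b ^ (-chC (io w) c).val) = 0 := by
      rw [mw _ hc.1 _ (pow_mem hb.1 _), p1_val mw hb.1, b1]
      ring
    generalize c * b ^ (-chC (io w) c).val = x at h0 e1 e2
    have h1 := mul_mem hb (pow_mem h0 (-s).val)
    refine ⟨![x, b * x ^ (-s).val], fun j => by fin_cases j <;> assumption, e1, e2, ?_, ?_⟩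
    · change chC _ (b * _) = _
      rw [mi _ hb.1 _ (pow_mem h0.1 _), p1_val mi h0.1, hs, e1]
      ring
    · change chC _ (b * _) = _
      rw [mw _ hb.1 _ (pow_mem h0.1 _), p1_val mw h0.1, b1, e2]
      ring
  rw [gw, dif_pos key]
  exact key.choose_spec

theorem ew_spec : IsEw ew := by
  have key : ∃ x, IsEw x := by
    by_contra k
    have st : ∀ a ∈ Hw, ∀ b ∈ Hw, ∀ c ∈ Hw, ∀ d ∈ Hw, ∃ χ, B4bG Hw χ ∧ χ a = 0 ∧ χ b = 0 ∧
        χ c = 0 ∧ χ d = 0 ∧ ∃ g ∈ Hw, χ g ≠ 0 := fun a ha b hb c hc d hd => by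
      by_contra! e
      exact k ⟨![a, b, c, d], fun j => by fin_cases j <;> assumption,
        fun χ h1 h2 => e χ h1 (h2 0) (h2 1) (h2 2) (h2 3)⟩
    have o := Hw.one_mem
    obtain ⟨x0, a0, -, -, -, -, g0, b0, c0⟩ := st 1 o 1 o 1 o 1 o
    obtain ⟨x1, a1, d10, -, -, -, g1, b1, c1⟩ := st g0 b0 1 o 1 o 1 o
    obtain ⟨x2, a2, d20, d21, -, -, g2, b2, c2⟩ := st g0 b0 g1 b1 1 o 1 o
    obtain ⟨x3, a3, d30, d31, d32, -, g3, b3, c3⟩ := st g0 b0 g1 b1 g2 b2 1 o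
    obtain ⟨x4, a4, d40, d41, d42, d43, g4, b4, c4⟩ := st g0 b0 g1 b1 g2 b2 g3 b3
    let f : (Fin 5 → ZMod 3) → H3.Z1 Hw H3.tr := fun d =>
      ⟨H3.rs Hw fun g => d 0 * x0 g + d 1 * x1 g + d 2 * x2 g + d 3 * x3 g + d 4 * x4 g,
        H3.rs_mem_Z1 (H3.coc_tr.2 (((((a0.smul _).add (a1.smul _)).add (a2.smul _)).add
          (a3.smul _)).add (a4.smul _)))⟩
    have inj : Function.Injective f := fun d d' e => by
      have h : ∀ g ∈ Hw, d 0 * x0 g + d 1 * x1 g + d 2 * x2 g + d 3 * x3 g + d 4 * x4 g =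
          d' 0 * x0 g + d' 1 * x1 g + d' 2 * x2 g + d' 3 * x3 g + d' 4 * x4 g := fun g hg =>
        (H3.rs_of_mem hg _).symm.trans
          ((congrFun (congrArg Subtype.val e) g).trans (H3.rs_of_mem hg _))
      have e0 : d 0 = d' 0 := by simpa [d10, d20, d30, d40, c0] using h g0 b0
      have e1 : d 1 = d' 1 := by simpa [e0, d21, d31, d41, c1] using h g1 b1
      have e2 : d 2 = d' 2 := by simpa [e0, e1, d32, d42, c2] using h g2 b2
      have e3 : d 3 = d' 3 := by simpa [e0, e1, e2, d43, c3] using h g3 b3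
      have e4 : d 4 = d' 4 := by simpa [e0, e1, e2, e3, c4] using h g4 b4
      funext i
      fin_cases i <;> assumption
    have := H3.finite_Z1_tr (w := w3) op_G inf_le_left
    have h := Nat.card_le_card_of_injective f inj
    rw [H3.card_Z1_tr op_G inf_le_left, H3.ldeg, if_pos w3_p, relIndex_w3, Nat.card_fun,
      Nat.card_zmod, Nat.card_eq_fintype_card, Fintype.card_fin] at h
    omega
  rw [ew, dif_pos key]
  exact key.choose_spec

theorem gw_mem (j : Fin 2) : gw j ∈ G := (gw_spec.1 j).1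

theorem gw_Hw (j : Fin 2) : gw j ∈ Hw := ⟨(gw_spec.1 j).1, B2.Ine_le _ (gw_spec.1 j).2⟩

theorem ew_mem (j : Fin 4) : ew j ∈ Hw := ew_spec.1 j

theorem gen_mem (t : ι → TP) (j : ι ⊕ Fin 2) : gen t j ∈ G := by
  rcases j with i | j
  exacts [(t i).σ_mem, gw_mem j]

theorem cyc_gw : cyc (gw 0) ≠ 1 := by
  intro h
  have k := (chC_ii_cy (gw_mem 0)).2 (by rw [cy, h, map_one])
  rw [gw_spec.2.1] at k
  exact one_ne_zero k

theorem off_or (t : ι → TP) {v : Plc} (hv : v.p ≠ 3) :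
    Off t v ∨ ∃ i, ∃ g ∈ G, g • (t i).v = v := by
  by_cases h : ∀ i, v.V (io (t i).π) = 1
  · exact .inl ⟨hv, h⟩
  · obtain ⟨i, h⟩ := not_forall.1 h
    exact .inr ⟨i, (t i).conj ((EW.V_io_le v _).lt_of_ne h)⟩

theorem p1_int {x : Qbar} (h0 : x ≠ 0) (hx : Fx G x) :
    ∃ n : O, n ≠ 0 ∧ ∀ g ∈ G, chC x g = chC (io n) g := by
  obtain ⟨a, b, hb, e⟩ := fx_G hx
  have b0 := EW.io_ne hb
  refine ⟨a * b ^ 2, mul_ne_zero (fun k => mul_ne_zero h0 b0 (by rw [e, k, map_zero]))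
    (pow_ne_zero 2 hb), fun g hg => ?_⟩
  rw [map_mul, map_pow, ← e, mul_assoc, ← pow_succ', chC_mul hg h0 (pow_ne_zero _ b0) (hx g hg)
    (by rw [map_pow, io_fx b g hg]), chC_cube hg (io_fx b g hg), add_zero]

theorem p1_unit {u : O} (h : IsUnit u) :
    ∃ a : ZMod 3, ∀ g ∈ G, chC (io u) g = a * chC (io om) g := by
  obtain ⟨v, hv⟩ := h.exists_right_inv
  have h1 : CU.red v ≠ 0 := fun e => by
    have := map_mul CU.red u v
    rw [hv, e, mul_zero, map_one] at this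
    exact one_ne_zero this
  obtain ⟨k, hk⟩ := exists_prim h1
  have h2 : IsUnit ((-om) ^ k * v) := (EW.isUnit_om.neg.pow k).mul
    (IsUnit.of_mul_eq_one u (by rw [mul_comm, hv]))
  have h3 := prim_assoc hk (b := 1) (prim_iff.2 (by simp)) (associated_one_iff_isUnit.2 h2)
  refine ⟨k, fun g hg => ?_⟩
  rw [show u = (-om) ^ k by linear_combination (-om) ^ k * hv - u * h3, map_pow, map_neg,
    chC_pow hg (neg_ne_zero.2 (EW.io_ne p1_ii)) (by rw [map_neg, io_fx _ g hg]),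
    chC_neg hg (EW.io_ne p1_ii) (io_fx _ g hg)]

theorem p1_prime {p : O} (hp : Prime p) :
    Associated w p ∨ ∃ π, Prime π ∧ Prim π ∧ Associated π p := by
  refine (EW.red_prime hp).symm.imp_right fun h => ?_
  obtain ⟨k, hk⟩ := exists_prim h
  have e := associated_unit_mul_left p _ (EW.isUnit_om.neg.pow k)
  exact ⟨_, e.symm.prime hp, hk, e⟩

theorem p1_fac {n : O} (hn : n ≠ 0) : ∃ (a b : ZMod 3) (S : Multiset O),
    (∀ π ∈ S, Prime π ∧ Prim π) ∧ ∀ g ∈ G,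
      chC (io n) g = a * chC (io om) g + b * chC (io w) g + (S.map fun π => chC (io π) g).sum := by
  induction n using UniqueFactorizationMonoid.induction_on_prime with
  | h₁ => exact absurd rfl hn
  | h₂ u hu =>
    obtain ⟨a, h⟩ := p1_unit hu
    exact ⟨a, 0, 0, by simp, fun g hg => by simp [h g hg]⟩
  | h₃ n p n0 hp ih =>
    obtain ⟨a, b, S, h1, h2⟩ := ih n0
    rcases p1_prime hp with ⟨u, rfl⟩ | ⟨π, k1, k2, u, rfl⟩ <;> obtain ⟨c, hc⟩ := p1_unit u.isUnit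
    · refine ⟨a + c, b + 1, S, h1, fun g hg => ?_⟩
      rw [p1_mul hp.ne_zero n0 hg, p1_mul p1_w u.ne_zero hg, hc g hg, h2 g hg]
      ring
    · refine ⟨a + c, b, π ::ₘ S, Multiset.forall_mem_cons.2 ⟨⟨k1, k2⟩, h1⟩, fun g hg => ?_⟩
      rw [p1_mul hp.ne_zero n0 hg, p1_mul k1.ne_zero u.ne_zero hg, hc g hg, h2 g hg,
        Multiset.map_cons, Multiset.sum_cons]
      ring

theorem p1_sig (s : TP) {π : O} (h1 : Prime π) (h2 : Prim π) (h : π ≠ s.π) :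
    chC (io π) s.σ = 0 :=
  chC_ine s.odd (io_fx π) (s.V_eq.2 fun k => h (prim_assoc s.prim h2
    (s.prime.associated_of_dvd h1 k)).symm) s.σ_ine

theorem p1_unr_ii {v : Plc} (hv : v.p ≠ 3) {σ : Gam} (h : σ ∈ Ine v) : chC (io om) σ = 0 :=
  chC_ine hv (io_fx _) (p1_V_ii v) h

theorem p1_unr_w {v : Plc} (hv : v.p ≠ 3) {σ : Gam} (h : σ ∈ Ine v) : chC (io w) σ = 0 :=
  chC_ine hv (io_fx _) (p1_V_w hv) h

theorem p1_closed : IsClosed (G : Set Gam) := G.isClosed_of_isOpen op_G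

/-- Characters that are unramified at all places away from three. -/
theorem chi_two {χ : Gam → ZMod 3} (h : B4bG G χ) (k : ∀ v : Plc, v.p ≠ 3 → ∀ σ ∈ Ine v, χ σ = 0) :
    ∃ a b : ZMod 3, ∀ g ∈ G, χ g = a * chC (io om) g + b * chC (io w) g := by
  obtain ⟨x, hx⟩ := H3.exists_kum_tr le_rfl p1_closed (H3.coc_tr.2 h)
  obtain ⟨n, n0, hn⟩ := p1_int hx.fx.1 hx.fx.2
  obtain ⟨a, b, S, h1, h2⟩ := p1_fac n0
  have e : ∀ g ∈ G, χ g = _ := fun g hg =>
    (chC_of_kum le_rfl hx hg).trans ((hn g hg).trans (h2 g hg))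
  simp only [sum_multiset_map_count, nsmul_eq_mul] at e
  refine ⟨a, b, fun g hg => ?_⟩
  rw [e g hg, sum_eq_zero fun π hπ => ?_, add_zero]
  have m := fun x hx => h1 x (Multiset.mem_toFinset.1 hx)
  obtain ⟨s, rfl⟩ := exists_tp (m π hπ).1 (m π hπ).2
  have h3 := e _ s.σ_mem
  rw [k _ s.odd _ s.σ_ine, p1_unr_ii s.odd s.σ_ine, p1_unr_w s.odd s.σ_ine,
    sum_eq_single_of_mem _ hπ fun x hx e => by rw [p1_sig s (m x hx).1 (m x hx).2 e, mul_zero],
    mul_zero, mul_zero, add_zero, zero_add] at h3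
  rw [(mul_eq_zero.1 h3.symm).resolve_right (chC_sigma s), zero_mul]

theorem p1_tame (s : TP) {f : Gam → ZMod 3} (h1 : Sm (Ine s.v) f) (h2 : IsHom (Ine s.v) f)
    (h : f s.σ = 0) {σ : Gam} (hσ : σ ∈ Ine s.v) : f σ = 0 := by
  obtain ⟨k, e⟩ := H3.tame_gen (π := fun g => Multiplicative.ofAdd (f g)) s.odd s.tm.gen (h1.comp _)
    (fun a ha b hb => congrArg Multiplicative.ofAdd (h2 a ha b hb))
    (fun a _ => ⟨1, (by decide : ∀ x : ZMod 3, Multiplicative.ofAdd x ^ 3 ^ 1 = 1) _⟩) hσ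
  rwa [h, ofAdd_zero, one_pow, ofAdd_eq_one] at e

theorem p1_conj {χ : Gam → ZMod 3} (h : IsHom G χ) {g σ : Gam} (hg : g ∈ G) (hσ : σ ∈ G) :
    χ (g * σ * g⁻¹) = χ σ := by
  have e := h _ (mul_mem (mul_mem hg hσ) (inv_mem hg)) g hg
  rw [inv_mul_cancel_right, h g hg σ hσ, add_comm] at e
  exact (add_right_cancel e).symm

theorem det2 {χ : Gam → ZMod 3} (h : B4bG G χ) (k : Unr t χ) (h0 : ∀ j, χ (gen t j) = 0) :
    ∀ g ∈ G, χ g = 0 := by
  obtain ⟨a, b, e⟩ := chi_two h fun v hv σ hσ => by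
    rcases off_or t hv with k' | ⟨i, g, hg, rfl⟩
    · exact k v k' σ hσ
    · have h1 := B2.mem_Ine_smul.1 hσ
      have h2 := ine_le (t i).odd
      have h3 := p1_tame (t i) (h.1.mono h2) (fun a ha b hb => h.2 a (h2 ha) b (h2 hb))
        (h0 (.inl i)) h1
      have h4 := h.2 g hg _ (h2 h1)
      rw [h3, add_zero, ← mul_assoc, mul_inv_cancel_left, h.2 _ (ine_le hv hσ) g hg] at h4
      exact add_eq_right.1 h4
  obtain ⟨-, k1, k2, k3, k4⟩ := gw_spec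
  have a0 := (e _ (gw_mem 0)).symm.trans (h0 (.inr 0))
  have b0 := (e _ (gw_mem 1)).symm.trans (h0 (.inr 1))
  rw [k1, k2, mul_one, mul_zero, add_zero] at a0
  rw [k3, k4, mul_one, mul_zero, zero_add] at b0
  intro g hg
  rw [e g hg, a0, b0, zero_mul, zero_mul, add_zero]

theorem p1_sum {κ : Type} (s : Finset κ) {x : κ → Gam → ZMod 3} (h : ∀ i ∈ s, B4bG G (x i)) :
    B4bG G fun g => ∑ i ∈ s, x i g := by
  induction s using Finset.induction_on with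
  | empty => exact ⟨.const _, fun _ _ _ _ => by simp⟩
  | insert i s hi ih =>
    simp only [sum_insert hi]
    exact (h i (mem_insert_self _ _)).add (ih fun j hj => h j (mem_insert_of_mem hj))

theorem sur2 [Fintype ι] (hi : ∀ i j, (t i).π = (t j).π → i = j) (x : ι ⊕ Fin 2 → ZMod 3) :
    ∃ χ, B4bG G χ ∧ Unr t χ ∧ ∀ j, χ (gen t j) = x j := by
  obtain ⟨-, k1, k2, k3, k4⟩ := gw_spec
  set y : Gam → ZMod 3 := fun g =>
    ∑ i, x (.inl i) * chC (io (t i).π) (t i).σ * chC (io (t i).π) g with hy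
  refine ⟨fun g => y g + (x (.inr 0) - y (gw 0)) * chC (io om) g +
    (x (.inr 1) - y (gw 1)) * chC (io w) g,
    ((p1_sum _ fun i _ => (p1_b4 (t i).prime.ne_zero).smul _).add ((p1_b4 p1_ii).smul _)).add
      ((p1_b4 p1_w).smul _), fun v hv σ hσ => ?_, ?_⟩
  · simp only [hy, p1_unr_ii hv.1 hσ, p1_unr_w hv.1 hσ,
      fun i => chC_ine hv.1 (io_fx (t i).π) (hv.2 i) hσ]
    simp
  · rintro (i | j)
    · simp only [gen, Sum.elim_inl, p1_unr_ii (t i).odd (t i).σ_ine, p1_unr_w (t i).odd (t i).σ_ine,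
        mul_zero, add_zero, hy]
      rw [sum_eq_single_of_mem i (mem_univ i) fun j _ e => by
        rw [p1_sig (t i) (t j).prime (t j).prim (mt (hi j i) e), mul_zero], mul_assoc,
        F3_sq (chC_sigma _), mul_one]
    · fin_cases j <;> simp [gen, k1, k2, k3, k4]

theorem p1_fin {n : O} (hn : n ≠ 0) : {π : O | Prime π ∧ Prim π ∧ π ∣ n}.Finite := by
  induction n using UniqueFactorizationMonoid.induction_on_prime with
  | h₁ => exact absurd rfl hn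
  | h₂ u hu => exact Set.finite_empty.subset fun π h => h.1.not_isUnit (isUnit_of_dvd_unit h.2.2 hu)
  | h₃ n p n0 hp ih =>
    have h : {π : O | Prim π ∧ Associated π p}.Subsingleton := fun a ha b hb =>
      prim_assoc ha.1 hb.1 (ha.2.trans hb.2.symm)
    exact (h.finite.union (ih n0)).subset fun π k => (k.1.dvd_or_dvd k.2.2).imp
      (fun e => ⟨k.2.1, k.1.associated_of_dvd hp e⟩) fun e => ⟨k.1, k.2.1, e⟩

/-- The ramification of a function that is additive on inertia groups is removed. -/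
theorem exists_fix (t : ι → TP) {f : Gam → ZMod 3} (hs : Sm G f)
    (h1 : ∀ v, Off t v → IsHom (Ine v) f)
    (h2 : ∀ v, Off t v → ∀ σ ∈ Ine v, ∀ g ∈ G, f (g * σ * g⁻¹) = f σ) :
    ∃ χ, B4bG G χ ∧ ∀ v, Off t v → ∀ σ ∈ Ine v, χ σ = f σ := by
  have fin : {π : O | ∃ s : TP, s.π = π ∧ Off t s.v ∧ f s.σ ≠ 0}.Finite := by
    obtain ⟨U, hU, -, h⟩ := hs
    obtain ⟨B, hB⟩ := B2.finite_ram hU
    refine ((B.filter (· ≠ 0)).finite_toSet.biUnion fun p hp =>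
      p1_fin (n := p) (Nat.cast_ne_zero.2 (mem_filter.1 hp).2)).subset ?_
    rintro _ ⟨s, rfl, k1, k2⟩
    refine Set.mem_biUnion (x := s.v.p) (mem_filter.2 ⟨by_contra fun e => k2 ?_,
      s.v.prime.ne_zero⟩) ⟨s.prime, s.prim, s.dvd_p⟩
    rw [← h 1 G.one_mem _ s.σ_mem (by simpa using hB _ e s.σ_ine), p1_one (h1 _ k1)]
  have pr : ∀ π ∈ fin.toFinset, Prime π ∧ Prim π := fun π h => by
    obtain ⟨s, rfl, -⟩ := fin.mem_toFinset.1 h
    exact ⟨s.prime, s.prim⟩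
  obtain ⟨c, hc⟩ : ∃ c : O → ZMod 3, ∀ π ∈ fin.toFinset, ∃ r : TP, r.π = π ∧ Off t r.v ∧
      c π * chC (io π) r.σ = f r.σ := by
    refine ⟨fun π => if h : ∃ s : TP, s.π = π ∧ Off t s.v ∧ f s.σ ≠ 0 then
      f h.choose.σ * chC (io h.choose.π) h.choose.σ else 0, fun π h => ?_⟩
    have k : ∃ s : TP, s.π = π ∧ Off t s.v ∧ f s.σ ≠ 0 := fin.mem_toFinset.1 h
    refine ⟨k.choose, k.choose_spec.1, k.choose_spec.2.1, ?_⟩
    have e := F3_sq (chC_sigma k.choose)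
    simp only [dif_pos k]
    rw [k.choose_spec.1] at e ⊢
    rw [mul_assoc, e, mul_one]
  have b := p1_sum fin.toFinset fun π h => (p1_b4 (pr π h).1.ne_zero).smul (c π)
  have A : ∀ r : TP, Off t r.v → ∑ π ∈ fin.toFinset, c π * chC (io π) r.σ = f r.σ →
      ∀ σ ∈ Ine r.v, ∑ π ∈ fin.toFinset, c π * chC (io π) σ = f σ := fun r hr e σ hσ => by
    have l := ine_le hr.1
    refine sub_eq_zero.1 (p1_tame r (f := fun g => ∑ π ∈ fin.toFinset, c π * chC (io π) g - f g)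
      ((b.1.mono l).comp₂ (hs.mono l) (· - ·)) (fun a ha c hc => ?_) (sub_eq_zero.2 e) hσ)
    simp only [b.2 a (l ha) c (l hc), h1 _ hr a ha c hc]
    ring
  refine ⟨_, b, fun v hv σ hσ => ?_⟩
  obtain ⟨s, rfl⟩ := exists_tp_v hv.1
  by_cases k : s.π ∈ fin.toFinset
  · obtain ⟨r, e, k1, k2⟩ := hc _ k
    obtain ⟨g, hg, e'⟩ := r.conj (e ▸ s.lt)
    rw [← e', B2.mem_Ine_smul] at hσ
    rw [show σ = g * (g⁻¹ * σ * g) * g⁻¹ by group, h2 _ k1 _ hσ g hg,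
      p1_conj b.2 hg (ine_le k1.1 hσ)]
    refine A r k1 ?_ _ hσ
    rw [sum_eq_single_of_mem _ k fun x hx ne => by
      rw [p1_sig r (pr x hx).1 (pr x hx).2 (e ▸ ne), mul_zero], k2]
  · refine A s hv ?_ σ hσ
    rw [sum_eq_zero fun x hx => by
      rw [p1_sig s (pr x hx).1 (pr x hx).2 fun e => k (e ▸ hx), mul_zero]]
    exact (not_not.1 fun z => k (fin.mem_toFinset.2 ⟨s, rfl, hv, z⟩)).symm

theorem p1_frob : ∃ φ ∈ G, IsFrob w3 w3.p φ := by
  obtain ⟨φ, h⟩ := B2.exists_frob w3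
  by_cases k : φ ∈ G
  · exact ⟨φ, k, h⟩
  · obtain ⟨σ, h1, h2⟩ := H3.exists_ine_ne (w := w3) (x := io w) (a := 2) (b := 1) two_ne_zero
      (by decide) (by rw [p1_V_sq, w3_p, pow_one, Nat.cast_ofNat])
    exact ⟨_, B2.mul_mem_GK k fun e => h2 (io_fx w σ e), h.mul_ine h1⟩

theorem p1_dec {χ : Gam → ZMod 3} (h : B4bG Hw χ) (k : ∀ σ ∈ G ⊓ Ine w3, χ σ = 0) {φ : Gam}
    (h1 : φ ∈ G) (h2 : IsFrob w3 w3.p φ) (h3 : χ φ = 0) : ∀ g ∈ Hw, χ g = 0 := fun g hg => by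
  obtain ⟨U, hU, -, e⟩ := h.1
  obtain ⟨n, σ, s1, ⟨s2, s3⟩, -⟩ := B2.dec_gen h2 hg.2 (hU.inf op_G)
  have s4 : σ ∈ G := by
    have := G.mul_mem (G.inv_mem (G.pow_mem h1 n)) (G.mul_mem hg.1 (G.inv_mem s3))
    simpa [mul_assoc] using this
  have m : φ ∈ Hw := ⟨h1, h2.1⟩
  have s5 : σ ∈ Hw := ⟨s4, B2.Ine_le _ s1⟩
  rw [← e _ (mul_mem (pow_mem m n) s5) g hg s2, h.2 _ (pow_mem m n) _ s5, p1_nat h.2 m, h3,
    k σ ⟨s4, s1⟩, mul_zero, add_zero]

/-- The local symbol at three is nondegenerate. -/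
theorem nondeg_w3 {χ : Gam → ZMod 3} (h : B4bG Hw χ)
    (k : ∀ a : O, a ≠ 0 → Spl 1 Hw (cup 1 χ (chC (io a)))) : ∀ g ∈ Hw, χ g = 0 := by
  obtain ⟨F⟩ := H3.exists_cft
  have h3 : Hw ≤ G := inf_le_left
  have key : ∀ a κ, Fx G a → Kum 1 Hw a κ → F.inv 1 G w3 (cup 1 χ κ) = 0 := fun a κ ha hκ => by
    obtain ⟨n, n0, hn⟩ := p1_int hκ.fx.1 ha
    have u := kum_chC (H := Hw) (EW.io_ne n0) fun g hg => io_fx n g hg.1
    refine (F.congr fun g _ g' hg' => ?_).trans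
      ((F.zero_iff op_G (H3.c2_cup (m := 1) h.1 h.2 u.sm u.coc)).2 (k n n0))
    rw [cup, cup, chC_of_kum h3 hκ hg', hn g' hg'.1]
  obtain ⟨L⟩ := H3.exists_LD op_G w3
  have h4 := L.unr_eq (t := 1) h.1 h.2 (F.crit (m := 1) op_G h.1 h.2 fun a κ ha _ hκ =>
    key a κ ha (hκ.mono h3))
  by_cases h5 : χ L.φ = 0
  · exact fun g hg => (h4 g hg).trans (by rw [h5, zero_mul])
  · obtain ⟨κ, hκ⟩ := H3.GWg_kum L
    have h6 := (H3.inv_tr_cup F h3).trans (key _ κ L.π_fx hκ)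
    rw [H3.inv_tr_mul F op_G h3 (H3.GWg_om L) (hκ.coc_tr h3) _ 1 h4 fun g _ => (one_mul _).symm,
      mul_one] at h6
    exact absurd h6 (H3.Z3.mul_ne h5 (H3.inv_om_unif F op_G h3 L hκ))

end Pool.Agent.Lib.MP_696deb_nt.EV
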