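import Pool.Agent.Lib.MP_23455a_nt.H3.BAc

/-! Cup products of cocycles in permutation modules with Kummer families. -/

set_option autoImplicit false

open scoped Classical
open Finset

namespace Pool.Agent.Lib.MP_696deb_nt.EV

open B2 (Qbar Gam Sm IsHom Fx sm_apply)
open Pool.Agent.H3

variable {X Y : Type} [MulAction Gam X] [MulAction Gam Y] {H : Subgroup Gam} {e : ℕ}
  {S : Finset X} {x x' κ κ' : Gam → X → ZMod (3 ^ e)} {a a' : X → Qbar}
  {c c' : Gam → Gam → ZMod (3 ^ e)}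

theorem spl_congr (h : Spl e H c) (k : ∀ g ∈ H, ∀ h ∈ H, c' g h = c g h) : Spl e H c' := by
  obtain ⟨b, b1, b2⟩ := h
  exact ⟨b, b1, fun g hg h hh => (k g hg h hh).trans (b2 g hg h hh)⟩

theorem spl_lin (h : Spl e H c) (h' : Spl e H c') (s t : ZMod (3 ^ e)) :
    Spl e H fun g k => s * c g k + t * c' g k := by
  obtain ⟨b, b1, b2⟩ := h
  obtain ⟨b', b1', b2'⟩ := h'
  refine ⟨fun g => s * b g + t * b' g, b1.comp₂ b1' fun p q => s * p + t * q,
    fun g hg k hk => ?_⟩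
  beta_reduce
  rw [b2 g hg k hk, b2' g hg k hk]
  ring

theorem zeta_sum {ι : Type} (s : Finset ι) (f : ι → ZMod (3 ^ e)) :
    ∏ i ∈ s, zeta e ^ (f i).val = zeta e ^ (∑ i ∈ s, f i).val := by
  induction s using Finset.induction_on with
  | empty => simp
  | insert i s hi ih => rw [prod_insert hi, sum_insert hi, zeta_val_add, ih]

theorem sm_sum {ι β : Type} [AddCommMonoid β] (s : Finset ι) {f : ι → Gam → β}
    (h : ∀ i ∈ s, Sm H (f i)) : Sm H fun g => ∑ i ∈ s, f i g :=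
  (B2.Sm.pi (ι := s) fun i => h i.1 i.2).comp (fun z => ∑ i : s, z i) |>.congr fun g _ =>
    sum_coe_sort s fun i => f i g

/-- Finite stable sets on which the action is smooth. -/
structure St (H : Subgroup Gam) (S : Finset X) : Prop where
  mem : ∀ g ∈ H, ∀ P ∈ S, g • P ∈ S
  sm : ∀ P ∈ S, Sm H fun g => g⁻¹ • P

theorem St.inv (h : St H S) {g : Gam} (hg : g ∈ H) {P : X} (hP : P ∈ S) : g⁻¹ • P ∈ S :=
  h.mem _ (inv_mem hg) _ hP

theorem St.prod (h : St H S) {g : Gam} (hg : g ∈ H) {β : Type} [CommMonoid β] (f : X → β) :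
    ∏ P ∈ S, f (g⁻¹ • P) = ∏ P ∈ S, f P :=
  prod_nbij' (g⁻¹ • ·) (g • ·) (fun _ k => h.inv hg k) (fun _ k => h.mem _ hg _ k)
    (fun _ _ => smul_inv_smul _ _) (fun _ _ => inv_smul_smul _ _) fun _ _ => rfl

theorem St.sum (h : St H S) {g : Gam} (hg : g ∈ H) {β : Type} [AddCommMonoid β] (f : X → β) :
    ∑ P ∈ S, f (g⁻¹ • P) = ∑ P ∈ S, f P := h.prod hg (β := Multiplicative β) f

theorem St.sm_comp (h : St H S) {β : Type} {f : Gam → X → β} (hf : ∀ P ∈ S, Sm H fun g => f g P)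
    {P : X} (hP : P ∈ S) : Sm H fun g => f g (g⁻¹ • P) :=
  ((B2.Sm.pi (ι := S) fun i => hf i.1 i.2).comp₂ (h.sm P hP) fun z Q =>
    if k : Q ∈ S then z ⟨Q, k⟩ else f 1 Q).congr fun _ hg => dif_pos (h.inv hg hP)

/-- Cocycles in the permutation module. -/
structure PC (H : Subgroup Gam) (S : Finset X) (x : Gam → X → ZMod (3 ^ e)) : Prop where
  sm : ∀ P ∈ S, Sm H fun g => x g P
  coc : ∀ g ∈ H, ∀ h ∈ H, ∀ P ∈ S, x (g * h) P = x g P + x h (g⁻¹ • P)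

/-- Cocycles in the twisted permutation module. -/
structure KC (H : Subgroup Gam) (S : Finset X) (κ : Gam → X → ZMod (3 ^ e)) : Prop where
  sm : ∀ P ∈ S, Sm H fun g => κ g P
  coc : ∀ g ∈ H, ∀ h ∈ H, ∀ P ∈ S, κ (g * h) P = κ g P + cy e g * κ h (g⁻¹ • P)

/-- Kummer cocycles of a family of numbers. -/
def KF (H : Subgroup Gam) (S : Finset X) (a : X → Qbar) (κ : Gam → X → ZMod (3 ^ e)) : Prop :=
  ∃ y : X → Qbar, (∀ P ∈ S, y P ≠ 0 ∧ y P ^ 3 ^ e = a P) ∧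
    ∀ g ∈ H, ∀ P ∈ S, g (y (g⁻¹ • P)) = y P * zeta e ^ (κ g P).val

/-- The cup product. -/
noncomputable def SS (S : Finset X) (x κ : Gam → X → ZMod (3 ^ e)) (g h : Gam) : ZMod (3 ^ e) :=
  ∑ P ∈ S, x g P * cy e g * κ h (g⁻¹ • P)

theorem PC.lin (h : PC H S x) (h' : PC H S x') (s t : ZMod (3 ^ e)) :
    PC H S fun g P => s * x g P + t * x' g P :=
  ⟨fun P hP => (h.sm P hP).comp₂ (h'.sm P hP) fun p q => s * p + t * q, fun g hg k hk P hP => by
    rw [h.coc g hg k hk P hP, h'.coc g hg k hk P hP]; ring⟩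

theorem c2_SS (hS : St H S) (h : PC H S x) (k : KC H S κ) : C2 e H (SS S x κ) := by
  constructor
  · have h1 := (B2.Sm.pi (ι := S) fun i => h.sm i.1 i.2).comp₂
      ((sm_cy e).comp₂ (B2.Sm.pi (ι := S) fun i => hS.sm i.1 i.2) Prod.mk) Prod.mk
    obtain ⟨U, u1, u2, u3⟩ := h1.left.comp₂ (B2.Sm.pi (ι := S) fun i => k.sm i.1 i.2).right Prod.mk
    refine ⟨U, u1, u2, fun g hg g' hg' l hl l' hl' e1 e2 => sum_congr rfl fun P hP => ?_⟩
    have := u3 g hg g' hg' l hl l' hl' e1 e2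
    simp only [Prod.mk.injEq] at this
    obtain ⟨⟨a1, a2, a3⟩, a4⟩ := this
    rw [show x g P = x g' P from congrFun a1 ⟨P, hP⟩, a2,
      show κ l (g⁻¹ • P) = κ l' (g⁻¹ • P) from congrFun a4 ⟨_, hS.inv hg hP⟩,
      show g⁻¹ • P = g'⁻¹ • P from congrFun a3 ⟨P, hP⟩]
  · intro g hg l hl n hn
    simp only [SS]
    rw [← hS.sum hg fun P => x l P * cy e l * κ n (l⁻¹ • P), mul_sum, ← sum_add_distrib,
      ← sum_add_distrib]
    refine sum_congr rfl fun P hP => ?_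
    rw [h.coc g hg l hl P hP, k.coc l hl n hn _ (hS.inv hg hP), b3b_cy, mul_inv_rev, mul_smul]
    ring

theorem spl_left (hS : St H S) (k : KC H S κ) (β : X → ZMod (3 ^ e))
    (h : ∀ g ∈ H, ∀ P ∈ S, x g P = β P - β (g⁻¹ • P)) : Spl e H (SS S x κ) := by
  refine ⟨fun g => -∑ P ∈ S, β P * κ g P,
    (sm_sum S fun P hP => (k.sm P hP).comp (β P * ·)).comp (- ·), fun g hg l hl => ?_⟩
  beta_reduce
  rw [SS, ← hS.sum hg fun P => β P * κ l P, mul_neg, mul_sum, ← sum_neg_distrib, ← sum_neg_distrib,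
    ← sum_neg_distrib, ← sum_add_distrib, ← sum_sub_distrib]
  refine sum_congr rfl fun P hP => ?_
  rw [h g hg P hP, k.coc g hg l hl P hP]
  ring

theorem spl_right (hS : St H S) (h : PC H S x) (t : X → ZMod (3 ^ e))
    (k : ∀ g ∈ H, ∀ P ∈ S, κ g P = cy e g * t (g⁻¹ • P) - t P) : Spl e H (SS S x κ) := by
  refine ⟨fun g => -∑ P ∈ S, x g P * cy e g * t (g⁻¹ • P), (sm_sum S fun P hP =>
    ((h.sm P hP).comp₂ (sm_cy e) (· * ·)).comp₂ (hS.sm P hP) fun p Q => p * t Q).comp (- ·),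
    fun g hg l hl => ?_⟩
  beta_reduce
  rw [SS, ← hS.sum hg fun P => x l P * cy e l * t (l⁻¹ • P), mul_neg, mul_sum, ← sum_neg_distrib,
    ← sum_neg_distrib, ← sum_neg_distrib, ← sum_add_distrib, ← sum_sub_distrib]
  refine sum_congr rfl fun P hP => ?_
  rw [k l hl _ (hS.inv hg hP), h.coc g hg l hl P hP, b3b_cy, mul_inv_rev, mul_smul]
  ring

theorem KF.kc (hS : St H S) (h : KF H S a κ) : KC H S κ := by
  obtain ⟨y, h0, h1⟩ := h
  refine ⟨fun P hP => ?_, fun g hg k hk P hP => zeta_val_inj (mul_left_cancel₀ (h0 P hP).1 ?_)⟩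
  · obtain ⟨U, u1, u2, u3⟩ := hS.sm_comp (f := fun g Q => g (y Q)) (fun Q _ => sm_apply (y Q)) hP
    refine ⟨U, u1, u2, fun g hg k hk e => zeta_val_inj (mul_left_cancel₀ (h0 P hP).1 ?_)⟩
    rw [← h1 g hg P hP, ← h1 k hk P hP]
    exact u3 g hg k hk e
  · rw [← h1 _ (mul_mem hg hk) P hP, AlgEquiv.mul_apply, mul_inv_rev, mul_smul,
      h1 k hk _ (hS.inv hg hP), map_mul, h1 g hg P hP, smul_zeta_val, zeta_val_add, mul_assoc]

theorem exists_KF (e : ℕ) (h0 : ∀ P ∈ S, a P ≠ 0)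
    (h : ∀ g ∈ H, ∀ P ∈ S, g (a (g⁻¹ • P)) = a P) :
    ∃ κ : Gam → X → ZMod (3 ^ e), KF H S a κ := by
  choose y hy using fun P => IsAlgClosed.exists_pow_nat_eq (a P) (pow_pos three_pos e)
  have y0 : ∀ P ∈ S, y P ≠ 0 := fun P hP k =>
    h0 P hP (by rw [← hy, k, zero_pow (by positivity)])
  choose! lg hlg using fun z => exists_zeta_val (m := e) (x := z)
  refine ⟨fun g P => lg (g (y (g⁻¹ • P)) / y P), y, fun P hP => ⟨y0 P hP, hy P⟩,
    fun g hg P hP => ?_⟩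
  rw [← hlg _ (by rw [div_pow, ← map_pow, hy, hy, h g hg P hP, div_self (h0 P hP)]),
    mul_div_cancel₀ _ (y0 P hP)]

theorem KF.congr (h : KF H S a κ) (k : ∀ P ∈ S, a' P = a P) : KF H S a' κ := by
  obtain ⟨y, h0, h1⟩ := h
  exact ⟨y, fun P hP => k P hP ▸ h0 P hP, h1⟩

theorem KF.mul (h : KF H S a κ) (h' : KF H S a' κ') :
    KF H S (fun P => a P * a' P) fun g P => κ g P + κ' g P := by
  obtain ⟨y, h0, h1⟩ := h
  obtain ⟨z, k0, k1⟩ := h'
  refine ⟨fun P => y P * z P, fun P hP => ⟨mul_ne_zero (h0 P hP).1 (k0 P hP).1, by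
    rw [mul_pow, (h0 P hP).2, (k0 P hP).2]⟩, fun g hg P hP => ?_⟩
  rw [map_mul, h1 g hg P hP, k1 g hg P hP, zeta_val_add]
  ring

theorem KF.div (h : KF H S a κ) (h' : KF H S a' κ') :
    KF H S (fun P => a P / a' P) fun g P => κ g P - κ' g P := by
  obtain ⟨y, h0, h1⟩ := h
  obtain ⟨z, k0, k1⟩ := h'
  refine ⟨fun P => y P / z P, fun P hP => ⟨div_ne_zero (h0 P hP).1 (k0 P hP).1, by
    rw [div_pow, (h0 P hP).2, (k0 P hP).2]⟩, fun g hg P hP => ?_⟩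
  rw [map_div₀, h1 g hg P hP, k1 g hg P hP, mul_div_mul_comm,
    ← sub_add_cancel (κ g P) (κ' g P), zeta_val_add, mul_div_cancel_right₀ _ (b3b_ne _ _)]

theorem KF.sub (hS : St H S) (h : KF H S a κ) (h' : KF H S a κ') : ∃ t : X → ZMod (3 ^ e),
    ∀ g ∈ H, ∀ P ∈ S, κ g P - κ' g P = cy e g * t (g⁻¹ • P) - t P := by
  obtain ⟨y, h0, h1⟩ := h.div h'
  obtain ⟨z, k0, -⟩ := h
  have k : ∀ P ∈ S, y P ^ 3 ^ e = 1 := fun P hP => by
    exact (h0 P hP).2.trans (div_self ((k0 P hP).2 ▸ pow_ne_zero _ (k0 P hP).1))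
  choose! t ht using fun P hP => exists_zeta_val (k P hP)
  refine ⟨t, fun g hg P hP => eq_sub_of_add_eq' (zeta_val_inj ?_)⟩
  rw [zeta_val_add, ← ht P hP, ← h1 g hg P hP, ← smul_zeta_val, ← ht _ (hS.inv hg hP)]

/-- The cup product does not depend on the roots. -/
theorem KF.spl (hS : St H S) (hx : PC H S x) (h : KF H S a κ) (h' : KF H S a κ')
    (k : Spl e H (SS S x κ')) : Spl e H (SS S x κ) := by
  obtain ⟨t, ht⟩ := h.sub hS h'
  refine spl_congr (spl_lin k (spl_right hS hx t ht) 1 1) fun g _ l _ => ?_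
  simp only [SS, one_mul, ← sum_add_distrib]
  exact sum_congr rfl fun P _ => by ring

/-- Families with equivariant roots. -/
theorem KF.spl_root (hS : St H S) (hx : PC H S x) (h : KF H S a κ) (y : X → Qbar)
    (h0 : ∀ P ∈ S, y P ^ 3 ^ e = a P) (h1 : ∀ g ∈ H, ∀ P ∈ S, g (y (g⁻¹ • P)) = y P) :
    Spl e H (SS S x κ) := by
  obtain ⟨z, k0, -⟩ := id h
  refine h.spl hS hx (κ' := 0) ⟨y, fun P hP => ⟨fun k => pow_ne_zero (3 ^ e) (k0 P hP).1 ?_,
    h0 P hP⟩, fun g hg P hP => by simp [h1 g hg P hP]⟩ (spl_right hS hx 0 (by simp))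
  rw [(k0 P hP).2, ← h0 P hP, k, zero_pow (by positivity)]

/-- Norms from a covering on which the first cocycle becomes a coboundary. -/
theorem KF.spl_norm (hS : St H S) (hx : PC H S x) (h : KF H S a κ) {T : Finset Y} (hT : St H T)
    {π : Y → X} (h1 : ∀ Q ∈ T, π Q ∈ S) (h2 : ∀ g ∈ H, ∀ Q ∈ T, π (g • Q) = g • π Q)
    {b : Y → Qbar} (h0 : ∀ Q ∈ T, b Q ≠ 0) (h3 : ∀ g ∈ H, ∀ Q ∈ T, g (b (g⁻¹ • Q)) = b Q)
    (h4 : ∀ P ∈ S, a P = ∏ Q ∈ T with π Q = P, b Q) (β : Y → ZMod (3 ^ e))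
    (h5 : ∀ g ∈ H, ∀ Q ∈ T, x g (π Q) = β Q - β (g⁻¹ • Q)) : Spl e H (SS S x κ) := by
  obtain ⟨l, hl⟩ := exists_KF e h0 h3
  have fib : ∀ g ∈ H, ∀ P ∈ S, St H T → ∀ {γ : Type} [CommMonoid γ] (f : Y → γ),
      ∏ Q ∈ T with π Q = g⁻¹ • P, f Q = ∏ Q ∈ T with π Q = P, f (g⁻¹ • Q) := by
    intro g hg P _ _ γ _ f
    rw [prod_filter, prod_filter, ← hT.prod hg]
    refine prod_congr rfl fun Q hQ => ?_
    simp only [h2 _ (inv_mem hg) Q hQ, smul_left_cancel_iff]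
  refine h.spl hS hx (κ' := fun g P => ∑ Q ∈ T with π Q = P, l g Q) ?_
    (spl_congr (spl_left hT (hl.kc hT) β h5) fun g hg k _ => ?_)
  · obtain ⟨y, y0, y1⟩ := hl
    refine ⟨fun P => ∏ Q ∈ T with π Q = P, y Q, fun P hP => ⟨prod_ne_zero_iff.2 fun Q hQ =>
      (y0 Q (mem_filter.1 hQ).1).1, ?_⟩, fun g hg P hP => ?_⟩
    · rw [h4 P hP, ← prod_pow]
      exact prod_congr rfl fun Q hQ => (y0 Q (mem_filter.1 hQ).1).2
    · beta_reduce
      rw [fib g hg P hP hT, map_prod,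
        prod_congr rfl fun Q hQ => y1 g hg Q (mem_filter.1 hQ).1, prod_mul_distrib, zeta_sum]
  · rw [SS, SS, ← sum_fiberwise_of_maps_to h1]
    refine sum_congr rfl fun P hP => ?_
    rw [show ∑ Q ∈ T with π Q = g⁻¹ • P, l k Q = ∑ Q ∈ T with π Q = P, l k (g⁻¹ • Q) from
      fib g hg P hP hT (γ := Multiplicative (ZMod (3 ^ e))) (l k), mul_sum]
    exact sum_congr rfl fun Q hQ => by rw [(mem_filter.1 hQ).2]

theorem zeta_add_pow (e n : ℕ) : zeta (e + n) ^ 3 ^ n = zeta e := by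
  induction n with
  | zero => exact pow_one _
  | succ n ih => rw [pow_succ', pow_mul, ← add_assoc, zeta_succ_cube, ih]

/-- The inclusion into a higher level. -/
def inc (n : ℕ) (z : ZMod (3 ^ e)) : ZMod (3 ^ (e + n)) := 3 ^ n * (z.val : ZMod (3 ^ (e + n)))

/-- The projection to a lower level. -/
abbrev dn (e n : ℕ) : ZMod (3 ^ (e + n)) →+* ZMod (3 ^ e) :=
  ZMod.castHom (pow_dvd_pow 3 (Nat.le_add_right e n)) _

theorem zeta_three_mul (e n k : ℕ) :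
    zeta (e + n) ^ (3 ^ n * (k : ZMod (3 ^ (e + n)))).val = zeta e ^ k := by
  rw [show (3 ^ n * (k : ZMod (3 ^ (e + n)))) = (3 ^ n * k : ℕ) by push_cast; rfl, b1b_zeta_cast,
    pow_mul, zeta_add_pow]

theorem zeta_inc (n : ℕ) (z : ZMod (3 ^ e)) : zeta (e + n) ^ (inc n z).val = zeta e ^ z.val :=
  zeta_three_mul e n _

theorem zeta_dn (n : ℕ) (z : ZMod (3 ^ (e + n))) : zeta e ^ (dn e n z).val = zeta e ^ z.val := by
  rw [← ZMod.natCast_zmod_val z, map_natCast, b1b_zeta_cast, ZMod.natCast_zmod_val]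

theorem inc_dn (n : ℕ) (z : ZMod (3 ^ (e + n))) : inc n (dn e n z) = 3 ^ n * z :=
  zeta_val_inj (by rw [zeta_inc, zeta_dn, ← zeta_three_mul e n, ZMod.natCast_zmod_val])

theorem dn_surj (n : ℕ) (z : ZMod (3 ^ e)) : ∃ z', dn e n z' = z :=
  ⟨z.val, by rw [map_natCast, ZMod.natCast_zmod_val]⟩

theorem dn_cy (n : ℕ) (g : Gam) : dn e n (cy (e + n) g) = cy e g := by
  rw [← ZMod.natCast_zmod_val (cy (e + n) g), map_natCast]
  refine (b1b_cy_eq ?_).symm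
  rw [← zeta_add_pow e n, map_pow, b1b_spec, ← pow_mul, ← pow_mul, mul_comm]

theorem KF.down {n : ℕ} {l : Gam → X → ZMod (3 ^ (e + n))} (h : KF H S a l) :
    KF H S a fun g P => dn e n (l g P) := by
  obtain ⟨y, h0, h1⟩ := h
  refine ⟨fun P => y P ^ 3 ^ n, fun P hP => ⟨pow_ne_zero _ (h0 P hP).1, by
    rw [← pow_mul, ← pow_add, add_comm, (h0 P hP).2]⟩, fun g hg P hP => ?_⟩
  rw [map_pow, h1 g hg P hP, mul_pow, ← pow_mul, mul_comm _ (3 ^ n), pow_mul, zeta_add_pow,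
    zeta_dn]

theorem spl_of_inc (hH : IsClosed (H : Set Gam)) (hc : C2 e H c) {n : ℕ}
    (h : Spl (e + n) H fun g k => inc n (c g k)) : Spl e H c := by
  have := (spl_iff hH h.c2).1 h
  simp only [zeta_inc] at this
  exact (spl_iff hH hc).2 this

/-- Cocycles that come from a character at a higher level. -/
theorem KF.spl_hom (hH : IsClosed (H : Set Gam)) (hS : St H S) (hx : PC H S x) (h : KF H S a κ)
    {n : ℕ} {χ : Gam → ZMod (3 ^ (e + n))} (h1 : Sm H χ) (h2 : IsHom H χ)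
    (β : X → ZMod (3 ^ (e + n)))
    (h3 : ∀ g ∈ H, ∀ P ∈ S, inc n (x g P) = χ g + β P - β (g⁻¹ • P)) {r : Qbar} (h4 : Fx H r)
    (h5 : r ^ 3 ^ (e + n) = ∏ P ∈ S, a P) : Spl e H (SS S x κ) := by
  obtain ⟨l, hl⟩ := exists_KF (H := H) (S := S) (a := a) (e + n) (fun P hP => by
    obtain ⟨y, y0, -⟩ := h
    exact (y0 P hP).2 ▸ pow_ne_zero _ (y0 P hP).1) fun g hg P hP => by
      obtain ⟨y, y0, y1⟩ := h
      rw [← (y0 P hP).2, ← (y0 _ (hS.inv hg hP)).2, map_pow, y1 g hg P hP, mul_pow, b3b_pow,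
        mul_one]
  refine h.spl hS hx hl.down (spl_of_inc hH (c2_SS hS hx (hl.down.kc hS)) (n := n) ?_)
  have k : Kum (e + n) H (∏ P ∈ S, a P) fun g => ∑ P ∈ S, l g P := by
    obtain ⟨y, y0, y1⟩ := hl
    refine ⟨∏ P ∈ S, y P, prod_ne_zero_iff.2 fun P hP => (y0 P hP).1, ?_, fun g hg => ?_⟩
    · rw [← prod_pow]
      exact prod_congr rfl fun P hP => (y0 P hP).2
    · rw [← hS.prod hg y, map_prod, prod_congr rfl (y1 g hg), prod_mul_distrib, hS.prod hg y,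
        zeta_sum]
  obtain ⟨t, ht⟩ := k.pow_iff.1 ⟨r, h4, h5⟩
  have k1 : Spl (e + n) H fun g k => χ g * cy (e + n) g * ∑ P ∈ S, l k P := by
    refine ⟨fun g => -(χ g * cy (e + n) g * t), h1.comp₂ (sm_cy _) (fun a b => -(a * b * t)),
      fun g hg k hk => ?_⟩
    beta_reduce
    rw [ht k hk, h2 g hg k hk, b3b_cy]
    ring
  refine spl_congr (spl_lin k1 (spl_left (x := fun g P => β P - β (g⁻¹ • P)) hS (hl.kc hS) β
    fun _ _ _ _ => rfl) 1 1) fun g hg k _ => ?_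
  choose z hz using fun P => dn_surj n (x g P)
  have e1 : SS S x (fun g P => dn e n (l g P)) g k =
      dn e n (∑ P ∈ S, z P * cy (e + n) g * l k (g⁻¹ • P)) := by
    simp only [SS, map_sum, map_mul, hz, dn_cy]
  rw [e1, inc_dn, SS, ← hS.sum hg (l k), one_mul, one_mul, mul_sum, mul_sum, ← sum_add_distrib]
  refine sum_congr rfl fun P hP => ?_
  have := h3 g hg P hP
  rw [← hz, inc_dn] at this
  linear_combination cy (e + n) g * l k (g⁻¹ • P) * this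

/-- Polarisation. -/
theorem spl_polar {xp xa kp km k0 : Gam → X → ZMod (3 ^ e)}
    (h1 : Spl e H (SS S (fun g P => 1 * xp g P + 1 * xa g P) kp))
    (h2 : Spl e H (SS S (fun g P => 1 * xp g P + -1 * xa g P) km))
    (h3 : Spl e H (SS S xp fun g P => kp g P - km g P))
    (h4 : Spl e H (SS S xa fun g P => kp g P + km g P - (k0 g P + k0 g P))) :
    Spl e H fun g k => 2 * SS S xa k0 g k := by
  refine spl_congr (spl_lin (spl_lin h1 h2 1 (-1)) (spl_lin h3 h4 1 1) 1 (-1)) fun g _ k _ => ?_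
  simp only [SS, mul_sum, ← sum_add_distrib]
  exact sum_congr rfl fun P _ => by ring

end Pool.Agent.Lib.MP_696deb_nt.EV
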