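import Pool.Agent.Lib.MP_696deb_nt.EV.T1

/-! The tower: the weights. -/

set_option autoImplicit false

open scoped Classical NNReal
open Finset PowerSeries

namespace Pool.Agent.Lib.MP_696deb_nt.EV

theorem iv_spec {e : ℕ} {a : O} (h : ¬ w ∣ a) : (3 : O) ^ e ∣ iv e a * a - 1 := by
  have k : ∃ y, (3 : O) ^ e ∣ y * a - 1 := by
    obtain ⟨u, y, k⟩ := (g1_w.coprime_iff_not_dvd.2 h).pow_left (m := 2 * e)
    refine ⟨y, -u * (-1) ^ e, ?_⟩
    rw [pow_mul, show w ^ 2 = 3 * -1 by decide, mul_pow] at k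
    linear_combination k
  rw [iv, dif_pos k]
  exact k.choose_spec

theorem t2_w3 : w ∣ 3 := ⟨-w, by decide⟩

theorem t2_zero {e : ℕ} {a : O} (h : w ∣ a) : iv (e + 1) a = 0 := dif_neg fun ⟨y, k⟩ =>
  g1_w.not_dvd_one ((dvd_sub_right (h.mul_left y)).1 ((t2_w3.trans (dvd_pow_self 3 e.succ_ne_zero)).trans k))

theorem t2_iv {j e : ℕ} {a b : O} (k : j ≤ e) (h : (3 : O) ^ j ∣ a - b) :
    (3 : O) ^ j ∣ iv e a - iv e b := by
  rcases j with _ | j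
  · simp
  obtain ⟨e, rfl⟩ := Nat.exists_eq_add_of_le' (Nat.one_le_of_lt k)
  have h1 : w ∣ a - b := (t2_w3.trans (dvd_pow_self 3 j.succ_ne_zero)).trans h
  by_cases ha : w ∣ a
  · rw [t2_zero ha, t2_zero ((dvd_sub_right ha).1 h1), sub_zero]
    exact dvd_zero _
  · obtain ⟨x, hx⟩ := (pow_dvd_pow 3 k).trans (iv_spec ha)
    obtain ⟨y, hy⟩ := (pow_dvd_pow 3 k).trans (iv_spec (a := b) fun d => ha (by
      simpa using dvd_add h1 d))
    obtain ⟨z, hz⟩ := h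
    exact ⟨iv (e + 1) b * x - iv (e + 1) a * y - iv (e + 1) a * iv (e + 1) b * z, by
      linear_combination iv (e + 1) b * hx - iv (e + 1) a * hy - iv (e + 1) a * iv (e + 1) b * hz⟩

theorem iv_congr {e : ℕ} {a b : O} (h : (3 : O) ^ e ∣ a - b) : (3 : O) ^ e ∣ iv e a - iv e b :=
  t2_iv le_rfl h

theorem t2_star {a : O} (h : ¬ w ∣ a) : ¬ w ∣ star a := fun ⟨x, k⟩ => h ⟨-1 * star x, by
  rw [← star_star a, k, star_mul', ← mul_assoc, show star w = w * -1 by decide]⟩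

theorem t2_star2 {j : ℕ} {a b : O} (h : (3 : O) ^ j ∣ a - b) : (3 : O) ^ j ∣ star a - star b := by
  obtain ⟨x, k⟩ := h
  exact ⟨star x, by rw [← star_sub, k, star_mul', star_pow, star_ofNat]⟩

theorem tht_spec (φ : O → O) {e : ℕ} {a : O} (h : ¬ w ∣ a) :
    (3 : O) ^ e ∣ Tht φ e a * star a - φ a := by
  rw [Tht, mul_assoc, ← mul_sub_one]
  exact (iv_spec (t2_star h)).mul_left _

theorem oq_zero {j : ℕ} {a : O} : oq (JX j) a = 0 ↔ (3 : O) ^ (j + 1) ∣ a := by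
  rw [← dvd_oW, ← constantCoeff_C (oW a), ← mem_X_sup, ← Ideal.Quotient.eq_zero_iff_mem]
  rfl

theorem oq_surj (j : ℕ) : Function.Surjective (oq (JX j)) := fun x => by
  obtain ⟨f, rfl⟩ := Ideal.Quotient.mk_surjective x
  obtain ⟨a, ha⟩ := exists_ap (j + 1) (constantCoeff f)
  exact ⟨a, (Ideal.Quotient.eq.2 (mem_X_sup.2 (by simpa using ha))).symm⟩

theorem mk_JX (j : ℕ) (f : La) :
    Ideal.Quotient.mk (JX j) f = Ideal.Quotient.mk (JX j) (C (constantCoeff f)) :=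
  Ideal.Quotient.eq.2 (mem_X_sup.2 (by simp))

theorem t2_C {J : Ideal La} {j : ℕ} (h : aa j ≤ J) {x y : Ow} (k : (3 : Ow) ^ (j + 1) ∣ x - y) :
    Ideal.Quotient.mk J (C x) = Ideal.Quotient.mk J (C y) := by
  obtain ⟨z, hz⟩ := k
  refine Ideal.Quotient.eq.2 (h ?_)
  rw [← map_sub, hz, map_mul, ← lb_C2]
  exact Ideal.mul_mem_right _ _ (two_pow_mem j)

theorem t2_per (c : Cb) {j e : ℕ} (k : j ≤ e) {a a' : O} (h : c.m0 j ∣ a - a') :
    (3 : Ow) ^ j ∣ oW (Tht c.φ e a) - oW (Tht c.φ e a') := by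
  rw [← map_sub, dvd_oW, Tht, Tht, c.phi.per' (c.dvd_m0 j).2.1 h, ← mul_sub]
  exact (t2_iv k (t2_star2 ((c.dvd_m0 j).2.2.trans h))).mul_left _

theorem t2_eqv (c : Cb) {j e : ℕ} (k : j ≤ e) {m a : O} (h0 : m ≠ 0) (h : c.m0 j ∣ m) {g : Gam}
    (hg : g ∈ G) (ha : IsCoprime a m) : (3 : Ow) ^ j ∣ oW (Tht c.φ e (cm m g * a)) -
      rho0 c.t g * algebraMap ℤ_[3] Ow (cyc g⁻¹) * oW (Tht c.φ e a) := by
  obtain ⟨d1, d2, d3⟩ := c.dvd_m0 j
  have nw : ∀ {x : O}, IsCoprime x m → ¬ w ∣ x := fun hx d =>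
    g1_w.not_isUnit (hx.isUnit_of_dvd' d (t2_w3.trans (d1.trans h)))
  obtain ⟨x, hx⟩ := dvd_oW.2 ((pow_dvd_pow 3 k).trans (iv_spec (t2_star (nw ha))))
  obtain ⟨y, hy⟩ := dvd_oW.2 ((pow_dvd_pow 3 k).trans
    (iv_spec (t2_star (nw ((cm_cop h0 hg).mul_left ha)))))
  obtain ⟨z, hz⟩ := psi_cm h0 (d3.trans h) hg
  have h1 := congrArg star hz
  have h2 : psi g * star (psi g) * algebraMap ℤ_[3] Ow (cyc g⁻¹) = 1 := by
    rw [mul_star_Ow, norm_psi hg, ← map_mul, ← H3.cyc_mul, mul_inv_cancel, H3.cyc_one, map_one]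
  rw [star_sub, star_mul', star_pow, star_ofNat, ← oW_star] at h1
  rw [star_mul'] at hy
  simp only [map_sub, map_mul, map_one] at hx hy
  rw [Tht, Tht, c.phi.gch.mul, c.phi.link c.t h0 (d2.trans h) hg, rho0, star_mul']
  simp only [map_mul]
  generalize oW (iv e (star (cm m g) * star a)) = p at hy ⊢
  generalize oW (iv e (star a)) = q at hx ⊢
  generalize algebraMap ℤ_[3] Ow (cyc g⁻¹) = r at h2 ⊢
  refine ⟨oW (un (kk c.t.N g)) * oW (c.φ a) * (psi g * r * q * y - p * x +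
    psi g * r * q * p * oW (star a) * star z), ?_⟩
  linear_combination oW (un (kk c.t.N g)) * oW (c.φ a) * (psi g * r * q * hy - p * hx +
    psi g * r * q * p * oW (star a) * h1 - p * q * oW (star a) * h2)

namespace Cx

variable (c : Cx) {g : Gam} {k n j : ℕ}

theorem kb (b : Bool) (k : ℕ) : Kb (c.m k) (c.α b).π (c.Wq (aa k) k) (md (aa k) (c.θ k)) := by
  have d1 : c.m0 (k + 1) ∣ c.m k := dvd_mul_right _ _
  have d2 : (c.lv k).lam.π ∣ c.m k := dvd_mul_left _ _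
  refine ⟨c.m_ne k, (c.dvd_m0 _).1.trans d1, (c.α b).red,
    ((c.α b).prime.coprime_iff_not_dvd.2 fun d => ((c.α b).prime.dvd_or_dvd d).elim
      (c.nd_m0 _ _ (c.α_nd b)) (TP.not_dvd _ _ ((c.lv k).ne b))).symm,
    fun a a' h => ?_, fun g hg a ha _ => ?_, c.chr_θ k⟩
  · simp only [Wq, Wt, map_mul]
    rw [t2_C le_rfl (t2_per c.toCb le_rfl (d1.trans h)), (c.lv k).x.per a a' (d2.trans h)]
  · have nd : ∀ {x : O}, IsCoprime x (c.m k) → ¬ (c.lv k).lam.π ∣ x := fun hx d =>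
      (c.lv k).lam.prime.not_isUnit (hx.isUnit_of_dvd' d d2)
    have h1 : Ideal.Quotient.mk (aa k) (1 + X) ^ 3 ^ (c.lv k).s = 1 := by
      rw [← map_pow]
      exact Ideal.Quotient.eq.2 (c.pow_s k)
    simp only [Wq, Wt, md, θ, ρ, ex, Cb.r0, map_mul, map_pow]
    rw [t2_C le_rfl (t2_eqv c.toCb le_rfl (c.m_ne k) d1 hg ha),
      (c.lv k).x.mul _ _ (nd (cm_cop (c.m_ne k) hg)) (nd ha),
      (c.lv k).x.per _ _ (cm_of_dvd (c.m_ne k) hg d2), ZMod.val_add, ← pow_eq_pow_mod _ h1, pow_add,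
      Ix.ig]
    simp only [map_mul]
    ring

theorem kb' (b : Bool) {J : Ideal La} (h : aa k ≤ J) :
    Kb (c.m k) (c.α b).π (c.Wq J k) (md J (c.θ k)) := (c.kb b k).map (Ideal.Quotient.factor h)

theorem Wq_JX (j k : ℕ) (a : O) : c.Wq (JX j) k a = oq (JX j) (Tht c.φ (k + 1) a) := by
  rw [Wq, mk_JX, Wt]
  simp [oq]

/-- At the bottom of the tower the weight has a smaller conductor. -/
theorem kb0 (b : Bool) (h : j ≤ k) :
    Kb (c.m0 (j + 1)) (c.α b).π (c.Wq (JX j) k) (md (JX j) (c.θ k)) := by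
  refine ⟨c.m0_ne _, (c.dvd_m0 _).1, (c.α b).red,
    ((c.α b).prime.coprime_iff_not_dvd.2 (c.nd_m0 _ _ (c.α_nd b))).symm,
    fun a a' d => ?_, fun g hg a ha _ => ?_, (c.chr_θ k).fac (aa_le_sup h _)⟩
  · rw [Wq_JX, Wq_JX]
    exact t2_C le_sup_right (t2_per c.toCb (Nat.succ_le_succ h) d)
  · rw [Wq_JX, Wq_JX, md, mk_JX j (c.θ k g), θ, map_mul, ρ_const, constantCoeff_C]
    refine (t2_C le_sup_right
      (t2_eqv c.toCb (Nat.succ_le_succ h) (c.m0_ne _) dvd_rfl hg ha)).trans ?_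
    rw [map_mul C, map_mul (Ideal.Quotient.mk _)]
    rfl

theorem md_Fk (b : Bool) {J : Ideal La} (h : aa k ≤ J) (f : ZMod (3 ^ (k + 1)) →+* La ⧸ J) :
    md J (c.Fk b k) = FE f (c.m k) (c.α b).π (c.Wq J k) := by
  funext g
  rw [RingHom.ext_zmod f ((Ideal.Quotient.factor h).comp (fa k))]
  exact (congrArg (Ideal.Quotient.factor h) (congrFun (md_lft _) g)).trans (FE_map _ _)

theorem zc_Fk (b : Bool) (k : ℕ) : Zc G (md (aa k) (c.ρ true k)) (md (aa k) (c.Fk b k)) ∧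
    Unr (c.t0 k) (md (aa k) (c.Fk b k)) := by
  rw [Fk, md_lft]
  exact ⟨((c.kb b k).zc (fa k)).congr (fun g hg => (c.cy_θ _ hg).symm) fun _ _ => rfl,
    fun v hv σ hσ => (c.kb b k).unr _ hv.1 (c.V_m hv) hσ⟩

theorem Fk_down (b : Bool) (h : j ≤ k) (f : ZMod (3 ^ (k + 1)) →+* La ⧸ JX j) :
    ∃ z x, ∀ g ∈ G, md (JX j) (c.Fk b k) g =
      z * FE f (c.m0 (j + 1)) (c.α b).π (c.Wq (JX j) k) g + (md (JX j) (c.ρ true k) g - 1) * x := by
  have e : c.m0 (k + 1) = c.m0 (j + 1) * 3 ^ (k - j) := by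
    rw [c.m0_eq, c.m0_eq, mul_assoc, ← pow_add]
    congr 2
    omega
  have h0 : (3 : O) ^ (k - j) ≠ 0 := pow_ne_zero _ three_ne
  have h1 := (c.kb b k).cop
  rw [m, e] at h1
  obtain ⟨x, hx⟩ := (c.kb0 b h).ram f h0 fun p hp d => (hp.dvd_of_dvd_pow d).trans
    ((dvd_pow_self 3 j.succ_ne_zero).trans (c.dvd_m0 _).2.2)
  obtain ⟨y, hy⟩ := ((c.kb0 b h).up h0 h1.of_mul_left_left.of_mul_left_right).euler f (c.lv k).lam
    (e ▸ c.nd_m0 _ _ (c.lv k).nd) h1.of_mul_left_right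
  refine ⟨1 - md (JX j) (c.θ k) (c.lv k).lam.φ,
    (1 - md (JX j) (c.θ k) (c.lv k).lam.φ) * x + y, fun g hg => ?_⟩
  rw [c.md_Fk b (aa_le_sup h _) f, m, e, hy g hg, hx g hg, c.cy_θ f hg]
  ring

theorem sym_Fk (k : ℕ) : ∃ x : La, ∀ g ∈ G, c.ck false k * c.Fk true k g - c.ck true k * c.Fk false k g -
    (c.ρ true k g - 1) * x ∈ aa k := by
  obtain ⟨x, hx⟩ := Kb.sym (fa k) _ _ (c.kb true k) (c.kb false k)
  obtain ⟨x, rfl⟩ := Ideal.Quotient.mk_surjective x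
  refine ⟨x, fun g hg => Ideal.Quotient.eq.1 ?_⟩
  have := hx g hg
  rw [c.cy_θ _ hg, c.cy_θ _ (TP.φ_mem _), c.cy_θ _ (TP.φ_mem _), ← c.md_Fk _ le_rfl,
    ← c.md_Fk _ le_rfl] at this
  simpa only [md, ck, map_sub, map_mul, map_one, Bool.not_false, Bool.not_true] using this

variable {c}

theorem Stg.zc_kp (s : c.Stg n) (b : Bool) (k : ℕ) :
    Zc G (md (aa k) (c.ρ true k)) (md (aa k) (s.kp b k)) ∧ Unr (s.t k) (md (aa k) (s.kp b k)) := by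
  rw [Stg.kp, md_lft]
  exact ⟨(kol_zc (fa k) (s.good k b) (c.kb b k)).congr (fun g hg => (c.cy_θ _ hg).symm)
    fun _ _ => rfl, fun v hv σ hσ => kol_unr _ (s.good k b) (c.kb b k) hv.1 (s.off hv).2 hσ⟩

theorem Stg.kp_zero (s : c.Stg 0) (b : Bool) (k : ℕ) (hg : g ∈ G) : s.kp b k g -
    ((c.ρ true k c.g0 - 1) * c.Fk b k g - (c.ρ true k g - 1) * c.Fk b k c.g0) ∈ aa k := by
  have h := s.good k b
  have h1 := c.cy_θ (k := k) (fa k) h.mem
  rw [h.cy0, map_one, one_mul] at h1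
  refine Ideal.Quotient.eq.1 ((congrFun (md_lft _) g).trans ?_)
  rw [s.J0] at h ⊢
  rw [kol_empty _ h (c.kb b k) hg, c.cy_θ _ hg, h1, ← c.md_Fk _ le_rfl]
  simp only [md, map_sub, map_mul, map_one]

end Cx

end Pool.Agent.Lib.MP_696deb_nt.EV
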