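import Pool.Agent.Lib.MP_696deb_nt.EV.S4
import Pool.Agent.Lib.MP_696deb_nt.EV.Es
import Pool.Agent.Lib.MP_696deb_nt.EV.P5

/-! Change of level for Kummer cocycles. -/

set_option autoImplicit false

open scoped Classical NNReal
open Finset

namespace Pool.Agent.Lib.MP_696deb_nt.EV

theorem Fam.kf {X : Type} [MulAction Gam X] {H : Subgroup Gam} {e : ℕ} {S : Finset X}
    {y : X → Qbar} (k : Fam H e S y) : KF H S (fun x => y x ^ 3 ^ e) (kc e y) :=
  ⟨y, fun x hx => ⟨k.ne x hx, rfl⟩, fun g hg x hx => by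
    rw [kc, ← lg_spec (k.root hg hx), mul_div_cancel₀ _ (k.ne x hx)]⟩

variable {R : Type} [CommRing R] {ρ ρ' c c' : Gam → R} {e : ℕ}

theorem spl_cupR' (f : ZMod (3 ^ e) →+* R) {H : Subgroup Gam} (hH : H ≤ G) (h : Chr ρ) (h' : Chr ρ')
    (hd : ∀ g ∈ G, ρ g * ρ' g = f (cy e g)) (hc : Zc H ρ c) {x : R}
    (hc' : ∀ g ∈ H, c' g = (ρ' g - 1) * x) (l : R →+ ZMod (3 ^ e)) :
    Spl e H (cupR l ρ' c c') := by
  refine ⟨fun g => l (-(c g * (ρ' g * x))), hc.1.comp₂ (h'.sm.mono hH) fun y z => l (-(y * (z * x))),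
    fun g hg k hk => ?_⟩
  simp only [cupR]
  rw [← p5_lin f, ← hd g (hH hg), hc' k hk, hc.2 g hg k hk, h'.mul g (hH hg) k (hH hk), ← map_add,
    ← map_sub, smul_eq_mul]
  congr 1
  ring

theorem KF.down' {X : Type} [MulAction Gam X] {H : Subgroup Gam} {S : Finset X} {a : X → Qbar}
    {E : ℕ} {l : Gam → X → ZMod (3 ^ E)} (h : KF H S a l) (k : e ≤ E) :
    KF H S a fun g P => (((l g P).val : ℕ) : ZMod (3 ^ e)) := by
  obtain ⟨r, rfl⟩ := Nat.exists_eq_add_of_le k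
  simpa only [ZMod.castHom_apply, ZMod.natCast_val] using h.down

theorem erl_cy {E : ℕ} (k : e ≤ E) (g : Gam) : (((cy E g).val : ℕ) : ZMod (3 ^ e)) = cy e g := by
  obtain ⟨r, rfl⟩ := Nat.exists_eq_add_of_le k
  simpa only [ZMod.castHom_apply, ZMod.natCast_val] using dn_cy (e := e) r g

theorem erl_lin {E : ℕ} (f : ZMod (3 ^ E) →+* R) (l : R →+ ZMod (3 ^ e)) (n : ℕ)
    (a b : ZMod (3 ^ E)) (x : R) : l (3 ^ n * f a * f b * x) =
      3 ^ n * (l x * ((a.val : ℕ) : ZMod (3 ^ e)) * ((b.val : ℕ) : ZMod (3 ^ e))) := by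
  have := map_nsmul l (3 ^ n * a.val * b.val) x
  rw [nsmul_eq_mul, nsmul_eq_mul] at this
  conv_lhs => rw [← ZMod.natCast_zmod_val a, ← ZMod.natCast_zmod_val b, map_natCast, map_natCast]
  push_cast at this
  rw [this]
  ring

end Pool.Agent.Lib.MP_696deb_nt.EV
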