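import Pool.Agent.Lib.MP_696deb_nt.EV.T2
import Pool.Agent.Lib.MP_696deb_nt.EV.S5

/-! The explicit reciprocity law at finite level. -/

set_option autoImplicit false

open scoped Classical NNReal
open Finset PowerSeries

namespace Pool.Agent.Lib.MP_696deb_nt.EV

namespace Cx

theorem erl_fin (c : Cx) (hv : c.Van) : ∃ a : ℕ, ∀ j k τ, j ≤ k → 2 * j + a ≤ 3 * τ →
    ∀ (f : ZMod (3 ^ (k + 1)) →+* La ⧸ JX j) (l : La ⧸ JX j →+ ZMod (3 ^ (j + 1))) (z : La ⧸ JX j),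
    Spl (j + 1) Hw (cupR l (md (JX j) (c.ρ true k))
      (fun g => z * (3 ^ (τ + 1) * c.t.N * md (JX j) (c.ks k) g))
      (FE f (c.m0 (j + 1)) (c.α true).π (c.Wq (JX j) k))) := by
  obtain ⟨a, ha⟩ := erl_core c.phi (c.α true).red
    ((c.α true).prime.irreducible.coprime_iff_not_dvd.2 (c.α_2 true)).symm
    (c.tp c.i0).prime (c.tp c.i0).red (c.dvd _)
    (fun h => c.α_nd true (((c.tp c.i0).prime.irreducible.dvd_symm (c.α true).prime.irreducible
      h).trans (c.dvd _))) c.Q_mem c.Q_fix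
  refine ⟨a + 5, fun j k τ hj hτ f l z => ?_⟩
  have kb := c.kb0 true hj
  have hH : Hw ≤ G := inf_le_left
  have fm := (fam_Im kb.ne kb.w3 kb.red (k + 1)).mono hH
  have e2 : (3 : O) ^ (j + 1) * 3 ^ (k - j) = 3 ^ (k + 1) := by
    rw [← pow_add]; congr 1; omega
  have od : ∀ P ∈ Im (c.m0 (j + 1)), ¬ w ∣ co (c.m0 (j + 1)) P := fun P hP h =>
    g1_w.not_isUnit ((co_cop kb.ne hP).isUnit_of_dvd' h (w_dvd_three.trans kb.w3))
  refine spl_congr (ha (j + 1) (j + 1 + 3) τ c.t.N _ (by rw [c.m0_eq, Int.cast_natCast])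
    kb.ne (by omega) (c.dvd_m0 _).2.1 (by omega) (hv _ true) ((3 : O) ^ (k - j) • c.Q1 (k + 1))
    (by rw [← mul_smul, e2, c.Q1_spec])
    (l.comp ((AddMonoidHom.mulLeft z).comp (oq (JX j)).toAddMonoidHom))
    (fun P => Tht c.φ (k + 1) (co (c.m0 (j + 1)) P))
    (fun P hP => (Dvd.intro _ e2).trans (tht_spec c.φ (od P hP))) _
    ((fm.kf.congr fun P _ => (es_pow _ _ P).symm).down' (by omega))) fun g hg h _ => ?_
  have a0 : oq (JX j) (star (co (3 ^ (j + 1)) (c.t.cob ((3 : O) ^ (k - j) • c.Q1 (k + 1)) g))) =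
      md (JX j) (c.ks k) g := by
    have a4 : ((3 : O) ^ (j + 1) * 3 ^ (k - j)) • c.t.cob (c.Q1 (k + 1)) g = 0 := by
      rw [e2, Tw.cob, smul_sub, ← tw_smul _ (hH hg), c.Q1_spec, c.Q_fix g hg, sub_self]
    obtain ⟨u, hu⟩ := co_down (two_ne _) (two_ne _) a4
    rw [e2, Tw.cob, smul_sub, ← tw_smul _ (hH hg)] at hu
    refine sub_eq_zero.1 ((map_sub (oq (JX j)) _ _).symm.trans (oq_zero.2 ⟨star u, ?_⟩))
    rw [← star_sub]
    refine (congrArg star hu).trans ?_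
    rw [star_mul', star_pow, star_ofNat]
  rw [cupR, FE, FF, SS, ← fm.sum_act (inv_mem hg), mul_sum, mul_sum, map_sum, mul_sum]
  refine sum_congr rfl fun P hP => ?_
  have a1 := kb.act (hH hg) (fm.stab _ (inv_mem hg) P hP)
  rw [smul_inv_smul] at a1
  change _ = _ * (l (z * oq (JX j) _) * _ * _)
  rw [map_mul (oq _), map_mul (oq _), map_intCast, a0, ← c.Wq_JX, a1, ← c.cy_θ f (hH hg),
    ← erl_cy (Nat.succ_le_succ hj), ← erl_lin f, Int.cast_natCast]
  congr 1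
  ring

end Cx

end Pool.Agent.Lib.MP_696deb_nt.EV
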