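import Pool.Agent.Lib.MP_696deb_nt.EV.Kol

/-! The derived classes at the primes of the conductor. -/

set_option autoImplicit false

open scoped Classical NNReal
open Finset

namespace Pool.Agent.Lib.MP_696deb_nt.EV

variable {R : Type} [CommRing R] {e : ℕ} {m b : O} {W : O → R} {θ : Gam → R} {g g0 : Gam}
  {J : Finset (DP e)} {r : DP e}

theorem k2_root {v : Plc} {u x : Qbar} (h : v.V (u ^ 3 ^ e - x ^ 3 ^ e) < 1) :
    ∃ y, y ^ 3 ^ e = x ^ 3 ^ e ∧ v.V (y - u) < 1 := by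
  rw [(H3.zeta_prim e).pow_sub_pow_eq_prod_sub_mul u x (pow_pos three_pos e), map_prod] at h
  by_contra hn
  refine absurd h (not_lt.2 (one_le_prod' fun z hz => not_lt.1 fun k => hn ⟨z * x, ?_, ?_⟩))
  · rw [mul_pow, (Polynomial.mem_nthRootsFinset (pow_pos three_pos e) _).1 hz, one_mul]
  · rwa [Valuation.map_sub_swap]

theorem k2_V {v : Plc} {x y : Qbar} (h : x ^ 3 ^ e = y) (k : v.V y = 1) : v.V x = 1 :=
  (pow_eq_one_iff_of_nonneg zero_le (pow_pos three_pos e).ne').1 (by rw [← map_pow, h, k])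

theorem k2_eq {v : Plc} (hv : v.p ≠ 3) {x y : Qbar} (h : x ^ 3 ^ e = y ^ 3 ^ e) (k : v.V y = 1)
    (hV : v.V (x - y) < 1) : x = y := by
  have h0 : y ≠ 0 := fun z => by simp [z] at k
  refine (div_eq_one_iff_eq h0).1 (root_eq (e := e) hv ?_ (one_pow _) ?_)
  · rw [div_pow, h, div_self (pow_ne_zero _ h0)]
  · rwa [div_sub_one h0, map_div₀, k, div_one]

theorem k2_tr {v : Plc} {x y z : Qbar} (h : v.V (x - y) < 1) (k : v.V (y - z) < 1) :
    v.V (x - z) < 1 := by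
  rw [← sub_add_sub_cancel x y z]
  exact v.V.map_add_lt h k

theorem k2_sw {v : Plc} {x y : Qbar} (h : v.V (x - y) < 1) : v.V (y - x) < 1 := by
  rwa [Valuation.map_sub_swap]

theorem k2_comm {n : O} {P : A} {h : Gam} (hn : n ≠ 0) (hg : g ∈ G) (hh : h ∈ G) (hP : n • P = 0) :
    g • h • P = h • g • P := by
  rw [cm_spec hn hh hP, act_smul hg, cm_spec hn hg hP, act_smul hh, cm_spec hn hh hP,
    smul_comm (cm n h)]

theorem k2_yb (b : O) (e : ℕ) (P : A) : yb b e P ^ 3 ^ e = ub b P := rt3_pow _ _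

theorem k2_push (S : Finset A) (p : A → A) (y : A → Qbar) (B : A) :
    push S p y B = ∏ P ∈ S with p P = B, y P := by
  rw [push]
  congr

theorem k2_unit (hm : m ≠ 0) (k : (3 : O) ∣ m) (hb : CU.red b ≠ 0) {v : Plc} (hv : v.p ≠ 3) {P : A}
    (hP : P ∈ Im m) : v.V (yb b e P) = 1 := k2_V (k2_yb b e P) (Im_unit hb hm k hv hP)

theorem k2_near (hm : m ≠ 0) (k : (3 : O) ∣ m) (hb : CU.red b ≠ 0) (t : TP) (ht : ¬ t.π ∣ m)
    (e : ℕ) : ∃ y : A → Qbar, ∀ P ∈ pre t.π (Im m), y P ^ 3 ^ e = yb b e P ^ 3 ^ e ∧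
      t.v.V (y P - yb b e (t.φ⁻¹ • t.π • P)) < 1 := by
  have : ∀ P : A, ∃ y : Qbar, P ∈ pre t.π (Im m) → y ^ 3 ^ e = yb b e P ^ 3 ^ e ∧
      t.v.V (y - yb b e (t.φ⁻¹ • t.π • P)) < 1 := fun P => by
    by_cases hP : P ∈ pre t.π (Im m)
    · have h1 := act_Im hm k (inv_mem t.φ_mem) ((mem_pre t.prime.ne_zero).1 hP)
      have h2 := act_frob t ht (Im_kill hm h1)
      rw [smul_inv_smul] at h2
      have h3 := Im_notMem hm k t.odd h1 (n := 1) (R := 0) (by decide) (smul_zero _)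
      rw [add_zero] at h3
      have h4 := EW.ub_cong t.odd hb h3 (Q := P)
        (EW.mem_Kr_of t.prime t.red t.lt (by rw [smul_sub, ← h2, sub_self]))
      rw [← k2_yb b e, ← k2_yb b e] at h4
      obtain ⟨y, h5⟩ := k2_root h4
      exact ⟨y, fun _ => h5⟩
    · exact ⟨0, fun h => absurd h hP⟩
  choose y hy using this
  exact ⟨y, hy⟩

theorem k2_sub (hm : m ≠ 0) (t : TP) {P : A} (hP : P ∈ Im (m * t.π)) : P ∈ pre t.π (Im m) :=
  (mem_pre t.prime.ne_zero).2 (Im_down hm t.prime.ne_zero hP)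

/-- Roots that are congruent to the roots of the lower level. -/
theorem exists_near (hm : m ≠ 0) (k : (3 : O) ∣ m) (hb : CU.red b ≠ 0) (t : TP) (ht : ¬ t.π ∣ m)
    (e : ℕ) : ∃ y : A → Qbar, ∀ P ∈ Im (m * t.π), y P ^ 3 ^ e = yb b e P ^ 3 ^ e ∧
      t.v.V (y P - yb b e (t.φ⁻¹ • t.π • P)) < 1 :=
  (k2_near hm k hb t ht e).imp fun _ h P hP => h P (k2_sub hm t hP)

theorem k2_cy (r : DP e) : cy e r.t.φ = 1 := by
  have h1 : 1 ≤ nm r.t.π := by have := r.t.nm_mod; omega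
  have h2 : 3 ^ e ∣ nm r.t.π - 1 := (pow_dvd_pow 3 (Nat.le_add_right e 1)).trans r.x.dvd
  rw [cy, r.t.cyc_φ, map_natCast, ← Nat.sub_add_cancel h1, Nat.cast_add, Nat.cast_one,
    (ZMod.natCast_eq_zero_iff _ _).2 h2, zero_add]

variable (f : ZMod (3 ^ e) →+* R)

theorem k2_per (k : Kb m b W θ) {a a' : O} (h : mJ m J ∣ a - a') : WJ f W J a = WJ f W J a' := by
  rw [WJ, WJ, k.per a a' ((Dvd.intro _ rfl).trans h)]
  congr 1
  exact prod_congr rfl fun r hr => by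
    rw [r.x.per a a' (((dvd_prod_of_mem (fun r : DP e => r.t.π) hr).mul_left m).trans h)]

theorem k2_act (h : Good m b θ g0 J) (k : Kb m b W θ) (hg : g ∈ G) (hi : ∀ r ∈ J, r.x.ig g = 0)
    {P : A} (hP : P ∈ Im (mJ m J)) :
    WJ f W J (co (mJ m J) (g • P)) = θ g * WJ f W J (co (mJ m J) P) := by
  rw [h.act f k subset_rfl hg hP, WJ]
  congr 2
  exact prod_congr rfl fun r hr => by rw [hi r hr, map_zero, add_zero]

theorem k2_ins (hr : r ∉ J) (a : O) : WJ f W (insert r J) a = WJ f W J a * f (r.x.ind a) := by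
  rw [WJ, WJ, prod_insert hr]
  ring

/-- The value at an element that fixes the weight. -/
theorem k2_kap {S : Finset A} {y : A → Qbar} {vp : R} {V : A → R} (h : cy e g = 1)
    (k : ∀ P ∈ S, V (g • P) = V P) : kap f S y vp g0 V g = vp * FF f S y V g := by
  rw [kap, h, map_one, one_mul, FF_congr f (W := tr V g) (W' := V) k, sub_add_cancel]

/-- The comparison at the lower level. -/
theorem k2_down (hm : m ≠ 0) (k : (3 : O) ∣ m) (hb : CU.red b ≠ 0) (t : TP) (ht : ¬ t.π ∣ m)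
    (hc : IsCoprime t.π b) {y : A → Qbar}
    (hy : ∀ P ∈ pre t.π (Im m), y P ^ 3 ^ e = yb b e P ^ 3 ^ e ∧
      t.v.V (y P - yb b e (t.φ⁻¹ • t.π • P)) < 1) {V : A → R} {a : R} (h0 : g0 ∈ G)
    (h1 : cy e g0 = 1) (h2 : ∀ P ∈ Im m, V (g0 • P) = a * V P)
    (h3 : ∀ P ∈ Im m, V (t.φ • P) = V P) :
    FF f (Im (m * t.π)) y (fun P => V (t.π • P)) g0 = (a - 1) * FF f (Im m) (yb b e) V t.φ := by
  have n0 := t.prime.ne_zero
  obtain ⟨e1, e2⟩ := pre_new hm k t.prime t.prim ht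
  have fr : ∀ P ∈ Im m, t.φ • P = t.π • P := fun P hP => act_frob t ht (Im_kill hm hP)
  have F0 : Fam G e (pre t.π (Im m)) y := (fam_yb hb (fun g hg P hP => (mem_pre n0).2 (by
    rw [← act_smul hg]
    exact act_Im hm k hg ((mem_pre n0).1 hP))) (fun P hP z => Im_ne hm k ((mem_pre n0).1 hP) hb (by
      rw [smul_comm, z, smul_zero])) e).of_pow fun P hP => (hy P hP).1
  have F1 := fam_Im hm k hb e
  have lo : ∀ P ∈ Im m, y P = yb b e P := fun P hP => by
    obtain ⟨s1, s2⟩ := hy P (e1 ▸ mem_union_right _ hP)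
    rw [← fr P hP, inv_smul_smul] at s2
    exact k2_eq t.odd s1 (k2_unit hm k hb t.odd hP) s2
  have pw : ∀ B ∈ Im m, push (pre t.π (Im m)) (fun P : A => t.π • P) y B ^ 3 ^ e =
      yb b e B ^ 3 ^ e := fun B hB => by
    rw [push_pow hb n0 hc hB (fun z => Im_ne hm k hB hb (by rw [z, smul_zero])) e, k2_push, k2_push,
      ← prod_pow, ← prod_pow]
    exact prod_congr rfl fun P hP => (hy P (mem_filter.1 hP).1).1
  have pu : ∀ B ∈ Im m, push (pre t.π (Im m)) (fun P : A => t.π • P) y B =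
      t.φ (yb b e (t.φ⁻¹ • B)) := fun B hB => by
    have s1 := act_Im hm k (inv_mem t.φ_mem) hB
    have s2 : t.π • t.φ⁻¹ • B = B := by rw [← fr _ s1, smul_inv_smul]
    have s3 := k2_unit (e := e) hm k hb t.odd s1
    refine k2_eq (e := e) t.odd ?_ (by rw [B2.mem_Dec.1 t.tm.frob.1, s3]) ?_
    · rw [pw B hB, ← map_pow, F1.eqv _ t.φ_mem _ s1, smul_inv_smul]
    · refine k2_tr ?_ (k2_sw (t.tm.frob.2 _ s3.le))
      have s4 : nm t.π = (En t.π).card := by rw [nm, ← EW.card_En n0, Int.natAbs_natCast]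
      rw [k2_push, pre_fibre n0 hB s2, s4]
      refine EW.V_prod_sub _ s3.le fun T hT => ?_
      have s5 : t.π • (t.φ⁻¹ • B + T) = B := by
        rw [smul_add, s2, (EW.mem_En n0).1 hT, add_zero]
      have := (hy _ ((mem_pre n0).2 (s5.symm ▸ hB))).2
      rwa [s5] at this
  have c1 := FF_push f F0 (S' := Im m) (p := fun P : A => t.π • P)
    (fun P hP => (mem_pre n0).1 hP) (fun g hg P _ => (act_smul hg _ _).symm) h0 V
  have c2 := FF_root f (W := V) F1 pw h0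
  have c3 : XX f (Im m) (yb b e) (push (pre t.π (Im m)) (fun P : A => t.π • P) y) V =
      -FF f (Im m) (yb b e) V t.φ := by
    rw [XX, FF, ← sum_neg_distrib]
    refine sum_congr rfl fun B hB => ?_
    rw [pu B hB, ← one_div_div, lg_div (one_pow _) (F1.root t.φ_mem hB), lg_one, zero_sub,
      map_neg, neg_mul, kc]
  have c4 : FF f (Im m) y (fun P => V (t.π • P)) g0 = FF f (Im m) (yb b e) V g0 :=
    sum_congr rfl fun P hP => by
      beta_reduce
      rw [kc, kc, lo P hP, lo _ (act_Im hm k (inv_mem h0) hP), ← fr P hP, h3 P hP]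
  have c5 : FF f (Im (m * t.π) ∪ Im m) y (fun P => V (t.π • P)) g0 = _ := sum_union e2
  rw [XX_tr f F1 h2, h1, map_one, c3, ← c1, e1, c5, ← FF, ← FF, c4] at c2
  linear_combination -c2

theorem kol_σ (h : Good m b θ g0 (insert r J)) (k : Kb m b W θ) (hr : r ∉ J) :
    kol f m b W θ g0 (insert r J) r.t.σ = -kol f m b W θ g0 J r.t.φ := by
  have h' := h.mono (subset_insert r J)
  obtain ⟨m0, m3⟩ := h'.ne k
  obtain ⟨n0, n3⟩ := h.ne k
  have nd := h.nd' hr
  have ri := mem_insert_self r J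
  have hσ := r.t.σ_mem
  obtain ⟨y, hy⟩ := k2_near m0 m3 k.red r.t nd e
  have a1 : ∀ P ∈ Im (mJ m J), WJ f W J (co (mJ m J) (r.t.φ • P)) = WJ f W J (co (mJ m J) P) :=
    fun P hP => by
      rw [k2_act f h' k r.t.φ_mem (fun r' hr' => h.ig r ri r' (mem_insert_of_mem hr')) hP,
        h.th r ri, one_mul]
  have a2 := k2_down f m0 m3 k.red r.t nd (h.cop r ri) hy
    (V := fun P => WJ f W J (co (mJ m J) P)) h.mem h.cy0
    (fun P hP => k2_act f h' k h.mem h'.ig0 hP) a1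
  have a3 : ∀ P ∈ Im (mJ m (insert r J)), WJ f W (insert r J) (co (mJ m (insert r J)) (g0 • P)) =
      (1 + (θ g0 - 1)) * WJ f W (insert r J) (co (mJ m (insert r J)) P) := fun P hP => by
    rw [k2_act f h k h.mem h.ig0 hP, add_sub_cancel]
  have a4 : ∀ P ∈ Im (mJ m (insert r J)),
      WJ f W (insert r J) (co (mJ m (insert r J)) (r.t.σ • P)) =
        WJ f W (insert r J) (co (mJ m (insert r J)) P) + WJ f W J (co (mJ m J) (r.t.π • P)) :=
    fun P hP => by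
      have s1 : θ r.t.σ * W (co (mJ m (insert r J)) P) = W (co (mJ m (insert r J)) P) := by
        rw [← k.eqv _ hσ _ ((co_cop n0 hP).of_isCoprime_of_dvd_right (Dvd.intro _ rfl))
          (co_prim n0 n3 hP)]
        refine k.per _ _ ?_
        rw [← sub_one_mul]
        exact (cm_ine r.t.odd (r.t.V_eq.2 (h.nd r ri)) r.t.σ_ine).mul_right _
      have s2 : ∏ r' ∈ J, (f (r'.x.ind (co (mJ m (insert r J)) P)) + f (r'.x.ig r.t.σ)) =
          ∏ r' ∈ J, f (r'.x.ind (co (mJ m (insert r J)) P)) := prod_congr rfl fun r' hr' => by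
        rw [r'.x.ig_ine r.t.odd (r.t.V_eq.2 (r.t.not_dvd r'.t fun z =>
          hr (h.inj r ri r' (mem_insert_of_mem hr') z ▸ hr'))) r.t.σ_ine, map_zero, add_zero]
      rw [h.act f k subset_rfl hσ hP, ← mul_assoc, s1, prod_insert hr, s2, r.x.ig_sigma, map_one,
        k2_ins f hr]
      rw [mJ_insert hr] at hP ⊢
      rw [k2_per f k (co_down m0 r.t.prime.ne_zero (Im_kill (mJ_insert hr ▸ n0) hP)), WJ]
      ring
  have a5 : ∀ P ∈ Im (mJ m (insert r J)), P ∈ pre r.t.π (Im (mJ m J)) := fun P hP =>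
    k2_sub m0 r.t (mJ_insert hr ▸ hP)
  have F1 := fam_Im n0 n3 k.red e
  have a6 : FF f (Im (mJ m (insert r J))) y
      (fun P => WJ f W (insert r J) (co (mJ m (insert r J)) P)) r.t.σ = 0 :=
    sum_eq_zero fun P hP => by
      have s1 := F1.stab _ (inv_mem hσ) _ hP
      have s2 := (hy _ (a5 _ s1)).2
      rw [← act_smul (inv_mem hσ), act_ine r.t.odd (r.t.V_eq.2 nd) (inv_mem r.t.σ_ine)
        (Im_kill m0 ((mem_pre r.t.prime.ne_zero).1 (a5 _ hP)))] at s2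
      have s3 : ∀ Q ∈ Im (mJ m (insert r J)), r.t.v.V (y Q) = 1 := fun Q hQ =>
        k2_V ((hy _ (a5 _ hQ)).1.trans (k2_yb _ _ _)) (Im_unit k.red n0 n3 r.t.odd hQ)
      have s4 : r.t.σ (y (r.t.σ⁻¹ • P)) = y P := by
        refine k2_eq (e := e) r.t.odd ?_ (s3 P hP)
          (k2_tr (k2_tr (r.t.σ_ine.2 _ (s3 _ s1).le) s2) (k2_sw (hy _ (a5 _ hP)).2))
        rw [← map_pow, (hy _ (a5 _ s1)).1, F1.eqv _ hσ _ s1, smul_inv_smul, (hy _ (a5 _ hP)).1]
      rw [kc, s4, div_self fun z => by simpa [z] using s3 P hP, lg_one, map_zero, zero_mul]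
  rw [kol, kol, k2_kap f (k2_cy r) a1,
    kap_root f F1 (fun P hP => (hy _ (a5 _ hP)).1) hσ h.mem h.cy0 a3 fun P hP => by
      rw [k2_comm n0 hσ h.mem (Im_kill n0 hP)]
      exact a3 _ (F1.stab _ hσ _ hP),
    kap, a6, cy, r.t.cyc_σ, map_one, map_one, FF_congr f (W := tr _ _) a4, FF_add, ← a2,
    mJ_insert hr]
  ring

theorem kol_φ (h : Good m b θ g0 J) (k : Kb m b W θ) (hr : r ∈ J) :
    kol f m b W θ g0 J r.t.φ = 0 := by
  obtain ⟨J, hJ, rfl⟩ : ∃ J', r ∉ J' ∧ J = insert r J' :=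
    ⟨J.erase r, notMem_erase _ _, (insert_erase hr).symm⟩
  have h' := h.mono (subset_insert r J)
  obtain ⟨m0, m3⟩ := h'.ne k
  obtain ⟨n0, n3⟩ := h.ne k
  have nd := h.nd' hJ
  have hφ := r.t.φ_mem
  have p0 := r.t.prime.ne_zero
  obtain ⟨y, hy⟩ := exists_near m0 m3 k.red r.t nd e
  have a1 : ∀ P ∈ Im (mJ m (insert r J)),
      WJ f W (insert r J) (co (mJ m (insert r J)) (r.t.φ • P)) =
        1 * WJ f W (insert r J) (co (mJ m (insert r J)) P) := fun P hP => by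
    rw [k2_act f h k hφ (h.ig r hr) hP, h.th r hr]
  have F1 := fam_Im n0 n3 k.red e
  have F0 := fam_Im m0 m3 k.red e
  rw [kol, k2_kap f (k2_cy r) fun P hP => (a1 P hP).trans (one_mul _)]
  rw [mJ_insert hJ] at a1 F1 n0 n3 ⊢
  rw [FF_root f F1 (fun P hP => (hy P hP).1) hφ, XX_tr f F1 a1, k2_cy, map_one, one_mul, one_mul,
    sub_self, add_zero, FF, ← sum_fiberwise_of_maps_to (g := fun P : A => r.t.π • P)
      fun P hP => Im_down m0 p0 hP]
  refine mul_eq_zero_of_right _ (sum_eq_zero fun B hB => ?_)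
  obtain ⟨T, hT, -⟩ := EW.exists_rep p0
  have s1 := F0.stab _ (inv_mem hφ) _ hB
  have s2 := F0.stab _ (inv_mem hφ) _ s1
  have a2 : ∀ P ∈ Im (mJ m J * r.t.π), r.t.π • P = B →
      kc e y r.t.φ P = kc e (yb b e) r.t.φ (r.t.φ⁻¹ • B) := fun P hP hp => by
    have s3 := (hy P hP).2
    have s4 := (hy _ (F1.stab _ (inv_mem hφ) _ hP)).2
    rw [← act_smul (inv_mem hφ), hp] at s4
    rw [hp] at s3
    have s5 := (F1.of_pow fun P hP => (hy P hP).1).root hφ hP
    have s6 := F0.root hφ s1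
    have s7 : r.t.v.V (y P) = 1 :=
      k2_V ((hy P hP).1.trans (k2_yb _ _ _)) (Im_unit k.red n0 n3 r.t.odd hP)
    have s8 := k2_unit (e := e) m0 m3 k.red r.t.odd s1
    have s9 := k2_unit (e := e) m0 m3 k.red r.t.odd s2
    rw [← B2.mem_Dec.1 r.t.tm.frob.1] at s4 s9
    rw [map_sub] at s4
    rw [kc, kc, root_eq r.t.odd s5 s6]
    have y0 : y P ≠ 0 := fun z => by simp [z] at s7
    have y1 : yb b e (r.t.φ⁻¹ • B) ≠ 0 := fun z => by simp [z] at s8
    generalize r.t.φ (y (r.t.φ⁻¹ • P)) = a at *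
    generalize r.t.φ (yb b e (r.t.φ⁻¹ • r.t.φ⁻¹ • B)) = a' at *
    rw [div_sub_div _ _ y0 y1, map_div₀, map_mul, s7, s8, mul_one, div_one,
      show a * yb b e (r.t.φ⁻¹ • B) - y P * a' =
        (a - a') * yb b e (r.t.φ⁻¹ • B) - (y P - yb b e (r.t.φ⁻¹ • B)) * a' by ring]
    exact r.t.v.V.map_sub_lt (by rwa [map_mul, s8, mul_one]) (by rwa [map_mul, s9, mul_one])
  rw [sum_congr rfl (g := fun P => f (kc e (yb b e) r.t.φ (r.t.φ⁻¹ • B)) *
    WJ f W J (co (mJ m J) B) * f (r.x.ind (co (mJ m J * r.t.π) P))) fun P hP => by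
      obtain ⟨s3, s4⟩ := mem_filter.1 hP
      rw [a2 P s3 s4, k2_ins f hJ, ← s4, k2_per f k (co_down m0 p0 (Im_kill n0 s3)), mul_assoc],
    ← mul_sum, ← map_sum, sum_fibre m0 m3 r.t.prime r.t.prim nd hB hT _ r.x.per, r.x.sum hT,
    map_zero, mul_zero]

end Pool.Agent.Lib.MP_696deb_nt.EV
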