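import Pool.Agent.Lib.MP_696deb_nt.EV.Lim

/-! Limits of cocycles: the presentation. -/

set_option autoImplicit false

open scoped Classical NNReal
open Finset Matrix PowerSeries

namespace Pool.Agent.Lib.MP_696deb_nt.EV

variable {ι : Type} {t : ℕ → ι → TP} {ρ ρ' c c' : ℕ → Gam → La} {I : Ideal La}

theorem lima_of {x : La} (y : ℕ → La) (e : ul y = x)
    (h : ∀ j, ∀ᶠ k in UU, Ideal.Quotient.mk (I ⊔ aa j) (y k) = 0) : x ∈ I :=
  e ▸ ul_mem_iff.2 fun j => (h j).mono fun _ => Ideal.Quotient.eq_zero_iff_mem.1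

theorem lima_to {x : La} (y : ℕ → La) (e : ul y = x) (h : x ∈ I) (j : ℕ) :
    ∀ᶠ k in UU, Ideal.Quotient.mk (I ⊔ aa j) (y k) = 0 :=
  (ul_mem_iff.1 (e ▸ h) j).mono fun _ => Ideal.Quotient.eq_zero_iff_mem.2

theorem lima_diag {α : Type} [Nonempty α] {p : ℕ → ℕ → α → Prop}
    (h : ∀ j, ∀ᶠ k in UU, ∃ a, p j k a) (m : ∀ j j' k a, j ≤ j' → p j' k a → p j k a) :
    ∃ a : ℕ → α, ∀ j, ∀ᶠ k in UU, p j k (a k) := by
  obtain ⟨jj, -, h1, h2⟩ := diag h
  exact ⟨fun k => Classical.epsilon (p (jj k) k), fun j => (h1.and (h2 j)).mono fun k hk =>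
    m _ _ _ _ hk.2 (Classical.epsilon_spec hk.1)⟩

theorem lima_one (y : ℕ → La) : ul (fun k => y k - 1) = ul y - 1 := by
  rw [ul_sub, ul_const]

theorem LC.of (h : ∀ k, Zc G (md (aa k) (ρ k)) (md (aa k) (c k)) ∧ Unr (t k) (md (aa k) (c k)))
    (I : Ideal La) : LC t ρ I c :=
  fun j => (ev_ge j).mono fun k hk =>
    ⟨(h k).1.fac (aa_le_sup hk I), (h k).2.fac (aa_le_sup hk I)⟩

theorem LC.lim_mem (h : LC t ρ I c) : lim c ∈ ZL t ρ I := ⟨c, h, rfl⟩

theorem pres_lim [Fintype ι] (ha : ∀ k, Adm (t k) (md (aa k) (ρ k)))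
    {L : ℕ → Gam → ι ⊕ Fin 2 → La} (hL : ∀ k, Val (t k) (md (aa k) (ρ k)) (mdL (aa k) (L k))) :
    Pres (limH ρ fun k => (ha k).chr) (genL t) (φL t) (LL L) (ZL t ρ) where
  coc I := by
    rintro _ ⟨c, h, rfl⟩ g g'
    refine lima_of (fun k => c k (g k * g' k) - (c k (g k) + ρ k (g k) * c k (g' k)))
      (by rw [ul_sub, ul_add, ul_mul]; rfl) fun j => (h j).mono fun k hk => ?_
    rw [map_sub, map_add, map_mul]
    exact sub_eq_zero.2 (hk.1.2 _ (g k).2 _ (g' k).2)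
  cob I := ⟨fun k g => ρ k g - 1, .of (fun k => ⟨((ha k).chr.cob le_rfl (1 : La ⧸ aa k)).congr
    (fun _ _ => rfl) fun _ _ => (mul_one _).symm, (ha k).unr⟩) I, funext fun _ => (lima_one _).symm⟩
  mono I := by
    rintro _ ⟨c, h, rfl⟩
    exact ⟨c, fun j => (h j).mono fun k hk =>
      ⟨hk.1.fac (sup_le_sup_right bot_le _), hk.2.fac (sup_le_sup_right bot_le _)⟩, rfl⟩
  val I hI := by
    rintro _ ⟨c, h, rfl⟩ g
    refine lima_of (fun k => c k (g k) - ∑ j, L k (g k) j * c k (gen (t k) j))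
      (by simp only [ul_sub, ul_sum, ul_mul]; rfl) fun j =>
      ((h j).and (ev_ge j)).mono fun k hk => ?_
    have := hI.lo2 j
    simp only [map_sub, map_sum, map_mul]
    exact sub_eq_zero.2 ((hL k).fac (aa_le_sup hk.2 I) _ _ hk.1.1 hk.1.2 _ (g k).2)
  rel I hI := by
    rintro _ ⟨c, h, rfl⟩ i
    refine lima_of (fun k => (ρ k (t k i).σ - 1) * c k (t k i).φ -
      (ρ k (t k i).φ - 1) * c k (t k i).σ) (by simp only [ul_sub, ul_mul, ul_const]; rfl) fun j =>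
      ((h j).and (ev_ge j)).mono fun k hk => ?_
    have := hI.lo2 j
    have h1 := (ha k).fac (aa_le_sup hk.2 I)
    simp only [map_sub, map_mul, map_one]
    exact sub_eq_zero.2 ((hk.1.1.mono inf_le_left).rel h1.chr (h1.geo i))
  ex I hI x hx := by
    have h0 := fun i => lima_to (fun k => (ρ k (t k i).σ - 1) * ∑ j, L k (t k i).φ j * x j -
      (ρ k (t k i).φ - 1) * x (.inl i)) (by
        simp only [ul_sub, ul_mul, ul_const, ul_sum, relR, dotProduct, sub_mul, mul_assoc,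
          sum_sub_distrib, ← mul_sum]
        simp only [← dotProduct.eq_1, single_one_dotProduct]
        rfl) (hx i)
    obtain ⟨c, h⟩ := lima_diag (p := fun j k (c : Gam → La) =>
      (Zc G (md (I ⊔ aa j) (ρ k)) (md (I ⊔ aa j) c) ∧ Unr (t k) (md (I ⊔ aa j) c)) ∧
        ∀ i, c (gen (t k) i) - x i ∈ I ⊔ aa j) (fun j =>
      ((Filter.eventually_all.2 fun i => h0 i j).and (ev_ge j)).mono fun k hk => by
        have := hI.lo2 j
        obtain ⟨c, h1, h2, h3⟩ := exists_coc ((ha k).fac (aa_le_sup hk.2 I))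
          ((hL k).fac (aa_le_sup hk.2 I)) (fun i => Ideal.Quotient.mk (I ⊔ aa j) (x i)) fun i => by
            have := hk.1 i
            simp only [map_sub, map_mul, map_one, map_sum] at this
            exact sub_eq_zero.1 this
        exact ⟨lft c, by rw [md_lft]; exact ⟨h1, h2⟩, fun i =>
          Ideal.Quotient.eq.1 ((congrFun (md_lft c) _).trans (h3 i))⟩)
      fun j j' k c e h => have e' := sup_le_sup_left (aa_anti e) I
        ⟨⟨h.1.1.fac e', h.1.2.fac e'⟩, fun i => e' (h.2 i)⟩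
    refine ⟨lim c, ⟨c, fun j => (h j).mono fun _ hk => hk.1, rfl⟩, fun i => ?_⟩
    exact lima_of (fun k => c k (gen (t k) i) - x i) (by rw [ul_sub, ul_const]; rfl) fun j =>
      (h j).mono fun _ hk => Ideal.Quotient.eq_zero_iff_mem.2 (hk.2 i)

section

variable {t' : ℕ → Option ι → TP} (ht : ∀ k i, t' k (some i) = t k i)

include ht

theorem ZL_le : ZL t ρ I ≤ ZL t' ρ I := by
  rintro _ ⟨c, h, rfl⟩
  exact ⟨c, fun j => (h j).mono fun k hk => ⟨hk.1, unr_mono (ht k) hk.2⟩, rfl⟩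

theorem ZL_zero (hi : ∀ k i, (t k i).π ≠ (t' k none).π) :
    ∀ f ∈ ZL t ρ I, f (genL t' (.inl none)) ∈ I := by
  rintro _ ⟨c, h, rfl⟩
  exact lima_of _ rfl fun j => (h j).mono fun k hk => hk.2 _ ⟨(t' k none).odd, fun i =>
    (t' k none).V_eq.2 (TP.not_dvd _ _ (hi k i).symm)⟩ _ (t' k none).σ_ine

theorem ZL_unr (ha : ∀ k, Adm (t k) (md (aa k) (ρ k))) (hI : I ≠ ⊤) :
    ∀ f ∈ ZL t' ρ I, f (genL t' (.inl none)) ∈ I → f ∈ ZL t ρ I := by
  rintro _ ⟨c, h, rfl⟩ h0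
  refine ⟨c, fun j => (((h j).and (ev_ge j)).and (lima_to _ rfl h0 j)).mono fun k hk =>
    ⟨hk.1.1.1, ?_⟩, rfl⟩
  have := lo2_of le_sup_right (sup_ne_top hI j)
  have h1 := (ha k).fac (aa_le_sup hk.1.2 I)
  exact unr_of_zero (ht k) h1.chr h1.unr hk.1.1.1 hk.1.1.2 hk.2

end

theorem WL_mem : ∀ f ∈ ZL t ρ I, (fun i => f (ewL i)) ∈ WL ρ I := by
  rintro _ ⟨c, h, rfl⟩
  exact ⟨c, fun j => (h j).mono fun k hk => hk.1.mono inf_le_left, rfl⟩

theorem Dual.symm (h : Dual ρ ρ') : Dual ρ' ρ :=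
  ⟨h.chr', h.chr, fun k g hg => mul_comm (ρ k g) _ ▸ h.mul k g hg⟩

theorem Dual.cy {J : Ideal La} {k e : ℕ} (h : Dual ρ ρ') (hJ : aa k ≤ J)
    (f : ZMod (3 ^ e) →+* La ⧸ J) : ∀ g ∈ G, md J (ρ k) g * md J (ρ' k) g = f (cy e g) :=
  fun g hg => (map_mul _ _ _).symm.trans
    ((Ideal.Quotient.eq.2 (hJ (h.mul k g hg))).trans (mk_padic f _))

theorem uL_unit (t : ℕ → ι → TP) (i : ι) : IsUnit (uL t i) := by
  refine ul_unit (.of_forall fun k => (unit_mk (J := aa k) fun e =>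
    (IsLocalRing.maximalIdeal.isMaximal La).ne_top (top_le_iff.1 (e ▸ aa_le k))).1 ?_)
  rw [map_natCast, ← hom_val (fa k)]
  exact (du_unit _ _).map _

theorem lw_lim (h : Dual ρ ρ') (hI : Pr I) {g : Gam} (hg : g ∈ Hw)
    (h1 : (ul fun k => ρ k g) - 1 ∉ I) {d : La} (hd : d ∉ I) :
    ¬ ∀ y : Fin 4 → La, ∃ v ∈ WL ρ' I, ∀ i, v i - d * y i ∈ I := by
  refine fun H => (hI.1.mem_or_mem (lima_of (fun k => (ρ k g - 1) * d)
    (by rw [ul_mul, lima_one, ul_const]) fun j => ?_)).elim h1 hd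
  have := hI.lo2 j
  have h2 : ∀ x : Fin 4 → La ⧸ (I ⊔ aa j), ∀ᶠ k in UU, ∃ c : Gam → La ⧸ (I ⊔ aa j),
      Zc Hw (md (I ⊔ aa j) (ρ' k)) c ∧ ∀ i, c (ew i) = x i • Ideal.Quotient.mk _ d := fun x => by
    obtain ⟨_, ⟨c, hc, rfl⟩, hv⟩ := H fun i => Quotient.out (x i)
    refine ((hc j).and (Filter.eventually_all.2 fun i => lima_to
      (fun k => c k (ew i) - d * Quotient.out (x i)) (by rw [ul_sub, ul_const]) (hv i) j)).mono
      fun k hk => ⟨_, hk.1, fun i => ?_⟩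
    have := hk.2 i
    rw [map_sub, map_mul, Ideal.Quotient.mk_out, mul_comm] at this
    exact sub_eq_zero.1 this
  refine ((Filter.eventually_all.2 h2).and (ev_ge j)).mono fun k hk => ?_
  have e := aa_le_sup hk.2 I
  have h3 := lw ((h.chr' k).fac e) (fz (two_pow_zero e)) _ hk.1 g hg
  rw [← h.cy e _ g hg.1] at h3
  refine (((h.chr' k).fac e).isUnit hg.1).mul_right_eq_zero.1 ?_
  rw [map_mul, map_sub, map_one]
  exact neg_eq_zero.1 (Eq.trans (by simp only [md, smul_eq_mul]; ring) h3)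

theorem ne_lim (h : ∀ k, Chr (md (aa k) (ρ k))) (hI : Pr I) {g : Gam} (hg : g ∈ Hw)
    (h1 : (ul fun k => ρ k g) - 1 ∉ I) : ∃ i, lim ρ (ewL i) - 1 ∉ I := by
  by_contra! H
  refine h1 (lima_of _ (lima_one _) fun j => ((Filter.eventually_all.2 fun i =>
    lima_to _ (lima_one _) (H i) j).and (ev_ge j)).mono fun k hk => ?_)
  have := hI.lo2 j
  have h2 := (h k).fac (aa_le_sup hk.2 I)
  exact (mul_one _).symm.trans ((h2.cob inf_le_left (1 : La ⧸ (I ⊔ aa j))).zero_ew h2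
    (fun i => (mul_one _).trans (hk.1 i)) g hg)

theorem recip_lim [Fintype ι] (h : Dual ρ ρ') (ha : ∀ k, Adm (t k) (md (aa k) (ρ k)))
    (ha' : ∀ k, Adm (t k) (md (aa k) (ρ' k))) (hI : Pr I) (dp : ι → Prop)
    (h1 : ∀ k i, dp i → ρ' k (t k i).φ - 1 ∈ aa k ∧ ρ' k (t k i).σ - 1 ∈ aa k ∧
      3 ^ (k + 2) ∣ nm (t k i).π - 1)
    (h2 : ∀ i, ¬ dp i → lim ρ' (genL t (.inl i)) - 1 ∉ I ∨ lim ρ' (φL t i) - 1 ∉ I) :
    ∀ f ∈ ZL t ρ I, ∀ f' ∈ ZL t ρ' I, (∀ i, f' (ewL i) ∈ I) → ∑ i with dp i, uL t i *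
      (f' (φL t i) * f (genL t (.inl i)) - f' (genL t (.inl i)) * f (φL t i)) ∈ I := by
  rintro _ ⟨c, hc, rfl⟩ _ ⟨c', hc', rfl⟩ h0
  have h3 : ∀ i, ∃ s : GG, (s = genL t (.inl i) ∨ s = φL t i) ∧ (¬ dp i → lim ρ' s - 1 ∉ I) :=
    fun i => (em (dp i)).elim (fun e => ⟨_, .inl rfl, fun n => absurd e n⟩) fun e =>
      (h2 i e).elim (fun n => ⟨_, .inl rfl, fun _ => n⟩) fun n => ⟨_, .inr rfl, fun _ => n⟩
  choose s hs hs' using h3
  have := hI.1
  refine (hI.1.mem_or_mem (lima_of (fun k => (∏ i with ¬ dp i, (ρ' k (s i k) - 1)) *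
    ∑ i with dp i, ((du (k + 1) (t k i)).val : La) *
      (c' k (t k i).φ * c k (t k i).σ - c' k (t k i).σ * c k (t k i).φ))
    (x := (∏ i with ¬ dp i, (lim ρ' (s i) - 1)) * _)
    (by simp only [ul_mul, ul_prod, ul_sum, ul_sub, ul_const]; rfl) fun j => ?_)).resolve_left
    fun n => ?_
  · refine ((((hc j).and (hc' j)).and (ev_ge j)).and (Filter.eventually_all.2 fun i =>
      lima_to _ rfl (h0 i) j)).mono fun k ⟨⟨⟨a, a'⟩, hk⟩, z⟩ => ?_
    have := hI.lo2 j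
    have e := aa_le_sup hk I
    have b := (ha k).fac e
    have b' := (ha' k).fac e
    have hd := h.symm.cy e (fz (two_pow_zero e))
    have h4 := recip _ b' b hd dp (fun i n => ⟨Ideal.Quotient.eq.2 (e (h1 k i n).1),
      Ideal.Quotient.eq.2 (e (h1 k i n).2.1), by
        rw [p3_pos, Nat.cast_succ, (ZMod.natCast_eq_zero_iff _ _).2
          ((pow_dvd_pow 3 (k + 1).le_succ).trans (h1 k i n).2.2), zero_add]⟩)
      (δ := ∏ i with ¬ dp i, (md (I ⊔ aa j) (ρ' k) (s i k) - 1)) (fun i n => by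
        have := dvd_prod_of_mem (fun i => md (I ⊔ aa j) (ρ' k) (s i k) - 1)
          (mem_filter.2 ⟨mem_univ i, n⟩ : i ∈ univ.filter fun i => ¬ dp i)
        exact (hs i).imp (fun r => by rw [r] at this; exact this) fun r => by
          rw [r] at this; exact this) a'.1 a'.2 a.1 a.2
      (spl_cupR _ inf_le_left b'.chr b.chr hd (x := 0) (fun g hg => by
        rw [(a'.1.mono inf_le_left).zero_ew b'.chr z g hg, mul_zero, mul_zero])
        (a.1.mono inf_le_left))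
    simp only [hom_val] at h4
    simp only [map_mul, map_prod, map_sum, map_sub, map_one, map_natCast]
    exact h4
  · obtain ⟨i, h5, h6⟩ := Ideal.IsPrime.prod_mem_iff.1 n
    exact hs' i (mem_filter.1 h5).2 h6

end Pool.Agent.Lib.MP_696deb_nt.EV
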