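import Pool.Agent.Lib.MP_696deb_nt.EV.T1
import Pool.Agent.Lib.MP_696deb_nt.EV.Ind

/-! The data exist. -/

set_option autoImplicit false

open scoped Classical NNReal
open Finset PowerSeries

namespace Pool.Agent.Lib.MP_696deb_nt.EV

theorem c8_dvd (r : TP) {n : ℕ} (h : r.π ∣ (n : O)) : r.v.p ∣ n :=
  by_contra fun k => (r.V_lt.2 h).ne (by
    rw [map_natCast, ← Int.cast_natCast]
    exact r.v.V_int_eq_one.2 (mt Int.natCast_dvd_natCast.1 k))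

theorem exists_cb {D : ℕ} (hD : D ≠ 0 ∧ ∀ q : ℕ, D.factorization q < 3) {q : ℕ} (hq : q.Prime)
    (h2 : q ≠ 3) (hv : q ∣ D) {φ : O → O} (hφ : Phi D φ) :
    ∃ c : Cb, c.t.N = D ∧ c.φ = φ := by
  let t : Tw := ⟨D, hD.1⟩
  choose tp htp using fun i : {π : O | Prime π ∧ Prim π ∧ π ∣ (D : O)} => exists_tp i.2.1 i.2.2.1
  have dv : ∀ i, (tp i).π ∣ (D : O) := fun i => htp i ▸ i.2.2.2
  obtain ⟨α, a1, a2, a3⟩ := exists_alpha hD.1
  obtain ⟨Q, q1, q2, q3, q4⟩ := exists_Q0 t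
  obtain ⟨v, rfl⟩ := B2.exists_plc hq
  obtain ⟨π, p1, p2, p3⟩ := g1_pi h2
  have p5 : π ∣ (D : O) := ((g1_lt p1 p3).1 (g1_p v)).trans (Nat.cast_dvd_cast hv)
  refine ⟨⟨t, φ, hφ, _, (p1_fin (Nat.cast_ne_zero.2 hD.1)).fintype, tp,
    fun i j e => Subtype.ext (by rwa [htp, htp] at e), dv, fun p k1 k2 => ?_,
    fun i => rho0_sigma t _ fun k => ?_, ⟨π, p1, p2, p5⟩, α, a1,
    fun b => (a2 b).1, fun b => (a2 b).2.1, fun b => (a2 b).2.2, a3, Q, q1, q2, q3, q4⟩, rfl, rfl⟩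
  · rcases p1_prime k1 with k | ⟨π, l1, l2, k⟩
    · exact .inl k.symm.dvd
    · exact .inr ⟨⟨π, l1, l2, k.dvd.trans k2⟩, by rw [htp]; exact k.symm.dvd⟩
  · have h1 := (tp i).v.prime.factorization_pos_of_dvd hD.1 (c8_dvd _ (dv i))
    have h3 := hD.2 (tp i).v.p
    change 3 ∣ D.factorization _ at k
    omega

theorem c8_zero {D : ℕ} {φ : O → O} (h : Gch (3 * D) φ) {e : ℕ} {a : O}
    (k : ¬ IsCoprime a ((D * 3 ^ e : ℕ) : O)) : φ a = 0 := by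
  have k1 : ¬ (nm a).Coprime (D * 3 ^ e) := fun l => k (by
    have := Nat.Coprime.cast (R := O) l
    rw [nm, ← Int.cast_natCast, Int.natAbs_of_nonneg (CL.nm_nonneg a), ← CL.mul_star_self] at this
    exact this.of_mul_left_left)
  obtain ⟨p, hp, h1, h2⟩ := Nat.Prime.not_coprime_iff_dvd.1 k1
  refine h.zero p hp ?_ a (Int.natCast_dvd.2 h1)
  rcases (Nat.Prime.dvd_mul hp).1 h2 with l | l
  · exact (Int.natCast_dvd_natCast.2 l).mul_left 3
  · exact (Int.natCast_dvd_natCast.2 (hp.dvd_of_dvd_pow l)).mul_right (D : ℤ)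

theorem Cb.van (c : Cb) (h : ∀ m : ℕ, 0 < m → 9 * c.t.N ∣ m → ∀ (b d : O) (R : Finset O),
    IsCoprime b m → IsCoprime d m → EW.IsRep m R →
      ∑ a ∈ R with Prim a, io (star (c.φ a)) * dl b (a • tq d m) = 0) : c.Van := by
  intro e b
  have m0 := c.m0_ne e
  obtain ⟨R, hR, -⟩ := EW.exists_rep m0
  obtain ⟨d1, d2, -⟩ := c.dvd_m0 e
  have k := h _ (Nat.pos_of_ne_zero (Nat.cast_ne_zero.1 m0))
    ⟨3 ^ (e + 1), by ring⟩ (c.α b).π 1 R ((c.α b).prime.irreducible.coprime_iff_not_dvd.2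
      (c.nd_m0 e _ (c.α_nd b))) isCoprime_one_left hR
  refine (sum_congr rfl fun P hP => by rw [co_spec m0 (Im_kill m0 hP)]).trans ((sum_Im m0 d1 hR
    (fun a => io (star (c.φ a)) * dl (c.α b).π (tq a (c.m0 e))) fun a a' l => by
      rw [c.phi.per' d2 l, (tq_eq_iff m0).2 l]).trans (Eq.trans ?_ k))
  rw [← filter_filter, sum_filter]
  refine sum_congr rfl fun a _ => ?_
  split_ifs with l
  · rw [EW.tq_eq a m0]
    rfl
  · rw [c8_zero c.phi.gch l, star_zero, map_zero, zero_mul]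

end Pool.Agent.Lib.MP_696deb_nt.EV
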