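import Pool.Agent.Lib.MP_696deb_nt.EV.T7
import Pool.Agent.Lib.MP_696deb_nt.EV.T4
import Pool.Agent.Lib.MP_696deb_nt.EV.Erl

/-! The bottom of the tower: Selmer classes and the reciprocity law. -/

set_option autoImplicit false

open scoped Classical NNReal
open Finset PowerSeries

namespace Pool.Agent.Lib.MP_696deb_nt.EV

theorem t8_sub (y : ℕ → La) : ul (fun k => y k - 1) = ul y - 1 := by
  rw [ul_sub, ul_const]

theorem t8_smul (a : La) (y : ℕ → La) : ul (fun k => a * y k) = a * ul y := by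
  rw [ul_mul, ul_const]

theorem t8_lw {ι : Type} {t : ℕ → ι → TP} {ρ f : ℕ → Gam → La} {I : Ideal La}
    (h : LC t ρ I f) : LW ρ I f := fun j => (h j).mono fun _ hk => hk.1.mono inf_le_left

theorem t8_two (n : ℕ) : (3 : La) ^ n ∉ Ideal.span {(X : La)} := fun h =>
  pr_X.2 (pr_X.1.mem_of_pow_mem n h)

theorem t8_sum {κ M : Type} [Fintype κ] [AddCommMonoid M] (f : Jx κ 1 → M) :
    ∑ i : Jx κ 1 with i.deep, f i = f none := by
  refine sum_eq_single_of_mem (s := univ.filter fun i : Jx κ 1 => i.deep) (none : Option (Jx κ 0))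
    (mem_filter.2 ⟨mem_univ _, trivial⟩) fun i hi h => ?_
  rcases i with _ | i
  · exact absurd rfl h
  · exact (mem_filter.1 hi).2.elim

theorem t8_spl {R : Type} [CommRing R] {ρ ρ' c c' p q : Gam → R} {e : ℕ}
    (f : ZMod (3 ^ e) →+* R) {H : Subgroup Gam} (hH : H ≤ G) (h : Chr ρ) (h' : Chr ρ')
    (hd : ∀ g ∈ G, ρ g * ρ' g = f (cy e g)) (hc' : Zc H ρ' c') (hp : Zc H ρ p) {x y z u : R}
    (k : ∀ g ∈ H, c g = (ρ g - 1) * x + y * p g) (k' : ∀ g ∈ H, c' g = z * q g + (ρ' g - 1) * u)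
    (l : R →+ ZMod (3 ^ e)) (s : Spl e H (cupR l ρ' (fun g => z * (y * p g)) q)) :
    Spl e H (cupR l ρ' c c') := by
  have s1 := spl_cupR f hH h h' hd (c := fun g => (ρ g - 1) * x) (fun _ _ => rfl) hc' l
  have s2 := spl_cupR' f hH h h' hd (hp.smul y) (c' := fun g => (ρ' g - 1) * u) (fun _ _ => rfl) l
  refine spl_congr (spl_lin s1 (spl_lin s s2 1 1) 1 1) fun g hg j hj => ?_
  simp only [cupR, one_mul, ← map_add, smul_eq_mul]
  congr 1
  rw [k g hg]
  linear_combination (y * p g * ρ' g) * k' j hj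

namespace Cx

variable (c : Cx)

theorem δ_notMem : ul c.δ ∉ Ideal.span {(X : La)} := by
  have hp := pr_X.1
  have e : ul c.δ = ((ul fun k => c.ρ false k (c.lv k).lam.φ) - 1) *
      ∏ i, ((ul fun k => c.ρ false k (c.tp i).σ) - 1) := by
    rw [← t8_sub, ← prod_congr rfl fun i _ => t8_sub _, ← ul_prod, ← ul_mul]
    rfl
  rw [e]
  intro h
  rcases hp.mem_or_mem h with h | h
  · exact c.lim_lam_φ pr_X (Ideal.mem_span_singleton_self _) h
  · obtain ⟨i, -, h⟩ := Ideal.IsPrime.prod_mem_iff.1 h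
    exact c.lim_σ i pr_X h

theorem ok_sel (h : CU.Gro c.t.N 2) :
    ∀ f ∈ c.dat.Z c.dat.s0 false (Ideal.span {X}), c.dat.Km f →
      ∀ g, c.dat.hat false f g ∈ Ideal.span {(X : La)} := by
  rintro _ ⟨f, hf, rfl⟩ ⟨d, x, y, hd, hk⟩ g
  obtain ⟨n, hn⟩ := c.sel_fin h
  have e0 : ∀ k, (c.exists_s0.some : c.Stg 0).t k = c.t0 k := fun k =>
    funext fun i => Stg.t_zero _ k i
  have key : ul (fun k => 3 ^ n * c.δ k * ((c.ρ false k c.g0 - 1) * (d * f k (g k)) -
      (c.ρ false k (g k) - 1) * (d * f k c.g0))) ∈ Ideal.span {(X : La)} :=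
    ul_mem_iff.2 fun j => (((hf.smul d j).and (c.km_loc (t8_lw hf) hk j)).and (ev_ge j)).mono
      fun k hk => hn j k hk.2 (fun g => d * f k g) hk.1.1.1 (e0 k ▸ hk.1.1.2) x y hk.1.2 _ (g k).2
  simp only [ul_mul, ul_sub, ul_const] at key
  have k2 := (pr_X.1.mem_or_mem key).resolve_left fun k =>
    (pr_X.1.mem_or_mem k).elim (t8_two n) c.δ_notMem
  refine (pr_X.1.mem_or_mem (x := d) ?_).resolve_left hd
  convert k2 using 1
  show d * (((ul fun k => c.ρ false k c.g0) - 1) * (ul fun k => f k (g k)) -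
    ((ul fun k => c.ρ false k (g k)) - 1) * ul fun k => f k c.g0) = _
  ring

theorem erl_lev (hv : c.Van) (s : c.Stg 1) : ∃ a : ℕ, ∀ j k τ, j ≤ k → 2 * j + a ≤ 3 * τ →
    ∀ f : Gam → La, Zc G (md (JX j) (c.ρ false k)) (md (JX j) f) → Unr (s.t k) (md (JX j) f) →
    ∀ x y : La, (∀ g ∈ Hw, f g - (x * (c.ρ false k g - 1) + y * c.ks k g) ∈ JX j) →
    3 ^ (τ + 1) * (c.t.N * c.δ k * (f (s.t k none).σ * c.Fk true k (s.t k none).φ)) ∈
      JX j := by
  obtain ⟨a, ha⟩ := c.erl_fin hv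
  refine ⟨a, fun j k τ hjk hτ f hf hu x y hl => ?_⟩
  have hJ : aa k ≤ JX j := aa_le_sup hjk _
  have := pr_X.lo2 j
  let f0 : ZMod (3 ^ (j + 1)) →+* La ⧸ JX j := fz (two_pow_zero le_sup_right)
  let f1 : ZMod (3 ^ (k + 1)) →+* La ⧸ JX j := fz (two_pow_zero hJ)
  have a0 := (s.adm false k).fac hJ
  have a1 := (s.adm true k).fac hJ
  have hd := c.dual.symm.cy hJ f0
  have z1 := (c.zc_Fk true k).1.fac hJ
  have u0 := (c.zc_Fk true k).2.fac hJ
  obtain ⟨z, u, hz⟩ := c.Fk_down true hjk f1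
  obtain ⟨M, hM⟩ : ∃ M : La ⧸ JX j, M = 3 ^ (τ + 1) * c.t.N := ⟨_, rfl⟩
  obtain ⟨D, hD⟩ : ∃ D, D = Ideal.Quotient.mk (JX j) (c.δ k) := ⟨_, rfl⟩
  have key := recip (c := fun g => M * md (JX j) f g) (δ := D) f0 a0 a1 hd Jx.deep
    (fun i hi => by
      obtain ⟨k1, k2, k3⟩ := s.deep false k hi
      refine ⟨?_, ?_, ?_⟩
      · exact (Ideal.Quotient.eq.2 (hJ k1)).trans (map_one _)
      · rw [md, k2, map_one]
      · rw [p3_pos, Nat.cast_add, (ZMod.natCast_eq_zero_iff _ _).2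
          ((pow_dvd_pow 3 (by omega)).trans k3), zero_add, Nat.cast_one])
    (fun i hi => by
      obtain ⟨i, rfl⟩ := Jx.not_deep.1 hi
      rw [s.base, hD, δ, map_mul, map_prod]
      rcases i with _ | i
      · refine .inr (Dvd.dvd.mul_right ?_ _)
        rw [map_sub, map_one]
        rfl
      · refine .inl (Dvd.dvd.mul_left ?_ _)
        refine Dvd.dvd.trans ?_ (dvd_prod_of_mem _ (mem_univ i))
        rw [map_sub, map_one]
        rfl)
    (hf.smul M) (fun v hv σ hσ => (congrArg (M * ·) (hu v hv σ hσ)).trans (mul_zero _)) z1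
    (fun v hv => u0 v (s.off hv).1) fun l => by
      refine t8_spl f0 inf_le_left a0.chr a1.chr hd (z1.mono inf_le_left) (c.zc_ks hjk)
        (x := D * M * Ideal.Quotient.mk _ x) (y := D * M * Ideal.Quotient.mk _ y)
        (fun g hg => ?_) (fun g hg => hz g hg.1) l ?_
      · have e := Ideal.Quotient.eq.2 (hl g hg)
        simp only [map_add, map_mul, map_sub, map_one] at e
        simp only [md]
        linear_combination (D * M) * e
      · refine spl_congr (ha j k τ hjk hτ f1 l (z * D * Ideal.Quotient.mk _ y)) fun g _ h _ => ?_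
        rw [cupR, cupR, ← hM]
        exact congrArg l (by ring)
  have o : Off (c.t0 k) (s.t k none).v := ⟨(s.t k none).odd, fun i => by
    rw [← s.base]
    refine (s.t k none).V_eq.2 (TP.not_dvd _ _ fun e => ?_)
    exact Option.some_ne_none _ (s.inj k _ _ e).symm⟩
  rw [t8_sum, u0 _ o _ (s.t k none).σ_ine, mul_zero, zero_sub, mul_left_comm,
    ((du_unit _ _).map f0).mul_right_eq_zero] at key
  rw [← Ideal.Quotient.eq_zero_iff_mem]
  simp only [map_mul, map_pow, map_ofNat, map_natCast]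
  simp only [md, hM, hD] at key
  linear_combination -key

theorem ok_erl (hv : c.Van) : ∀ s : c.dat.St 1, c.dat.Ext c.dat.s0 s →
    ∀ f ∈ c.dat.Z s false (Ideal.span {X}), c.dat.Km f →
      f (c.dat.gen s (.inl none)) * c.dat.F true (c.dat.φ s none) ∈ Ideal.span {(X : La)} := by
  rintro (s : c.Stg 1) - _ ⟨f, hf, rfl⟩ ⟨d, x, y, hd, hk⟩
  obtain ⟨a, ha⟩ := c.erl_lev hv s
  have key : ul (fun k => (c.t.N : La) * c.δ k *
      (d * f k (s.t k none).σ * c.Fk true k (s.t k none).φ)) ∈ Ideal.span {(X : La)} :=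
    ul_mem_iff.2 fun j => (((hf.smul d (3 * j + a + 5)).and
      (c.km_loc (t8_lw hf) hk (3 * j + a + 5))).and (ev_ge (3 * j + a + 5))).mono fun k hk => by
        have h1 := mem_X_sup.1 (ha _ k (2 * j + a + 4) hk.2 (by omega) (fun g => d * f k g)
          hk.1.1.1 hk.1.1.2 x y hk.1.2)
        rw [map_mul, map_pow, map_ofNat,
          show 3 * j + a + 5 + 1 = 2 * j + a + 4 + 1 + (j + 1) by omega, pow_add,
          mul_dvd_mul_iff_left (pow_ne_zero _ fun e => pr_X.2 (mem_span_X.2 (by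
            rw [map_ofNat, e])))] at h1
        exact mem_X_sup.2 h1
  rw [ul_mul, t8_smul, ul_mul, t8_smul] at key
  have hN : (c.t.N : La) ∉ Ideal.span {(X : La)} := fun e => by
    rw [mem_span_X, map_natCast, ← map_natCast oW, ← map_zero oW] at e
    exact c.m0_ne 0 (by rw [c.m0_eq, oW_inj e, zero_mul])
  have k2 := (pr_X.1.mem_or_mem key).resolve_left fun k =>
    (pr_X.1.mem_or_mem k).elim hN c.δ_notMem
  rw [mul_assoc] at k2
  exact (pr_X.1.mem_or_mem k2).resolve_left hd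

end Cx

end Pool.Agent.Lib.MP_696deb_nt.EV
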