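import Pool.Agent.Lib.MP_696deb_nt.EV.S1
import Pool.Agent.Lib.MP_23455a_nt.H3.CLl

/-! Roots near one, and a logarithm of finite level. -/

set_option autoImplicit false

open scoped Classical NNReal
open Finset

namespace Pool.Agent.Lib.MP_696deb_nt.EV

open B2 (Qbar Gam Plc Dec Sm IsHom Fx mem_Dec b3a_pos)
open Pool.Agent.H3

section

variable {v : Plc} {a r s : Qbar}

theorem s2_three (v : Plc) : v.V 3 ≤ 1 := by simpa using v.V_int_le 3

theorem s2_add (h : v.V (r - 1) < v.V 3) (k : v.V (s - 1) < v.V 3) :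
    v.V (r ^ 2 + r * s + s ^ 2) = v.V 3 := by
  have m : ∀ {x y : Qbar}, v.V x < v.V 3 → v.V y ≤ 1 → v.V (x * y) < v.V 3 := fun h k => by
    rw [map_mul]
    exact (mul_le_of_le_one_right' k).trans_lt h
  have h1 := (h.trans_le (s2_three v)).le
  have k1 := (k.trans_le (s2_three v)).le
  rw [show r ^ 2 + r * s + s ^ 2 =
    3 + ((r - 1) * (3 + (r - 1) + (s - 1)) + (s - 1) * (3 + (s - 1))) by ring,
    v.V.map_add_eq_of_lt_left (v.V.map_add_lt
      (m h (v.V.map_add_le (v.V.map_add_le (s2_three v) h1) k1))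
      (m k (v.V.map_add_le (s2_three v) k1)))]

theorem root_uniq (m : ℕ) (h : v.V (r - 1) < v.V 3) (k : v.V (s - 1) < v.V 3)
    (e : r ^ 3 ^ m = s ^ 3 ^ m) : r = s := by
  have p2 : 0 < v.V 3 := b3a_pos v three_ne_zero
  have cb : ∀ {r : Qbar}, v.V (r - 1) < v.V 3 → v.V (r ^ 3 - 1) < v.V 3 := fun {r} h => by
    rw [show r ^ 3 - 1 = (r - 1) * (r ^ 2 + r * 1 + 1 ^ 2) by ring, map_mul,
      s2_add h (by simpa using p2)]
    exact (mul_le_of_le_one_right' (s2_three v)).trans_lt h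
  induction m generalizing r s with
  | zero => simpa using e
  | succ m ih =>
    rw [pow_succ', pow_mul, pow_mul] at e
    have e1 : (r - s) * (r ^ 2 + r * s + s ^ 2) = 0 := by linear_combination ih (cb h) (cb k) e
    refine sub_eq_zero.1 ((mul_eq_zero.1 e1).resolve_right fun e' => ?_)
    have := s2_add h k
    rw [e', map_zero] at this
    exact p2.ne this

theorem root_near (m : ℕ) (h : v.V (a - 1) < v.V (3 ^ (m + 1))) :
    ∃ r, r ^ 3 ^ m = a ∧ v.V (r - 1) < v.V 3 := by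
  induction m generalizing a with
  | zero => exact ⟨a, by simp, by simpa using h⟩
  | succ m ih =>
    obtain ⟨s, -, s2, s3⟩ := exists_cbrt (D := ⊥) bot_le (a := a)
      (fun g hg => by rw [Subgroup.mem_bot.1 hg]; rfl) (h.trans_le (by
        rw [show (3 : Qbar) ^ (m + 1 + 1) = 3 ^ m * 9 by ring, map_mul, map_pow]
        exact mul_le_of_le_one_left' (pow_le_one' (s2_three v) m)))
    rw [← s3, pow_succ, map_mul] at h
    obtain ⟨r, r1, r2⟩ := ih (lt_of_mul_lt_mul_right h zero_le)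
    exact ⟨r, by rw [pow_succ, pow_mul, r1, s2], r2⟩

/-- Families of numbers that are close to one. -/
theorem KF.spl_near {X : Type} [MulAction Gam X] {H : Subgroup Gam} {e : ℕ} {S : Finset X}
    {x κ : Gam → X → ZMod (3 ^ e)} {a : X → Qbar} (hH : H ≤ Dec v) (hS : St H S) (hx : PC H S x)
    (h : KF H S a κ) (k : ∀ P ∈ S, v.V (a P - 1) < v.V (3 ^ (e + 1))) : Spl e H (SS S x κ) := by
  choose! y y1 y2 using fun P hP => root_near e (k P hP)
  refine h.spl_root hS hx y y1 fun g hg P hP => root_uniq e ?_ (y2 P hP) ?_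
  · rw [← map_one g, ← map_sub, mem_Dec.1 (hH hg)]
    exact y2 _ (hS.inv hg hP)
  · obtain ⟨z, z0, z1⟩ := h
    rw [← map_pow, y1 _ (hS.inv hg hP), y1 P hP, ← (z0 P hP).2, ← (z0 _ (hS.inv hg hP)).2, map_pow,
      z1 g hg P hP, mul_pow, b3b_pow, mul_one]

end

section

variable {R : Type} [CommRing R] {a b x : R} {N : ℕ}

theorem lo_exp (y : R) (k : ℕ) : ∃ t, (1 + 3 * y) ^ 3 ^ k = 1 + 3 ^ k * (3 * y + 9 * y ^ 2 * t) := by
  induction k with
  | zero => exact ⟨0, by ring⟩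
  | succ k ih =>
    obtain ⟨t, ht⟩ := ih
    exact ⟨t + 3 ^ k * (1 + 3 * y * t) ^ 2 + (3 ^ k) ^ 2 * y * (1 + 3 * y * t) ^ 3, by
      rw [pow_succ, pow_mul, ht]; ring⟩

theorem three_dvd_mul (ha : 3 ∣ a - 1) (hb : 3 ∣ b - 1) : 3 ∣ a * b - 1 := by
  rw [show a * b - 1 = (a - 1) * b + (b - 1) by ring]
  exact (ha.mul_right b).add hb

theorem lo_lift {j : ℕ} (ha : 3 ∣ a - 1) (hb : 3 ∣ b - 1) (h : 3 ^ j ∣ a - b) (k : ℕ) :
    3 ^ (j + k) ∣ a ^ 3 ^ k - b ^ 3 ^ k := by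
  induction k with
  | zero => simpa using h
  | succ k ih =>
    have a1 := ha.trans (sub_one_dvd_pow_sub_one a (3 ^ k))
    have b1 := hb.trans (sub_one_dvd_pow_sub_one b (3 ^ k))
    rw [pow_succ 3 k, pow_mul, pow_mul, ← add_assoc, pow_succ']
    generalize a ^ 3 ^ k = p, b ^ 3 ^ k = q at *
    have := (((three_dvd_mul a1 a1).add (three_dvd_mul a1 b1)).add (three_dvd_mul b1 b1)).add
      (dvd_refl 3)
    rw [show p ^ 3 - q ^ 3 = (p * p - 1 + (p * q - 1) + (q * q - 1) + 3) * (p - q) by ring]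
    exact mul_dvd_mul this ih

/-- The logarithm of level `N`. -/
noncomputable def lo (N : ℕ) (a : R) : R :=
  if h : ∃ l, a ^ 3 ^ N = 1 + 3 ^ N * l then h.choose else 0

theorem lo_spec (N : ℕ) (ha : 3 ∣ a - 1) : a ^ 3 ^ N = 1 + 3 ^ N * lo N a := by
  have : ∃ l, a ^ 3 ^ N = 1 + 3 ^ N * l := by
    obtain ⟨y, e⟩ := ha
    obtain ⟨t, ht⟩ := lo_exp y N
    exact ⟨_, by rw [eq_add_of_sub_eq' e, ht]⟩
  rw [lo, dif_pos this]
  exact this.choose_spec

theorem s2_ne [CharZero R] : (3 : R) ≠ 0 := by norm_num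

variable [IsDomain R] [CharZero R]

theorem lo_mul (ha : 3 ∣ a - 1) (hb : 3 ∣ b - 1) : 3 ^ N ∣ lo N (a * b) - (lo N a + lo N b) := by
  refine ⟨lo N a * lo N b, mul_left_cancel₀ (pow_ne_zero N s2_ne) ?_⟩
  have := lo_spec N (three_dvd_mul ha hb)
  rw [mul_pow, lo_spec N ha, lo_spec N hb] at this
  linear_combination -this

theorem lo_congr (ha : 3 ∣ a - 1) (hb : 3 ∣ b - 1) (h : 3 ^ N ∣ a - b) :
    3 ^ N ∣ lo N a - lo N b := by
  have := lo_lift ha hb h N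
  rwa [lo_spec N ha, lo_spec N hb, add_sub_add_left_eq_sub, ← mul_sub, pow_add,
    mul_dvd_mul_iff_left (pow_ne_zero N s2_ne)] at this

theorem lo_small {e n : ℕ} (h : e < n) (k : 3 ^ n ∣ x) : 3 ^ (e + n) ∣ lo (e + n) (1 + x) - x := by
  obtain ⟨j, rfl⟩ := Nat.exists_eq_add_of_lt h
  obtain ⟨y, rfl⟩ := k
  obtain ⟨t, ht⟩ := lo_exp (3 ^ (e + j) * y) (e + (e + j + 1))
  have e1 : 3 ^ (e + j + 1) * y = 3 * (3 ^ (e + j) * y) := by ring
  rw [e1, lo_spec _ (by simp), add_right_inj,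
    mul_right_inj' (pow_ne_zero _ s2_ne)] at *
  exact ⟨3 ^ (j + 1) * y ^ 2 * t, by rw [ht]; ring⟩

end

theorem hom_three {e : ℕ} {M : Type} [Ring M] (l : M →+ ZMod (3 ^ e)) {a b : M}
    (h : 3 ^ e ∣ a - b) : l a = l b := by
  obtain ⟨c, k⟩ := h
  rw [← sub_eq_zero, ← map_sub, k, ← Nat.cast_ofNat (R := M), ← Nat.cast_pow, ← nsmul_eq_mul,
    map_nsmul, nsmul_eq_mul, ZMod.natCast_self, zero_mul]

/-- Additive maps lift to higher levels. -/
theorem exists_lift {e : ℕ} {p q : ℤ} (l : QuadraticAlgebra ℤ p q →+ ZMod (3 ^ e)) (n : ℕ) :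
    ∃ l' : QuadraticAlgebra ℤ p q →+ ZMod (3 ^ (e + n)), ∀ z, inc n (l z) = l' (3 ^ n * z) := by
  obtain ⟨s, hs⟩ := dn_surj n (l ⟨1, 0⟩)
  obtain ⟨t, ht⟩ := dn_surj n (l ⟨0, 1⟩)
  let l' : QuadraticAlgebra ℤ p q →+ ZMod (3 ^ (e + n)) :=
    { toFun := fun z => z.re * s + z.im * t
      map_zero' := by simp
      map_add' := fun a b => by
        simp only [QuadraticAlgebra.re_add, QuadraticAlgebra.im_add, Int.cast_add]; ring }
  refine ⟨l', fun z => ?_⟩
  have k : l z = dn e n (l' z) := by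
    change _ = dn e n (z.re * s + z.im * t)
    rw [map_add, map_mul, map_mul, map_intCast, map_intCast, hs, ht, ← zsmul_eq_mul,
      ← zsmul_eq_mul, ← map_zsmul, ← map_zsmul, ← map_add]
    exact congrArg l (by ext <;> simp)
  rw [k, inc_dn, ← Nat.cast_ofNat (R := QuadraticAlgebra ℤ p q), ← Nat.cast_pow, ← nsmul_eq_mul,
    map_nsmul, nsmul_eq_mul, Nat.cast_pow, Nat.cast_ofNat]

end Pool.Agent.Lib.MP_696deb_nt.EV
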