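import Pool.Agent.Lib.MP_696deb_nt.EV.T0

/-! The auxiliary primes exist. -/

set_option autoImplicit false

open scoped Classical NNReal
open Finset PowerSeries

namespace Pool.Agent.Lib.MP_696deb_nt.EV

theorem t9_mul {a : O} (ha : a ≠ 0) {g h : Gam} (hg : g ∈ G) (hh : h ∈ G) :
    chC (io a) (g * h) = chC (io a) g + chC (io a) h := (p1_b4 ha).2 g hg h hh

theorem t9_pow {a : O} (ha : a ≠ 0) {g : Gam} (hg : g ∈ G) (n : ℕ) :
    chC (io a) (g ^ n) = n * chC (io a) g := by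
  induction n with
  | zero => rw [pow_zero, p1_one (p1_b4 ha).2, Nat.cast_zero, zero_mul]
  | succ n ih => rw [pow_succ, t9_mul ha (pow_mem hg n) hg, ih, Nat.cast_succ, add_one_mul]

theorem t9_kk {n : ℕ} (hn : n ≠ 0) {g : Gam} (hg : g ∈ G) : kk n g = chC (io n) g := by
  rw [map_natCast]
  exact chC_of_kum le_rfl (CU.kum_kk hn G) hg

theorem t9_first : ∃ g ∈ G, cyc g = 1 ∧ chC (io w) g ≠ 0 := by
  have hg := gw_mem 1
  have h1 := normal_G.conj_mem _ hg cc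
  have h2 := mul_mem h1 (inv_mem hg)
  have k : ∀ g ∈ G, kk 3 g = chC (io w) g + chC (io w) g := fun g hg => by
    rw [t9_kk three_ne_zero hg, ← p1_mul p1_w p1_w hg, show w * w = -((3 : ℕ) : O) by decide,
      map_neg, chC_neg hg (EW.io_ne (by decide)) (io_fx _ g hg)]
  have m := fun g h => (CU.kc_kk 3 ⊤).2 g trivial h trivial
  have c1 : CU.chi cc = -1 := H3.cy_cc 1
  have c2 := m cc cc⁻¹
  have c3 := t9_mul p1_w hg (inv_mem hg)
  rw [mul_inv_cancel, p1_one (p1_b4 p1_w).2] at c3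
  rw [mul_inv_cancel, k 1 (one_mem _), p1_one (p1_b4 p1_w).2, CU.kk_cc, c1] at c2
  refine ⟨_, h2, ?_, fun e => ?_⟩
  · rw [H3.cyc_mul, H3.cyc_mul, H3.cyc_mul, mul_right_comm (cyc cc), ← H3.cyc_mul, mul_inv_cancel,
      H3.cyc_one, one_mul, ← H3.cyc_mul, mul_inv_cancel, H3.cyc_one]
  · have c4 := k _ h2
    rw [e, m, m, m, CU.kk_cc, c1, CU.mem_GK.1 h1, k _ hg, k _ (inv_mem hg)] at c4
    rw [gw_spec.2.2.2.2] at c3 c4
    revert c2 c3 c4
    generalize kk 3 cc⁻¹ = x, chC (io w) (gw 1)⁻¹ = y, CU.chi (cc * gw 1) = z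
    revert x y z
    decide

theorem t9_step (r : TP) (j : ℕ) {g : Gam} (hg : g ∈ G) : g * r.σ ^ j ∈ G ∧
    cyc (g * r.σ ^ j) = cyc g ∧ (∀ a : O, a ≠ 0 →
      chC (io a) (g * r.σ ^ j) = chC (io a) g + j * chC (io a) r.σ) ∧
    ∀ a : O, ¬ r.π ∣ a → chC (io a) (g * r.σ ^ j) = chC (io a) g := by
  have k := pow_mem r.σ_mem j
  have e : ∀ a : O, a ≠ 0 → chC (io a) (g * r.σ ^ j) = chC (io a) g + j * chC (io a) r.σ :=
    fun a ha => by rw [t9_mul ha hg k, t9_pow ha r.σ_mem]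
  refine ⟨mul_mem hg k, ?_, e, fun a ha => ?_⟩
  · clear k e
    induction j with
    | zero => rw [pow_zero, mul_one]
    | succ j ih => rw [pow_succ, ← mul_assoc, H3.cyc_mul, ih, r.cyc_σ, mul_one]
  · rw [e a fun k => ha (k ▸ dvd_zero _), chC_ine r.odd (io_fx a) (r.V_eq.2 ha) r.σ_ine, mul_zero,
      add_zero]

theorem t9_w (r : TP) : ¬ r.π ∣ w := r.V_eq.1 (p1_V_w r.odd)

theorem t9_fix {ι : Type} (t : ι → TP) (hi : ∀ i j, (t i).π = (t j).π → i = j) (x : ι → ZMod 3)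
    (S : Finset ι) : ∃ g ∈ G, cyc g = 1 ∧ chC (io w) g ≠ 0 ∧ ∀ i ∈ S, chC (io (t i).π) g = x i := by
  induction S using Finset.induction_on with
  | empty =>
    obtain ⟨g, hg, h1, h2⟩ := t9_first
    exact ⟨g, hg, h1, h2, by simp⟩
  | insert i S hS ih =>
    obtain ⟨g, hg, h1, h2, h3⟩ := ih
    obtain ⟨j, hj⟩ := (by decide : ∀ c s x : ZMod 3, s ≠ 0 → ∃ j : ZMod 3, c + j * s = x)
      (chC (io (t i).π) g) _ (x i) (chC_sigma (t i))
    obtain ⟨k1, k2, k3, k4⟩ := t9_step (t i) j.val hg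
    refine ⟨_, k1, k2.trans h1, by rwa [k4 w (t9_w _)],
      (forall_mem_insert _ _ _).2 ⟨?_, fun l hl => ?_⟩⟩
    · rw [k3 _ (t i).prime.ne_zero, ZMod.natCast_zmod_val, hj]
    · rw [k4 _ ((t i).not_dvd _ fun e => hS (hi i l e ▸ hl)), h3 l hl]

theorem t9_om {u : Ow} (h : u = oW om ∨ u = oW (om ^ 2)) : ¬ wO ^ 2 ∣ u - 1 := fun k => by
  have : ∃ c : O, IsUnit c ∧ u - 1 = wO * oW c := by
    rcases h with rfl | rfl
    · exact ⟨-om ^ 2, (EW.isUnit_om.pow 2).neg, by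
        rw [wO_eq, ← map_mul, ← map_one oW, ← map_sub]; exact congrArg oW (by decide)⟩
    · exact ⟨om, EW.isUnit_om, by
        rw [wO_eq, ← map_mul, ← map_one oW, ← map_sub]; exact congrArg oW (by decide)⟩
  obtain ⟨c, u1, e⟩ := this
  rw [e, sq, mul_dvd_mul_iff_left prime_wO.ne_zero] at k
  exact unit_iff_wO.1 (u1.map oW) k

namespace Cb

variable (c : Cb)

theorem exists_g : ∃ g ∈ G, cyc g = 1 ∧ chC (io w) g ≠ 0 ∧ (∀ i, chC (io (c.tp i).π) g ≠ 0) ∧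
    chC (io (c.α true).π) g ≠ 0 ∧ chC (io (c.α false).π) g = 0 ∧ chC (io c.t.N) g ≠ 0 := by
  have ne : ∀ i b, (c.tp i).π ≠ (c.α b).π := fun i b e => c.α_nd b (e ▸ c.dvd i)
  obtain ⟨g, hg, h1, h2, h3⟩ := t9_fix (Sum.elim c.tp c.α) (by
    rintro (i | a) (j | b) e
    · rw [c.inj i j e]
    · exact absurd e (ne i b)
    · exact absurd e.symm (ne j a)
    · cases a <;> cases b
      exacts [rfl, absurd e c.α_ne, absurd e.symm c.α_ne, rfl])
    (Sum.elim (fun _ => 1) fun b => bif b then 1 else 0) univ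
  have a1 : ∀ i, chC (io (c.tp i).π) g = 1 := fun i => h3 (.inl i) (mem_univ _)
  have a2 : chC (io (c.α true).π) g = 1 := h3 (.inr true) (mem_univ _)
  have a3 : chC (io (c.α false).π) g = 0 := h3 (.inr false) (mem_univ _)
  by_cases h : chC (io c.t.N) g = 0
  · have s0 := chC_sigma (c.tp c.i0)
    obtain ⟨k1, k2, k3, k4⟩ := t9_step (c.tp c.i0) (chC (io (c.tp c.i0).π) (c.tp c.i0).σ).val hg
    refine ⟨_, k1, k2.trans h1, by rwa [k4 w (t9_w _)], fun i => ?_, ?_, ?_, ?_⟩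
    · by_cases e : c.i0 = i
      · rw [← e, k3 _ (c.tp c.i0).prime.ne_zero, a1, ZMod.natCast_zmod_val, F3_sq s0]
        decide
      · rw [k4 _ ((c.tp c.i0).not_dvd _ fun k => e (c.inj _ _ k)), a1]
        decide
    · rw [k4 _ ((c.tp c.i0).not_dvd _ (ne _ _)), a2]
      decide
    · rw [k4 _ ((c.tp c.i0).not_dvd _ (ne _ _)), a3]
    · rw [k3 _ (Nat.cast_ne_zero.2 c.t.ne), h, zero_add, ZMod.natCast_zmod_val,
        ← t9_kk c.t.ne (c.tp c.i0).σ_mem]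
      exact mul_ne_zero s0 (mt (rho0_w2 c.t (c.tp c.i0).σ_mem).2 (t9_om (c.sig c.i0)))
  · exact ⟨g, hg, h1, h2, fun i => by rw [a1]; decide, by rw [a2]; decide, a3, h⟩

theorem exists_lv (k : ℕ) : Nonempty (Lv c k) := by
  obtain ⟨s, hs, ord⟩ := exists_ord k
  obtain ⟨g, hg, h1, h2, h3, h4, h5, h6⟩ := c.exists_g
  obtain ⟨U1, n1, u1⟩ := nice_cy (s + 1)
  let a : Bool ⊕ c.κ ⊕ Bool → O :=
    Sum.elim (fun b => bif b then w else c.t.N) fun j => (Sum.elim c.tp c.α j).π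
  have a0 : ∀ i, a i ≠ 0 := by
    rintro ((_ | _) | j)
    exacts [Nat.cast_ne_zero.2 c.t.ne, p1_w, (Sum.elim c.tp c.α j).prime.ne_zero]
  obtain ⟨U3, n3, u3⟩ := nice_fin (p := fun i u => chC (io (a i)) u = 0) fun i =>
    nice_hom (m := 1) (p1_b4 (a0 i)).1 (p1_b4 (a0 i)).2
  obtain ⟨l, n, hn, hB, -, hu⟩ := cheb (n1.inf n3) hg c.t.N.primeFactors
  have hφ := l.φ_mem
  obtain ⟨u, e, m1, m3⟩ : ∃ u, g ^ n = l.φ * u ∧ u ∈ U1 ∧ u ∈ U3 :=
    ⟨_, (mul_inv_cancel_left _ _).symm, hu⟩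
  have hG := n1.le m1
  have d : 3 ^ (s + 1) ∣ nm l.π - 1 := by
    let f : Gam →* ZMod (3 ^ (s + 1)) := ⟨⟨cy (s + 1), g1_cy_one _⟩, H3.cy_mul _⟩
    have e1 : f g ^ n = f l.φ * f u := by rw [← map_pow, e, map_mul]
    change cy _ g ^ n = cy _ l.φ * cy _ u at e1
    rw [u1 u m1, mul_one, cy, h1, map_one, one_pow, cy, l.cyc_φ, map_natCast,
      ← Nat.cast_one (R := ZMod (3 ^ (s + 1))), ZMod.natCast_eq_natCast_iff] at e1
    exact (Nat.modEq_iff_dvd' (by have := l.nm_mod; omega)).1 e1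
  obtain ⟨x⟩ := exists_ix l (by omega) d
  have nd : ¬ l.π ∣ (c.t.N : O) := l.V_eq.1 (by
    rw [map_natCast, ← Int.cast_natCast]
    exact l.v.V_int_eq_one.2 fun e => hB (Nat.mem_primeFactors.2
      ⟨l.v.prime, Int.natCast_dvd_natCast.1 e, c.t.ne⟩))
  have ne : ∀ b, (c.α b).π ≠ l.π := fun b e => by
    have k1 := c.α5 b
    have k2 : 9 ∣ nm l.π - 1 := (pow_dvd_pow 3 (show 2 ≤ s + 1 by omega)).trans d
    have k3 := l.nm_mod
    rw [e] at k1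
    omega
  have fr : ∀ i, chC (io (a i)) l.φ = 0 ↔ chC (io (a i)) g = 0 := fun i => by
    have p := t9_pow (a0 i) hg n
    rw [e, t9_mul (a0 i) hφ hG, u3 u m3 i, add_zero] at p
    rw [p, mul_eq_zero, or_iff_right (mt (ZMod.natCast_eq_zero_iff n 3).1 hn)]
  have par : ∀ i, ¬ l.π ∣ a i → (3 ∣ (x.ind (a i)).val ↔ chC (io (a i)) g = 0) := fun i hi => by
    rw [x.par _ hi, ← chC_frob l hi, fr]
  have na : ∀ b, ¬ l.π ∣ (c.α b).π := fun b => l.not_dvd _ (ne b).symm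
  exact ⟨⟨l, s, x, ord, nd, ne, mt (par (.inl true) (t9_w l)).1 h2,
    fun i => mt (par (.inr (.inl i)) fun e => nd (e.trans (c.dvd i))).1 (h3 i),
    mt (par (.inr (.inr true)) (na true)).1 h4, (par (.inr (.inr false)) (na false)).2 h5,
    fun r => h6 ((fr (.inl false)).1 ((t9_kk c.t.ne hφ).symm.trans ((rho0_w2 c.t hφ).1 r)))⟩⟩

end Cb

end Pool.Agent.Lib.MP_696deb_nt.EV
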