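import Pool.Agent.Lib.MP_696deb_nt.EV.C1
import Pool.Agent.Lib.MP_696deb_nt.EW.L1

/-! Cubic characters, the index modulo a prime. -/

set_option autoImplicit false

open scoped Classical NNReal
open Finset

namespace Pool.Agent.Lib.MP_696deb_nt.EV

variable {g σ : Gam} {v : Plc} {a n : O}

theorem chC_ine (hv : v.p ≠ 3) {x : Qbar} (hx : Fx G x) (h : v.V x = 1) (hσ : σ ∈ Ine v) :
    chC x σ = 0 :=
  (kum_chC (fun e => by simp [e] at h) hx).unr hv h σ ⟨ine_le hv hσ, hσ⟩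

theorem chC_sigma (t : TP) : chC (io t.π) t.σ ≠ 0 := by
  have p0 := (B2.b4a_V_p t.v).1
  have h1 : Fx G (io t.π / t.v.p) := fun g hg => by rw [map_div₀, io_fx _ g hg, map_natCast]
  have h2 : t.v.V (io t.π / t.v.p) = 1 := by
    rw [map_div₀, t.V_pi, t.v.hV, div_self (t.v.hV ▸ (map_ne_zero t.v.V).2 p0)]
  rw [← div_mul_cancel₀ (io t.π) p0, chC_mul t.σ_mem (fun e => by simp [e] at h2) p0
    (h1 _ t.σ_mem) (map_natCast _ _), chC_ine t.odd h1 h2 t.σ_ine, zero_add]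
  exact mt (chC_zero t.σ_mem (rt3_pow 1 _)).1 (t.tm.gen.2 _ (rt3_pow 1 _))

theorem c5_near (hv : v.p ≠ 3) (hg : g ∈ G ⊓ Dec v) {x c : Qbar} (h : v.V x = 1) (hx : g x = x)
    (hc : g c = c) (k : v.V (x - c ^ 3) < 1) : chC x g = 0 := by
  have e : rt3 1 x ^ 3 = x := rt3_pow 1 x
  have h1 : v.V (rt3 1 x) = 1 := by
    rw [← e, map_pow] at h
    exact (pow_eq_one_iff_of_nonneg zero_le three_ne_zero).1 h
  have z := mem_G.1 hg.1
  obtain ⟨d, h2, h3⟩ : ∃ d, g d = d ∧ v.V (rt3 1 x - d) < 1 := by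
    by_contra! n
    rw [show x - c ^ 3 = (rt3 1 x - c) * (rt3 1 x - zeta 1 * c) * (rt3 1 x - zeta 1 ^ 2 * c) by
      linear_combination -e + c * rt3 1 x * (rt3 1 x - zeta 1 * c) * H3.zeta_one +
        c ^ 3 * H3.TA.zeta_cube, map_mul, map_mul] at k
    exact k.not_ge (one_le_mul (one_le_mul (n c hc) (n _ (by simp [hc, z]))) (n _ (by simp [hc, z])))
  have h4 := v.V.map_sub_lt ((B2.mem_Dec.1 hg.2 _).trans_lt h3) h3
  rw [map_sub g, h2, sub_sub_sub_cancel_right, chC_spec (fun e => by simp [e] at h) hx,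
    ← mul_sub_one, map_mul, h1, one_mul] at h4
  exact H3.zeta_val_inj (m := 1)
    ((v.eq_one_of_root (H3.b4a_ndvd hv 1) (H3.b3b_pow 1 _) h4).trans (pow_zero _).symm)

theorem c5_card (t : TP) : Nat.card (O ⧸ Ideal.span {t.π}) = nm t.π := by
  rw [nm, ← EW.card_quot, Int.natAbs_natCast]

theorem c5_max (t : TP) : (Ideal.span {t.π}).IsMaximal :=
  PrincipalIdealRing.isMaximal_of_irreducible t.prime.irreducible

theorem c5_fin (t : TP) : Finite (O ⧸ Ideal.span {t.π}) :=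
  Nat.finite_of_card_ne_zero (by have := t.nm_mod; rw [c5_card]; omega)

theorem c5_q {π b : O} :
    π ∣ a - b ↔ Ideal.Quotient.mk (Ideal.span {π}) a = Ideal.Quotient.mk _ b :=
  (Ideal.Quotient.eq.trans Ideal.mem_span_singleton).symm

theorem c5_q0 {π : O} : Ideal.Quotient.mk (Ideal.span {π}) a = 0 ↔ π ∣ a :=
  Ideal.Quotient.eq_zero_iff_mem.trans Ideal.mem_span_singleton

/-- Integral numbers fixed by the Frobenius element are congruent to Eisenstein integers. -/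
theorem c5_res (t : TP) {y : Qbar} (h : t.v.V y ≤ 1) (k : t.φ y = y) :
    ∃ b, t.v.V (y - io b) < 1 := by
  have := c5_max t
  have := c5_fin t
  let _ := Ideal.Quotient.field (Ideal.span {t.π})
  let S := t.v.V.valuationSubring
  let j : O →+* S := io.codRestrict S fun a => EW.V_io_le t.v a
  have z : ∀ x : S, IsLocalRing.residue S x = 0 ↔ t.v.V x < 1 := fun x =>
    (IsLocalRing.residue_eq_zero_iff x).trans (Valuation.mem_maximalIdeal_iff _ _)
  let f := Ideal.Quotient.lift (Ideal.span {t.π}) ((IsLocalRing.residue S).comp j) fun a ha =>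
    (z _).2 (t.V_lt.2 (Ideal.mem_span_singleton.1 ha))
  obtain ⟨c, e⟩ := (Polynomial.splits_X_pow_nat_card_sub_X
    (K := O ⧸ Ideal.span {t.π})).mem_range_of_isRoot
    (FiniteField.X_pow_card_sub_X_ne_zero _ Finite.one_lt_card) (i := f)
    (x := IsLocalRing.residue S ⟨y, h⟩) (by
      rw [Polynomial.map_sub, Polynomial.map_pow, Polynomial.map_X, Polynomial.IsRoot,
        Polynomial.eval_sub, Polynomial.eval_pow, Polynomial.eval_X, ← map_pow, ← map_sub, z,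
        c5_card]
      have := t.tm.frob.2 y h
      rwa [k, t.v.V.map_sub_swap] at this)
  obtain ⟨b, rfl⟩ := Ideal.Quotient.mk_surjective c
  exact ⟨b, (z (⟨y, h⟩ - j b)).1 (by rw [map_sub, ← e]; exact sub_self _)⟩

theorem c5_pow (t : TP) (ha : ¬ t.π ∣ a) {y : Qbar} {m : ℕ} (e : y ^ m = io a) (hm : m ≠ 0)
    (k : t.φ y = y) : ∃ b, t.π ∣ a - b ^ m := by
  have h1 := t.V_eq.2 ha
  rw [← e, map_pow, pow_eq_one_iff_of_nonneg zero_le hm] at h1
  obtain ⟨b, hb⟩ := c5_res t h1.le k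
  refine ⟨b, t.V_lt.1 ?_⟩
  have := EW.V_prod_sub (range m) (f := fun _ => y) (EW.V_io_le t.v b) fun _ _ => hb
  rwa [prod_const, card_range, e, ← map_pow, ← map_sub] at this

theorem chC_frob (t : TP) (h : ¬ t.π ∣ a) : chC (io a) t.φ = 0 ↔ ∃ b, t.π ∣ a - b ^ 3 :=
  ⟨fun k => c5_pow t h (rt3_pow 1 _) three_ne_zero ((chC_zero t.φ_mem (rt3_pow 1 _)).1 k),
    fun ⟨b, e⟩ => c5_near t.odd ⟨t.φ_mem, t.tm.frob.1⟩ (t.V_eq.2 h) (io_fx a _ t.φ_mem)
      (io_fx b _ t.φ_mem) (by rw [← map_pow, ← map_sub]; exact t.V_lt.2 e)⟩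

theorem chC_frob_one (t : TP) {x : Qbar} (hx : Fx G x) (h : t.v.V (x - 1) < 1) :
    chC x t.φ = 0 :=
  c5_near t.odd ⟨t.φ_mem, t.tm.frob.1⟩ (by
    simpa using t.v.V.map_eq_of_sub_lt (x := 1) (y := x) (by simpa using h))
    (hx _ t.φ_mem) (map_one _) (by rwa [one_pow])

theorem chC_ii_cy (hg : g ∈ G) : chC (io om) g = 0 ↔ cy 2 g = 1 := by
  have h := H3.zeta_succ_cube 1
  have h0 : zeta 2 ≠ 0 := fun e => EW.zeta_ne (by rw [← h, e, zero_pow three_ne_zero])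
  rw [EW.io_om, chC_pow hg EW.zeta_ne (mem_G.1 hg),
    (by decide : ∀ a : ZMod 3, (2 : ℕ) * a = 0 ↔ a = 0), chC_zero hg h]
  exact ⟨fun e => (H3.b1b_cy_eq (k := 1) (e.trans (pow_one _).symm)).trans Nat.cast_one, fun e => by
    rw [H3.b1b_spec, e]; exact pow_one _⟩

theorem chC_ii_frob (t : TP) : chC (io om) t.φ = 0 ↔ nm t.π % 9 = 1 := by
  rw [chC_ii_cy t.φ_mem, cy, t.cyc_φ, map_natCast, ← Nat.cast_one (R := ZMod (3 ^ 2)),
    ZMod.natCast_eq_natCast_iff']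
  rfl

/-- A generator of the group of invertible residues. -/
theorem c5_gen (t : TP) : ∃ c : O, ¬ t.π ∣ c ∧
    (∀ {i j}, t.π ∣ c ^ i - c ^ j ↔ i ≡ j [MOD nm t.π - 1]) ∧
    (∀ a, ¬ t.π ∣ a → ∃ k, t.π ∣ a - c ^ k) ∧
    ∀ a k, t.π ∣ a - c ^ k → (3 ∣ k ↔ ∃ b, t.π ∣ a - b ^ 3) := by
  have := c5_max t
  have := c5_fin t
  let _ := Ideal.Quotient.field (Ideal.span {t.π})
  obtain ⟨γ, hγ⟩ := IsCyclic.exists_monoid_generator (α := (O ⧸ Ideal.span {t.π})ˣ)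
  obtain ⟨c, hc⟩ := Ideal.Quotient.mk_surjective (γ : O ⧸ Ideal.span {t.π})
  have h0 : ¬ t.π ∣ c := mt c5_q0.2 (hc ▸ γ.ne_zero)
  have h1 : ∀ {i j}, t.π ∣ c ^ i - c ^ j ↔ i ≡ j [MOD nm t.π - 1] := by
    intro i j
    rw [c5_q, map_pow, map_pow, hc, ← c5_card, ← Nat.card_units,
      ← orderOf_eq_card_of_forall_mem_powers hγ, ← pow_eq_pow_iff_modEq, Units.ext_iff]
    rfl
  have h2 : ∀ a, ¬ t.π ∣ a → ∃ k, t.π ∣ a - c ^ k := fun a ha =>
    (hγ (Units.mk0 _ (mt c5_q0.1 ha))).imp fun k e => by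
      rw [c5_q, map_pow, hc]
      exact (congrArg Units.val e).symm
  refine ⟨c, h0, h1, h2, fun a k e => ⟨fun ⟨l, h⟩ => ⟨c ^ l, by rwa [← pow_mul', ← h]⟩,
    fun ⟨b, h⟩ => ?_⟩⟩
  obtain ⟨l, hl⟩ := h2 b fun k => h0 (t.prime.dvd_of_dvd_pow
    (by simpa using (h.add (k.pow three_ne_zero)).sub e))
  have := (h1 (i := k) (j := l * 3)).1 (by
    rw [c5_q] at *
    rw [← e, h, pow_mul, map_pow, map_pow _ (_ ^ _), hl])
  have h3 := t.nm_mod
  exact (this.dvd_iff (by omega)).2 (dvd_mul_left _ _)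

theorem c5_cm (t : TP) (hg : g ∈ G) : ¬ t.π ∣ cm t.π g :=
  t.prime.irreducible.coprime_iff_not_dvd.1 (cm_cop t.prime.ne_zero hg).symm

theorem cm2 (t : TP) (hg : g ∈ G) : chC (io t.π) g = 0 ↔ ∃ b, t.π ∣ cm t.π g - b ^ 3 := by
  have p0 := t.prime.ne_zero
  obtain ⟨c, c0, c1, c2, c3⟩ := c5_gen t
  obtain ⟨n, hn⟩ : ∃ n, nm t.π = n + n + n + 1 := ⟨nm t.π / 3, by have := t.nm_mod; omega⟩
  have n0 : n ≠ 0 := fun e => t.prime.not_isUnit (g1_nm_one.1 (by rw [hn, e]))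
  rw [hn, Nat.add_sub_cancel] at c1
  have q : ∀ {a b : O}, a • tq 1 t.π = b • tq 1 t.π ↔ t.π ∣ a - b := by
    intro a b
    rw [← EW.smul_tq_one p0, sub_smul, sub_eq_zero]
  have m : ∀ j : ℕ, c ^ j • tq 1 t.π ∈ (En t.π).erase 0 := fun j => (EW.mem_En0 p0).2
    ⟨mt (EW.smul_tq_one p0).1 (mt t.prime.dvd_of_dvd_pow c0), by
      rw [smul_comm, m_tq p0, smul_zero]⟩
  have inj : Set.InjOn (fun j : ℕ => c ^ j • tq 1 t.π) (range (n + n + n)) := fun i hi j hj e =>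
    (c1.1 (q.1 e)).eq_of_lt_of_lt (by simpa using hi) (by simpa using hj)
  have cd : ((En t.π).erase 0).card = n + n + n :=
    Nat.succ_injective ((EW.card_En0 p0).symm.trans hn)
  obtain ⟨ξ, x1, x2⟩ : ∃ ξ : Qbar, IsPrimitiveRoot ξ 3 ∧
      ∀ k, xco (c ^ (k + n) • tq 1 t.π) = ξ * xco (c ^ k • tq 1 t.π) := by
    have z : IsPrimitiveRoot (zeta 1 ^ 2) 3 := (H3.zeta_prim 1).pow_of_coprime 2 (by decide)
    have e := (c1 (i := n + n + n) (j := 0)).2 (Nat.modEq_zero_iff_dvd.2 dvd_rfl)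
    rw [show c ^ (n + n + n) - c ^ 0 = (c ^ n - c ^ 0) * ((c ^ n - om) * (c ^ n - om * om)) by
      have : om ^ 2 + om + 1 = 0 := by decide
      linear_combination (c ^ n * c ^ n - om * c ^ n + om - 1) * this] at e
    rcases t.prime.dvd_or_dvd ((t.prime.dvd_or_dvd e).resolve_left fun e =>
      n0 ((c1.1 e).eq_of_lt_of_lt (by omega) (by omega))) with e | e
    · exact ⟨_, z, fun k => by rw [pow_add, mul_smul, q.2 e, smul_comm, EW.x_om]⟩
    · exact ⟨_, z.pow_of_coprime 2 (by decide), fun k => by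
        rw [pow_add, mul_smul, q.2 e, smul_comm, mul_smul, EW.x_om, EW.x_om, ← mul_assoc, ← sq]⟩
  obtain ⟨S, hS⟩ : ∃ S : ℕ → Qbar, ∀ k, S k = ∏ j ∈ range n, xco (c ^ (k + j) • tq 1 t.π) :=
    ⟨_, fun _ => rfl⟩
  have e2 : ∀ k, S k = ξ ^ k * S 0 := fun k => by
    induction k with
    | zero => simp
    | succ k ih =>
      have k1 := (prod_range_succ (fun j => xco (c ^ (k + j) • tq 1 t.π)) n).symm.trans
        (prod_range_succ' _ n)
      simp only [← add_assoc, add_right_comm k _ 1, ← hS, x2, add_zero] at k1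
      rw [pow_succ, mul_right_comm, ← ih]
      exact mul_right_cancel₀ (EW.Xb_ne t.red (m k)) (by linear_combination -k1)
  have e3 := EW.x_prod (EW.prim_T3 t.prim)
  rw [← prod_nbij _ (fun j _ => m j) inj (surjOn_of_injOn_of_card_le _ (fun j _ => m j) inj (by
      rw [cd, card_range])) (f := fun j => xco (c ^ j • tq 1 t.π)) fun _ _ => rfl, cd,
    prod_range_add, prod_range_add, ← hS, ← hS,
    show ∏ j ∈ range n, xco (c ^ j • tq 1 t.π) = S 0 by simp [hS], e2 n, e2 (n + n)] at e3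
  have e4 : (io t.π * S 0 / 3 ^ n) ^ 3 = io t.π := by
    have : (ξ ^ n) ^ 3 = 1 := by rw [pow_right_comm, x1.pow_eq_one, one_pow]
    rw [div_pow, div_eq_iff (by simp)]
    linear_combination io t.π * e3 - io t.π ^ 3 * S 0 ^ 3 * this
  have s0 : S 0 ≠ 0 := fun e => EW.io_ne p0 (by simpa [e] using e4.symm)
  obtain ⟨k, hk⟩ := c2 _ (c5_cm t hg)
  have e5 : g (S 0) = ξ ^ k * S 0 := by
    rw [← e2, hS, hS, map_prod]
    refine prod_congr rfl fun j _ => ?_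
    rw [← xco_act, act_smul hg, cm_spec p0 hg (m_tq p0 1), q.2 hk, smul_smul, ← pow_add, zero_add,
      add_comm]
  rw [chC_zero hg e4, ← c3 _ k hk, ← x1.pow_eq_one_iff_dvd, map_div₀, map_mul, io_fx _ g hg, e5,
    map_pow, map_ofNat, div_left_inj' (by simp), mul_right_inj' (EW.io_ne p0),
    mul_eq_right₀ s0]

theorem c5_ii (t : TP) : ¬ t.π ∣ om := fun e =>
  t.prime.not_dvd_one (CU.om_cube ▸ e.pow three_ne_zero)

theorem exists_ix (t : TP) {s : ℕ} (hs : 0 < s) (h : 3 ^ (s + 1) ∣ nm t.π - 1) :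
    Nonempty (Ix t s) := by
  obtain ⟨c, -, c1, c2, c3⟩ := c5_gen t
  let L : O → ℕ := fun a => sInf {k | t.π ∣ a - c ^ k}
  have hL : ∀ a, ¬ t.π ∣ a → t.π ∣ a - c ^ L a := fun a ha => Nat.sInf_mem (c2 a ha)
  have c0 := c5_cm t t.σ_mem
  obtain ⟨u, hu⟩ := ((ZMod.isUnit_iff_coprime _ (3 ^ s)).2
    (((Nat.prime_three.coprime_iff_not_dvd).2 fun e => chC_sigma t
      ((cm2 t t.σ_mem).2 ((c3 _ _ (hL _ c0)).1 e))).symm.pow_right s)).exists_left_inv
  let ψ := ZMod.castHom (dvd_pow_self 3 hs.ne') (ZMod 3)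
  refine ⟨⟨fun a => u * L a, fun a b ha hb => ?_, fun a b e => ?_, ?_, hu, fun a ha => ?_, h, hs⟩⟩
  · rw [← mul_add, ← Nat.cast_add, (ZMod.natCast_eq_natCast_iff _ _ _).2 ((c1.1 ?_).of_dvd
      ((pow_dvd_pow 3 (Nat.le_succ s)).trans h))]
    rw [c5_q, ← c5_q.1 (hL _ (t.prime.not_dvd_mul ha hb)), pow_add, map_mul, map_mul,
      c5_q.1 (hL _ ha), c5_q.1 (hL _ hb)]
  · simp only [L, c5_q, c5_q.1 e]
  · have := Nat.modEq_zero_iff_dvd.1 ((c1 (i := L om * 3) (j := 0)).1 (by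
      rw [c5_q, pow_mul, map_pow, ← c5_q.1 (hL _ (c5_ii t)), ← map_pow, CU.om_cube, pow_zero]))
    rw [(ZMod.natCast_eq_zero_iff _ _).2 (Nat.dvd_of_mul_dvd_mul_right three_pos (h.trans this)),
      mul_zero]
  · have k : ψ u ≠ 0 := left_ne_zero_of_mul_eq_one (by rw [← map_mul, hu, map_one])
    rw [← c3 a _ (hL a ha), ← ZMod.natCast_eq_zero_iff, ← ZMod.cast_eq_val,
      ← ZMod.castHom_apply (h := dvd_pow_self 3 hs.ne'), map_mul, mul_eq_zero, or_iff_right k,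
      map_natCast, ZMod.natCast_eq_zero_iff]

theorem pow_of_fix (t : TP) (h : nm t.π = t.v.p) {e : ℕ} (ha : ¬ t.π ∣ a)
    (k : t.φ (rt3 e (io a)) = rt3 e (io a)) : ∃ b, t.π ∣ a - b ^ 3 ^ e :=
  have _ := h
  c5_pow t ha (rt3_pow e _) (pow_ne_zero e three_ne_zero) k

namespace Ix

variable {t : TP} {s : ℕ} (x : Ix t s)

theorem one : x.ind 1 = 0 := by
  have := x.mul 1 1 t.prime.not_dvd_one t.prime.not_dvd_one
  rwa [mul_one, left_eq_add] at this

theorem neg_one : x.ind (-1) = 0 := by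
  have h := mt dvd_neg.1 t.prime.not_dvd_one
  have := x.mul _ _ h h
  rw [neg_mul_neg, mul_one, x.one, ← two_mul, eq_comm] at this
  exact ((ZMod.isUnit_iff_coprime 2 (3 ^ s)).2
    (Nat.Coprime.pow_right s (by decide))).mul_right_eq_zero.1 this

theorem pow (ha : ¬ t.π ∣ a) (k : ℕ) : x.ind (a ^ k) = k * x.ind a := by
  induction k with
  | zero => rw [pow_zero, x.one, Nat.cast_zero, zero_mul]
  | succ k ih =>
    rw [pow_succ, x.mul _ _ (mt t.prime.dvd_of_dvd_pow ha) ha, ih, Nat.cast_succ, add_one_mul]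

theorem c5_prod {S : Finset O} (h : ∀ a ∈ S, ¬ t.π ∣ a) :
    x.ind (∏ a ∈ S, a) = ∑ a ∈ S, x.ind a := by
  induction S using Finset.induction_on with
  | empty => exact x.one
  | insert a S ha ih =>
    have k := fun b hb => h b (mem_insert_of_mem hb)
    rw [prod_insert ha, sum_insert ha, x.mul _ _ (h a (mem_insert_self _ _)) fun e => ?_, ih k]
    obtain ⟨b, hb, e⟩ := t.prime.exists_mem_finset_dvd e
    exact k b hb e

theorem sum {R : Finset O} (hR : EW.IsRep t.π R) : ∑ a ∈ R with ¬ t.π ∣ a, x.ind a = 0 := by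
  have := c5_max t
  have := c5_fin t
  let _ := Ideal.Quotient.field (Ideal.span {t.π})
  have := Fintype.ofFinite (O ⧸ Ideal.span {t.π})ˣ
  have e := congrArg Units.val
    (FiniteField.prod_univ_units_id_eq_neg_one (K := O ⧸ Ideal.span {t.π}))
  rw [Units.coe_prod, ← prod_bij (s := R.filter fun a => ¬ t.π ∣ a)
    (f := fun a => Ideal.Quotient.mk _ a)
    (fun a ha => Units.mk0 (Ideal.Quotient.mk _ a) (mt c5_q0.1 (mem_filter.1 ha).2))
    (fun _ _ => mem_univ _) (fun a ha b hb e => hR.uq a (mem_filter.1 ha).1 b (mem_filter.1 hb).1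
      (c5_q.2 (congrArg Units.val e))) (fun u _ => ?_) fun _ _ => rfl, ← map_prod] at e
  · rw [← x.c5_prod fun a ha => (mem_filter.1 ha).2, x.per _ (-1) (c5_q.2 (e.trans (by
      rw [map_neg, map_one]; rfl))), x.neg_one]
  · obtain ⟨a, ha⟩ := Ideal.Quotient.mk_surjective (u : O ⧸ Ideal.span {t.π})
    obtain ⟨r, hr, k⟩ := hR.ex a
    rw [c5_q, ha] at k
    exact ⟨r, mem_filter.2 ⟨hr, mt c5_q0.2 (k ▸ u.ne_zero)⟩, Units.ext k.symm⟩

theorem sm_ig : Sm G x.ig := (sm_cm t.prime.ne_zero).comp x.ind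

theorem hom_ig : IsHom G x.ig := fun _ hg _ hh =>
  (x.per _ _ (cm_mul t.prime.ne_zero hg hh)).trans (x.mul _ _ (c5_cm t hg) (c5_cm t hh))

theorem ig_sigma : x.ig t.σ = 1 := x.sig

theorem ig_ine (hv : v.p ≠ 3) (h : v.V (io t.π) = 1) (hσ : σ ∈ Ine v) : x.ig σ = 0 :=
  (x.per _ _ (cm_ine hv h hσ)).trans x.one

theorem ig_frob (t' : TP) (h : t'.π ≠ t.π) : x.ig t'.φ = x.ind t'.π :=
  x.per _ _ (cm_frob t' (t'.not_dvd t h))

theorem ig_par (hg : g ∈ G) : 3 ∣ (x.ig g).val ↔ chC (io t.π) g = 0 :=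
  (x.par _ (c5_cm t hg)).trans (cm2 t hg).symm

/-- The same index for another Frobenius element. -/
noncomputable def adj (σ : Gam) (h : σ ∈ Ine t.v) : Ix (t.adj σ h) s :=
  ⟨x.ind, x.mul, x.per, x.unit, x.sig, x.par, x.dvd, x.pos⟩

end Ix

end Pool.Agent.Lib.MP_696deb_nt.EV
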