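import Pool.Agent.Lib.MP_696deb_nt.EV.Es
import Pool.Agent.Lib.MP_696deb_nt.EV.C5

/-! Derived classes. -/

set_option autoImplicit false

open scoped Classical NNReal
open Finset

namespace Pool.Agent.Lib.MP_696deb_nt.EV

/-- A prime with an index. -/
structure DP (e : ℕ) where
  t : TP
  x : Ix t e

variable {R : Type} [CommRing R] {e : ℕ} {m b : O} {W : O → R} {θ : Gam → R} {g g0 : Gam}
  {J : Finset (DP e)} {r : DP e}

/-- The conductor. -/
noncomputable def mJ (m : O) (J : Finset (DP e)) : O := m * ∏ r ∈ J, r.t.π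

/-- The weight. -/
noncomputable def WJ (f : ZMod (3 ^ e) →+* R) (W : O → R) (J : Finset (DP e)) (a : O) : R :=
  W a * ∏ r ∈ J, f (r.x.ind a)

/-- The derived class. -/
noncomputable def kol (f : ZMod (3 ^ e) →+* R) (m b : O) (W : O → R) (θ : Gam → R) (g0 : Gam)
    (J : Finset (DP e)) : Gam → R :=
  kap f (Im (mJ m J)) (yb b e) (θ g0 - 1) g0 fun P => WJ f W J (co (mJ m J) P)

/-- Primes that split enough. -/
structure Good (m b : O) (θ : Gam → R) (g0 : Gam) (J : Finset (DP e)) : Prop where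
  mem : g0 ∈ G
  cy0 : cy e g0 = 1
  nd : ∀ r ∈ J, ¬ r.t.π ∣ m
  cop : ∀ r ∈ J, IsCoprime r.t.π b
  th : ∀ r ∈ J, θ r.t.φ = 1
  ig0 : ∀ r ∈ J, r.x.ig g0 = 0
  ig : ∀ r ∈ J, ∀ r' ∈ J, r'.x.ig r.t.φ = 0
  inj : ∀ r ∈ J, ∀ r' ∈ J, r.t.π = r'.t.π → r = r'

variable (f : ZMod (3 ^ e) →+* R)

theorem Good.mono (h : Good m b θ g0 J) {J' : Finset (DP e)} (k : J' ⊆ J) : Good m b θ g0 J' :=
  ⟨h.mem, h.cy0, fun r a => h.nd r (k a), fun r a => h.cop r (k a), fun r a => h.th r (k a),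
    fun r a => h.ig0 r (k a), fun r a r' a' => h.ig r (k a) r' (k a'),
    fun r a r' a' => h.inj r (k a) r' (k a')⟩

theorem mJ_insert (h : r ∉ J) : mJ m (insert r J) = mJ m J * r.t.π := by
  rw [mJ, mJ, prod_insert h, mul_assoc, mul_comm r.t.π]

theorem Good.ne (h : Good m b θ g0 J) (k : Kb m b W θ) : mJ m J ≠ 0 ∧ (3 : O) ∣ mJ m J :=
  have _ := h
  ⟨mul_ne_zero k.ne (prod_ne_zero_iff.2 fun r _ => r.t.prime.ne_zero), k.w3.mul_right _⟩

theorem Good.nd' (h : Good m b θ g0 (insert r J)) (hr : r ∉ J) : ¬ r.t.π ∣ mJ m J := fun k => by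
  refine (r.t.prime.dvd_or_dvd k).elim (h.nd r (mem_insert_self _ _)) fun k => ?_
  obtain ⟨s, hs, k⟩ := r.t.prime.exists_mem_finset_dvd k
  exact r.t.not_dvd s.t (fun e => hr
    (h.inj r (mem_insert_self _ _) s (mem_insert_of_mem hs) e ▸ hs)) k

theorem kol_dvd (hr : r ∈ J) : r.t.π ∣ mJ m J := (dvd_prod_of_mem _ hr).mul_left m

theorem kol_per (k : Kb m b W θ) {J' : Finset (DP e)} (hJ : J' ⊆ J) {a a' : O}
    (h : mJ m J ∣ a - a') : WJ f W J' a = WJ f W J' a' := by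
  rw [WJ, WJ, k.per _ _ ((dvd_mul_right _ _).trans h),
    prod_congr rfl fun r hr => by rw [r.x.per _ _ ((kol_dvd (hJ hr)).trans h)]]

theorem kol_co {M n : O} (hM : M ≠ 0) (hn : n ∣ M) (hg : g ∈ G) {P : A} (hP : P ∈ Im M) :
    n ∣ co M (g • P) - cm n g * co M P := by
  have := (hn.trans (co_act hM hg (Im_kill hM hP))).add
    ((cm_of_dvd hM hg hn).mul_right (co M P))
  rwa [sub_mul, sub_add_sub_cancel] at this

/-- The translate of a weight. -/
theorem Good.act (h : Good m b θ g0 J) (k : Kb m b W θ) {J' : Finset (DP e)} (hJ : J' ⊆ J)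
    (hg : g ∈ G) {P : A} (hP : P ∈ Im (mJ m J)) :
    WJ f W J' (co (mJ m J) (g • P)) =
      θ g * (W (co (mJ m J) P) * ∏ r ∈ J', (f (r.x.ind (co (mJ m J) P)) + f (r.x.ig g))) := by
  obtain ⟨h0, h3⟩ := h.ne k
  have c := co_cop h0 hP
  rw [WJ, k.per _ _ (kol_co h0 (dvd_mul_right _ _) hg hP), k.eqv g hg _ c.of_mul_right_left
    (co_prim h0 h3 hP), mul_assoc, prod_congr rfl fun r hr => ?_]
  have d := kol_dvd (m := m) (hJ hr)
  rw [r.x.per _ _ (kol_co h0 d hg hP), r.x.mul _ _ (c5_cm r.t hg) fun e =>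
    r.t.prime.not_isUnit (c.isUnit_of_dvd' e d), map_add, add_comm, Ix.ig]

theorem kol_fix (h : Good m b θ g0 J) (k : Kb m b W θ) {J' : Finset (DP e)} (hJ : J' ⊆ J)
    (hg : g ∈ G) (h0 : ∀ r ∈ J', r.x.ig g = 0) {P : A} (hP : P ∈ Im (mJ m J)) :
    WJ f W J' (co (mJ m J) (g • P)) = θ g * WJ f W J' (co (mJ m J) P) := by
  rw [h.act f k hJ hg hP, WJ, prod_congr rfl fun r hr => by rw [h0 r hr, map_zero, add_zero]]

theorem kol_comm {M : O} (hM : M ≠ 0) (hg : g ∈ G) (h0 : g0 ∈ G) {P : A} (hP : M • P = 0) :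
    g • g0 • P = g0 • g • P := by
  rw [cm_spec hM h0 hP, act_smul hg, cm_spec hM h0 (P := g • P)]
  rw [← act_smul hg, hP, smul_zero]

theorem kol_g0 (h : Good m b θ g0 J) (k : Kb m b W θ) {J' : Finset (DP e)} (hJ : J' ⊆ J)
    (hg : g ∈ G) {P : A} (hP : P ∈ Im (mJ m J)) :
    WJ f W J' (co (mJ m J) (g • g0 • P)) = θ g0 * WJ f W J' (co (mJ m J) (g • P)) := by
  obtain ⟨h0, h3⟩ := h.ne k
  rw [kol_comm h0 hg h.mem (Im_kill h0 hP),
    kol_fix f h k hJ h.mem (fun r hr => h.ig0 r (hJ hr)) (act_Im h0 h3 hg hP)]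

theorem kol_down {M : O} (hM : M ≠ 0) (h3 : (3 : O) ∣ M) (hb : CU.red b ≠ 0) (t : TP)
    (hd : ¬ t.π ∣ M) (hc : IsCoprime t.π b) : ∃ X : (A → R) → R,
      (∀ (U : A → R) (g : Gam) (a : R), (∀ P ∈ Im M, U (g • P) = a * U P) → X (tr U g) = a * X U) ∧
      ∀ U : A → R, (∀ P ∈ Im M, U (t.π • P) = U P) → ∀ g ∈ G,
        FF f (Im (M * t.π)) (yb b e) (fun P => U (t.π • P)) g = f (cy e g) * X (tr U g) - X U := by
  refine ⟨XX f (Im M) (push (pre t.π (Im M)) (fun P : A => t.π • P) (yb b e)) (yb b e),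
    fun U g a k => (sum_congr rfl fun P hP => by rw [tr, k P hP, mul_left_comm]).trans
      (mul_sum _ _ _).symm, fun U hU g hg => ?_⟩
  obtain ⟨h1, h2⟩ := pre_new hM h3 t.prime t.prim hd
  have := FF_down (e := e) f hb t.prime.ne_zero hc (fun g hg P => act_Im hM h3 hg)
    (fun P hP => Im_ne hM h3 hP hb) U hg
  rw [← add_right_inj (FF f (Im M) (yb b e) U g), ← this, h1, add_comm,
    ← FF_congr f (S := Im M) hU]
  exact (sum_union h2).symm

/-- The lower weights give nothing. -/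
theorem Good.low (h : Good m b θ g0 J) (k : Kb m b W θ) {J' : Finset (DP e)} (hJ : J' ⊂ J)
    (hg : g ∈ G) :
    kap f (Im (mJ m J)) (yb b e) (θ g0 - 1) g0 (fun P => WJ f W J' (co (mJ m J) P)) g = 0 := by
  obtain ⟨r, hr, n⟩ := exists_of_ssubset hJ
  obtain ⟨J, hr', rfl⟩ : ∃ K, r ∉ K ∧ J = insert r K :=
    ⟨J.erase r, notMem_erase _ _, (insert_erase hr).symm⟩
  have s : J' ⊆ J := (subset_insert_iff_of_notMem n).1 hJ.1
  have h' := h.mono (subset_insert r J)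
  obtain ⟨h0, h3⟩ := h'.ne k
  obtain ⟨k0, k3⟩ := h.ne k
  have d := h.nd' hr'
  obtain ⟨X, x1, x2⟩ := kol_down (e := e) f h0 h3 k.red r.t d (h.cop r hr)
  rw [mJ_insert hr'] at k0 k3 ⊢
  obtain ⟨V, hV⟩ : ∃ V : A → R, V = fun P => WJ f W J' (co (mJ m J) P) := ⟨_, rfl⟩
  have v1 : ∀ P ∈ Im (mJ m J), V (r.t.π • P) = V P := fun P hP => by
    rw [← act_frob r.t d (Im_kill h0 hP), hV]
    exact (kol_fix f h' k s r.t.φ_mem (fun r' a => h.ig r hr r' (hJ.1 a)) hP).trans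
      (by rw [h.th r hr, one_mul])
  have v2 : ∀ g ∈ G, ∀ P ∈ Im (mJ m J), V (g • g0 • P) = θ g0 * V (g • P) := fun g hg P hP =>
    hV ▸ kol_g0 f h' k s hg hP
  rw [kap_congr f (fam_Im k0 k3 k.red e) hg (W' := fun P => V (r.t.π • P)) fun P hP =>
    hV ▸ kol_per f k s (dvd_sub_comm.1 (co_down h0 r.t.prime.ne_zero (Im_kill k0 hP))), kap,
    show tr (fun P => V (r.t.π • P)) g = fun P => tr V g (r.t.π • P) from
      funext fun P => congrArg V (act_smul hg _ P).symm, x2 V v1 g hg, x2 V v1 g0 h.mem,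
    x2 (tr V g) (fun P hP => (congrArg V (act_smul hg _ P)).trans (v1 _ (act_Im h0 h3 hg hP)))
      g0 h.mem, x1 (tr V g) g0 _ (v2 g hg), x1 V g0 (θ g0) fun P hP => by
        simpa only [one_smul] using v2 1 (one_mem _) P hP, h.cy0, map_one]
  ring

theorem kol_zc (h : Good m b θ g0 J) (k : Kb m b W θ) :
    Zc G (fun g => f (cy e g) * θ g) (kol f m b W θ g0 J) := by
  obtain ⟨h0, h3⟩ := h.ne k
  have F := fam_Im h0 h3 k.red e
  refine ⟨sm_kap f F, fun g hg s hs => ?_⟩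
  rw [kol, kap_coc f F hg hs h.mem h.cy0 fun P hP => by
      rw [add_sub_cancel, kol_g0 f h k subset_rfl hg hP],
    kap_congr f F hs (W := tr _ g) (W' := fun P => ∑ K ∈ J.powerset,
      (θ g * ∏ r ∈ J \ K, f (r.x.ig g)) * WJ f W K (co (mJ m J) P)) fun P hP => ?_,
    kap_sum, sum_eq_single_of_mem J (mem_powerset_self J) fun K hK n => ?_, sdiff_self,
    bot_eq_empty, prod_empty, mul_one, smul_eq_mul, mul_assoc]
  · rw [h.low f k (ssubset_of_subset_of_ne (mem_powerset.1 hK) n) hs, mul_zero]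
  · rw [tr, h.act f k subset_rfl hg hP, prod_add, mul_sum, mul_sum]
    exact sum_congr rfl fun K _ => by rw [WJ]; ring

theorem kol_unr (h : Good m b θ g0 J) (k : Kb m b W θ) {v : Plc} (hv : v.p ≠ 3)
    (hm : v.V (io (mJ m J)) = 1) {σ : Gam} (hσ : σ ∈ Ine v) : kol f m b W θ g0 J σ = 0 := by
  obtain ⟨h0, h3⟩ := h.ne k
  have F := fam_Im h0 h3 k.red e
  rw [kol, kap, FF_congr f (W := tr _ σ) fun P hP => by
      rw [tr, act_ine hv hm hσ (Im_kill h0 hP)], cy, H3.cyc_ine hv hσ, map_one, map_one, one_mul,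
    sub_add_cancel, FF, sum_eq_zero fun P hP => ?_, mul_zero]
  have r := F.root (ine_le hv hσ) hP
  have u := Im_unit k.red h0 h3 hv hP
  rw [← rt3_pow e (ub b P), map_pow, pow_eq_one_iff_of_nonneg zero_le
    (pow_ne_zero e three_ne_zero)] at u
  rw [kc, root_eq hv r (one_pow _), lg_one, map_zero, zero_mul]
  rw [act_ine hv hm (inv_mem hσ) (Im_kill h0 hP), div_sub_one (F.ne P hP), map_div₀, yb, u, div_one]
  exact hσ.2 _ u.le

theorem kol_empty (h : Good m b θ g0 (∅ : Finset (DP e))) (k : Kb m b W θ) (hg : g ∈ G) :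
    kol f m b W θ g0 ∅ g =
      (θ g0 - 1) * FE f m b W g - (f (cy e g) * θ g - 1) * FE f m b W g0 := by
  have _ := h
  simp only [kol, mJ, WJ, prod_empty, mul_one, kap, FE]
  rw [FF_congr f (W := tr (fun P => W (co m P)) g) fun P hP => k.act hg hP, FF_smul]
  ring

end Pool.Agent.Lib.MP_696deb_nt.EV
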