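import Pool.Agent.Lib.MP_696deb_nt.EV.T1b

/-! The tower: the stages. -/

set_option autoImplicit false

open scoped Classical NNReal
open Finset PowerSeries

namespace Pool.Agent.Lib.MP_696deb_nt.EV

theorem t1_cmt {F : Type} [CommMonoid F] {π : Gam → F} (h1 : π 1 = 1)
    (h2 : ∀ g ∈ G, ∀ h ∈ G, π (g * h) = π g * π h) {g h : Gam} (hg : g ∈ G) (hh : h ∈ G) :
    π (cmt g h) = 1 := by
  rw [cmt, h2 _ (mul_mem (mul_mem hg hh) (inv_mem hg)) _ (inv_mem hh),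
    h2 _ (mul_mem hg hh) _ (inv_mem hg), h2 g hg h hh, mul_right_comm (π g),
    ← h2 g hg _ (inv_mem hg), mul_inv_cancel, h1, one_mul, ← h2 h hh _ (inv_mem hh),
    mul_inv_cancel, h1]

theorem t1_ig {t : TP} {e : ℕ} (x : Ix t e) : x.ig 1 = 0 := by
  simpa using x.hom_ig 1 G.one_mem 1 G.one_mem

theorem t1_md {J : Ideal La} {f : Gam → La} {g : Gam} : f g - 1 ∈ J ↔ md J f g = 1 :=
  Ideal.Quotient.eq.symm

namespace Cx

variable (c : Cx) {g h σ : Gam} {v : Plc} {k n : ℕ}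

theorem exists_s0 : Nonempty (c.Stg 0) := by
  choose L hL using fun b k => exists_val (ι := Jx c.κ 0) (c.t0 k) (c.chr b k)
  refine ⟨⟨c.t0, fun _ => ∅, fun b k g j => Quotient.out (L b k g j), fun _ _ => rfl,
    fun _ _ h => h.elim, by simp, c.t0_inj, fun k b => ⟨c.g0_mem, ?_, by simp, by simp, by simp,
      by simp, by simp, by simp⟩, fun b k => ?_⟩⟩
  · rw [H3.cy, c.cyc_g0, map_one]
  · rw [show mdL (aa k) (fun g j => Quotient.out (L b k g j)) = L b k from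
      funext₂ fun g j => Ideal.Quotient.mk_out _]
    exact hL b k

variable {c}

theorem Stg.J0 (s : c.Stg 0) (k : ℕ) : s.J k = ∅ :=
  eq_empty_of_forall_notMem fun r hr => (s.ofJ k r hr).elim fun _ h => h.1

theorem Stg.t_zero (s : c.Stg 0) (k : ℕ) (i : Option c.κ) : s.t k i = c.t0 k i := s.base k i

theorem Stg.off (s : c.Stg n) (hv : Off (s.t k) v) :
    Off (c.t0 k) v ∧ v.V (io (mJ (c.m k) (s.J k))) = 1 := by
  have h : Off (c.t0 k) v := ⟨hv.1, fun i => s.base k i ▸ hv.2 _⟩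
  refine ⟨h, ?_⟩
  rw [mJ, map_mul, map_mul, c.V_m h, one_mul, map_prod, map_prod]
  refine prod_eq_one fun r hr => ?_
  obtain ⟨i, -, e⟩ := s.ofJ k r hr
  exact e ▸ hv.2 i

theorem Stg.deep (s : c.Stg n) (b : Bool) (k : ℕ) {i : Jx c.κ n} (hi : i.deep) :
    c.ρ b k (s.t k i).φ - 1 ∈ aa k ∧ c.ρ b k (s.t k i).σ = 1 ∧ 3 ^ (k + 2) ∣ nm (s.t k i).π - 1 := by
  have h1 := c.ρ_ine b (k := k) ⟨(s.t k i).odd, fun j => (s.t k i).V_eq.2 ((s.t k i).not_dvd _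
    fun e => Jx.not_deep.2 ⟨j, s.inj k _ _ (by rwa [s.base])⟩ hi)⟩ (s.t k i).σ_ine
  obtain ⟨r, hr, e⟩ := s.toJ k i hi
  rw [← e] at h1 ⊢
  refine ⟨t1_md.2 ?_, h1, r.x.dvd⟩
  have h2 : cy (k + 1) r.t.φ = 1 := by
    have := r.t.nm_mod
    rw [H3.cy, r.t.cyc_φ, map_natCast, ← Nat.sub_add_cancel (show 1 ≤ nm r.t.π by omega),
      Nat.cast_succ, (ZMod.natCast_eq_zero_iff _ _).2
        ((pow_dvd_pow 3 (Nat.le_add_right _ 1)).trans r.x.dvd), zero_add]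
  have h3 := c.cy_θ (k := k) (fa k) r.t.φ_mem
  rw [h2, map_one, one_mul, (s.good k b).th r hr] at h3
  cases b
  · have h4 := Ideal.Quotient.eq.2 (c.dual.mul k _ r.t.φ_mem)
    rwa [mk_padic (fa k), map_mul, ← H3.cy, h2, map_one, ← md, ← h3, one_mul] at h4
  · exact h3.symm

theorem Stg.adm (s : c.Stg n) (b : Bool) (k : ℕ) : Adm (s.t k) (md (aa k) (c.ρ b k)) := by
  refine ⟨s.inj k, c.chr b k, fun v hv => (c.adm0 b k).unr v (s.off hv).1, fun i => ?_⟩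
  by_cases hi : i.deep
  · obtain ⟨-, h1, a, h2⟩ := s.deep b k hi
    rw [Geo, md, h1, map_one, sum_congr rfl fun _ _ => one_pow _, sum_const, card_range, h2,
      nsmul_one, Nat.cast_mul, Nat.cast_pow, Nat.cast_ofNat, pow_add _ (k + 1) 1,
      two_pow_zero le_rfl, zero_mul, zero_mul]
  · obtain ⟨j, rfl⟩ := Jx.not_deep.1 hi
    rw [s.base]
    exact (c.adm0 b k).geo j

theorem Stg.InN.one (s : c.Stg n) (k : ℕ) : s.InN k 1 :=
  ⟨fun b => t1_md.2 (c.chr b k).one, g1_cy_one _, fun r _ => t1_ig r.x, fun _ _ => rfl⟩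

theorem Stg.InN.mul {s : c.Stg n} (h1 : s.InN k g) (h2 : s.InN k h) (hg : g ∈ G) (hh : h ∈ G) :
    s.InN k (g * h) :=
  ⟨fun b => t1_md.2 (by
    rw [(c.chr b k).mul g hg h hh, t1_md.1 (h1.ρ b), t1_md.1 (h2.ρ b), one_mul]),
    by rw [H3.b3b_cy, h1.cy, h2.cy, one_mul],
    fun r hr => by rw [r.x.hom_ig g hg h hh, h1.ig r hr, h2.ig r hr, add_zero],
    fun r hr => by rw [AlgEquiv.mul_apply, h2.rt r hr, h1.rt r hr]⟩

theorem Stg.InN.inv {s : c.Stg n} (h1 : s.InN k g) (hg : g ∈ G) : s.InN k g⁻¹ :=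
  ⟨fun b => t1_md.2 (by rw [← p2_inv (c.chr b k) hg, t1_md.1 (h1.ρ b), one_mul]),
    by rw [← g1_cy_one (k + 2), ← mul_inv_cancel g, H3.b3b_cy, h1.cy, one_mul],
    fun r hr => by
      rw [← t1_ig r.x, ← mul_inv_cancel g, r.x.hom_ig g hg _ (inv_mem hg), h1.ig r hr, zero_add],
    fun r hr => g.symm_apply_eq.2 (h1.rt r hr).symm⟩

theorem Stg.inN_cmt (s : c.Stg n) (k : ℕ) (hg : g ∈ G) : s.InN k (cmt c.g0 (cmt c.g0 g)) := by
  have h0 := c.g0_mem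
  have h1 : cmt c.g0 g ∈ G := mul_mem (mul_mem (mul_mem h0 hg) (inv_mem h0)) (inv_mem hg)
  exact ⟨fun b => t1_md.2 (t1_cmt (c.chr b k).one (c.chr b k).mul h0 h1),
    t1_cmt (g1_cy_one _) (fun g _ h _ => H3.b3b_cy _ g h) h0 h1,
    fun r _ => t1_cmt (π := fun g => Multiplicative.ofAdd (r.x.ig g)) (t1_ig r.x) r.x.hom_ig h0 h1,
    fun r _ => comm_root _ (io_fx _) h0 hg c.cyc_g0⟩

theorem Stg.nice (s : c.Stg n) (k : ℕ) : ∃ U, Nice U ∧ ∀ u ∈ U, s.InN k u := by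
  obtain ⟨m, hm⟩ := Lo2.kill (La ⧸ aa k)
  obtain ⟨U1, n1, h1⟩ := nice_fin fun b =>
    nice_coc (hm (La ⧸ aa k)) ((c.chr b k).act le_rfl) (H3.Coc.zero _ _)
  obtain ⟨U2, n2, h2⟩ := nice_cy (k + 2)
  obtain ⟨U3, n3, h3⟩ := nice_fin fun r : s.J k => nice_hom r.1.x.sm_ig r.1.x.hom_ig
  obtain ⟨U4, n4, h4⟩ := nice_fin fun r : s.J k => nice_root (k + 1) (io_fx r.1.t.π)
  exact ⟨_, (n1.inf n2).inf (n3.inf n4), fun u hu =>
    ⟨fun b => t1_md.2 ((mul_one _).symm.trans ((h1 u hu.1.1 b).2 1)), h2 u hu.1.2,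
      fun r hr => h3 u hu.2.1 ⟨r, hr⟩, fun r hr => h4 u hu.2.2 ⟨r, hr⟩⟩⟩

end Cx

end Pool.Agent.Lib.MP_696deb_nt.EV
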