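import Pool.Agent.Lib.MP_696deb_nt.EV.T0
import Pool.Agent.Lib.MP_696deb_nt.EV.C6

/-! The tower: the characters. -/

set_option autoImplicit false

open scoped Classical NNReal
open Finset PowerSeries

namespace Pool.Agent.Lib.MP_696deb_nt.EV

theorem Jx.not_deep {κ : Type} {n : ℕ} {i : Jx κ n} : ¬ i.deep ↔ ∃ j, i = Jx.emb j := by
  induction n with
  | zero => exact ⟨fun _ => ⟨i, rfl⟩, fun _ => id⟩
  | succ n ih =>
    rcases i with _ | i
    · exact ⟨fun h => (h trivial).elim, fun ⟨_, e⟩ => by cases e⟩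
    · exact ih.trans (exists_congr fun _ => ⟨congrArg some, Option.some.inj⟩)

theorem Jx.emb_inj {κ : Type} {n : ℕ} : Function.Injective (Jx.emb : Option κ → Jx κ n) := by
  induction n with
  | zero => exact fun _ _ => id
  | succ n ih => exact fun _ _ e => ih (Option.some.inj e)

theorem t1a_three (r : TP) : ¬ r.π ∣ 3 := r.V_eq.1 (by
  simpa [map_ofNat] using r.v.V_int_eq_one (a := 3) |>.2 fun e => r.odd
    ((Nat.prime_dvd_prime_iff_eq r.v.prime Nat.prime_three).1 (Int.natCast_dvd_natCast.1 e)))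

theorem t1a_root {a : O} (h : a = om ∨ a = om ^ 2) :
    oW a ^ 3 = 1 ∧ oW a - 1 ≠ 0 ∧ ∑ n ∈ range 3, oW a ^ n = 0 := by
  have k : a ^ 3 = 1 ∧ a ≠ 1 ∧ ∑ n ∈ range 3, a ^ n = 0 := by
    rcases h with rfl | rfl <;> decide
  refine ⟨by rw [← map_pow, k.1, map_one], fun e => k.2.1 (oW_inj ?_), ?_⟩
  · rw [map_one, sub_eq_zero.1 e]
  · simpa only [map_sum, map_pow, map_zero] using congrArg oW k.2.2

namespace Cb

variable (c : Cb) {g h σ : Gam} {v : Plc}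

theorem g0_mem : c.g0 ∈ G := (c.tp c.i0).σ_mem

theorem cyc_g0 : cyc c.g0 = 1 := (c.tp c.i0).cyc_σ

theorem r0_mul (b : Bool) (hg : g ∈ G) (hh : h ∈ G) : c.r0 b (g * h) = c.r0 b g * c.r0 b h := by
  cases b
  · exact (congrArg star (rho0_mul c.t hg hh)).trans (star_mul' _ _)
  · exact rho0_mul c.t hg hh

theorem r0_norm (b : Bool) (hg : g ∈ G) : (c.r0 b g).norm = cyc g := by
  cases b
  · exact (QuadraticAlgebra.norm_star _).trans (norm_rho0 c.t hg)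
  · exact norm_rho0 c.t hg

theorem r0_w (b : Bool) (hg : g ∈ G) : wO ∣ c.r0 b g - 1 := by
  cases b
  · obtain ⟨d, e⟩ := rho0_w c.t hg
    have k : star wO = wO * oW (-1) := by
      rw [wO, ← oW_star, ← map_mul]
      exact congrArg oW (by decide)
    refine ⟨oW (-1) * star d, ?_⟩
    rw [← mul_assoc, ← k, ← star_mul', ← e, star_sub, star_one]
    rfl
  · exact rho0_w c.t hg

theorem r0_σ (b : Bool) (i : c.κ) : c.r0 b (c.tp i).σ ^ 3 = 1 ∧ c.r0 b (c.tp i).σ - 1 ≠ 0 ∧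
    ∑ n ∈ range 3, c.r0 b (c.tp i).σ ^ n = 0 := by
  obtain ⟨a, h, e⟩ : ∃ a : O, (a = om ∨ a = om ^ 2) ∧ rho0 c.t (c.tp i).σ = oW a :=
    (c.sig i).elim (fun e => ⟨om, .inl rfl, e⟩) fun e => ⟨om ^ 2, .inr rfl, e⟩
  cases b
  · rw [show c.r0 false (c.tp i).σ = oW (star a) by rw [oW_star, ← e]; rfl]
    exact t1a_root (by rcases h with rfl | rfl <;> decide)
  · rw [show c.r0 true (c.tp i).σ = oW a from e]
    exact t1a_root h

theorem r0_gw (b : Bool) : c.r0 b (gw 0) - 1 ≠ 0 := fun e =>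
  cyc_gw (by rw [← c.r0_norm b (gw_mem 0), sub_eq_zero.1 e, map_one])

theorem off (hv : Off c.tp v) : ¬ v.p ∣ c.t.N := fun k => by
  obtain ⟨r, rfl⟩ := exists_tp_v hv.1
  rcases c.all _ r.prime (r.dvd_p.trans (Nat.cast_dvd_cast k))
    with e | ⟨i, e⟩
  · exact t1a_three r (e.trans ⟨star w, by decide⟩)
  · exact r.V_eq.1 (hv.2 i) e

theorem r0_ine (b : Bool) (hv : v.p ≠ 3) (k : ¬ v.p ∣ c.t.N) (hσ : σ ∈ Ine v) :
    c.r0 b σ = 1 := by
  cases b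
  · exact (congrArg star (rho0_ine c.t hv k hσ)).trans (star_one _)
  · exact rho0_ine c.t hv k hσ

theorem m0_ne (e : ℕ) : c.m0 e ≠ 0 :=
  Nat.cast_ne_zero.2 (mul_ne_zero c.t.ne (pow_ne_zero _ three_ne_zero))

theorem m0_eq (e : ℕ) : c.m0 e = (c.t.N : O) * 3 ^ (e + 3) := by
  rw [m0, Nat.cast_mul, Nat.cast_pow, Nat.cast_ofNat]

theorem dvd_m0 (e : ℕ) :
    (3 : O) ∣ c.m0 e ∧ ((9 * c.t.N : ℕ) : O) ∣ c.m0 e ∧ (3 : O) ^ e ∣ c.m0 e := by
  rw [m0_eq, pow_add]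
  refine ⟨(Dvd.dvd.mul_left (dvd_pow_self _ three_ne_zero) _).mul_left _, ?_,
    (dvd_mul_right _ _).mul_left _⟩
  rw [Nat.cast_mul, mul_comm]
  exact mul_dvd_mul_left _ (Dvd.dvd.mul_left ⟨3, by decide⟩ _)

theorem nd_m0 (e : ℕ) (r : TP) (h : ¬ r.π ∣ (c.t.N : O)) : ¬ r.π ∣ c.m0 e := fun k =>
  (r.prime.dvd_or_dvd (c.m0_eq e ▸ k)).elim h fun k => t1a_three r (r.prime.dvd_of_dvd_pow k)

theorem V_m0 (e : ℕ) (hv : Off c.tp v) : v.V (io (c.m0 e)) = 1 := by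
  have k := c.off hv
  obtain ⟨r, rfl⟩ := exists_tp_v hv.1
  refine r.V_eq.2 (c.nd_m0 e r (r.V_eq.1 ?_))
  simpa using r.v.V_int_eq_one.2 (mt Int.natCast_dvd_natCast.1 k)

end Cb

end Pool.Agent.Lib.MP_696deb_nt.EV
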