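import Pool.Agent.Lib.MP_696deb_nt.EV.T1a

/-! The tower: the characters. -/

set_option autoImplicit false

open scoped Classical NNReal
open Finset PowerSeries

namespace Pool.Agent.Lib.MP_696deb_nt.EV

theorem t1b_mul {R : Type} [CommRing R] {x : R} {d n : ℕ} (h : ∑ i ∈ range d, x ^ i = 0)
    (k : d ∣ n) : ∑ i ∈ range n, x ^ i = 0 := by
  obtain ⟨m, rfl⟩ := k
  induction m with
  | zero => simp
  | succ m ih =>
    rw [mul_add, mul_one, sum_range_add, ih, zero_add]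
    simp only [pow_add]
    rw [← mul_sum, h, mul_zero]

theorem t1b_inv {R : Type} [CommRing R] {x u : R} (h : x * u = 1) (d : ℕ) :
    ∑ i ∈ range d, x ^ i = u * (x ^ d * ∑ i ∈ range d, u ^ i) := by
  induction d with
  | zero => simp
  | succ d ih =>
    rw [sum_range_succ, geom_sum_succ (x := u), ih]
    linear_combination (-(x ^ d * (u * ∑ i ∈ range d, u ^ i + 1))) * h

theorem t1b_add {R : Type} [CommRing R] {u : R} {s : ℕ} (h : u ^ 3 ^ s = 1) (a b : ZMod (3 ^ s)) :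
    u ^ (a + b).val = u ^ a.val * u ^ b.val := by
  rw [ZMod.val_add, ← pow_eq_pow_mod _ h, pow_add]

theorem t1b_sm (k : ℕ) (f : Ow →+* Ow) {y : Gam → Ow}
    (h : Sm G fun g => Ideal.Quotient.mk (Ideal.span {(3 : Ow) ^ (k + 1)}) (y g)) :
    Sm G fun g => Ideal.Quotient.mk (aa k) (C (f (y g)) : La) := by
  refine (h.comp (Ideal.Quotient.lift _ ((Ideal.Quotient.mk (aa k)).comp
    ((C : Ow →+* La).comp f)) fun a ha => ?_)).congr fun _ _ => rfl
  obtain ⟨b, rfl⟩ := Ideal.mem_span_singleton.1 ha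
  rw [map_mul, map_pow, map_ofNat, two_pow_zero le_rfl, zero_mul]

theorem t1b_three (k : ℕ) {f : La} (h : wO ∣ constantCoeff f - 1) :
    ∃ n : ℕ, Ideal.Quotient.mk (aa k) f ^ 3 ^ n = 1 :=
  Lo2.pow_one (by
    rw [← map_one (Ideal.Quotient.mk (aa k)), ← map_sub, unit_mk fun e =>
      (IsLocalRing.maximalIdeal.isMaximal La).ne_top (top_unique (e ▸ aa_le k)), unit_La, not_not,
      map_sub, map_one]
    exact h)

theorem t1b_one {a b : Ow} (h : wO ∣ a - 1) (k : wO ∣ b - 1) : wO ∣ a * b - 1 := by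
  rw [show a * b - 1 = (a - 1) * b + (b - 1) by ring]
  exact (h.mul_right b).add k

namespace Cx

variable (c : Cx) {g h σ : Gam} {v : Plc} {k n : ℕ}

theorem t1b_r0_unit (b : Bool) (hg : g ∈ G) : IsUnit (c.r0 b g) :=
  isUnit_Ow.2 (by rw [c.r0_norm b hg]; exact H3.cyc_unit g)

theorem t1b_r0_one (b : Bool) : c.r0 b 1 = 1 := by
  have h := c.r0_mul b (one_mem G) (one_mem G)
  rw [mul_one] at h
  exact ((c.t1b_r0_unit b (one_mem G)).mul_left_cancel ((mul_one _).trans h)).symm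

theorem t1b_ex (b : Bool) (k : ℕ) : ∃ e : Gam → ZMod (3 ^ (c.lv k).s),
    (∀ g, c.ex b k g = (e g).val) ∧ Sm G e ∧ IsHom G e := by
  cases b
  · exact ⟨fun g => -(c.lv k).x.ig g, fun _ => rfl, (c.lv k).x.sm_ig.comp fun z => -z,
      fun g hg h hh => (congrArg Neg.neg ((c.lv k).x.hom_ig g hg h hh)).trans (neg_add _ _)⟩
  · exact ⟨(c.lv k).x.ig, fun _ => rfl, (c.lv k).x.sm_ig, (c.lv k).x.hom_ig⟩

theorem t1b_md (J : Ideal La) (b : Bool) (k : ℕ) (g : Gam) : md J (c.ρ b k) g =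
    Ideal.Quotient.mk J (C (c.r0 b g)) * Ideal.Quotient.mk J (1 + X) ^ c.ex b k g := by
  rw [md, ρ, map_mul, map_pow]

theorem t1b_ne (k : ℕ) (i : c.κ) : (c.tp i).π ≠ (c.lv k).lam.π := fun e =>
  (c.lv k).nd (e ▸ c.dvd i)

theorem t1b_r0_lam (b : Bool) (k : ℕ) : c.r0 b (c.lv k).lam.σ = 1 :=
  c.r0_ine b (c.lv k).lam.odd (fun e => (c.lv k).nd ((c.lv k).lam.dvd_p.trans
    (Nat.cast_dvd_cast e))) (c.lv k).lam.σ_ine

theorem t1b_val (k : ℕ) : (1 : ZMod (3 ^ (c.lv k).s)).val = 1 :=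
  ZMod.val_one'' (Nat.one_lt_pow (c.lv k).x.pos.ne' (by norm_num)).ne'

theorem pow_s (k : ℕ) : (1 + X : La) ^ 3 ^ (c.lv k).s - 1 ∈ aa k := by
  have h := geom_sum_mul (1 + X : La) (3 ^ (c.lv k).s)
  rw [← h]
  exact Ideal.mul_mem_right _ _ (c.lv k).ord

theorem t1b_pow (k : ℕ) : Ideal.Quotient.mk (aa k) (1 + X) ^ 3 ^ (c.lv k).s = 1 := by
  rw [← map_pow, ← map_one (Ideal.Quotient.mk (aa k))]
  exact Ideal.Quotient.eq.2 (c.pow_s k)

theorem ρ_const (b : Bool) (k : ℕ) (g : Gam) : constantCoeff (c.ρ b k g) = c.r0 b g := by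
  simp [ρ]

theorem chr (b : Bool) (k : ℕ) : Chr (md (aa k) (c.ρ b k)) := by
  obtain ⟨e, h1, h2, h3⟩ := c.t1b_ex b k
  have h4 : Sm G fun g => Ideal.Quotient.mk (aa k) (C (c.r0 b g) : La) := by
    cases b
    · exact t1b_sm k (starRingEnd Ow) (sm_rho0 (t := c.t) (k + 1))
    · exact t1b_sm k (RingHom.id Ow) (sm_rho0 (t := c.t) (k + 1))
  refine ⟨(h4.comp₂ h2 fun x z => x * Ideal.Quotient.mk (aa k) (1 + X) ^ z.val).congr
    fun g _ => ?_, ?_, fun g hg h hh => ?_,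
    fun g hg => t1b_three k (by rw [ρ_const]; exact c.r0_w b hg)⟩
  · rw [t1b_md, h1]
  · have h5 : e 1 = 0 := by simpa using h3 1 (one_mem _) 1 (one_mem _)
    rw [t1b_md, h1, h5, ZMod.val_zero, pow_zero, mul_one, t1b_r0_one, map_one, map_one]
  · simp only [t1b_md, h1]
    rw [h3 g hg h hh, t1b_add (c.t1b_pow k), c.r0_mul b hg hh, map_mul, map_mul]
    ring

theorem dual : Dual (c.ρ true) (c.ρ false) := by
  refine ⟨c.chr true, c.chr false, fun k g hg => Ideal.Quotient.eq.1 ?_⟩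
  have h := t1b_add (c.t1b_pow k) ((c.lv k).x.ig g) (-(c.lv k).x.ig g)
  rw [add_neg_cancel, ZMod.val_zero, pow_zero] at h
  rw [map_mul, ← norm_rho0 (t := c.t) hg, ← mul_star_Ow, map_mul, map_mul]
  refine (congrArg₂ (· * ·) (c.t1b_md _ true k g) (c.t1b_md _ false k g)).trans ?_
  rw [mul_mul_mul_comm]
  exact (congrArg (_ * ·) h.symm).trans (mul_one _)

theorem ρ_unit (b : Bool) (k : ℕ) (hg : g ∈ G) : IsUnit (c.ρ b k g) := by
  refine ((c.t1b_r0_unit b hg).map C).mul (IsUnit.pow _ ?_)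
  rw [isUnit_iff_constantCoeff]
  simp

theorem θ_unit (k : ℕ) (hg : g ∈ G) : IsUnit (c.θ k g) := by
  exact (c.ρ_unit true k hg).mul (((H3.cyc_unit g⁻¹).map (algebraMap ℤ_[3] Ow)).map C)

theorem ρ_of_ig (b : Bool) (h : (c.lv k).x.ig g = 0) : c.ρ b k g = C (c.r0 b g) := by
  have e : c.ex b k g = 0 := by
    cases b <;> simp [ex, h]
  rw [ρ, e, pow_zero, mul_one]

theorem ρ_σ (b : Bool) (k : ℕ) (i : c.κ) : c.ρ b k (c.tp i).σ = C (c.r0 b (c.tp i).σ) := by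
  exact c.ρ_of_ig b ((c.lv k).x.ig_ine (c.tp i).odd
    ((c.tp i).V_eq.2 ((c.tp i).not_dvd _ (c.t1b_ne k i))) (c.tp i).σ_ine)

theorem ρ_w3 (b : Bool) (k : ℕ) (h : σ ∈ G ⊓ Ine w3) : c.ρ b k σ = C (c.r0 b σ) := by
  exact c.ρ_of_ig b ((c.lv k).x.ig_w3 h)

theorem ρ_lam (k : ℕ) : c.ρ true k (c.lv k).lam.σ = 1 + X := by
  rw [ρ, t1b_r0_lam, map_one, one_mul, ex, Ix.ig_sigma, t1b_val, pow_one]

theorem ρ_lam' (k : ℕ) : c.ρ false k (c.lv k).lam.σ * (1 + X) - 1 ∈ aa k := by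
  refine Ideal.Quotient.eq.1 ?_
  have h := t1b_add (c.t1b_pow k) (-1) 1
  rw [neg_add_cancel, ZMod.val_zero, pow_zero, t1b_val, pow_one] at h
  rw [ρ, t1b_r0_lam, map_one, one_mul, ex, Ix.ig_sigma, map_mul, map_pow, map_one, ← h]

theorem ρ_ine (b : Bool) (hv : Off (c.t0 k) v) (hσ : σ ∈ Ine v) : c.ρ b k σ = 1 := by
  rw [c.ρ_of_ig b ((c.lv k).x.ig_ine hv.1 (hv.2 none) hσ),
    c.r0_ine b hv.1 (c.off ⟨hv.1, fun i => hv.2 (some i)⟩) hσ, map_one]

theorem cy_θ {J : Ideal La} {e : ℕ} (f : ZMod (3 ^ e) →+* La ⧸ J) (hg : g ∈ G) :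
    f (cy e g) * md J (c.θ k) g = md J (c.ρ true k) g := by
  rw [H3.cy, ← mk_padic, md, md, θ, ← map_mul, mul_left_comm, ← map_mul, ← map_mul, ← H3.cyc_mul,
    mul_inv_cancel, H3.cyc_one, map_one, map_one, mul_one]

theorem chr_θ (k : ℕ) : Chr (md (aa k) (c.θ k)) := by
  have e : ∀ g, md (aa k) (c.θ k) g = md (aa k) (c.ρ true k) g * fa k (cy (k + 1) g⁻¹) :=
    fun g => by rw [md, md, θ, map_mul, mk_padic (fa k), H3.cy]
  have m : ∀ g h, cy (k + 1) (g * h) = cy (k + 1) g * cy (k + 1) h := fun g h => by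
    rw [H3.cy, H3.cyc_mul, map_mul, H3.cy, H3.cy]
  refine ⟨((c.chr true k).sm.comp₂ (H3.sm_cy (k + 1)) fun x z => x * fa k z⁻¹).congr
    fun g _ => ?_, ?_, fun g hg h hh => ?_, fun g hg => t1b_three k ?_⟩
  · rw [e, ZMod.inv_eq_of_mul_eq_one _ _ (cy (k + 1) g⁻¹)
      (by rw [← m, mul_inv_cancel, g1_cy_one])]
  · rw [e, (c.chr true k).one, inv_one, g1_cy_one, map_one, mul_one]
  · rw [e, e, e, (c.chr true k).mul g hg h hh, mul_inv_rev, m, map_mul]
    ring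
  · rw [θ, map_mul, ρ_const, constantCoeff_C, ← c.r0_norm true (inv_mem hg), ← mul_star_Ow]
    exact t1b_one (c.r0_w true hg)
      (t1b_one (c.r0_w true (inv_mem hg)) (c.r0_w false (inv_mem hg)))

theorem t0_inj (k : ℕ) (i j : Option c.κ) (h : (c.t0 k i).π = (c.t0 k j).π) : i = j := by
  cases i with
  | none =>
    cases j with
    | none => rfl
    | some j => exact absurd h.symm (c.t1b_ne k j)
  | some i =>
    cases j with
    | none => exact absurd h (c.t1b_ne k i)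
    | some j => exact congrArg some (c.inj i j h)

theorem adm0 (b : Bool) (k : ℕ) : Adm (c.t0 k) (md (aa k) (c.ρ b k)) := by
  refine ⟨c.t0_inj k, c.chr b k, fun v hv σ hσ => ?_, fun i => ?_⟩
  · show md (aa k) (c.ρ b k) σ - 1 = 0
    rw [md, c.ρ_ine b hv hσ, map_one, sub_self]
  · cases i with
    | none =>
      have h0 : ∑ i ∈ range (3 ^ (c.lv k).s), Ideal.Quotient.mk (aa k) (1 + X) ^ i = 0 := by
        simp only [← map_pow]
        rw [← map_sum]
        exact Ideal.Quotient.eq_zero_iff_mem.2 (c.lv k).ord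
      refine t1b_mul (d := 3 ^ (c.lv k).s) ?_
        ((pow_dvd_pow 3 (Nat.le_add_right _ 1)).trans (c.lv k).x.dvd)
      cases b
      · have h1 : md (aa k) (c.ρ false k) (c.lv k).lam.σ * Ideal.Quotient.mk (aa k) (1 + X) = 1 := by
          rw [md, ← map_mul, ← map_one (Ideal.Quotient.mk (aa k))]
          exact Ideal.Quotient.eq.2 (c.ρ_lam' k)
        exact (t1b_inv h1 _).trans (by rw [h0, mul_zero, mul_zero])
      · refine Eq.trans (sum_congr rfl fun i _ => ?_) h0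
        exact congrArg (fun z => Ideal.Quotient.mk (aa k) z ^ i) (c.ρ_lam k)
    | some i =>
      have h1 := (c.tp i).nm_mod
      refine t1b_mul (d := 3) ?_ (show 3 ∣ nm (c.tp i).π - 1 by omega)
      have h2 := congrArg (fun z : Ow => Ideal.Quotient.mk (aa k) (C z : La)) (c.r0_σ b i).2.2
      simp only [map_sum, map_pow, map_zero] at h2
      refine Eq.trans (sum_congr rfl fun n _ => ?_) h2
      exact congrArg (fun z => Ideal.Quotient.mk (aa k) z ^ n) (c.ρ_σ b k i)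

theorem m_ne (k : ℕ) : c.m k ≠ 0 := by
  exact mul_ne_zero (c.m0_ne _) (c.lv k).lam.prime.ne_zero

theorem V_m (hv : Off (c.t0 k) v) : v.V (io (c.m k)) = 1 := by
  rw [m, map_mul, map_mul, c.V_m0 _ ⟨hv.1, fun i => hv.2 (some i)⟩, one_mul]
  exact hv.2 none

end Cx

end Pool.Agent.Lib.MP_696deb_nt.EV
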