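import Pool.Agent.Lib.MP_696deb_nt.EV.G1
import Pool.Agent.Lib.MP_696deb_nt.EW.L1

/-! Complex multiplication: the scalars of the Galois action, primary generators. -/

set_option autoImplicit false

open scoped Classical NNReal
open Finset

namespace Pool.Agent.Lib.MP_696deb_nt.EV

variable {g h σ : Gam} {v : Plc} {a m n : O} {P : A}

theorem act_smul (hg : g ∈ G) (a : O) (P : A) : g • a • P = a • g • P := EW.vm_smul hg a P

theorem xco_act (g : Gam) (P : A) : xco (g • P) = g (xco P) := EW.xco_act g P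

theorem yco_act (g : Gam) (P : A) : yco (g • P) = g (yco P) := EW.yco_act g P

theorem yh_act (g : Gam) (P : A) : yh (g • P) = g (yh P) := EW.yh_act g P

theorem sm_act (H : Subgroup Gam) (P : A) : Sm H fun g => g • P := H3.sm_pt H P

theorem tw_eq (t : Tw) (hg : g ∈ G) (P : A) : t.tw g P = un (kk t.N g) • g • P := by
  have _ := hg
  rw [Tw.tw, CU.act_apply, one_add_one_eq_two, pow_two, CU.ep_sq, one_smul]

theorem tw_smul (t : Tw) (hg : g ∈ G) (a : O) (P : A) : t.tw g (a • P) = a • t.tw g P := by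
  rw [tw_eq t hg, tw_eq t hg, act_smul hg, smul_comm]

theorem c1_three : (3 : O) ≠ 0 := by decide

theorem c1_m_tq (hm : m ≠ 0) : m • tq 1 m = 0 := (EW.smul_tq_one hm).2 dvd_rfl

theorem c1_smul_tq (hm : m ≠ 0) {b : O} : a • tq 1 m = b • tq 1 m ↔ m ∣ a - b := by
  rw [← EW.smul_tq_one hm, sub_smul, sub_eq_zero]

theorem exists_div (hn : n ≠ 0) (P : A) : ∃ Q : A, n • Q = P := by
  by_cases p0 : P = 0
  · exact ⟨0, by rw [p0, smul_zero]⟩
  have w0 : w ≠ 0 := by decide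
  have hU : n • tq 1 (n * w) ≠ 0 := by
    rw [EW.smul_tq _ _ (mul_ne_zero hn w0), EW.tq_mul hn _ w0, Ne, EW.tq_eq_zero w0]
    exact EW.th_prime.not_dvd_one
  generalize tq 1 (n * w) = U at hU
  have c1 := card_erase_add_one (EW.zero_mem_En hn)
  have d1 : ∀ (s : Finset A) (f : A → Qbar),
      (∏ T ∈ s, (Polynomial.X - Polynomial.C (f T))).natDegree = s.card := fun s f => by
    rw [Polynomial.natDegree_prod_of_monic _ _ fun T _ => Polynomial.monic_X_sub_C (f T)]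
    simp
  obtain ⟨x, hx⟩ := IsAlgClosed.exists_root (∏ T ∈ En n, (Polynomial.X - Polynomial.C (xco (U + T)))
    + Polynomial.C (io n ^ 2 * (xco (n • U) - xco P)) *
      ∏ T ∈ (En n).erase 0, (Polynomial.X - Polynomial.C (xco T))) (by
    refine (Polynomial.natDegree_pos_iff_degree_pos.1 ?_).ne'
    rw [Polynomial.natDegree_add_eq_left_of_natDegree_lt, d1]
    · omega
    · refine (Polynomial.natDegree_C_mul_le _ _).trans_lt ?_
      rw [d1, d1]
      omega)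
  simp only [Polynomial.IsRoot, Polynomial.eval_add, Polynomial.eval_mul, Polynomial.eval_prod,
    Polynomial.eval_sub, Polynomial.eval_X, Polynomial.eval_C] at hx
  obtain ⟨y, hy⟩ := IsAlgClosed.exists_pow_nat_eq (4 * x ^ 3 - 27) two_pos
  have hy' : ((y - 1) / 2) ^ 2 + (y - 1) / 2 = x ^ 3 - 7 := by linear_combination hy / 4
  obtain ⟨S, s0, rfl⟩ : ∃ S : A, S ≠ 0 ∧ xco S = x :=
    ⟨.some x _ (MP_23455a_nt.ns_iff.2 hy'), WeierstrassCurve.Affine.Point.some_ne_zero _, rfl⟩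
  have hS : n • S ≠ 0 := fun e => by
    rw [prod_eq_zero ((EW.mem_En0 hn).2 ⟨s0, e⟩) (sub_self _), mul_zero, add_zero] at hx
    obtain ⟨T, hT, k⟩ := prod_eq_zero_iff.1 hx
    have k1 := EW.ne_of_smul hn (c := 1) (P := U) (by rwa [one_smul]) hT
    have k2 : n • (U + T) ≠ 0 := by rwa [smul_add, (EW.mem_En hn).1 hT, add_zero]
    rcases EW.x_eq s0 (one_smul O (U + T) ▸ k1) (sub_eq_zero.1 k) with rfl | rfl
    · exact k2 e
    · exact k2 (neg_eq_zero.1 ((smul_neg _ _).symm.trans e))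
  have k := EW.x_dist hn hU hS
  rw [prod_congr rfl fun T _ => (neg_sub _ _).symm, prod_neg,
    prod_congr rfl fun T _ => (neg_sub (xco S) (xco T)).symm, prod_neg, ← c1, pow_succ] at k
  have k2 : ∏ T ∈ (En n).erase 0, (xco S - xco T) ≠ 0 := prod_ne_zero_iff.2 fun T hT e => by
    rcases EW.x_eq s0 (ne_of_mem_erase hT) (sub_eq_zero.1 e) with rfl | rfl <;>
      simp [((EW.mem_En0 hn).1 hT).2] at hS
  have k3 : xco (n • S) = xco P := sub_eq_zero.1 (mul_left_cancel₀ (mul_ne_zero (mul_ne_zero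
    (pow_ne_zero ((En n).erase 0).card (neg_ne_zero.2 one_ne_zero))
    (pow_ne_zero 2 (EW.io_ne hn))) k2) (by
      linear_combination k + (-1) ^ ((En n).erase 0).card * hx))
  rcases EW.x_eq hS p0 k3 with e | e
  · exact ⟨S, e⟩
  · exact ⟨-S, by rw [smul_neg, e, neg_neg]⟩

theorem cm_spec (hm : m ≠ 0) (hg : g ∈ G) (hP : m • P = 0) : g • P = cm m g • P := by
  have k : ∃ a : O, ∀ P : A, m • P = 0 → g • P = a • P := by
    obtain ⟨a, e⟩ := EW.exists_eq_tq hm (P := g • tq 1 m) (by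
      rw [← act_smul hg, c1_m_tq hm, smul_zero])
    refine ⟨a, fun P hP => ?_⟩
    obtain ⟨c, rfl⟩ := EW.exists_eq_tq hm hP
    rw [act_smul hg, e, smul_comm]
  rw [cm, dif_pos k]
  exact k.choose_spec P hP

theorem cm_dvd (hm : m ≠ 0) (hg : g ∈ G) (k : g • tq 1 m = a • tq 1 m) : m ∣ cm m g - a := (c1_smul_tq hm).1 ((cm_spec hm hg (c1_m_tq hm)).symm.trans k)

theorem cm_mul (hm : m ≠ 0) (hg : g ∈ G) (hh : h ∈ G) : m ∣ cm m (g * h) - cm m g * cm m h := cm_dvd hm (mul_mem hg hh) (by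
    rw [mul_smul, cm_spec hm hh (c1_m_tq hm), act_smul hg, cm_spec hm hg (c1_m_tq hm), smul_smul,
      mul_comm])

theorem cm_one (hm : m ≠ 0) : m ∣ cm m 1 - 1 := cm_dvd hm (one_mem _) (by rw [one_smul, one_smul])

theorem cm_cop (hm : m ≠ 0) (hg : g ∈ G) : IsCoprime (cm m g) m := by
  obtain ⟨c, e⟩ := (cm_one hm).sub (mul_inv_cancel g ▸ cm_mul hm hg (inv_mem hg))
  exact ⟨cm m g⁻¹, -c, by linear_combination e⟩

theorem cm_of_dvd (hm : m ≠ 0) (hg : g ∈ G) (k : n ∣ m) : n ∣ cm m g - cm n g := by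
  have n0 := ne_zero_of_dvd_ne_zero hm k
  exact dvd_sub_comm.1 (cm_dvd n0 hg (cm_spec hm hg ((EW.smul_tq_one n0).2 k)))

theorem sm_cm (hm : m ≠ 0) : Sm G (cm m) := by
  obtain ⟨U, h1, h2, h3⟩ := sm_act G (tq 1 m)
  refine ⟨U, h1, h2, fun g hg h hh e => ?_⟩
  have k : ∀ p q : O → Prop, p = q → (if h : ∃ a, p a then h.choose else 1) =
      if h : ∃ a, q a then h.choose else 1 := fun p q e => by rw [e]
  refine k _ _ (funext fun a => propext (forall₂_congr fun P hP => ?_))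
  obtain ⟨c, rfl⟩ := EW.exists_eq_tq hm hP
  rw [act_smul hg, act_smul hh, show g • tq 1 m = h • tq 1 m from h3 g hg h hh e]

theorem prim_of_dvd {b : O} (k : (3 : O) ∣ m) (h : m ∣ a - b) (hb : Prim b) : Prim a :=
  prim_iff.2 (by simpa using (k.trans h).add (prim_iff.1 hb))

theorem cop_of_dvd {b : O} (h : m ∣ a - b) (hb : IsCoprime b m) : IsCoprime a m := by
  obtain ⟨c, e⟩ := h
  rw [eq_add_of_sub_eq' e]
  exact hb.add_mul_left_left c

theorem cm_prim (hm : m ≠ 0) (hg : g ∈ G) (k : (3 : O) ∣ m) : Prim (cm m g) := by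
  have w3 := c1_three
  obtain ⟨c, rfl⟩ := k
  obtain ⟨a, e⟩ := EW.exists_eq_tq w3 EW.three_T3
  have k := cm_spec hm hg (P := CU.T3) (by rw [mul_comm, mul_smul, EW.three_T3, smul_zero])
  rw [H3.TA.smul_T3, e, smul_smul, eq_comm, c1_smul_tq w3, ← sub_one_mul] at k
  refine prim_iff.2 (IsCoprime.dvd_of_dvd_mul_right (EW.cop_three fun k => ?_) k)
  obtain ⟨b, rfl⟩ := EW.w_dvd k
  refine EW.w_T3.2 ?_
  rw [e, smul_smul, EW.smul_tq_one w3, ← mul_assoc, ← sq, CU.th_sq]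
  exact (dvd_neg.2 dvd_rfl).mul_right _

theorem act_frob (t : TP) (k : ¬ t.π ∣ m) (hP : m • P = 0) : t.φ • P = t.π • P := EW.frob t.prime t.prim t.lt t.tm.frob (t.V_eq.2 k) hP

theorem cm_frob (t : TP) (k : ¬ t.π ∣ m) : m ∣ cm m t.φ - t.π := by
  have m0 : m ≠ 0 := fun e => k (e ▸ dvd_zero _)
  exact cm_dvd m0 t.φ_mem (act_frob t k (c1_m_tq m0))

theorem act_ine (hv : v.p ≠ 3) (hm : v.V (io m) = 1) (hσ : σ ∈ Ine v) (hP : m • P = 0) :
    σ • P = P :=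
  sub_eq_zero.1 (EW.Kr_tors hm (show σ • P - P ∈ EW.Kr v from H3.K1_ine hv hσ P) (by
    rw [smul_sub, ← act_smul (ine_le hv hσ), hP, smul_zero, sub_zero]))

theorem cm_ine (hv : v.p ≠ 3) (hm : v.V (io m) = 1) (hσ : σ ∈ Ine v) : m ∣ cm m σ - 1 := by
  have m0 : m ≠ 0 := fun e => by simp [e] at hm
  exact cm_dvd m0 (ine_le hv hσ) ((act_ine hv hm hσ (c1_m_tq m0)).trans (one_smul _ _).symm)

theorem psi_spec (e : ℕ) (hg : g ∈ G) : (3 : Ow) ^ e ∣ psi g - oW (cm (3 ^ e) g) := by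
  obtain ⟨k, h1, h2⟩ := ((ulO_spec (fun e => oW (cm (3 ^ e) g)) e).and (ev_ge e)).exists
  have := dvd_oW.2 (cm_of_dvd (pow_ne_zero k c1_three) hg (pow_dvd_pow 3 h2))
  rw [map_sub] at this
  simpa [psi] using this.sub h1

theorem psi_cm {e : ℕ} (hm : m ≠ 0) (k : 3 ^ e ∣ m) (hg : g ∈ G) :
    (3 : Ow) ^ e ∣ psi g - oW (cm m g) := by
  have := dvd_oW.2 (cm_of_dvd hm hg k)
  rw [map_sub] at this
  simpa using (psi_spec e hg).sub this

theorem psi_mul (hg : g ∈ G) (hh : h ∈ G) : psi (g * h) = psi g * psi h := by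
  refine sub_eq_zero.1 (eq_zero_Ow fun e => ?_)
  have := dvd_oW.2 (cm_mul (pow_ne_zero e c1_three) hg hh)
  rw [map_sub, map_mul] at this
  convert (((psi_spec e (mul_mem hg hh)).add this).sub
    ((psi_spec e hg).mul_right (psi h))).sub ((psi_spec e hh).mul_left (oW (cm (3 ^ e) g))) using 1
  ring

theorem psi_one : psi 1 = 1 := by
  refine sub_eq_zero.1 (eq_zero_Ow fun e => ?_)
  have := dvd_oW.2 (cm_one (pow_ne_zero e c1_three))
  rw [map_sub, map_one] at this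
  simpa using (psi_spec e (one_mem _)).add this

theorem psi_w3 (hg : g ∈ G) : wO ^ 2 ∣ psi g - 1 := by
  have h2 := map_dvd oW (prim_iff.1 (cm_prim (pow_ne_zero 1 c1_three) hg
    (dvd_pow_self 3 one_ne_zero)))
  have h3 := psi_spec 1 hg
  rw [pow_one (3 : Ow)] at h3
  rw [map_ofNat, map_sub, map_one] at h2
  rw [wO_sq, neg_dvd]
  simpa using h3.add h2

theorem psi_frob (t : TP) : psi t.φ = oW t.π := by
  refine sub_eq_zero.1 (eq_zero_Ow fun e => ?_)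
  have := dvd_oW.2 (cm_frob t (m := 3 ^ e) fun k => t.prime.irreducible.coprime_iff_not_dvd.1
    (EW.cop_three t.red).symm (t.prime.dvd_of_dvd_pow k))
  rw [map_sub] at this
  simpa using (psi_spec e t.φ_mem).add this

theorem psi_ine (hv : v.p ≠ 3) (hσ : σ ∈ Ine v) : psi σ = 1 := by
  refine sub_eq_zero.1 (eq_zero_Ow fun e => ?_)
  have := dvd_oW.2 (cm_ine (m := 3 ^ e) hv (by
    rw [map_pow, map_pow, map_ofNat, EW.V_three hv, one_pow]) hσ)
  rw [map_sub, map_one] at this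
  simpa using (psi_spec e (ine_le hv hσ)).add this

theorem sm_psi (e : ℕ) :
    Sm G fun g => Ideal.Quotient.mk (Ideal.span {(3 : Ow) ^ e}) (psi g) := ((sm_cm (pow_ne_zero e c1_three)).comp fun a => Ideal.Quotient.mk _ (oW a)).congr
    fun _ hg => (Ideal.Quotient.eq.2 (Ideal.mem_span_singleton.2 (psi_spec e hg))).symm

theorem m_tq (hm : m ≠ 0) (a : O) : m • tq a m = 0 := by
  rw [EW.tq_eq _ hm, smul_comm, c1_m_tq hm, smul_zero]

theorem tq_eq_iff (hm : m ≠ 0) {b : O} : tq a m = tq b m ↔ m ∣ a - b := by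
  rw [EW.tq_eq a hm, EW.tq_eq b hm, c1_smul_tq hm]

theorem tq_down (hm : m ≠ 0) (hn : n ≠ 0) (a : O) : n • tq a (m * n) = tq a m := by
  rw [EW.smul_tq _ _ (mul_ne_zero hm hn), mul_comm m, EW.tq_mul hn _ hm]

theorem mem_Im (hm : m ≠ 0) : P ∈ Im m ↔ ∃ a, IsCoprime a m ∧ Prim a ∧ P = tq a m := mem_filter.trans ⟨fun h => h.2, fun h => ⟨by
    obtain ⟨a, -, -, rfl⟩ := h
    exact (EW.mem_En hm).2 (m_tq hm a), h⟩⟩

theorem Im_kill (hm : m ≠ 0) (hP : P ∈ Im m) : m • P = 0 := (EW.mem_En hm).1 (mem_filter.1 hP).1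

theorem Im_dvd (hm : m ≠ 0) (hP : P ∈ Im m) (k : a • P = 0) : m ∣ a := by
  obtain ⟨c, h1, -, rfl⟩ := (mem_Im hm).1 hP
  rw [EW.smul_tq _ _ hm, EW.tq_eq_zero hm] at k
  exact h1.symm.dvd_of_dvd_mul_right k

theorem smul_mem_Im (hm : m ≠ 0) (ha : Prim a) (hc : IsCoprime a m) (hP : P ∈ Im m) :
    a • P ∈ Im m := by
  obtain ⟨c, h1, h2, rfl⟩ := (mem_Im hm).1 hP
  exact (mem_Im hm).2 ⟨_, hc.mul_left h1, prim_mul ha h2, EW.smul_tq _ _ hm⟩

theorem act_Im (hm : m ≠ 0) (k : (3 : O) ∣ m) (hg : g ∈ G) (hP : P ∈ Im m) : g • P ∈ Im m := by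
  rw [cm_spec hm hg (Im_kill hm hP)]
  exact smul_mem_Im hm (cm_prim hm hg k) (cm_cop hm hg) hP

theorem smul_Im (hm : m ≠ 0) (k : (3 : O) ∣ m) (ha : Prim a) (hc : IsCoprime a m) :
    Set.BijOn (fun P : A => a • P) (Im m) (Im m) := by
  have _ := k
  have inj : Set.InjOn (fun P : A => a • P) (Im m) := fun P hP Q hQ e => sub_eq_zero.1
    (EW.cop_smul hc (by rw [smul_sub, Im_kill hm hP, Im_kill hm hQ, sub_zero])
      (by rw [smul_sub, sub_eq_zero]; exact e))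
  exact ⟨fun _ => smul_mem_Im hm ha hc, inj,
    surjOn_of_injOn_of_card_le _ (fun _ => smul_mem_Im hm ha hc) inj le_rfl⟩

theorem co_spec (hm : m ≠ 0) (hP : m • P = 0) : tq (co m P) m = P := by
  have k : ∃ a, P = tq a m := (EW.exists_eq_tq hm hP).imp fun a e => e.trans (EW.tq_eq a hm).symm
  rw [co, dif_pos k]
  exact k.choose_spec.symm

theorem co_tq (hm : m ≠ 0) (a : O) : m ∣ co m (tq a m) - a := (tq_eq_iff hm).1 (co_spec hm (m_tq hm a))

theorem co_smul (hm : m ≠ 0) (a : O) (hP : m • P = 0) : m ∣ co m (a • P) - a * co m P := by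
  rw [← tq_eq_iff hm, co_spec hm (by rw [smul_comm, hP, smul_zero]), ← EW.smul_tq _ _ hm,
    co_spec hm hP]

theorem co_act (hm : m ≠ 0) (hg : g ∈ G) (hP : m • P = 0) :
    m ∣ co m (g • P) - cm m g * co m P := by
  rw [cm_spec hm hg hP]
  exact co_smul hm _ hP

theorem co_down (hm : m ≠ 0) (hn : n ≠ 0) (hP : (m * n) • P = 0) :
    m ∣ co m (n • P) - co (m * n) P := by
  rw [← tq_eq_iff hm, co_spec hm (by rwa [← mul_smul]), ← tq_down hm hn,
    co_spec (mul_ne_zero hm hn) hP]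

theorem co_cop (hm : m ≠ 0) (hP : P ∈ Im m) : IsCoprime (co m P) m := by
  obtain ⟨c, h1, -, rfl⟩ := (mem_Im hm).1 hP
  exact cop_of_dvd (co_tq hm c) h1

theorem co_prim (hm : m ≠ 0) (k : (3 : O) ∣ m) (hP : P ∈ Im m) : Prim (co m P) := by
  obtain ⟨c, -, h1, rfl⟩ := (mem_Im hm).1 hP
  exact prim_of_dvd k (co_tq hm c) h1

theorem mem_pre (hn : n ≠ 0) {S : Finset A} : P ∈ pre n S ↔ n • P ∈ S := by
  have k : ∀ B : A, n • (if h : ∃ Q, n • Q = B then h.choose else 0) = B := fun B => by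
    rw [dif_pos (exists_div hn B)]
    exact (exists_div hn B).choose_spec
  simp only [pre, mem_biUnion, mem_image, EW.mem_En hn]
  refine ⟨?_, fun h => ⟨_, h, P - _, ?_, add_sub_cancel _ _⟩⟩
  · rintro ⟨B, hB, T, hT, rfl⟩
    rwa [smul_add, k, hT, add_zero]
  · rw [smul_sub, k, sub_self]

theorem pre_fibre (hn : n ≠ 0) {S : Finset A} {B Q : A} (hB : B ∈ S) (hQ : n • Q = B)
    {β : Type} [CommMonoid β] (f : A → β) :
    ∏ P ∈ pre n S with n • P = B, f P = ∏ T ∈ En n, f (Q + T) := by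
  refine prod_nbij' (· - Q) (Q + ·) (fun P hP => ?_) (fun T hT => ?_) (fun _ _ => add_sub_cancel _ _)
    (fun _ _ => add_sub_cancel_left _ _) fun _ _ => by rw [add_sub_cancel]
  · rw [EW.mem_En hn, smul_sub, (mem_filter.1 hP).2, hQ, sub_self]
  · have : n • (Q + T) = B := by rw [smul_add, hQ, (EW.mem_En hn).1 hT, add_zero]
    exact mem_filter.2 ⟨(mem_pre hn).2 (this ▸ hB), this⟩

theorem Im_down (hm : m ≠ 0) (hn : n ≠ 0) (hP : P ∈ Im (m * n)) : n • P ∈ Im m := by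
  obtain ⟨c, h1, h2, rfl⟩ := (mem_Im (mul_ne_zero hm hn)).1 hP
  exact (mem_Im hm).2 ⟨c, h1.of_mul_right_left, h2, tq_down hm hn c⟩

theorem Im_up (hm : m ≠ 0) (hn : n ≠ 0) (k : (3 : O) ∣ m) (hP : n • P ∈ Im m) :
    ∃ c, IsCoprime c m ∧ Prim c ∧ P = tq c (m * n) := by
  have h1 : (m * n) • P = 0 := by rw [mul_smul, Im_kill hm hP]
  have h2 := dvd_sub_comm.1 (co_down hm hn h1)
  exact ⟨_, cop_of_dvd h2 (co_cop hm hP), prim_of_dvd k h2 (co_prim hm k hP),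
    (co_spec (mul_ne_zero hm hn) h1).symm⟩

theorem pre_ram (hm : m ≠ 0) (hn : n ≠ 0) (k : (3 : O) ∣ m) (hp : ∀ p, Prime p → p ∣ n → p ∣ m) :
    pre n (Im m) = Im (m * n) := by
  ext P
  refine (mem_pre hn).trans ⟨fun h => ?_, Im_down hm hn⟩
  obtain ⟨c, h1, h2, e⟩ := Im_up hm hn k h
  exact (mem_Im (mul_ne_zero hm hn)).2 ⟨c, h1.mul_right (isCoprime_of_prime_dvd (fun e => hn e.2)
    fun z hz h3 h4 => hz.not_isUnit (h1.isUnit_of_dvd' h3 (hp z hz h4))), h2, e⟩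

theorem pre_new (hm : m ≠ 0) (k : (3 : O) ∣ m) {π : O} (hp : Prime π) (hπ : Prim π) (hd : ¬ π ∣ m) :
    pre π (Im m) = Im (m * π) ∪ Im m ∧ Disjoint (Im (m * π)) (Im m) := by
  have p0 := hp.ne_zero
  have c0 := hp.irreducible.coprime_iff_not_dvd.2 hd
  refine ⟨Finset.ext fun P => (mem_pre p0).trans ⟨fun h => ?_, fun h =>
    (mem_union.1 h).elim (Im_down hm p0) (smul_mem_Im hm hπ c0)⟩,
    disjoint_left.2 fun P h1 h2 => hp.not_dvd_one ((mul_dvd_mul_iff_left hm).1 ?_)⟩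
  · obtain ⟨c, h1, h2, e⟩ := Im_up hm p0 k h
    by_cases h3 : π ∣ c
    · obtain ⟨d, rfl⟩ := h3
      refine mem_union_right _ ((mem_Im hm).2 ⟨d, h1.of_mul_left_right, prim_iff.2 ?_, by
        rw [e, mul_comm m, EW.tq_mul p0 _ hm]⟩)
      convert (prim_iff.1 h2).sub ((prim_iff.1 hπ).mul_right d) using 1
      ring
    · exact mem_union_left _ ((mem_Im (mul_ne_zero hm p0)).2
        ⟨c, h1.mul_right (hp.irreducible.coprime_iff_not_dvd.2 h3).symm, h2, e⟩)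
  · rw [mul_one]
    exact Im_dvd (mul_ne_zero hm p0) h1 (Im_kill hm h2)

/-- Sums over primary generators are sums over primary residues. -/
theorem sum_Im (hm : m ≠ 0) (k : (3 : O) ∣ m) {R : Finset O} (hR : EW.IsRep m R) {β : Type}
    [AddCommMonoid β] (f : O → β) (hf : ∀ a b, m ∣ a - b → f a = f b) :
    ∑ P ∈ Im m, f (co m P) = ∑ a ∈ R with Prim a ∧ IsCoprime a m, f a := by
  refine (sum_nbij (fun a => tq a m) (fun a ha => (mem_Im hm).2
    ⟨a, (mem_filter.1 ha).2.2, (mem_filter.1 ha).2.1, rfl⟩)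
    (hR.inj.mono (coe_subset.2 (filter_subset _ _))) (fun P hP => ?_)
    fun a _ => (hf _ _ (co_tq hm a)).symm).symm
  obtain ⟨c, h1, h2, rfl⟩ := (mem_Im hm).1 hP
  obtain ⟨r, hr, e⟩ := hR.ex c
  have e2 := dvd_sub_comm.1 e
  exact ⟨r, mem_coe.2 (mem_filter.2 ⟨hr, prim_of_dvd k e2 h2, cop_of_dvd e2 h1⟩),
    (tq_eq_iff hm).2 e2⟩

/-- The fibres of the projection to a lower level. -/
theorem sum_fibre (hm : m ≠ 0) (k : (3 : O) ∣ m) {π : O} (hp : Prime π) (hπ : Prim π) (hd : ¬ π ∣ m)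
    {B : A} (hB : B ∈ Im m) {R : Finset O} (hR : EW.IsRep π R) {β : Type} [AddCommMonoid β]
    (f : O → β) (hf : ∀ a b, π ∣ a - b → f a = f b) :
    ∑ P ∈ Im (m * π) with π • P = B, f (co (m * π) P) = ∑ a ∈ R with ¬ π ∣ a, f a := by
  have _ := hπ
  have p0 := hp.ne_zero
  have m0 := mul_ne_zero hm p0
  obtain ⟨b, b1, b2, rfl⟩ := (mem_Im hm).1 hB
  obtain ⟨s, t, e⟩ := (hp.irreducible.coprime_iff_not_dvd.2 hd).symm
  have c1 : ∀ a, m ∣ a * s * m + b * t * π - b := fun a => ⟨(a - b) * s, by linear_combination b * e⟩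
  have c2 : ∀ a, π ∣ a * s * m + b * t * π - a := fun a => ⟨(b - a) * t, by linear_combination a * e⟩
  obtain ⟨F, hF⟩ : ∃ F : O → O, ∀ a, F a = a * s * m + b * t * π := ⟨_, fun _ => rfl⟩
  simp only [← hF] at c1 c2
  have d := dvd_mul_left π m
  symm
  refine sum_nbij (fun a => tq (F a) (m * π)) (fun a ha => mem_filter.2
    ⟨(mem_Im m0).2 ⟨F a, (cop_of_dvd (c1 a) b1).mul_right (cop_of_dvd (c2 a)
      (hp.irreducible.coprime_iff_not_dvd.2 (mem_filter.1 ha).2).symm), prim_of_dvd k (c1 a) b2, rfl⟩,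
      (tq_down hm p0 _).trans ((tq_eq_iff hm).2 (c1 a))⟩) (fun a ha a' ha' h => ?_) (fun P hP => ?_)
    fun a _ => hf _ _ ?_
  · refine hR.uq a (mem_filter.1 ha).1 a' (mem_filter.1 ha').1 ?_
    have := ((d.trans ((tq_eq_iff m0).1 h)).sub (c2 a)).add (c2 a')
    rwa [show F a - F a' - (F a - a) + (F a' - a') = a - a' by ring] at this
  · obtain ⟨h1, h2⟩ := mem_filter.1 hP
    obtain ⟨c, h3, -, rfl⟩ := (mem_Im m0).1 h1
    rw [tq_down hm p0, tq_eq_iff hm] at h2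
    obtain ⟨r, hr, x, h4⟩ := hR.ex c
    obtain ⟨y, h5⟩ := h2
    refine ⟨r, mem_coe.2 (mem_filter.2 ⟨hr, fun h => hp.not_isUnit (h3.isUnit_of_dvd' ?_ d)⟩),
      (tq_eq_iff m0).2 ⟨-(x * s) - y * t, ?_⟩⟩
    · rw [eq_add_of_sub_eq h4]
      exact (dvd_mul_right _ _).add h
    · rw [hF]
      linear_combination c * e - s * m * h4 - t * π * h5
  · have := (d.trans (co_tq m0 (F a))).add (c2 a)
    rwa [sub_add_sub_cancel, dvd_sub_comm] at this

end Pool.Agent.Lib.MP_696deb_nt.EV
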