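import Pool.Agent.Lib.MP_696deb_nt.B2.PAa
import Pool.Agent.Lib.MP_696deb_nt.CU.D0
import Pool.Agent.Lib.MP_696deb_nt.EW.O0

/-! The completed Eisenstein integers and the ring of power series over them. -/

set_option autoImplicit false

open scoped Classical
open Filter PowerSeries

namespace Pool.Agent.Lib.MP_696deb_nt.EV

export B2.PA (UU diag ev_ge ev_const)

/-- The completion of the Eisenstein integers at the prime above three. -/
abbrev Ow : Type := QuadraticAlgebra ℤ_[3] (-1) (-1)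

/-- The embedding of the Eisenstein integers. -/
noncomputable def oW : CU.O →+* Ow where
  toFun a := ⟨a.re, a.im⟩
  map_one' := by ext <;> simp [QuadraticAlgebra.re_one, QuadraticAlgebra.im_one]
  map_zero' := by ext <;> simp
  map_add' a b := by ext <;> simp
  map_mul' a b := by ext <;> simp

/-- The prime element. -/
noncomputable def wO : Ow := oW CU.th

/-- Limits along the ultrafilter. -/
noncomputable def ulO (y : ℕ → Ow) : Ow :=
  ⟨((hyperfilter ℕ).map fun k => (y k).re).lim, ((hyperfilter ℕ).map fun k => (y k).im).lim⟩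

theorem oW_re (a : CU.O) : (oW a).re = a.re := rfl

theorem oW_im (a : CU.O) : (oW a).im = a.im := rfl

theorem wO_eq : wO = oW CL.th := rfl

theorem oW_star (a : CU.O) : oW (star a) = star (oW a) := by
  ext <;> simp [oW_re, oW_im]

theorem oW_norm (a : CU.O) : (oW a).norm = CL.nm a := by
  simp only [QuadraticAlgebra.norm_def, CL.nm, oW_re, oW_im]
  push_cast
  ring

theorem oW_inj : Function.Injective oW := fun a b h => by
  have h1 := congrArg QuadraticAlgebra.re h
  have h2 := congrArg QuadraticAlgebra.im h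
  rw [oW_re, oW_re] at h1
  rw [oW_im, oW_im] at h2
  exact QuadraticAlgebra.ext (Int.cast_injective h1) (Int.cast_injective h2)

theorem norm_Ow (z : Ow) : z.norm = z.re ^ 2 - z.re * z.im + z.im ^ 2 := by
  rw [QuadraticAlgebra.norm_def]
  ring

theorem mul_star_Ow (z : Ow) : z * star z = algebraMap ℤ_[3] Ow z.norm :=
  (QuadraticAlgebra.algebraMap_norm_eq_mul_star z).symm

theorem isUnit_Ow {z : Ow} : IsUnit z ↔ IsUnit z.norm :=
  QuadraticAlgebra.isUnit_iff_norm_isUnit

theorem la_dvd {c : ℤ_[3]} {z : Ow} : algebraMap ℤ_[3] Ow c ∣ z ↔ c ∣ z.re ∧ c ∣ z.im := by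
  constructor
  · rintro ⟨w, rfl⟩
    exact ⟨⟨w.re, by simp⟩, w.im, by simp⟩
  · rintro ⟨⟨a, ha⟩, b, hb⟩
    exact ⟨⟨a, b⟩, by ext <;> simp [ha, hb]⟩

theorem two_pow_dvd_Ow {e : ℕ} {z : Ow} : (3 : Ow) ^ e ∣ z ↔ 3 ^ e ∣ z.re ∧ 3 ^ e ∣ z.im := by
  rw [← la_dvd, map_pow, map_ofNat]

/-- The Eisenstein integers are dense. -/
theorem exists_ap (e : ℕ) (z : Ow) : ∃ a : CU.O, (3 : Ow) ^ e ∣ z - oW a := by
  have h : ∀ x : ℤ_[3], (3 : ℤ_[3]) ^ e ∣ x - ((x.appr e : ℤ) : ℤ_[3]) := fun x => by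
    simpa [Ideal.mem_span_singleton] using PadicInt.appr_spec e x
  refine ⟨⟨z.re.appr e, z.im.appr e⟩, two_pow_dvd_Ow.2 ⟨?_, ?_⟩⟩
  · rw [QuadraticAlgebra.re_sub, oW_re]
    exact h _
  · rw [QuadraticAlgebra.im_sub, oW_im]
    exact h _

theorem dvd_oW {e : ℕ} {a : CU.O} : (3 : Ow) ^ e ∣ oW a ↔ (3 : CU.O) ^ e ∣ a := by
  have h : ∀ x : ℤ, (3 : ℤ_[3]) ^ e ∣ x ↔ (3 : ℤ) ^ e ∣ x := fun x =>
    PadicInt.pow_p_dvd_int_iff (p := 3) e x
  rw [two_pow_dvd_Ow, oW_re, oW_im, h, h]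
  have e3 : (3 : CU.O) ^ e = algebraMap ℤ CU.O (3 ^ e) := by rw [map_pow, map_ofNat]
  rw [e3]
  generalize (3 : ℤ) ^ e = c
  constructor
  · rintro ⟨⟨x, hx⟩, y, hy⟩
    exact ⟨⟨x, y⟩, by ext <;> simp [hx, hy]⟩
  · rintro ⟨w, rfl⟩
    exact ⟨⟨w.re, by simp⟩, w.im, by simp⟩

theorem eq_zero_Ow {z : Ow} (h : ∀ e : ℕ, (3 : Ow) ^ e ∣ z) : z = 0 := by
  have h0 : ∀ x : ℤ_[3], (∀ e : ℕ, (3 : ℤ_[3]) ^ e ∣ x) → x = 0 := fun x hx =>
    PadicInt.ext_of_toZModPow.1 fun e => by
      rw [map_zero, ← RingHom.mem_ker, PadicInt.ker_toZModPow, Ideal.mem_span_singleton]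
      exact hx e
  exact QuadraticAlgebra.ext (h0 _ fun e => (two_pow_dvd_Ow.1 (h e)).1)
    (h0 _ fun e => (two_pow_dvd_Ow.1 (h e)).2)

theorem ulO_spec (y : ℕ → Ow) (e : ℕ) : ∀ᶠ k in UU, (3 : Ow) ^ e ∣ y k - ulO y := by
  have h : ∀ x : ℕ → ℤ_[3], ∀ᶠ k in UU,
      (3 : ℤ_[3]) ^ e ∣ x k - ((hyperfilter ℕ).map x).lim := fun x => by
    have h1 := Ultrafilter.le_nhds_lim ((hyperfilter ℕ).map x)
    have h2 := h1 (Metric.closedBall_mem_nhds _ (ε := ((3 : ℕ) : ℝ) ^ (-e : ℤ)) (by positivity))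
    refine Eventually.mono h2 fun k hk => ?_
    rw [← Ideal.mem_span_singleton]
    exact (PadicInt.norm_le_pow_iff_mem_span_pow _ e).1 (mem_closedBall_iff_norm.1 hk)
  exact ((h fun k => (y k).re).and (h fun k => (y k).im)).mono fun k hk => two_pow_dvd_Ow.2 hk

theorem wO_sq : wO ^ 2 = -3 := by
  rw [wO, ← map_pow, ← map_ofNat oW 3, ← map_neg]
  exact congrArg oW (by decide)

theorem la_re : wO.re = 1 := by simp [wO, oW_re, CU.th]

theorem la_im : wO.im = 2 := by simp [wO, oW_im, CU.th]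

theorem la_wO_dvd {z : Ow} : wO ∣ z ↔ (3 : ℤ_[3]) ∣ z.re + z.im := by
  constructor
  · rintro ⟨w, rfl⟩
    exact ⟨w.re - w.im, by simp [la_re, la_im]; ring⟩
  · rintro ⟨t, ht⟩
    refine ⟨⟨z.im - t, z.im - 2 * t⟩, QuadraticAlgebra.ext ?_ ?_⟩ <;> simp [la_re, la_im]
    · linear_combination ht
    · ring

theorem la_two : wO ∣ 3 := ⟨-wO, by rw [mul_neg, ← sq, wO_sq, neg_neg]⟩

theorem la_pow (e : ℕ) : (3 : Ow) ^ e ∣ wO ^ (2 * e) := by
  rw [pow_mul, wO_sq]
  exact pow_dvd_pow_of_dvd (dvd_neg.2 dvd_rfl) e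

theorem wO_or (z : Ow) : wO ∣ z ∨ wO ∣ z - 1 ∨ wO ∣ z + 1 := by
  rw [la_wO_dvd, la_wO_dvd, la_wO_dvd, QuadraticAlgebra.re_sub, QuadraticAlgebra.im_sub,
    QuadraticAlgebra.re_add, QuadraticAlgebra.im_add, QuadraticAlgebra.re_one,
    QuadraticAlgebra.im_one, sub_zero, add_zero, sub_add_eq_add_sub, add_right_comm]
  have h1 := PadicInt.appr_spec 1 (z.re + z.im)
  have h2 := PadicInt.appr_lt (z.re + z.im) 1
  rw [Ideal.mem_span_singleton, pow_one] at h1
  generalize (z.re + z.im).appr 1 = r at h1 h2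
  interval_cases r
  · exact .inl (by simpa using h1)
  · exact .inr (.inl (by simpa using h1))
  · refine .inr (.inr ?_)
    have h3 := dvd_add h1 dvd_rfl
    rwa [show z.re + z.im - ((2 : ℕ) : ℤ_[3]) + ((3 : ℕ) : ℤ_[3]) = z.re + z.im + 1 by
      push_cast; ring] at h3

theorem unit_iff_wO {z : Ow} : IsUnit z ↔ ¬ wO ∣ z := by
  have hp : Prime (3 : ℤ_[3]) := PadicInt.prime_p (p := 3)
  rw [isUnit_Ow, la_wO_dvd, ← not_iff_not, not_not, ← mem_nonunits_iff,
    ← IsLocalRing.mem_maximalIdeal, PadicInt.maximalIdeal_eq_span_p, Ideal.mem_span_singleton,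
    Nat.cast_ofNat, ← hp.dvd_pow_iff_dvd (a := z.re + z.im) two_ne_zero, norm_Ow,
    show (z.re + z.im) ^ 2 = z.re ^ 2 - z.re * z.im + z.im ^ 2 + 3 * (z.re * z.im) by ring,
    dvd_add_left (dvd_mul_right _ _)]

theorem exists_wO_pow {z : Ow} (h : z ≠ 0) : ∃ (n : ℕ) (u : Ow), IsUnit u ∧ z = wO ^ n * u := by
  have hf : FiniteMultiplicity wO z := by
    by_contra hn
    exact h (eq_zero_Ow fun e => (la_pow e).trans (FiniteMultiplicity.not_iff_forall.1 hn _))
  obtain ⟨u, h1, h2⟩ := hf.exists_eq_pow_mul_and_not_dvd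
  exact ⟨_, u, unit_iff_wO.2 h2, h1⟩

theorem la_norm_ne {z : Ow} (h : z ≠ 0) : z.norm ≠ 0 := by
  obtain ⟨n, u, hu, rfl⟩ := exists_wO_pow h
  rw [map_mul, map_pow, norm_Ow wO, la_re, la_im]
  exact mul_ne_zero (pow_ne_zero _ (by norm_num)) (isUnit_Ow.1 hu).ne_zero

instance : IsDomain Ow := by
  have : NoZeroDivisors Ow := ⟨fun {a b} h => by
    by_contra hn
    exact mul_ne_zero (la_norm_ne fun e => hn (.inl e)) (la_norm_ne fun e => hn (.inr e))
      (by rw [← map_mul, h, QuadraticAlgebra.norm_zero])⟩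
  exact NoZeroDivisors.to_isDomain _

theorem prime_wO : Prime wO := by
  refine ⟨fun h => one_ne_zero (la_re.symm.trans (congrArg QuadraticAlgebra.re h)),
    fun h => unit_iff_wO.1 h dvd_rfl, fun a b h => ?_⟩
  by_contra hn
  exact unit_iff_wO.1 ((unit_iff_wO.2 fun e => hn (.inl e)).mul
    (unit_iff_wO.2 fun e => hn (.inr e))) h

instance : IsDiscreteValuationRing Ow :=
  .ofHasUnitMulPowIrreducibleFactorization ⟨wO, prime_wO.irreducible, fun h => by
    obtain ⟨n, u, hu, rfl⟩ := exists_wO_pow h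
    exact ⟨n, associated_mul_unit_right _ _ hu⟩⟩

instance : IsAdicComplete (IsLocalRing.maximalIdeal Ow) Ow := by
  have h : ∀ (n : ℕ) (x y : Ow), x ≡ y [SMOD IsLocalRing.maximalIdeal Ow ^ n • (⊤ : Ideal Ow)] ↔
      wO ^ n ∣ x - y := fun n x y => by
    rw [SModEq.sub_mem, smul_eq_mul, Ideal.mul_top, prime_wO.irreducible.maximalIdeal_eq,
      Ideal.span_singleton_pow, Ideal.mem_span_singleton]
  refine { haus' := fun x hx => eq_zero_Ow fun e => (la_pow e).trans ?_
           prec' := fun f hf => ⟨ulO f, fun n => (h _ _ _).2 ?_⟩ }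
  · simpa using (h _ _ _).1 (hx (2 * e))
  · obtain ⟨k, h1, h2⟩ := ((ev_ge n).and (ulO_spec f n)).exists
    rw [← sub_add_sub_cancel _ (f k)]
    exact dvd_add ((h _ _ _).1 (hf h1)) ((pow_dvd_pow_of_dvd la_two n).trans h2)

/-- The ring of power series. -/
abbrev La : Type := PowerSeries Ow

noncomputable instance laCommRing : CommRing La := MvPowerSeries.instCommRing
noncomputable instance laRing : Ring La := CommRing.toRing
noncomputable instance laCommSemiring : CommSemiring La := CommRing.toCommSemiring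
noncomputable instance laSemiring : Semiring La := CommSemiring.toSemiring
noncomputable instance laAddCommGroup : AddCommGroup La := Ring.toAddCommGroup
noncomputable instance laAddCommMonoid : AddCommMonoid La := Semiring.toAddCommMonoid

instance : IsDomain La := inferInstance

instance : IsNoetherianRing La := inferInstance

instance : IsLocalRing La := inferInstance

noncomputable instance : UniqueFactorizationMonoid La := inferInstance

/-- The prime above three as a constant. -/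
noncomputable def ww : La := C wO

/-- The ideals that define the levels. -/
noncomputable def aa (j : ℕ) : Ideal La := Ideal.span {3 ^ (j + 1), X ^ (j + 1)}

/-- Limits along the ultrafilter. -/
noncomputable def ul (y : ℕ → La) : La := PowerSeries.mk fun n => ulO fun k => coeff n (y k)

/-- `f` is a unit times `X ^ n` modulo the prime above three. -/
def Tu (n : ℕ) (f : La) : Prop := ∃ u g : La, IsUnit u ∧ f = X ^ n * u + ww * g

/-- Prime ideals of residue characteristic zero. -/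
def Pr (I : Ideal La) : Prop := I.IsPrime ∧ (3 : La) ∉ I

/-- Finite local rings whose residue field has three elements. -/
class Lo2 (R : Type) [CommRing R] : Prop where
  fin : Finite R
  loc : IsLocalRing R
  res : ∀ x : R, ¬ IsUnit x ∨ ¬ IsUnit (x - 1) ∨ ¬ IsUnit (x + 1)
  three : ¬ IsUnit (3 : R)

attribute [instance] Lo2.fin Lo2.loc

end Pool.Agent.Lib.MP_696deb_nt.EV
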