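import Pool.Agent.Lib.MP_696deb_nt.EV.G0a
import Pool.Agent.Lib.MP_696deb_nt.EV.La

/-! Definitions on the curve. -/

set_option autoImplicit false

open scoped Classical
open Finset

namespace Pool.Agent.Lib.MP_696deb_nt.EV

export CU (un kk)
export CL (Gch)
export EW (tq En yh)

/-- The parameter of a cubic twist. -/
structure Tw where
  N : ℕ
  ne : N ≠ 0

/-- The real cube root. -/
noncomputable def Tw.ρ (t : Tw) : Qbar := CU.rho t.N

/-- The twisted Galois action. -/
noncomputable def Tw.tw (t : Tw) (g : Gam) : A →+ A := CU.act t.N 1 g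

/-- The coboundary of a point. -/
noncomputable def Tw.cob (t : Tw) (Q : A) (g : Gam) : A := t.tw g Q - Q

theorem Tw.pw (t : Tw) : t.ρ ^ 3 = t.N := CU.rho_cube t.N

theorem Tw.cob_eq (t : Tw) (Q : A) : t.cob Q = H3.cob (CU.act t.N 1) Q := rfl

/-- The scalar by which `g` acts on the points that are killed by `m`. -/
noncomputable def cm (m : O) (g : Gam) : O :=
  if h : ∃ a : O, ∀ P : A, m • P = 0 → g • P = a • P then h.choose else 1

/-- The scalar by which `g` acts on the points of three-power order. -/
noncomputable def psi (g : Gam) : Ow := ulO fun e => oW (cm (3 ^ e) g)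

/-- The scalar of the twisted action. -/
noncomputable def rho0 (t : Tw) (g : Gam) : Ow := oW (un (kk t.N g)) * psi g

/-- The primary generators of the points that are killed by `m`. -/
noncomputable def Im (m : O) : Finset A :=
  (En m).filter fun P => ∃ a, IsCoprime a m ∧ Prim a ∧ P = tq a m

/-- The coordinate of a point. -/
noncomputable def co (m : O) (P : A) : O := if h : ∃ a, P = tq a m then h.choose else 0

/-- The points whose multiple lies in `S`. -/
noncomputable def pre (n : O) (S : Finset A) : Finset A :=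
  S.biUnion fun B => (En n).image fun T => (if h : ∃ Q, n • Q = B then h.choose else 0) + T

/-- An index modulo a prime. -/
structure Ix (t : TP) (s : ℕ) where
  ind : O → ZMod (3 ^ s)
  mul : ∀ a b, ¬ t.π ∣ a → ¬ t.π ∣ b → ind (a * b) = ind a + ind b
  per : ∀ a b, t.π ∣ a - b → ind a = ind b
  unit : ind om = 0
  sig : ind (cm t.π t.σ) = 1
  par : ∀ a, ¬ t.π ∣ a → (3 ∣ (ind a).val ↔ ∃ b, t.π ∣ a - b ^ 3)
  dvd : 3 ^ (s + 1) ∣ nm t.π - 1
  pos : 0 < s

/-- The index as a character of the Galois group. -/
noncomputable def Ix.ig {t : TP} {s : ℕ} (x : Ix t s) (g : Gam) : ZMod (3 ^ s) := x.ind (cm t.π g)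

end Pool.Agent.Lib.MP_696deb_nt.EV
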