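import Pool.Agent.Lib.MP_696deb_nt.EV.La

/-! Levels and limits. -/

set_option autoImplicit false

open scoped Classical
open Filter PowerSeries

namespace Pool.Agent.Lib.MP_696deb_nt.EV

theorem lb_C2 (j : ℕ) : (3 : La) ^ j = C ((3 : Ow) ^ j) := by rw [map_pow, map_ofNat]

theorem mem_aa {j : ℕ} {f : La} : f ∈ aa j ↔ ∀ n ≤ j, (3 : Ow) ^ (j + 1) ∣ coeff n f := by
  have h2 := lb_C2 (j + 1)
  rw [aa, Ideal.mem_span_pair]
  constructor
  · rintro ⟨a, b, rfl⟩ n hn
    rw [map_add, coeff_mul_X_pow', if_neg (by omega), add_zero, h2, coeff_mul_C]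
    exact dvd_mul_left _ _
  · intro h
    choose! c hc using h
    obtain ⟨g, hg⟩ : (X : La) ^ (j + 1) ∣ f - PowerSeries.mk c * 3 ^ (j + 1) :=
      X_pow_dvd_iff.2 fun n hn => by
        rw [map_sub, h2, coeff_mul_C, coeff_mk, hc n (by omega), mul_comm, sub_self]
    exact ⟨PowerSeries.mk c, g, by rw [mul_comm g, ← hg, add_sub_cancel]⟩

theorem aa_anti {j k : ℕ} (h : j ≤ k) : aa k ≤ aa j := by
  intro f hf
  rw [mem_aa] at hf ⊢
  exact fun n hn => (pow_dvd_pow _ (by omega)).trans (hf n (hn.trans h))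

theorem two_pow_mem (j : ℕ) : (3 : La) ^ (j + 1) ∈ aa j := Ideal.subset_span (by simp)

theorem X_pow_mem (j : ℕ) : (X : La) ^ (j + 1) ∈ aa j := Ideal.subset_span (by simp)

theorem unit_La {f : La} : IsUnit f ↔ ¬ wO ∣ constantCoeff f := by
  rw [isUnit_iff_constantCoeff, unit_iff_wO]

theorem res_La (f : La) : ¬ IsUnit f ∨ ¬ IsUnit (f - 1) ∨ ¬ IsUnit (f + 1) := by
  rw [unit_La, unit_La, unit_La, not_not, not_not, not_not, map_sub, map_add, map_one]
  exact wO_or _

theorem lb_max {f : La} : f ∈ IsLocalRing.maximalIdeal La ↔ wO ∣ constantCoeff f := by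
  rw [IsLocalRing.mem_maximalIdeal, mem_nonunits_iff, unit_La, not_not]

theorem lb_two : (3 : Ow) = wO * (wO * -1) := by
  rw [← mul_assoc, ← sq, wO_sq, neg_mul_neg, mul_one]

theorem lb_le_pow (j : ℕ) : aa j ≤ IsLocalRing.maximalIdeal La ^ (j + 1) := by
  rw [aa, Ideal.span_le]
  rintro _ (rfl | rfl) <;> refine Ideal.pow_mem_pow (lb_max.2 ?_) _
  · rw [map_ofNat]
    exact ⟨_, lb_two⟩
  · rw [constantCoeff_X]
    exact dvd_zero _

theorem aa_le (j : ℕ) : aa j ≤ IsLocalRing.maximalIdeal La := by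
  exact (lb_le_pow j).trans (Ideal.pow_le_self j.succ_ne_zero)

theorem lb_ker (e : ℕ) (x : ℤ_[3]) : PadicInt.toZModPow e x = 0 ↔ (3 : ℤ_[3]) ^ e ∣ x := by
  rw [← RingHom.mem_ker, PadicInt.ker_toZModPow, Ideal.mem_span_singleton, Nat.cast_ofNat]

theorem lb_fin (k : ℕ) : Finite (La ⧸ aa k) := by
  let φ : La →+ (Fin (k + 1) → ZMod (3 ^ (k + 1)) × ZMod (3 ^ (k + 1))) :=
    { toFun := fun f n => (PadicInt.toZModPow (k + 1) (coeff n f).re,
        PadicInt.toZModPow (k + 1) (coeff n f).im)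
      map_zero' := by ext <;> simp
      map_add' := fun f g => by ext <;> simp }
  have hk : φ.ker = (aa k).toAddSubgroup := by
    ext f
    rw [AddMonoidHom.mem_ker, Submodule.mem_toAddSubgroup, mem_aa, funext_iff]
    have : ∀ n : Fin (k + 1), φ f n = 0 ↔ (3 : Ow) ^ (k + 1) ∣ coeff n f := fun n => by
      rw [two_pow_dvd_Ow, ← lb_ker, ← lb_ker]
      exact Prod.ext_iff
    exact ⟨fun h n hn => (this ⟨n, by omega⟩).1 (h _),
      fun h n => (this n).2 (h n (Nat.le_of_lt_succ n.2))⟩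
  exact Finite.of_injective _ ((QuotientAddGroup.kerLift_injective φ).comp
    (QuotientAddGroup.quotientAddEquivOfEq hk.symm).injective)

theorem lb_unit {J : Ideal La} (hJ : J ≠ ⊤) {f : La} :
    IsUnit (Ideal.Quotient.mk J f) ↔ IsUnit f := by
  have := Ideal.Quotient.nontrivial_iff.2 hJ
  have := IsLocalHom.of_surjective _ (Ideal.Quotient.mk_surjective (I := J))
  exact isUnit_map_iff _ f

theorem lo2_of {J : Ideal La} {k : ℕ} (h : aa k ≤ J) (hJ : J ≠ ⊤) : Lo2 (La ⧸ J) := by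
  have := lb_fin k
  have := Ideal.Quotient.nontrivial_iff.2 hJ
  refine ⟨Finite.of_surjective _ (Ideal.Quotient.factor_surjective h),
    .of_surjective' _ Ideal.Quotient.mk_surjective, fun x => ?_, ?_⟩
  · obtain ⟨f, rfl⟩ := Ideal.Quotient.mk_surjective x
    rw [← map_one (Ideal.Quotient.mk J), ← map_sub, ← map_add, lb_unit hJ, lb_unit hJ, lb_unit hJ]
    exact res_La f
  · rw [← map_ofNat (Ideal.Quotient.mk J) 3, lb_unit hJ, unit_La, not_not, map_ofNat]
    exact la_two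

theorem sup_ne_top {I : Ideal La} (h : I ≠ ⊤) (j : ℕ) : I ⊔ aa j ≠ ⊤ := by
  exact ne_top_of_le_ne_top (IsLocalRing.maximalIdeal.isMaximal La).ne_top
    (sup_le (IsLocalRing.le_maximalIdeal h) (aa_le j))

instance lo2_aa (k : ℕ) : Lo2 (La ⧸ aa k) :=
  lo2_of le_rfl fun h => (IsLocalRing.maximalIdeal.isMaximal La).ne_top (top_unique (h ▸ aa_le k))

theorem unit_mk {J : Ideal La} (hJ : J ≠ ⊤) {f : La} :
    IsUnit (Ideal.Quotient.mk J f) ↔ IsUnit f := by
  exact lb_unit hJ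

/-- The reduction of the integers modulo a power of three. -/
noncomputable def fz {R : Type} [CommRing R] {e : ℕ} (h : (3 : R) ^ e = 0) : ZMod (3 ^ e) →+* R :=
  ZMod.castHom (ringChar.dvd (by simpa using h)) R

theorem hom_val {R : Type} [CommRing R] {e : ℕ} (f : ZMod (3 ^ e) →+* R) (a : ZMod (3 ^ e)) :
    f a = (a.val : R) := by
  rw [← map_natCast f, ZMod.natCast_zmod_val]

theorem two_pow_zero {J : Ideal La} {k : ℕ} (h : aa k ≤ J) : (3 : La ⧸ J) ^ (k + 1) = 0 := by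
  rw [← map_ofNat (Ideal.Quotient.mk J) 3, ← map_pow, Ideal.Quotient.eq_zero_iff_mem]
  exact h (two_pow_mem k)

/-- The image of a three-adic integer. -/
theorem mk_padic {J : Ideal La} {e : ℕ} (f : ZMod (3 ^ e) →+* La ⧸ J) (x : ℤ_[3]) :
    Ideal.Quotient.mk J (C (algebraMap ℤ_[3] Ow x)) = f (PadicInt.toZModPow e x) := by
  obtain ⟨y, hy⟩ := (lb_ker e (x - (PadicInt.toZModPow e x).val)).1 (by
    rw [map_sub, map_natCast, ZMod.natCast_zmod_val, sub_self])
  have h2 : (3 : La ⧸ J) ^ e = 0 := by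
    have := congrArg f (ZMod.natCast_self (3 ^ e))
    rwa [map_natCast, map_zero, Nat.cast_pow, Nat.cast_ofNat] at this
  have h3 := congrArg (fun t => Ideal.Quotient.mk J (C (algebraMap ℤ_[3] Ow t))) hy
  simp only [map_sub, map_mul, map_pow, map_ofNat, map_natCast, h2, zero_mul] at h3
  rw [hom_val, sub_eq_zero.1 h3]

theorem closedI (I : Ideal La) {x : La} (h : ∀ j, x ∈ I ⊔ aa j) : x ∈ I := by
  rw [← Submodule.Quotient.mk_eq_zero, ← Submodule.mem_bot La,
    ← Ideal.iInf_pow_smul_eq_bot_of_isLocalRing _ (IsLocalRing.maximalIdeal.isMaximal La).ne_top,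
    Submodule.mem_iInf]
  intro j
  have h0 : x ∈ I ⊔ aa j • ⊤ := by
    rw [smul_eq_mul, Ideal.mul_top]
    exact h j
  have h1 := Submodule.mem_map_of_mem (f := I.mkQ) h0
  rw [Submodule.map_sup, Submodule.mkQ_map_self, bot_sup_eq, Submodule.map_smul''] at h1
  exact Submodule.smul_mono ((lb_le_pow j).trans (Ideal.pow_le_pow_right j.le_succ)) le_top h1

theorem ul_spec (y : ℕ → La) (j : ℕ) : ∀ᶠ k in UU, y k - ul y ∈ aa j := by
  have h : ∀ n, ∀ᶠ k in UU, (3 : Ow) ^ (j + 1) ∣ coeff n (y k - ul y) := fun n =>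
    (ulO_spec (fun k => coeff n (y k)) (j + 1)).mono fun k hk => by
      rwa [map_sub, ul, coeff_mk]
  exact ((eventually_all_finite (Set.finite_le_nat j)).2 fun n _ => h n).mono
    fun k hk => mem_aa.2 hk

theorem ul_eq {y : ℕ → La} {a : La} (h : ∀ j, ∀ᶠ k in UU, y k - a ∈ aa j) : ul y = a := by
  refine sub_eq_zero.1 (closedI ⊥ fun j => ?_)
  obtain ⟨k, h1, h2⟩ := ((h j).and (ul_spec y j)).exists
  rw [bot_sup_eq, show ul y - a = (y k - a) - (y k - ul y) by ring]
  exact sub_mem h1 h2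

theorem ul_const (a : La) : ul (fun _ => a) = a := by
  exact ul_eq fun j => Eventually.of_forall fun k => by simp

theorem ul_add (y z : ℕ → La) : ul (fun k => y k + z k) = ul y + ul z := by
  refine ul_eq fun j => ((ul_spec y j).and (ul_spec z j)).mono fun k hk => ?_
  rw [add_sub_add_comm]
  exact add_mem hk.1 hk.2

theorem ul_mul (y z : ℕ → La) : ul (fun k => y k * z k) = ul y * ul z := by
  refine ul_eq fun j => ((ul_spec y j).and (ul_spec z j)).mono fun k hk => ?_
  rw [show y k * z k - ul y * ul z = z k * (y k - ul y) + ul y * (z k - ul z) by ring]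
  exact add_mem (Ideal.mul_mem_left _ _ hk.1) (Ideal.mul_mem_left _ _ hk.2)

/-- The limit as a homomorphism of rings. -/
noncomputable def ulH : (ℕ → La) →+* La where
  toFun := ul
  map_one' := ul_const 1
  map_zero' := ul_const 0
  map_add' := ul_add
  map_mul' := ul_mul

theorem ulH_apply (y : ℕ → La) : ulH y = ul y := rfl

theorem ul_sub (y z : ℕ → La) : ul (fun k => y k - z k) = ul y - ul z := map_sub ulH y z

theorem ul_neg (y : ℕ → La) : ul (fun k => -y k) = -ul y := map_neg ulH y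

theorem ul_sum {ι : Type} (s : Finset ι) (y : ι → ℕ → La) :
    ul (fun k => ∑ i ∈ s, y i k) = ∑ i ∈ s, ul (y i) := by
  exact (congrArg ul (Finset.sum_fn s y).symm).trans (map_sum ulH y s)

theorem ul_prod {ι : Type} (s : Finset ι) (y : ι → ℕ → La) :
    ul (fun k => ∏ i ∈ s, y i k) = ∏ i ∈ s, ul (y i) := by
  exact (congrArg ul (Finset.prod_fn s y).symm).trans (map_prod ulH y s)

theorem ul_mem_iff {I : Ideal La} {y : ℕ → La} :
    ul y ∈ I ↔ ∀ j, ∀ᶠ k in UU, y k ∈ I ⊔ aa j := by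
  refine ⟨fun h j => (ul_spec y j).mono fun k hk => ?_, fun h => closedI I fun j => ?_⟩
  · rw [← add_sub_cancel (ul y) (y k)]
    exact add_mem (Submodule.mem_sup_left h) (Submodule.mem_sup_right hk)
  · obtain ⟨k, h1, h2⟩ := ((h j).and (ul_spec y j)).exists
    rw [← sub_sub_cancel (y k) (ul y)]
    exact sub_mem h1 (Submodule.mem_sup_right h2)

theorem ul_congr {y z : ℕ → La} (h : ∀ᶠ k in UU, y k - z k ∈ aa k) : ul y = ul z := by
  refine ul_eq fun j => ((h.and (ev_ge j)).and (ul_spec z j)).mono fun k hk => ?_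
  rw [← sub_add_sub_cancel (y k) (z k)]
  exact add_mem (aa_anti hk.1.2 hk.1.1) hk.2

theorem ul_unit {y : ℕ → La} (h : ∀ᶠ k in UU, IsUnit (y k)) : IsUnit (ul y) := by
  by_contra c
  obtain ⟨k, h1, h2⟩ := (h.and (ul_spec y 0)).exists
  have h3 := add_mem (aa_le 0 h2) ((IsLocalRing.mem_maximalIdeal _).2 c)
  rw [sub_add_cancel] at h3
  exact (IsLocalRing.mem_maximalIdeal _).1 h3 h1

theorem ul_C (y : ℕ → Ow) : ul (fun k => C (y k)) = C (ulO y) := by
  refine ul_eq fun j => (ulO_spec y (j + 1)).mono fun k ⟨c, hc⟩ => ?_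
  rw [← map_sub, hc, map_mul, ← lb_C2]
  exact Ideal.mul_mem_right _ _ (two_pow_mem j)

theorem lb_pow_le (k : ℕ) : IsLocalRing.maximalIdeal La ^ (2 * (k + 1) + (k + 1)) ≤ aa k := by
  have h : IsLocalRing.maximalIdeal La ≤ Ideal.span {ww} ⊔ Ideal.span {X} := fun f hf => by
    obtain ⟨c, hc⟩ := lb_max.1 hf
    rw [eq_X_mul_shift_add_const f, hc, map_mul]
    exact add_mem (Submodule.mem_sup_right (Ideal.mem_span_singleton.2 (dvd_mul_right _ _)))
      (Submodule.mem_sup_left (Ideal.mem_span_singleton.2 (dvd_mul_right _ _)))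
  refine (Ideal.pow_right_mono h _).trans (Ideal.sup_pow_add_le_pow_sup_pow.trans (sup_le ?_ ?_))
  · rw [Ideal.span_singleton_pow, Ideal.span_singleton_le_iff_mem, ww, ← map_pow, pow_mul, wO_sq,
      neg_pow, map_mul, ← lb_C2]
    exact Ideal.mul_mem_left _ _ (two_pow_mem k)
  · rw [Ideal.span_singleton_pow, Ideal.span_singleton_le_iff_mem]
    exact X_pow_mem k

/-- The order of `1 + X` at level `k`. -/
theorem exists_ord (k : ℕ) : ∃ s : ℕ, 2 ≤ s ∧ ∑ i ∈ Finset.range (3 ^ s), (1 + X : La) ^ i ∈ aa k := by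
  refine ⟨2 * (k + 1) + (k + 1), by omega, lb_pow_le k ?_⟩
  generalize 2 * (k + 1) + (k + 1) = s
  induction s with
  | zero => simp
  | succ s ih =>
    rw [pow_succ, pow_succ, show 3 ^ s * 3 = 3 ^ s + (3 ^ s + 3 ^ s) by ring, Finset.sum_range_add]
    simp only [pow_add]
    rw [← Finset.mul_sum, Finset.sum_range_add]
    simp only [pow_add]
    rw [← Finset.mul_sum, ← one_add_mul, ← mul_assoc, ← one_add_mul, mul_comm (1 + _)]
    refine Ideal.mul_mem_mul ih (lb_max.2 ?_)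
    simp only [map_add, map_mul, map_pow, map_one, constantCoeff_X, add_zero, one_pow, one_mul]
    rw [show (1 : Ow) + (1 + 1) = 3 by norm_num]
    exact la_two

end Pool.Agent.Lib.MP_696deb_nt.EV
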