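import Pool.Agent.Lib.MP_696deb_nt.EV.Lb

/-! Power series modulo the prime above three, and prime ideals. -/

set_option autoImplicit false

open scoped Classical
open Filter PowerSeries

namespace Pool.Agent.Lib.MP_696deb_nt.EV

theorem lc_dvd {f : La} : ww ∣ f ↔ ∀ n, wO ∣ coeff n f := by
  constructor
  · rintro ⟨g, rfl⟩ n
    rw [ww, coeff_C_mul]
    exact dvd_mul_right _ _
  · intro h
    choose c hc using h
    exact ⟨PowerSeries.mk c, PowerSeries.ext fun n => by rw [ww, coeff_C_mul, coeff_mk, hc]⟩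

theorem lc_res {a : Ow} : IsLocalRing.residue Ow a = 0 ↔ wO ∣ a := by
  rw [IsLocalRing.residue_eq_zero_iff, IsLocalRing.mem_maximalIdeal, mem_nonunits_iff, unit_iff_wO,
    not_not]

theorem lc_map {f : La} : f.map (IsLocalRing.residue Ow) = 0 ↔ ww ∣ f := by
  rw [lc_dvd, PowerSeries.ext_iff]
  exact forall_congr' fun n => by rw [coeff_map, map_zero, lc_res]

theorem prime_ww : Prime ww := by
  refine ⟨fun h => prime_wO.ne_zero (C_injective (h.trans (map_zero _).symm)),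
    fun h => unit_La.1 h (by rw [ww, constantCoeff_C]), fun a b h => ?_⟩
  rwa [← lc_map, map_mul, mul_eq_zero, lc_map, lc_map] at h

theorem lc_tu {n : ℕ} {f : La} : Tu n f ↔ ¬ wO ∣ coeff n f ∧ ∀ i < n, wO ∣ coeff i f := by
  constructor
  · rintro ⟨u, g, hu, rfl⟩
    have hg := lc_dvd.1 (dvd_mul_right ww g)
    refine ⟨?_, fun i hi => ?_⟩
    · rw [map_add, dvd_add_left (hg n), coeff_X_pow_mul', if_pos le_rfl, Nat.sub_self,
        coeff_zero_eq_constantCoeff_apply]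
      exact unit_La.1 hu
    · rw [map_add, coeff_X_pow_mul', if_neg hi.not_ge, zero_add]
      exact hg i
  · rintro ⟨h1, h2⟩
    choose! c hc using h2
    obtain ⟨u, hu⟩ : (X : La) ^ n ∣ f - ww * PowerSeries.mk c := X_pow_dvd_iff.2 fun i hi => by
      rw [map_sub, ww, coeff_C_mul, coeff_mk, hc i hi, sub_self]
    refine ⟨u, PowerSeries.mk c, unit_La.2 fun h => h1 ?_, by rw [← hu, sub_add_cancel]⟩
    rw [sub_eq_iff_eq_add.1 hu, map_add, coeff_X_pow_mul', if_pos le_rfl, Nat.sub_self,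
      coeff_zero_eq_constantCoeff_apply]
    exact dvd_add h (lc_dvd.1 (dvd_mul_right ww _) n)

theorem lc_order {n : ℕ} {f : La} : Tu n f ↔ (f.map (IsLocalRing.residue Ow)).order = n := by
  simp only [lc_tu, order_eq_nat, coeff_map, Ne, lc_res]

theorem Tu.mul {m n : ℕ} {f g : La} (h : Tu m f) (k : Tu n g) : Tu (m + n) (f * g) := by
  rw [lc_order] at h k ⊢
  rw [map_mul, order_mul, h, k, Nat.cast_add]

theorem Tu.unit {u : La} (h : IsUnit u) : Tu 0 u := ⟨u, 0, h, by simp⟩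

theorem tu_X : Tu 1 X := ⟨1, 0, isUnit_one, by simp⟩

theorem Tu.add {n : ℕ} {f g : La} (h : Tu n f) (k : ww ∣ g) : Tu n (f + g) := by
  obtain ⟨u, a, hu, rfl⟩ := h
  obtain ⟨b, rfl⟩ := k
  exact ⟨u, a + b, hu, by ring⟩

theorem Tu.neg {n : ℕ} {f : La} (h : Tu n f) : Tu n (-f) := by
  obtain ⟨u, a, hu, rfl⟩ := h
  exact ⟨-u, -a, hu.neg, by ring⟩

theorem Tu.prod {ι : Type} (s : Finset ι) {f : ι → La} (h : ∀ i ∈ s, Tu 1 (f i)) :
    Tu s.card (∏ i ∈ s, f i) := by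
  induction s using Finset.induction_on with
  | empty => exact Tu.unit isUnit_one
  | insert a s ha ih =>
    rw [Finset.prod_insert ha, Finset.card_insert_of_notMem ha, add_comm]
    exact (h a (Finset.mem_insert_self _ _)).mul (ih fun i hi => h i (Finset.mem_insert_of_mem hi))

theorem Tu.not_dvd {n : ℕ} {f : La} (h : Tu n f) : ¬ ww ∣ f :=
  fun k => (lc_tu.1 h).1 (lc_dvd.1 k n)

theorem Tu.cancel {m n : ℕ} {f g : La} (h : Tu (m + n) (f * g)) (k : Tu n g) : Tu m f := by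
  rw [lc_order] at h k ⊢
  rw [map_mul, order_mul, k, Nat.cast_add] at h
  exact ENat.add_left_injective_of_ne_top (ENat.natCast_ne_top n) h

theorem Tu.isUnit {f : La} (h : Tu 0 f) : IsUnit f :=
  unit_La.2 (by simpa using (lc_tu.1 h).1)

theorem tu_ul {n : ℕ} {y : ℕ → La}
    (h : ∀ᶠ k in UU, ∃ u, IsUnit u ∧ y k - X ^ n * u ∈ Ideal.span {ww} ⊔ aa k) : Tu n (ul y) := by
  obtain ⟨k, ⟨⟨u, hu, h1⟩, h2⟩, h3⟩ := ((h.and (ev_ge n)).and (ul_spec y n)).exists
  have h4 : ul y - X ^ n * u ∈ Ideal.span {ww} ⊔ aa n := by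
    rw [show ul y - X ^ n * u = (y k - X ^ n * u) - (y k - ul y) by ring]
    exact sub_mem (sup_le_sup_left (aa_anti h2) _ h1) (Submodule.mem_sup_right h3)
  obtain ⟨a, ha, b, hb, e⟩ := Submodule.mem_sup.1 h4
  have h5 : ∀ i ≤ n, wO ∣ coeff i (ul y) - coeff i (X ^ n * u) := fun i hi => by
    rw [← map_sub, ← e, map_add]
    exact dvd_add (lc_dvd.1 (Ideal.mem_span_singleton.1 ha) i)
      ((la_two.trans (dvd_pow_self _ n.succ_ne_zero)).trans (mem_aa.1 hb i hi))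
  obtain ⟨h6, h7⟩ := lc_tu.1 (show Tu n (X ^ n * u) from ⟨u, 0, hu, by simp⟩)
  exact lc_tu.2 ⟨fun k => h6 ((dvd_sub_right k).1 (h5 n le_rfl)),
    fun i hi => (dvd_sub_left (h7 i hi)).1 (h5 i hi.le)⟩

theorem odd_pow_sub {R : Type} [CommRing R] [IsLocalRing R] {t : R} (ht : ¬ IsUnit t)
    (h2 : ¬ IsUnit (3 : R)) {n : ℕ} (hn : ¬ 3 ∣ n) :
    ∃ u, IsUnit u ∧ (1 + t) ^ n - 1 = t * u := by
  have h3 := mul_geom_sum (1 + t) n
  rw [add_sub_cancel_left] at h3
  refine ⟨_, (IsLocalRing.residue_ne_zero_iff_isUnit _).1 ?_, h3.symm⟩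
  have h4 : IsLocalRing.residue R t = 0 :=
    not_not.1 fun e => ht ((IsLocalRing.residue_ne_zero_iff_isUnit _).1 e)
  have h5 : IsLocalRing.residue R 3 = 0 :=
    not_not.1 fun e => h2 ((IsLocalRing.residue_ne_zero_iff_isUnit _).1 e)
  rw [map_ofNat] at h5
  simp only [map_sum, map_pow, map_add, map_one, h4, add_zero, one_pow, Finset.sum_const,
    Finset.card_range, nsmul_eq_mul, mul_one]
  intro h6
  obtain ⟨a, b, e⟩ := Nat.isCoprime_iff_coprime.2 ((Nat.prime_three.coprime_iff_not_dvd).2 hn)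
  have h7 := congrArg (Int.cast : ℤ → IsLocalRing.ResidueField R) e
  push_cast at h7
  rw [h5, h6, mul_zero, mul_zero, add_zero] at h7
  exact zero_ne_one h7

/-- A series of degree one has a zero. -/
theorem Tu.exists_ev {c : La} (h : Tu 1 c) :
    ∃ ev : La →+* Ow, (∀ a, ev (C a) = a) ∧ ev c = 0 := by
  have hc : c.map (IsLocalRing.residue Ow) ≠ 0 := fun e => h.not_dvd (lc_map.1 e)
  have ho : (c.map (Ideal.Quotient.mk (IsLocalRing.maximalIdeal Ow))).order.toNat = 1 :=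
    congrArg ENat.toNat (lc_order.1 h)
  let φ : Ow →+* La ⧸ Ideal.span {c} := (Ideal.Quotient.mk _).comp C
  have hφ : Function.Bijective φ := by
    refine ⟨(injective_iff_map_eq_zero φ).2 fun a ha => ?_, fun x => ?_⟩
    · obtain ⟨q, hq⟩ := Ideal.mem_span_singleton.1 (Ideal.Quotient.eq_zero_iff_mem.1 ha)
      have H : IsWeierstrassDivision 0 c (-q) (Polynomial.C a) := ⟨by
        rw [ho]
        exact Polynomial.degree_C_lt, by rw [Polynomial.coe_C, hq, mul_neg, neg_add_cancel]⟩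
      exact Polynomial.C_eq_zero.1 (H.eq_zero hc).2
    · obtain ⟨f, rfl⟩ := Ideal.Quotient.mk_surjective x
      obtain ⟨q, r, h1, h2⟩ := exists_isWeierstrassDivision f hc
      rw [ho] at h1
      refine ⟨r.coeff 0, Ideal.Quotient.eq.2 (Ideal.mem_span_singleton.2 ⟨-q, ?_⟩)⟩
      rw [Polynomial.eq_C_of_degree_le_zero (Nat.WithBot.lt_one_iff_le_zero.1 h1),
        Polynomial.coe_C] at h2
      rw [h2]
      ring
  let e := RingEquiv.ofBijective φ hφ
  refine ⟨e.symm.toRingHom.comp (Ideal.Quotient.mk _), fun a => e.symm_apply_apply a, ?_⟩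
  rw [RingHom.comp_apply, Ideal.Quotient.eq_zero_iff_mem.2 (Ideal.mem_span_singleton_self c),
    map_zero]

theorem lc_sq : ww ^ 2 = -3 := by
  rw [ww, ← map_pow, wO_sq, map_neg, map_ofNat]

theorem lc_ww : (3 : La) ∣ ww ^ 2 := by
  rw [lc_sq]
  exact dvd_neg.2 dvd_rfl

theorem pr_bot : Pr ⊥ :=
  ⟨Ideal.isPrime_bot, fun h => pow_ne_zero 2 prime_ww.ne_zero
    (zero_dvd_iff.1 ((Ideal.mem_bot.1 h) ▸ lc_ww))⟩

theorem pr_X : Pr (Ideal.span {X}) := by
  refine ⟨span_X_isPrime, fun h => ?_⟩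
  have h1 := X_dvd_iff.1 (Ideal.mem_span_singleton.1 h)
  rw [map_ofNat] at h1
  exact pow_ne_zero 2 prime_wO.ne_zero (by rw [wO_sq, h1, neg_zero])

theorem pr_span {P : La} (h : Prime P) (k : ¬ P ∣ ww) : Pr (Ideal.span {P}) :=
  ⟨(Ideal.span_singleton_prime h.ne_zero).2 h, fun e =>
    k (h.dvd_of_dvd_pow ((Ideal.mem_span_singleton.1 e).trans lc_ww))⟩

theorem Pr.ne_top {I : Ideal La} (h : Pr I) : I ≠ ⊤ := h.1.ne_top

theorem Pr.C_notMem {I : Ideal La} (h : Pr I) {a : Ow} (ha : a ≠ 0) : C a ∉ I := by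
  obtain ⟨n, u, hu, rfl⟩ := exists_wO_pow ha
  intro k
  rw [map_mul, map_pow, Ideal.mul_unit_mem_iff_mem _ (hu.map C)] at k
  refine h.2 ?_
  rw [← neg_mem_iff, ← lc_sq, sq]
  exact Ideal.mul_mem_right _ _ (h.1.mem_of_pow_mem n k)

theorem Pr.lo2 {I : Ideal La} (h : Pr I) (j : ℕ) : Lo2 (La ⧸ (I ⊔ aa j)) :=
  lo2_of le_sup_right (sup_ne_top h.ne_top j)

theorem mem_span_X {f : La} : f ∈ Ideal.span {(X : La)} ↔ constantCoeff f = 0 := by
  rw [Ideal.mem_span_singleton, X_dvd_iff]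

theorem mem_X_sup {j : ℕ} {f : La} :
    f ∈ Ideal.span {(X : La)} ⊔ aa j ↔ (3 : Ow) ^ (j + 1) ∣ constantCoeff f := by
  constructor
  · intro h
    obtain ⟨a, ha, b, hb, rfl⟩ := Submodule.mem_sup.1 h
    rw [map_add, mem_span_X.1 ha, zero_add, ← coeff_zero_eq_constantCoeff_apply]
    exact mem_aa.1 hb 0 j.zero_le
  · rintro ⟨c, hc⟩
    rw [eq_X_mul_shift_add_const f, hc, map_mul, ← lb_C2]
    exact add_mem (Submodule.mem_sup_left (Ideal.mem_span_singleton.2 (dvd_mul_right _ _)))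
      (Submodule.mem_sup_right (Ideal.mul_mem_right _ _ (two_pow_mem j)))

end Pool.Agent.Lib.MP_696deb_nt.EV
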