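import Pool.Agent.Lib.MP_696deb_nt.EV.Det

/-! The abstract data of the limit argument. -/

set_option autoImplicit false

open scoped Classical NNReal
open Finset Matrix PowerSeries

namespace Pool.Agent.Lib.MP_696deb_nt.EV

/-- Indices of the primes at stage `n`. -/
def Jx (κ : Type) : ℕ → Type
  | 0 => Option κ
  | n + 1 => Option (Jx κ n)

instance Jx.fintype (κ : Type) [Fintype κ] : ∀ n, Fintype (Jx κ n)
  | 0 => inferInstanceAs (Fintype (Option κ))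
  | n + 1 => @instFintypeOption _ (Jx.fintype κ n)

/-- The primes that were added. -/
def Jx.deep {κ : Type} : ∀ {n : ℕ}, Jx κ n → Prop
  | 0, _ => False
  | _ + 1, none => True
  | _ + 1, some i => Jx.deep i

theorem Jx.card (κ : Type) [Fintype κ] (n : ℕ) :
    Fintype.card (Jx κ n) = Fintype.card κ + 1 + n := by
  induction n with
  | zero => exact Fintype.card_option
  | succ n ih => exact Fintype.card_option.trans (by rw [ih]; rfl)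

section

variable {Γ ι : Type} [Group Γ] [Fintype ι]

/-- Commutators. -/
def cmt {Γ : Type} [Group Γ] (a b : Γ) : Γ := a * b * a⁻¹ * b⁻¹

/-- The tame relation as a linear form. -/
noncomputable def relR (ρ : Γ →* La) (gen : ι ⊕ Fin 2 → Γ) (φ : ι → Γ) (L : Γ → ι ⊕ Fin 2 → La)
    (i : ι) (j : ι ⊕ Fin 2) : La :=
  (ρ (gen (.inl i)) - 1) * L (φ i) j - (ρ (φ i) - 1) * (Pi.single (.inl i) 1 : ι ⊕ Fin 2 → La) j

/-- The presentation of the modules of cocycles. -/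
structure Pres (ρ : Γ →* La) (gen : ι ⊕ Fin 2 → Γ) (φ : ι → Γ) (L : Γ → ι ⊕ Fin 2 → La)
    (Z : Ideal La → Submodule La (Γ → La)) : Prop where
  coc : ∀ I, ∀ c ∈ Z I, ∀ g h, c (g * h) - (c g + ρ g * c h) ∈ I
  cob : ∀ I, (fun g => ρ g - 1) ∈ Z I
  mono : ∀ I, Z ⊥ ≤ Z I
  val : ∀ I, Pr I → ∀ c ∈ Z I, ∀ g, c g - (L g ⬝ᵥ fun j => c (gen j)) ∈ I
  rel : ∀ I, Pr I → ∀ c ∈ Z I, ∀ i,
    (ρ (gen (.inl i)) - 1) * c (φ i) - (ρ (φ i) - 1) * c (gen (.inl i)) ∈ I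
  ex : ∀ I, Pr I → ∀ x : ι ⊕ Fin 2 → La, (∀ i, relR ρ gen φ L i ⬝ᵥ x ∈ I) →
    ∃ c ∈ Z I, ∀ j, c (gen j) - x j ∈ I

end

/-- The data. -/
structure Dat (Γ κ : Type) [Group Γ] where
  ρ : Bool → Γ →* La
  g0 : Γ
  e : Fin 4 → Γ
  St : ℕ → Type
  gen : ∀ {n : ℕ}, St n → Jx κ n ⊕ Fin 2 → Γ
  φ : ∀ {n : ℕ}, St n → Jx κ n → Γ
  L : ∀ {n : ℕ}, St n → Bool → Γ → Jx κ n ⊕ Fin 2 → La
  Z : ∀ {n : ℕ}, St n → Bool → Ideal La → Submodule La (Γ → La)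
  u : ∀ {n : ℕ}, St n → Jx κ n → La
  N : ∀ {n : ℕ}, St n → Subgroup Γ
  kap : ∀ {n : ℕ}, St n → Bool → Γ → La
  W : Ideal La → Submodule La (Fin 4 → La)
  s0 : St 0
  F : Bool → Γ → La
  cc : Bool → La
  k : Fin 4 → La

namespace Dat

variable {Γ κ : Type} [Group Γ] [Fintype κ] (D : Dat Γ κ)

/-- The stage `s'` has one more prime than `s`. -/
structure Ext {n : ℕ} (s : D.St n) (s' : D.St (n + 1)) : Prop where
  gen : ∀ j, D.gen s' (old j) = D.gen s j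
  φ : ∀ i, D.φ s' (some i) = D.φ s i
  L : ∀ g j, D.L s' true g (old j) = D.L s true g j
  le : ∀ b I, D.Z s b I ≤ D.Z s' b I
  zero : ∀ b I, ∀ c ∈ D.Z s b I, c (D.gen s' (.inl none)) ∈ I
  unr : ∀ b I, Pr I → ∀ c ∈ D.Z s' b I, c (D.gen s' (.inl none)) ∈ I → c ∈ D.Z s b I
  kap : ∀ b, D.kap s' b (D.gen s' (.inl none)) = -D.kap s b (D.φ s' none)

/-- The matrix of relations. -/
noncomputable def B {n : ℕ} (s : D.St n) : Matrix (Jx κ n) (Jx κ n ⊕ Fin 2) La := fun i =>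
  if i.deep then D.L s true (D.φ s i) else relR (D.ρ true) (D.gen s) (D.φ s) (D.L s true) i

/-- The rigidified cocycle. -/
noncomputable def hat (b : Bool) (c : Γ → La) (g : Γ) : La :=
  (D.ρ b D.g0 - 1) * c g - (D.ρ b g - 1) * c D.g0

/-- The values at three lie in the span of the coboundaries and the local points. -/
def Km (c : Γ → La) : Prop := ∃ d x y : La, d ∉ Ideal.span {(X : La)} ∧
  ∀ i, d * c (D.e i) - (x * (D.ρ false (D.e i) - 1) + y * D.k i) ∈ Ideal.span {(X : La)}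

/-- The kernel of the matrix of relations has rank at least `m` modulo `I`. -/
def Zr {n : ℕ} (s : D.St n) (I : Ideal La) (m : ℕ) : Prop :=
  ∃ x : Fin m → Jx κ n ⊕ Fin 2 → La, Indep I x ∧ ∀ i j, (D.B s *ᵥ x i) j ∈ I

/-- Cocycles that vanish at the Frobenius elements of the primes that were added. -/
def Tr {n : ℕ} (s : D.St n) (I : Ideal La) (c : Γ → La) : Prop :=
  ∀ i : Jx κ n, i.deep → c (D.φ s i) ∈ I

/-- Two cocycles that are independent modulo coboundaries. -/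
def Two (b : Bool) (I : Ideal La) (c c' : Γ → La) : Prop :=
  ∀ t t' : La, (∀ g, t * D.hat b c g + t' * D.hat b c' g ∈ I) → t ∈ I ∧ t' ∈ I

/-- The properties. -/
structure Ok : Prop where
  vp : ∀ b I, Pr I → D.ρ b D.g0 - 1 ∉ I
  ne : ∀ I, Pr I → ∃ i, D.ρ false (D.e i) - 1 ∉ I
  pres : ∀ {n : ℕ} (s : D.St n) (b : Bool), Pres (D.ρ b) (D.gen s) (D.φ s) (D.L s b) (D.Z s b)
  deep : ∀ {n : ℕ} (s : D.St n) (b : Bool) (i : Jx κ n), i.deep →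
    D.ρ b (D.φ s i) = 1 ∧ D.ρ b (D.gen s (.inl i)) = 1
  W_mem : ∀ {n : ℕ} (s : D.St n) (I : Ideal La), ∀ c ∈ D.Z s false I, (fun i => c (D.e i)) ∈ D.W I
  lw : ∀ I, Pr I → ∀ d ∉ I, ¬ ∀ y : Fin 4 → La, ∃ v ∈ D.W I, ∀ i, v i - d * y i ∈ I
  unit : ∀ {n : ℕ} (s : D.St n) (i : Jx κ n), i.deep → IsUnit (D.u s i)
  recip : ∀ I, Pr I → ∀ {n : ℕ} (s : D.St n), ∀ c ∈ D.Z s true I, ∀ c' ∈ D.Z s false I,
    (∀ i, c' (D.e i) ∈ I) → ∑ i : Jx κ n with i.deep, D.u s i *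
      (c' (D.φ s i) * c (D.gen s (.inl i)) - c' (D.gen s (.inl i)) * c (D.φ s i)) ∈ I
  N_ρ : ∀ {n : ℕ} (s : D.St n) (b : Bool), ∀ x ∈ D.N s, D.ρ b x = 1
  comm : ∀ {n : ℕ} (s : D.St n) (g : Γ), cmt D.g0 (cmt D.g0 g) ∈ D.N s
  step : ∀ {n : ℕ} (s : D.St n), ∀ x ∈ D.N s, ∀ (m : ℕ) (c : Fin m → Γ → La) (b : Fin m → Bool)
    (J : Fin m → Ideal La), (∀ i, Pr (J i) ∧ c i ∈ D.Z s (b i) (J i)) →
    ∃ (s' : D.St (n + 1)) (t : La), D.Ext s s' ∧ IsUnit t ∧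
      ∀ i, c i (D.φ s' none) - t * c i x ∈ J i
  kap_mem : ∀ {n : ℕ} (s : D.St n) (b : Bool), D.kap s b ∈ D.Z s true ⊥
  kap_φ : ∀ {n : ℕ} (s : D.St n) (b : Bool) (i : Jx κ n), i.deep → D.kap s b (D.φ s i) = 0
  F_mem : ∀ b, D.F b ∈ D.Z D.s0 true ⊥
  kap0 : ∀ b g, D.kap D.s0 b g = D.hat true (D.F b) g
  σ_w : ∀ i : κ, ww ∣ D.ρ true (D.gen D.s0 (.inl (some i))) - 1
  φ_T : ∀ i : κ, Tu 1 (D.ρ true (D.φ D.s0 (some i)) - 1)
  σ_lam : D.ρ true (D.gen D.s0 (.inl none)) = 1 + X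
  L_lam : IsUnit (D.L D.s0 true (D.φ D.s0 none) (.inr 1))
  gi_w : ww ∣ D.ρ true (D.gen D.s0 (.inr 0)) - 1
  F_T : Tu (Fintype.card κ + 1) (D.F true (D.gen D.s0 (.inr 0)))
  sym : ∃ x, ∀ g, D.cc false * D.F true g - D.cc true * D.F false g = (D.ρ true g - 1) * x
  cc_T : Tu 1 (D.cc true)
  cc_0 : constantCoeff (D.cc true) ≠ 0
  cc_ev : ∀ ev : La →+* Ow, (∀ a, ev (C a) = a) → ev (D.cc false) ≠ 0
  k_mem : D.k ∈ D.W (Ideal.span {X})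
  ind : ∀ x y : La, (∀ i, x * (D.ρ false (D.e i) - 1) + y * D.k i ∈ Ideal.span {(X : La)}) →
    y ∈ Ideal.span {(X : La)}
  sel : ∀ c ∈ D.Z D.s0 false (Ideal.span {X}), D.Km c →
    ∀ g, D.hat false c g ∈ Ideal.span {(X : La)}
  erl : ∀ s : D.St 1, D.Ext D.s0 s → ∀ c ∈ D.Z s false (Ideal.span {X}), D.Km c →
    c (D.gen s (.inl none)) * D.F true (D.φ s none) ∈ Ideal.span {(X : La)}

end Dat

end Pool.Agent.Lib.MP_696deb_nt.EV
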