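import Pool.Agent.Lib.MP_696deb_nt.EV.P3
import Pool.Agent.Lib.MP_696deb_nt.EV.P4
import Pool.Agent.Lib.MP_696deb_nt.EV.P5
import Pool.Agent.Lib.MP_696deb_nt.EV.Lc
import Pool.Agent.Lib.MP_696deb_nt.EV.Sys

/-! Limits of cocycles: definitions. -/

set_option autoImplicit false

open scoped Classical NNReal
open Finset PowerSeries

namespace Pool.Agent.Lib.MP_696deb_nt.EV

/-- Sequences of automorphisms. -/
abbrev GG : Type := ℕ → G

/-- Reduction of a function. -/
noncomputable def md (J : Ideal La) (f : Gam → La) (g : Gam) : La ⧸ J := Ideal.Quotient.mk J (f g)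

/-- Reduction of linear forms. -/
noncomputable def mdL {ι : Type} (J : Ideal La) (L : Gam → ι → La) (g : Gam) (j : ι) : La ⧸ J :=
  Ideal.Quotient.mk J (L g j)

/-- A lift of a function. -/
noncomputable def lft {J : Ideal La} (c : Gam → La ⧸ J) (g : Gam) : La := Quotient.out (c g)

theorem md_lft {J : Ideal La} (c : Gam → La ⧸ J) : md J (lft c) = c :=
  funext fun g => Ideal.Quotient.mk_out (c g)

/-- The limit of a sequence of functions. -/
noncomputable def lim (c : ℕ → Gam → La) (g : GG) : La := ul fun k => c k (g k)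

variable {ι : Type} {t : ℕ → ι → TP} {ρ ρ' c c' : ℕ → Gam → La} {I J J' : Ideal La}

/-- Sequences that are global cocycles in the limit. -/
def LC (t : ℕ → ι → TP) (ρ : ℕ → Gam → La) (I : Ideal La) (c : ℕ → Gam → La) : Prop :=
  ∀ j, ∀ᶠ k in UU, Zc G (md (I ⊔ aa j) (ρ k)) (md (I ⊔ aa j) (c k)) ∧
    Unr (t k) (md (I ⊔ aa j) (c k))

/-- Sequences that are local cocycles in the limit. -/
def LW (ρ : ℕ → Gam → La) (I : Ideal La) (c : ℕ → Gam → La) : Prop :=
  ∀ j, ∀ᶠ k in UU, Zc Hw (md (I ⊔ aa j) (ρ k)) (md (I ⊔ aa j) (c k))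

section

variable {H : Subgroup Gam} {r f : Gam → La} {u : ι → TP}

theorem Zc.fac (h : Zc H (md J r) (md J f)) (k : J ≤ J') : Zc H (md J' r) (md J' f) :=
  h.map (Ideal.Quotient.factor k)

theorem Chr.fac (h : Chr (md J r)) (k : J ≤ J') : Chr (md J' r) := h.map (Ideal.Quotient.factor k)

theorem Adm.fac (h : Adm u (md J r)) (k : J ≤ J') : Adm u (md J' r) :=
  h.map (Ideal.Quotient.factor k)

theorem Val.fac [Fintype ι] {L : Gam → ι ⊕ Fin 2 → La} (h : Val u (md J r) (mdL J L)) (k : J ≤ J') :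
    Val u (md J' r) (mdL J' L) := h.map (Ideal.Quotient.factor k)

theorem Unr.fac (h : Unr u (md J f)) (k : J ≤ J') : Unr u (md J' f) := fun v hv σ hσ =>
  Ideal.Quotient.eq_zero_iff_mem.2 (k (Ideal.Quotient.eq_zero_iff_mem.1 (h v hv σ hσ)))

end

theorem aa_le_sup {j k : ℕ} (h : j ≤ k) (I : Ideal La) : aa k ≤ I ⊔ aa j :=
  (aa_anti h).trans le_sup_right

theorem LC.zero : LC t ρ I fun _ _ => 0 := fun _ => .of_forall fun _ =>
  ⟨⟨B2.Sm.const _, fun _ _ _ _ => by simp [md]⟩, fun _ _ _ _ => map_zero _⟩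

theorem LC.add (h : LC t ρ I c) (h' : LC t ρ I c') : LC t ρ I fun k g => c k g + c' k g := fun j =>
  ((h j).and (h' j)).mono fun _ hk => ⟨(hk.1.1.add hk.2.1).congr (fun _ _ => rfl) fun _ _ => map_add _ _ _,
    fun v hv σ hσ => (map_add _ _ _).trans
      ((congrArg₂ (· + ·) (hk.1.2 v hv σ hσ) (hk.2.2 v hv σ hσ)).trans (add_zero _))⟩

theorem LC.smul (h : LC t ρ I c) (a : La) : LC t ρ I fun k g => a * c k g := fun j =>
  (h j).mono fun _ hk => ⟨(hk.1.smul (Ideal.Quotient.mk _ a)).congr (fun _ _ => rfl)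
    fun _ _ => map_mul _ _ _, fun v hv σ hσ => (map_mul _ _ _).trans
      ((congrArg (_ * ·) (hk.2 v hv σ hσ)).trans (mul_zero _))⟩

theorem LW.zero : LW ρ I fun _ _ => 0 := fun _ => .of_forall fun _ =>
  ⟨B2.Sm.const _, fun _ _ _ _ => by simp [md]⟩

theorem LW.add (h : LW ρ I c) (h' : LW ρ I c') : LW ρ I fun k g => c k g + c' k g := fun j =>
  ((h j).and (h' j)).mono fun _ hk => (hk.1.add hk.2).congr (fun _ _ => rfl) fun _ _ => map_add _ _ _

theorem LW.smul (h : LW ρ I c) (a : La) : LW ρ I fun k g => a * c k g := fun j =>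
  (h j).mono fun _ hk => (hk.smul (Ideal.Quotient.mk _ a)).congr (fun _ _ => rfl)
    fun _ _ => map_mul _ _ _

/-- The module of limits of global cocycles. -/
noncomputable def ZL (t : ℕ → ι → TP) (ρ : ℕ → Gam → La) (I : Ideal La) :
    Submodule La (GG → La) where
  carrier := {f | ∃ c, LC t ρ I c ∧ f = lim c}
  zero_mem' := ⟨_, LC.zero, funext fun _ => (ul_const 0).symm⟩
  add_mem' := by
    rintro _ _ ⟨c, h, rfl⟩ ⟨c', h', rfl⟩
    exact ⟨_, h.add h', funext fun _ => (ul_add _ _).symm⟩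
  smul_mem' := by
    rintro a _ ⟨c, h, rfl⟩
    exact ⟨_, h.smul a, funext fun g => ((ul_mul _ _).trans (by rw [ul_const]; rfl)).symm⟩

/-- The module of the values of limits of local cocycles. -/
noncomputable def WL (ρ : ℕ → Gam → La) (I : Ideal La) : Submodule La (Fin 4 → La) where
  carrier := {v | ∃ c, LW ρ I c ∧ v = fun i => ul fun k => c k (ew i)}
  zero_mem' := ⟨_, LW.zero, funext fun _ => (ul_const 0).symm⟩
  add_mem' := by
    rintro _ _ ⟨c, h, rfl⟩ ⟨c', h', rfl⟩
    exact ⟨_, h.add h', funext fun _ => (ul_add _ _).symm⟩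
  smul_mem' := by
    rintro a _ ⟨c, h, rfl⟩
    exact ⟨_, h.smul a, funext fun g => ((ul_mul _ _).trans (by rw [ul_const]; rfl)).symm⟩

/-- The limit of a sequence of characters. -/
noncomputable def limH (ρ : ℕ → Gam → La) (h : ∀ k, Chr (md (aa k) (ρ k))) : GG →* La where
  toFun := lim ρ
  map_one' := (ul_congr (.of_forall fun k => Ideal.Quotient.eq.1 (h k).one)).trans (ul_const 1)
  map_mul' g g' := (ul_congr (.of_forall fun k => Ideal.Quotient.eq.1
    (((h k).mul _ (g k).2 _ (g' k).2).trans (map_mul _ _ _).symm))).trans (ul_mul _ _)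

/-- The generators. -/
noncomputable def genL (t : ℕ → ι → TP) (j : ι ⊕ Fin 2) : GG := fun k => ⟨gen (t k) j, gen_mem _ j⟩

/-- The Frobenius elements. -/
noncomputable def φL (t : ℕ → ι → TP) (i : ι) : GG := fun k => ⟨(t k i).φ, (t k i).φ_mem⟩

/-- The local elements. -/
noncomputable def ewL (i : Fin 4) : GG := fun _ => ⟨ew i, (ew_spec.1 i).1⟩

/-- The limit of linear forms. -/
noncomputable def LL (L : ℕ → Gam → ι → La) (g : GG) (j : ι) : La := ul fun k => L k (g k) j

/-- The limit of the local units. -/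
noncomputable def uL (t : ℕ → ι → TP) (i : ι) : La := ul fun k => ((du (k + 1) (t k i)).val : La)

/-- Dual sequences of characters. -/
structure Dual (ρ ρ' : ℕ → Gam → La) : Prop where
  chr : ∀ k, Chr (md (aa k) (ρ k))
  chr' : ∀ k, Chr (md (aa k) (ρ' k))
  mul : ∀ k, ∀ g ∈ G, ρ k g * ρ' k g - C (algebraMap ℤ_[3] Ow (cyc g)) ∈ aa k

/-- The structure map. -/
noncomputable def fa (k : ℕ) : ZMod (3 ^ (k + 1)) →+* La ⧸ aa k := fz (two_pow_zero le_rfl)

end Pool.Agent.Lib.MP_696deb_nt.EV
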