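import Pool.Agent.Lib.MP_696deb_nt.EV.T3
import Pool.Agent.Lib.MP_696deb_nt.EV.T2
import Pool.Agent.Lib.MP_696deb_nt.EV.LimA
import Pool.Agent.Lib.MP_696deb_nt.EV.Mw

/-! The tower modulo the prime above three. -/

set_option autoImplicit false

open scoped Classical NNReal
open Finset PowerSeries

namespace Pool.Agent.Lib.MP_696deb_nt.EV

theorem t6_phi {φ : O → O} (t : Tw) (hφ : Phi t.N φ) {m : O} (h0 : m ≠ 0)
    (hm : ((9 * t.N : ℕ) : O) ∣ m) (h3 : w ∣ m) (a : O) :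
    IsCoprime a m → CU.red (φ a * a) = 1 := by
  have u1 : ∀ j : ℕ, φ (CL.om ^ j) * CL.om ^ j = 1 := fun j => by
    induction j with
    | zero => rw [pow_zero, hφ.gch.one, one_mul]
    | succ j ih => rw [pow_succ, hφ.gch.mul, mul_mul_mul_comm, ih, hφ.gch.unit, one_mul]
  have u2 : ∀ u, IsUnit u → φ u * u = 1 := fun u hu => by
    obtain ⟨k, e | e⟩ := CL.nm_eq_one (EW.isUnit_iff.1 hu)
    · rw [e]
      exact u1 _
    · rw [e, ← neg_one_mul (CL.op k), hφ.gch.mul, hφ.gch.neg, mul_mul_mul_comm, neg_mul_neg, one_mul, one_mul]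
      exact u1 _
  induction a using UniqueFactorizationMonoid.induction_on_prime with
  | h₁ => exact fun h => absurd (isUnit_of_dvd_unit h3 (isCoprime_zero_left.1 h)) g1_w.not_isUnit
  | h₂ u hu => exact fun _ => by rw [u2 u hu, map_one]
  | h₃ n p _ hp ih =>
    intro h
    rcases p1_prime hp with k | ⟨π, k1, k2, u, rfl⟩
    · exact absurd (h.of_mul_left_left.isUnit_of_dvd' k.dvd h3) g1_w.not_isUnit
    obtain ⟨r, rfl⟩ := exists_tp k1 k2
    have e := hφ.per' hm (cm_frob r fun d => k1.not_isUnit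
      (h.of_mul_left_left.of_mul_left_left.isUnit_of_dvd' dvd_rfl d))
    rw [hφ.gch.mul, hφ.gch.mul, mul_mul_mul_comm, mul_mul_mul_comm (φ r.π), u2 _ u.isUnit, mul_one,
      map_mul, ih h.of_mul_left_right, mul_one, ← e, hφ.link t h0 hm r.φ_mem, map_mul,
      EW.prim_red1 k2, mul_one]
    exact (by decide : ∀ x : ZMod 3, CU.red (un x) = 1) _

theorem t6_star {a : O} (h : Prim a) : Prim (star a) := by
  have := map_dvd (starRingEnd O) (prim_iff.1 h)
  rw [map_sub, map_one, map_ofNat] at this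
  exact prim_iff.2 this

namespace Cx

variable (c : Cx)

theorem t6_w {g : Gam} (hg : g ∈ G) : ww ∣ C (c.r0 true g) - 1 := by
  obtain ⟨y, e⟩ := c.r0_w true hg
  exact ⟨C y, by rw [ww, ← map_mul, ← e, map_sub, map_one]⟩

theorem t6_X : ¬ IsUnit (X : La) := fun h => unit_La.1 h (by simp)

theorem t6_ne (k : ℕ) (i : c.κ) : (c.tp i).π ≠ (c.lv k).lam.π := fun e =>
  (c.lv k).nd (e ▸ c.dvd i)

theorem ok_σ_w : ∀ i : c.κ, ww ∣ c.dat.ρ true (c.dat.gen c.dat.s0 (.inl (some i))) - 1 := fun i => by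
  have e : c.dat.ρ true (c.dat.gen c.dat.s0 (.inl (some i))) = C (c.r0 true (c.tp i).σ) :=
    (congrArg ul (funext fun k => (congrArg (fun t : TP => c.ρ true k t.σ)
      (Stg.t_zero c.dat.s0 k (some i))).trans (c.ρ_σ true k i))).trans (ul_const _)
  rw [e]
  exact c.t6_w (c.tp i).σ_mem

theorem tu_ρ (g : ℕ → Gam) (hg : ∀ k, g k ∈ G) (h : ∀ k, ¬ 3 ∣ ((c.lv k).x.ig (g k)).val) :
    Tu 1 ((ul fun k => c.ρ true k (g k)) - 1) := by
  rw [← ul_const 1, ← ul_sub]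
  refine tu_ul (.of_forall fun k => ?_)
  obtain ⟨u, hu, e⟩ := odd_pow_sub t6_X (fun h => unit_La.1 h (by
    rw [map_ofNat]; exact la_two)) (h k)
  refine ⟨u, hu, Ideal.mem_sup_left (Ideal.mem_span_singleton.2 ?_)⟩
  rw [pow_one, ← e, sub_sub_sub_cancel_right, ρ, ex, ← sub_one_mul]
  exact (c.t6_w (hg k)).mul_right _

theorem ok_φ_T : ∀ i : c.κ, Tu 1 (c.dat.ρ true (c.dat.φ c.dat.s0 (some i)) - 1) := fun i =>
  c.tu_ρ (fun k => (Stg.t c.dat.s0 k (some i)).φ) (fun _ => TP.φ_mem _) fun k => by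
    rw [Stg.t_zero c.dat.s0 k (some i), t0, (c.lv k).x.ig_frob _ (c.t6_ne k i)]
    exact (c.lv k).oπ i

theorem ok_σ_lam : c.dat.ρ true (c.dat.gen c.dat.s0 (.inl none)) = 1 + X :=
  (congrArg ul (funext fun k => (congrArg (fun t : TP => c.ρ true k t.σ)
    (Stg.t_zero c.dat.s0 k none)).trans (c.ρ_lam k))).trans (ul_const _)

theorem ok_L_lam : IsUnit (c.dat.L c.dat.s0 true (c.dat.φ c.dat.s0 none) (.inr 1)) := by
  refine ul_unit (.of_forall fun k => ?_)
  have hm := (IsLocalRing.maximalIdeal.isMaximal La).ne_top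
  have := lo2_of (aa_le k) hm
  let f : ZMod 3 →+* La ⧸ IsLocalRing.maximalIdeal La := fz (two_pow_zero (aa_le 0))
  have h := (Stg.val c.dat.s0 true k).fac (aa_le k) _ (fun g => f (chC (io w) g))
    ⟨(p1_b4 p1_w).1.comp f, fun g hg g' hg' => by
      beta_reduce
      rw [(p1_b4 p1_w).2 g hg g' hg', map_add, show md _ (c.ρ true k) g = 1 from
        Ideal.Quotient.eq.2 (lb_max.2 (by
          rw [map_sub, map_one, c.ρ_const]; exact c.r0_w true hg)), one_smul]⟩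
    (fun v hv σ hσ => (congrArg f (p1_unr_w hv.1 hσ)).trans (map_zero f)) _ (Stg.t c.dat.s0 k none).φ_mem
  have h1 : chC (io w) (Stg.t c.dat.s0 k none).φ ≠ 0 := by
    have n : ¬ (c.lv k).lam.π ∣ w := (c.lv k).lam.V_eq.1 (p1_V_w (c.lv k).lam.odd)
    rw [Stg.t_zero c.dat.s0 k none]
    exact fun e => (c.lv k).ow (((c.lv k).x.par w n).2 ((chC_frob _ n).1 e))
  have h2 := (IsUnit.of_mul_eq_one _ (F3_sq h1)).map f
  rw [Fintype.sum_sum_type, Fin.sum_univ_two, sum_eq_zero fun i _ => by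
    rw [gen, Sum.elim_inl, p1_unr_w (TP.odd _) (TP.σ_ine _), map_zero, smul_zero]] at h
  simp only [gen, Sum.elim_inr, gw_spec.2.2.1, gw_spec.2.2.2.2, map_zero, map_one, mul_zero,
    zero_add, smul_eq_mul, mul_one] at h
  exact (unit_mk hm).1 (show IsUnit (mdL _ (Stg.L c.dat.s0 true k) _ _) from h ▸ h2)

theorem ok_gi_w : ww ∣ c.dat.ρ true (c.dat.gen c.dat.s0 (.inr 0)) - 1 := by
  have e : c.dat.ρ true (c.dat.gen c.dat.s0 (.inr 0)) = C (c.r0 true (gw 0)) :=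
    (congrArg ul (funext fun k => c.ρ_w3 true k (gw_spec.1 0))).trans (ul_const _)
  rw [e]
  exact c.t6_w (gw_mem 0)

theorem Fk_w (k : ℕ) : ∃ u, IsUnit u ∧
    c.Fk true k (gw 0) - X ^ (Fintype.card c.κ + 1) * u ∈ Ideal.span {ww} ⊔ aa k := by
  have hJ := sup_ne_top (mt Ideal.span_singleton_eq_top.1 prime_ww.not_isUnit) k
  have := lo2_of le_sup_right hJ
  have z : ∀ {y : La}, ww ∣ y → y ∈ Ideal.span {ww} ⊔ aa k := fun h =>
    Ideal.mem_sup_left (Ideal.mem_span_singleton.2 h)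
  let f := fz (two_pow_zero (le_sup_right : aa k ≤ Ideal.span {ww} ⊔ aa k))
  have h8 := (c.dvd_m0 (k + 1)).2.1
  obtain ⟨u, hu, e⟩ := mw f (c.lv k).x (T := Ideal.Quotient.mk _ (X : La))
    (Ideal.Quotient.eq_zero_iff_mem.2 (z (y := 3)
      (dvd_neg.1 (lc_sq ▸ dvd_pow_self ww two_ne_zero))))
    (Ideal.Quotient.eq.2 (Ideal.mem_sup_right (c.pow_s k)) :
      Ideal.Quotient.mk _ ((1 + X : La) ^ _) = Ideal.Quotient.mk _ 1)
    (mt (unit_mk hJ).1 t6_X) (c.α true) (c.α5 true) c.α_w (c.lv k).oα (c.lv k).ow c.tp c.inj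
    (c.t6_ne k) (c.lv k).oπ (c.m_ne k) (by
      rw [mul_right_comm]
      refine mul_dvd_mul_right (.trans ?_ h8) _
      rw [Nat.cast_mul]
      exact mul_dvd_mul ⟨3, by decide⟩ (Fintype.prod_dvd_of_coprime (fun i j h =>
        (c.tp i).prime.irreducible.coprime_iff_not_dvd.2
          ((c.tp i).not_dvd _ (mt (c.inj i j) h))) c.dvd)) (fun p hp h => by
      rw [m, c.m0_eq, hp.dvd_mul, hp.dvd_mul] at h
      rcases h with (h | h) | h
      · rcases c.all p hp h with h | ⟨i, h⟩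
        · exact (h.mul_right _).mul_right _
        · exact (h.trans (dvd_prod_of_mem (fun i => (c.tp i).π) (mem_univ i))).mul_left _
      · have h := hp.dvd_of_dvd_pow h
        rw [show (3 : O) = -w ^ 2 by decide, dvd_neg] at h
        exact ((hp.dvd_of_dvd_pow h).mul_right _).mul_right _
      · exact (h.mul_left _).mul_right _) (c.kb true k).cop
  obtain ⟨u, rfl⟩ := Ideal.Quotient.mk_surjective u
  refine ⟨u, (unit_mk hJ).1 hu, Ideal.Quotient.eq.1 ?_⟩
  rw [map_mul, map_pow, ← e]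
  refine (congrFun (c.md_Fk true le_sup_right f) _).trans (FF_congr f fun P hP => ?_)
  have h0 := co_prim (c.m_ne k) (c.kb true k).w3 hP
  have h1 := t6_phi c.t c.phi (c.m_ne k) (h8.mul_right _) (w_dvd_three.trans (c.kb true k).w3) _
    (co_cop (c.m_ne k) hP)
  have h2 := EW.w_dvd_iff.1 ((w_dvd_three.trans (dvd_pow_self 3 k.succ_ne_zero)).trans
    (tht_spec c.φ (C4_odd (EW.prim_red h0))))
  rw [map_mul, EW.prim_red1 h0, mul_one] at h1
  rw [map_sub, map_mul, EW.prim_red1 (t6_star h0), mul_one, h1, ← map_one CU.red,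
    ← map_sub] at h2
  obtain ⟨y, h3⟩ := map_dvd oW (EW.w_dvd h2)
  rw [map_sub, map_one, ← wO] at h3
  rw [Wq, Wt, map_mul, show Ideal.Quotient.mk _ (C (oW (Tht c.φ (k + 1) (co (c.m k) P)))) = 1 from
    Ideal.Quotient.eq.2 (z ⟨C y, by rw [ww, ← map_mul, ← h3, map_sub, map_one]⟩), one_mul, gam,
    map_pow, map_add, map_one]

theorem ok_F_T : Tu (Fintype.card c.κ + 1) (c.dat.F true (c.dat.gen c.dat.s0 (.inr 0))) :=
  tu_ul (.of_forall c.Fk_w)

theorem t6_cc (b : Bool) :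
    ∃ u, IsUnit u ∧ c.dat.cc b = u * (1 - ul fun k => c.ρ true k (c.α b).φ) :=
  ⟨_, ul_unit (.of_forall fun k => c.θ_unit k (c.α (!b)).φ_mem),
    (ul_mul (fun k => c.θ k (c.α (!b)).φ) fun k => 1 - c.ρ true k (c.α b).φ).trans (by
      rw [ul_sub, ul_const])⟩

theorem t6_nm (b : Bool) : (c.r0 true (c.α b).φ).norm = nm (c.α b).π :=
  (c.r0_norm true (TP.φ_mem _)).trans (TP.cyc_φ _)

theorem ok_cc_T : Tu 1 (c.dat.cc true) := by
  obtain ⟨u, hu, e⟩ := c.t6_cc true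
  have h := (c.tu_ρ (fun _ => (c.α true).φ) (fun _ => TP.φ_mem _) fun k => by
    rw [(c.lv k).x.ig_frob _ ((c.lv k).ne true)]
    exact (c.lv k).oα).neg
  have h2 := (Tu.unit hu).mul h
  rwa [neg_sub, ← e] at h2

theorem ok_cc_0 : constantCoeff (c.dat.cc true) ≠ 0 := by
  obtain ⟨u, hu, e⟩ := c.t6_cc true
  have h : constantCoeff ((ul fun k => c.ρ true k (c.α true).φ) - C (c.r0 true (c.α true).φ)) = 0 := by
    rw [← ul_const (C _), ← ul_sub]
    exact mem_span_X.1 (ul_mem_iff.2 fun j => .of_forall fun k => Ideal.mem_sup_left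
      (mem_span_X.2 (by rw [map_sub, c.ρ_const, constantCoeff_C, sub_self])))
  rw [map_sub, constantCoeff_C, sub_eq_zero] at h
  rw [e, map_mul, map_sub, map_one, h]
  refine mul_ne_zero (hu.map _).ne_zero fun k => ?_
  have h1 := c.t6_nm true
  have h2 := c.α5 true
  rw [← sub_eq_zero.1 k, map_one, eq_comm, Nat.cast_eq_one] at h1
  omega

theorem ok_cc_ev : ∀ ev : La →+* Ow, (∀ a, ev (C a) = a) → ev (c.dat.cc false) ≠ 0 := fun ev h => by
  obtain ⟨u, hu, e⟩ := c.t6_cc false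
  have h1 : (ul fun k => c.ρ true k (c.α false).φ) = C (c.r0 true (c.α false).φ) *
      (ul fun k => (1 + X) ^ (c.ex true k (c.α false).φ / 3)) ^ 3 := by
    rw [pow_three, ← ul_mul, ← ul_mul, ← ul_const (C _), ← ul_mul]
    refine congrArg ul (funext fun k => ?_)
    have : 3 ∣ c.ex true k (c.α false).φ := by
      rw [ex, (c.lv k).x.ig_frob _ ((c.lv k).ne false)]
      exact (c.lv k).eα
    rw [← pow_three, ← pow_mul, Nat.div_mul_cancel this, ρ]
  rw [e, map_mul, map_sub, map_one, h1, map_mul, map_pow, h]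
  refine mul_ne_zero (hu.map _).ne_zero fun k => ?_
  have h2 := congrArg (fun z : Ow => PadicInt.toZModPow 2 z.norm) (sub_eq_zero.1 k)
  simp only [map_one, map_mul, map_pow, c.t6_nm, map_natCast] at h2
  have h3 := c.α5 false
  have h4 := (c.α false).nm_mod
  rw [← ZMod.natCast_mod] at h2
  rcases (by omega : nm (c.α false).π % 3 ^ 2 = 4 ∨ nm (c.α false).π % 3 ^ 2 = 7) with e | e <;>
    rw [e] at h2
  · exact (by decide : ∀ x : ZMod 9, 1 ≠ ((4 : ℕ) : ZMod 9) * x ^ 3) _ h2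
  · exact (by decide : ∀ x : ZMod 9, 1 ≠ ((7 : ℕ) : ZMod 9) * x ^ 3) _ h2

end Cx

end Pool.Agent.Lib.MP_696deb_nt.EV
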