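import Pool.Agent.Lib.MP_696deb_nt.EV.TopC

/-! The end of the limit argument. -/

set_option autoImplicit false

open scoped Classical NNReal
open Finset Matrix PowerSeries

namespace Pool.Agent.Lib.MP_696deb_nt.EV

namespace Dat

variable {Γ κ : Type} [Group Γ] [Fintype κ] {D : Dat Γ κ} {n : ℕ} {s : D.St n} {b : Bool}
  {I : Ideal La} {c c' : Γ → La}

theorem topd_single {ι : Type} [Fintype ι] [DecidableEq ι] (a c : ι → La) (i j : ι) :
    wd a c (Pi.single i 1) (Pi.single j 1) = a i * c j - a j * c i := by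
  simp only [wd, single_dotProduct, one_mul]

theorem Ok.ratio_ne (h : D.Ok) {R : La} (hR : ∀ l l',
    wd (fun j => D.ρ true (D.gen D.s0 j) - 1) (fun j => D.F true (D.gen D.s0 j)) l l' =
      R * Dt (D.B D.s0) l l') : constantCoeff R ≠ 0 := by
  intro h0
  obtain ⟨R', hR'⟩ := h.ratio false
  obtain ⟨x, hx⟩ := h.sym
  have h1 := (hR (Pi.single (.inl none) 1) (Pi.single (.inr 0) 1)).symm
  have h2 := (hR' (Pi.single (.inl none) 1) (Pi.single (.inr 0) 1)).symm
  rw [topd_single] at h1 h2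
  have h3 := h.dt0
  generalize Dt (D.B D.s0) (Pi.single (.inl none) 1) (Pi.single (.inr 0) 1) = d at h1 h2 h3
  have h4 : Tu 1 R := by
    refine Tu.cancel ?_ h3
    rw [h1, h.σ_lam, add_sub_cancel_left, sub_eq_add_neg]
    exact (tu_X.mul h.F_T).add (h.gi_w.mul_right _).neg_right
  have h5 : D.cc false * R = D.cc true * R' :=
    mul_right_cancel₀ (b := d) (fun e => h3.not_dvd (e ▸ dvd_zero _)) (by
      linear_combination D.cc false * h1 - D.cc true * h2 +
        (D.ρ true (D.gen D.s0 (.inl none)) - 1) * hx (D.gen D.s0 (.inr 0)) -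
        (D.ρ true (D.gen D.s0 (.inr 0)) - 1) * hx (D.gen D.s0 (.inl none)))
  obtain ⟨ev, e1, e2⟩ := h.cc_T.exists_ev
  have h6 := congrArg ev h5
  rw [map_mul, map_mul, e2, zero_mul, mul_eq_zero, or_iff_right (h.cc_ev ev e1)] at h6
  obtain ⟨S, rfl⟩ := X_dvd_iff.2 h0
  have h7 : IsUnit S := (Tu.cancel (m := 0) (by rwa [mul_comm]) tu_X).isUnit
  rw [map_mul, mul_eq_zero, or_iff_left (h7.map ev).ne_zero] at h6
  obtain ⟨T, hT⟩ := X_dvd_iff.2 (show constantCoeff (D.cc true - C (constantCoeff (D.cc true))) = 0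
    by rw [map_sub, constantCoeff_C, sub_self])
  have h8 := congrArg ev hT
  rw [map_sub, map_mul, e1, e2, h6, zero_mul, zero_sub, neg_eq_zero] at h8
  exact h.cc_0 h8

theorem Ok.F_ne (h : D.Ok) : ∃ g, D.hat true (D.F true) g ∉ Ideal.span {(X : La)} := by
  by_contra! k
  obtain ⟨R, hR⟩ := h.ratio true
  obtain ⟨-, c, c1, -, c2, g, c3⟩ := h.dual pr_X (three_of_dt pr_X.1 fun l l' =>
    (pr_X.1.mem_or_mem (hR l l' ▸ h.hat_wd pr_X k l l')).resolve_left
      fun e => h.ratio_ne hR (mem_span_X.1 e))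
  exact c3 (h.sel c c1 ⟨1, 0, 0, (Ideal.ne_top_iff_one _).1 pr_X.ne_top, fun i => by
    simpa using c2 i⟩ g)

theorem Ok.topd_two (h : D.Ok) (hI : Pr I) (s : D.St 1) :
    ∃ c ∈ D.Z s false I, ∃ c' ∈ D.Z s false I, D.Two false I c c' := by
  obtain ⟨x, x1, x2⟩ := exists_indep hI.1 (m := 3) (Matrix.of fun i : Jx κ 0 =>
    relR (D.ρ false) (D.gen s) (D.φ s) (D.L s false) (some i)) (by
      rw [Fintype.card_sum, Jx.card, Jx.card, Fintype.card_fin])
  choose c c1 c2 using fun i => (h.pres s false).ex I hI (x i) fun j => by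
    rcases j with _ | j
    · obtain ⟨e1, e2⟩ := h.deep s false none trivial
      have e3 : relR (D.ρ false) (D.gen s) (D.φ s) (D.L s false) none = 0 := funext fun l => by
        unfold relR
        rw [e1, e2, sub_self, zero_mul, zero_mul, sub_self, Pi.zero_apply]
      exact (e3 ▸ zero_dotProduct (x i) :) ▸ I.zero_mem
    · exact x2 i j
  obtain ⟨i, j, k⟩ := h.two hI c c1 fun t ht => x1 t fun j => by
    have := I.sub_mem (ht j) (I.sum_mem fun i (_ : i ∈ univ) => I.mul_mem_left (t i) (c2 i j))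
    rw [← sum_sub_distrib] at this
    simpa only [← mul_sub, sub_sub_cancel] using this
  exact ⟨_, c1 i, _, c1 j, k⟩

theorem Ok.topd_four (h : D.Ok) (hI : Pr I) {x : Fin 4 → Fin 4 → La} (hx : ∀ i, x i ∈ D.W I) :
    ¬ Indep I x := fun k => by
  obtain ⟨d, d1, d2⟩ := k.span hI.1
  refine h.lw I hI d d1 fun y => ?_
  obtain ⟨t, ht⟩ := d2 y
  exact ⟨∑ i, t i • x i, Submodule.sum_mem _ fun i _ => Submodule.smul_mem _ _ (hx i), fun j => by
    simpa only [Finset.sum_apply, Pi.smul_apply, smul_eq_mul] using ht j⟩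

theorem Ok.exists_km (h : D.Ok) (s : D.St 1) : ∃ c ∈ D.Z s false (Ideal.span {X}), D.Km c ∧
    ∃ g, D.hat false c g ∉ Ideal.span {(X : La)} := by
  obtain ⟨c, c1, c', c2, k⟩ := h.topd_two pr_X s
  by_cases hc : D.Km c
  · refine ⟨c, c1, hc, ?_⟩
    by_contra! e
    exact (Ideal.ne_top_iff_one _).1 pr_X.ne_top (k 1 0 fun g => by simpa using e g).1
  have i2 : Indep (Ideal.span {(X : La)}) ![fun i => D.ρ false (D.e i) - 1, D.k] := fun t ht => by
    simp only [Fin.sum_univ_two, cons_val_zero, cons_val_one] at ht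
    have h1 := h.ind _ _ ht
    obtain ⟨i, hi⟩ := h.ne _ pr_X
    refine Fin.forall_fin_two.2 ⟨(pr_X.1.mem_or_mem ?_).resolve_right hi, h1⟩
    exact (Ideal.add_mem_iff_left _ (Ideal.mul_mem_right _ _ h1)).1 (ht i)
  have i3 := i2.cons pr_X.1 (y := fun i => c (D.e i)) fun d t ht => by
    by_contra e
    exact hc ⟨d, t 0, t 1, e, fun i => by
      simpa only [Fin.sum_univ_two, cons_val_zero, cons_val_one] using ht i⟩
  have i4 := mt (i3.cons pr_X.1 (y := fun i => c' (D.e i))) (h.topd_four pr_X fun i => by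
    refine Fin.cases (h.W_mem s _ _ c2) (fun i => Fin.cases (h.W_mem s _ _ c1) (fun i => ?_) i) i
    revert i
    exact Fin.forall_fin_two.2 ⟨h.W_mem s _ _ ((h.pres s false).cob _), h.k_mem⟩)
  push Not at i4
  obtain ⟨d, t, h1, h2⟩ := i4
  refine ⟨d • c' - t 0 • c, sub_mem (Submodule.smul_mem _ _ c2) (Submodule.smul_mem _ _ c1),
    ⟨1, t 1, t 2, (Ideal.ne_top_iff_one _).1 pr_X.ne_top, fun i => ?_⟩, ?_⟩
  · convert h1 i using 1
    rw [Fin.sum_univ_three]
    change 1 * (d * c' (D.e i) - t 0 * c (D.e i)) - _ = d * c' (D.e i) -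
      (t 0 * c (D.e i) + t 1 * (D.ρ false (D.e i) - 1) + t 2 * D.k i)
    ring
  · by_contra! e
    refine h2 (k (-t 0) d fun g => ?_).2
    convert e g using 1
    simp only [hat, Pi.sub_apply, Pi.smul_apply, smul_eq_mul]
    ring

theorem Ok.false (h : D.Ok) : False := by
  obtain ⟨s, e, k⟩ := h.new D.s0 (m := 1) (fun _ => D.F true) (fun _ => true)
    (fun _ => Ideal.span {X}) (fun _ => ⟨pr_X, (h.pres _ _).mono _ (h.F_mem true)⟩) fun _ => h.F_ne
  obtain ⟨c, c1, c2, g, c3⟩ := h.exists_km s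
  exact c3 (h.sel c (e.unr _ _ pr_X c c1
    ((pr_X.1.mem_or_mem (h.erl s e c c1 c2)).resolve_right (k 0))) c2 g)

end Dat

end Pool.Agent.Lib.MP_696deb_nt.EV
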