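import Pool.Agent.Lib.MP_696deb_nt.EV.T5
import Pool.Agent.Lib.MP_696deb_nt.EV.T6
import Pool.Agent.Lib.MP_696deb_nt.EV.T8
import Pool.Agent.Lib.MP_696deb_nt.EV.T9
import Pool.Agent.Lib.MP_696deb_nt.EV.C8
import Pool.Agent.Lib.MP_696deb_nt.EV.TopD

/-! The end of the argument. -/

set_option autoImplicit false

open scoped Classical NNReal
open Finset PowerSeries

namespace Pool.Agent.Lib.MP_696deb_nt.EV

theorem Cx.ok (c : Cx) (h : CU.Gro c.t.N 2) (hv : c.Van) : c.dat.Ok :=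
  ⟨c.ok_vp, c.ok_ne, c.ok_pres, c.ok_deep, c.ok_W_mem, c.ok_lw, c.ok_unit, c.ok_recip, c.ok_N_ρ,
    c.ok_comm, c.ok_step, c.ok_kap_mem, c.ok_kap_φ, c.ok_F_mem, c.ok_kap0, c.ok_σ_w, c.ok_φ_T,
    c.ok_σ_lam, c.ok_L_lam, c.ok_gi_w, c.ok_F_T, c.ok_sym, c.ok_cc_T, c.ok_cc_0, c.ok_cc_ev,
    c.ok_k_mem, c.ok_ind, c.ok_sel h, c.ok_erl hv⟩

/-- If the three-primary Selmer group of a cube free twist is finite, the central value of its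
`L`-function does not vanish. -/
theorem conv {n q : ℕ} (hn : n ≠ 0 ∧ ∀ p : ℕ, n.factorization p < 3) (hq : q.Prime) (h3 : q ≠ 3)
    (hv : q ∣ n) (h : CU.Gro n 2) {F : ℂ → ℂ} (hF : Differentiable ℂ F)
    (hp : ∀ s : ℂ, (3 : ℝ) / 2 < s.re → HasProd (fun p : ℕ =>
      if p.Prime ∧ ¬ ((p : ℤ) ∣ 2 * (-4 * 0 ^ 3 - 27 * (-432 * (n : ℤ) ^ 2) ^ 2)) then
        (1 - ((p : ℂ) - (CL.cnt n p : ℂ)) * (p : ℂ) ^ (-s) + (p : ℂ) ^ (1 - 2 * s))⁻¹ else 1)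
      (F s)) : F 1 ≠ 0 := fun hz => by
  obtain ⟨φ, h1, h2, h4, h5⟩ := EW.final hn
  obtain ⟨c, rfl, rfl⟩ := exists_cb hn hq h3 hv ⟨h1, h2, h4⟩
  exact (Cx.ok ⟨c, fun k => (c.exists_lv k).some⟩ h (c.van (h5 F hF hp hz))).false

end Pool.Agent.Lib.MP_696deb_nt.EV
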