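import Pool.Agent.Lib.MP_696deb_nt.EV.Es
import Pool.Agent.Lib.MP_696deb_nt.EV.C6

/-! Points of prime order modulo units. -/

set_option autoImplicit false

open scoped Classical NNReal
open Finset

namespace Pool.Agent.Lib.MP_696deb_nt.EV

/-- The cubes of the abscissas. -/
noncomputable def Xi (n : O) : Finset Qbar := ((En n).erase 0).image fun P => xco P ^ 3

/-- A point with given cube of the abscissa. -/
noncomputable def pick (n : O) (ξ : Qbar) : A :=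
  if h : ∃ P ∈ (En n).erase 0, xco P ^ 3 = ξ then h.choose else 0

variable {n a b : O} {P Q : A} {ξ : Qbar} {g : Gam} {e : ℕ}

theorem mw_pick (hn : n ≠ 0) (h : ξ ∈ Xi n) :
    (pick n ξ ≠ 0 ∧ n • pick n ξ = 0) ∧ xco (pick n ξ) ^ 3 = ξ := by
  have k := mem_image.1 h
  rw [pick, dif_pos k, ← EW.mem_En0 hn]
  exact k.choose_spec

theorem mw_mem (hn : n ≠ 0) (h0 : Q ≠ 0) (h : n • Q = 0) : xco Q ^ 3 ∈ Xi n := mem_image_of_mem _ ((EW.mem_En0 hn).2 ⟨h0, h⟩)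

theorem mw_ne (k : ℕ) (h : Q ≠ 0) : (-om) ^ k • Q ≠ 0 := fun e =>
  h ((EW.isUnit_om.neg.pow k).smul_eq_zero.1 e)

theorem mw_x1 (P : A) : xco ((-om) • P) = zeta 1 ^ 2 * xco P := by
  rw [neg_smul, xco_neg, EW.x_om]

theorem mw_x3 (P : A) : xco ((-om) • P) ^ 3 = xco P ^ 3 := by
  rw [mw_x1, mul_pow, ← pow_mul, mul_comm 2, pow_mul, H3.TA.zeta_cube, one_pow, one_mul]

theorem mw_ub (hb : b ≠ 0) (P : A) : ub b ((-om) • P) = ub b P := by
  rw [neg_smul, EW.ub_neg, EW.ub_om hb]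

theorem mw_ubk (hb : b ≠ 0) (k : ℕ) (P : A) : ub b ((-om) ^ k • P) = ub b P := by
  induction k with
  | zero => rw [pow_zero, one_smul]
  | succ k ih => rw [pow_succ' (-om), mul_smul, mw_ub hb, ih]

theorem mw_x (k : ℕ) (P : A) : xco ((-om) ^ k • P) ^ 3 = xco P ^ 3 := by
  induction k with
  | zero => rw [pow_zero, one_smul]
  | succ k ih => rw [pow_succ' (-om), mul_smul, mw_x3, ih]

theorem mw_orb (hP : P ≠ 0) (hQ : Q ≠ 0) (h : xco P ^ 3 = xco Q ^ 3) :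
    ∃ k < 6, P = (-om) ^ k • Q := by
  have key : ∀ j < 3, xco P = xco ((-om) ^ j • Q) → ∃ k < 6, P = (-om) ^ k • Q := fun j hj e => by
    rcases EW.x_eq hP (mw_ne j hQ) e with e | e
    · exact ⟨j, by omega, e⟩
    · exact ⟨3 + j, by omega, by
        rwa [pow_add, show (-om) ^ 3 = -1 by decide, mul_smul, neg_one_smul]⟩
  have z := EW.zeta_sq
  have e : (xco P - xco Q) * (xco P - zeta 1 ^ 2 * xco Q) *
      (xco P - zeta 1 ^ 2 * (zeta 1 ^ 2 * xco Q)) = 0 := by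
    generalize zeta 1 ^ 2 = u at z
    linear_combination h + (-xco P ^ 2 * xco Q + xco P * xco Q ^ 2 * u - xco Q ^ 3 * (u - 1)) * z
  rcases mul_eq_zero.1 e with e | e
  · rcases mul_eq_zero.1 e with e | e
    · exact key 0 (by omega) (by rw [pow_zero, one_smul, sub_eq_zero.1 e])
    · exact key 1 (by omega) (by rw [pow_one, mw_x1, sub_eq_zero.1 e])
  · exact key 2 (by omega) (by rw [sq, mul_smul, mw_x1, mw_x1, sub_eq_zero.1 e])

theorem mw_inv {β : Type} (F : A → β) (hn : n ≠ 0) (hF : ∀ P, n • P = 0 → F ((-om) • P) = F P)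
    (h0 : Q ≠ 0) (h : n • Q = 0) : F (pick n (xco Q ^ 3)) = F Q := by
  obtain ⟨⟨p0, -⟩, p⟩ := mw_pick hn (mw_mem hn h0 h)
  obtain ⟨k, -, e⟩ := mw_orb p0 h0 p
  rw [e]
  clear e
  induction k with
  | zero => rw [pow_zero, one_smul]
  | succ k ih => rw [pow_succ' (-om), mul_smul, hF _ (by rw [smul_comm, h, smul_zero]), ih]

theorem mw_can (hc : IsCoprime a n) (p0 : P ≠ 0) (p : n • P = 0) (q0 : Q ≠ 0) (q : n • Q = 0) :
    xco (a • P) ^ 3 = xco (a • Q) ^ 3 ↔ xco P ^ 3 = xco Q ^ 3 := by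
  refine ⟨fun h => ?_, fun h => ?_⟩
  · obtain ⟨k, -, e⟩ := mw_orb (fun e => p0 (EW.cop_smul hc p e)) (fun e => q0 (EW.cop_smul hc q e)) h
    rw [sub_eq_zero.1 (EW.cop_smul (S := P - (-om) ^ k • Q) hc
      (by rw [smul_sub, smul_comm, p, q, smul_zero, sub_zero])
      (by rw [smul_sub, smul_comm, e, sub_self])), mw_x]
  · obtain ⟨k, -, e⟩ := mw_orb p0 q0 h
    rw [e, smul_comm, mw_x]

/-- The fibres have six elements. -/
theorem mw_fib {β : Type} [CommMonoid β] (F : A → β) (hr : CU.red n ≠ 0) (h2 : IsCoprime 2 n) (h0 : Q ≠ 0)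
    (h : n • Q = 0) : ∏ S ∈ (En n).erase 0 with xco S ^ 3 = xco Q ^ 3, F S =
      ∏ k ∈ range 6, F ((-om) ^ k • Q) := by
  have hn := EW.ne_of_red hr
  have key : ∀ j < 6, ∀ k < 6, j = k ∨ ∃ c ∈ [12, 4, 3],
      2 ^ 2 * 3 = c * star ((-om) ^ j - (-om) ^ k) * ((-om) ^ j - (-om) ^ k) := by decide
  refine (prod_bij (fun k _ => (-om) ^ k • Q) (fun k _ => mem_filter.2 ⟨(EW.mem_En0 hn).2
    ⟨mw_ne k h0, by rw [smul_comm, h, smul_zero]⟩, mw_x k Q⟩) (fun j hj k hk e => ?_)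
    (fun S hS => ?_) fun _ _ => rfl).symm
  · rw [← sub_eq_zero, ← sub_smul] at e
    refine (key j (mem_range.1 hj) k (mem_range.1 hk)).resolve_right fun ⟨c, _, k⟩ =>
      h0 (EW.cop_smul ((h2.pow_left (m := 2)).mul_left (EW.cop_three hr)) h ?_)
    rw [k, mul_smul, e, smul_zero]
  · obtain ⟨k, hk, e⟩ := mw_orb ((EW.mem_En0 hn).1 (mem_filter.1 hS).1).1 h0 (mem_filter.1 hS).2
    exact ⟨k, mem_range.2 hk, e.symm⟩

theorem mw_act (g : Gam) (Q : A) : g • xco Q ^ 3 = xco (g • Q) ^ 3 := by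
  rw [xco_act, ← map_pow]
  rfl

theorem mw_gen {β : Type} (F : A → β) (hn : n ≠ 0) (hF : ∀ P, n • P = 0 → F ((-om) • P) = F P)
    (hg : g ∈ G) (h : ξ ∈ Xi n) : g • ξ ∈ Xi n ∧ F (pick n (g • ξ)) = F (g • pick n ξ) := by
  obtain ⟨⟨p0, p1⟩, p⟩ := mw_pick hn h
  have q0 : g • pick n ξ ≠ 0 := (smul_ne_zero_iff_ne g).2 p0
  have q1 : n • g • pick n ξ = 0 := by rw [← act_smul hg, p1, smul_zero]
  have q : g • ξ = xco (g • pick n ξ) ^ 3 := by rw [← mw_act, p]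
  rw [q]
  exact ⟨mw_mem hn q0 q1, mw_inv F hn hF q0 q1⟩

theorem mw_fam (hn : n ≠ 0) (hb : CU.red b ≠ 0) (hc : IsCoprime b n) (e : ℕ) :
    Fam G e (Xi n) fun ξ => yb b e (pick n ξ) := by
  have b0 := EW.ne_of_red hb
  have k := fun g (hg : g ∈ G) ξ (h : ξ ∈ Xi n) =>
    mw_gen (ub b) hn (fun P _ => mw_ub b0 P) hg h
  refine ⟨fun g hg ξ h => (k g hg ξ h).1, fun ξ h => ?_, fun ξ h e0 => ?_, fun g hg ξ h => ?_⟩
  · rw [← (mw_pick hn h).2]
    exact ((sm_act G _).comp fun P => xco P ^ 3).congr fun g _ => (mw_act g _).symm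
  · obtain ⟨⟨p0, p1⟩, -⟩ := mw_pick hn h
    refine EW.ub_ne hb (fun k => p0 (EW.cop_smul hc p1 k)) ?_
    rw [← rt3_pow e (ub _ _), show rt3 e (ub b _) = 0 from e0, zero_pow (pow_pos three_pos e).ne']
  · rw [yb, yb, rt3_pow, rt3_pow, (k g hg ξ h).2, ub_act b0 hg]

theorem mw_bij (hn : n ≠ 0) (hc : IsCoprime a n) :
    Set.BijOn (fun ξ => xco (a • pick n ξ) ^ 3) (Xi n) (Xi n) := by
  have m : Set.MapsTo (fun ξ => xco (a • pick n ξ) ^ 3) (Xi n) (Xi n) := fun ξ h => by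
    obtain ⟨⟨p0, p1⟩, -⟩ := mw_pick hn h
    exact mw_mem hn (fun e => p0 (EW.cop_smul hc p1 e)) (by rw [smul_comm, p1, smul_zero])
  refine ((Xi n).finite_toSet.injOn_iff_bijOn_of_mapsTo m).1 fun ξ h ξ' h' e => ?_
  obtain ⟨⟨p0, p1⟩, p⟩ := mw_pick hn h
  obtain ⟨⟨q0, q1⟩, q⟩ := mw_pick hn h'
  rw [← p, ← q]
  exact (mw_can hc p0 p1 q0 q1).1 e

theorem mw_eqv (hn : n ≠ 0) (hg : g ∈ G) (h : ξ ∈ Xi n) :
    xco (a • pick n (g • ξ)) ^ 3 = g • xco (a • pick n ξ) ^ 3 := by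
  rw [mw_act, act_smul hg]
  exact (mw_gen (fun P => xco (a • P) ^ 3) hn (fun P _ => by rw [smul_comm, mw_x3]) hg h).2

theorem mw_w3 : (3 : O) ≠ 0 := by decide

theorem mw_cop (t : TP) (k : ℕ) : IsCoprime (w ^ k) t.π := (EW.cop_w t.red).pow_left

theorem mw_Im (t : TP) : P ∈ Im (3 * t.π) ↔ t.π • P = tq 1 3 ∧ (3 : O) • P ≠ 0 := by
  have p0 := t.prime.ne_zero
  have m0 := mul_ne_zero mw_w3 p0
  have k : ∀ a, (3 : O) • tq a (3 * t.π) ≠ 0 ↔ IsCoprime a t.π := fun a => by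
    rw [mul_comm, tq_down p0 mw_w3, Ne, EW.tq_eq_zero p0, isCoprime_comm,
      t.prime.irreducible.coprime_iff_not_dvd]
  rw [mem_Im m0]
  refine ⟨?_, fun ⟨h1, h2⟩ => ?_⟩
  · rintro ⟨a, h1, h2, rfl⟩
    rw [tq_down mw_w3 p0, tq_eq_iff mw_w3, k]
    exact ⟨prim_iff.1 h2, h1.of_mul_right_right⟩
  · have h3 := co_spec m0 (P := P) (by rw [mul_smul, h1, m_tq mw_w3])
    rw [← h3, tq_down mw_w3 p0, tq_eq_iff mw_w3] at h1
    rw [← h3, k] at h2
    exact ⟨_, (cop_of_dvd h1 isCoprime_one_left).mul_right h2, prim_iff.2 h1, h3.symm⟩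

/-- The six points of exact order three. -/
theorem mw_six {β : Type} [CommMonoid β] (F : A → β) :
    ∏ k ∈ range 6, F ((-om) ^ (5 * k) • tq 1 3) = ∏ S ∈ En 3 \ En w, F S := by
  have key : ∀ j < 6, ∀ k < 6, j = k ∨ ¬ 9 ∣ nm ((-om) ^ (5 * j) - (-om) ^ (5 * k)) := by decide
  have w0 := g1_w.ne_zero
  have u6 : ∀ k, (-om) ^ (6 * k) = 1 := fun k => by
    rw [pow_mul, show (-om) ^ 6 = 1 by decide, one_pow]
  refine prod_bij (fun k _ => (-om) ^ (5 * k) • tq 1 3) (fun k _ => ?_) (fun j hj k hk e => ?_)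
    (fun S hS => ?_) fun _ _ => rfl
  · rw [mem_sdiff, EW.mem_En mw_w3, EW.mem_En w0, smul_comm, m_tq mw_w3, smul_zero, smul_comm]
    refine ⟨rfl, mw_ne _ fun e => ?_⟩
    obtain ⟨c, e⟩ := (EW.smul_tq_one mw_w3).1 e
    have := congrArg nm e
    rw [g1_nm_mul, show nm w = 3 by decide, show nm 3 = 9 by decide] at this
    omega
  · rw [← sub_eq_zero, ← sub_smul, EW.smul_tq_one mw_w3] at e
    obtain ⟨c, e⟩ := e
    exact (key j (mem_range.1 hj) k (mem_range.1 hk)).resolve_right fun h =>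
      h ⟨nm c, by rw [e, g1_nm_mul, show nm 3 = 9 by decide]⟩
  · rw [mem_sdiff, EW.mem_En mw_w3, EW.mem_En w0] at hS
    obtain ⟨a, rfl⟩ := EW.exists_eq_tq mw_w3 hS.1
    obtain ⟨k, hk⟩ := exists_prim (a := a) fun e => hS.2 (by
      obtain ⟨c, rfl⟩ := EW.w_dvd e
      rw [smul_smul, EW.smul_tq_one mw_w3, ← mul_assoc, ← sq, CU.th_sq, neg_mul, dvd_neg]
      exact dvd_mul_right _ _)
    refine ⟨k % 6, mem_range.2 (Nat.mod_lt _ (by omega)), ?_⟩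
    rw [prim_iff, ← EW.smul_tq_one mw_w3, sub_smul, one_smul, sub_eq_zero] at hk
    rw [← congrArg ((-om) ^ (5 * (k % 6)) • ·) hk, smul_smul, ← mul_assoc, ← pow_add,
      show 5 * (k % 6) + k = 6 * (k % 6 + k / 6) by omega, u6, one_mul]

/-- The product over a fibre at the level `3 * π`. -/
theorem mw_push (t : TP) (h2 : ¬ t.π ∣ 2) (hb : CU.red b ≠ 0) (h0 : Q ≠ 0) (h : t.π • Q = 0) :
    (∏ P ∈ Im (3 * t.π) with xco ((3 : O) • P) ^ 3 = xco ((3 : O) • Q) ^ 3, ub b P) *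
      ub b (w • Q) = ub b ((3 : O) • Q) := by
  have p0 := t.prime.ne_zero
  have b0 := EW.ne_of_red hb
  have c3 := EW.cop_three t.red
  have g1 : t.π • tq 1 3 = tq 1 3 := by
    rw [EW.smul_tq _ _ mw_w3, tq_eq_iff mw_w3, mul_one]
    exact prim_iff.1 t.prim
  have g3 := m_tq mw_w3 1
  have hI := fun P => mw_Im (P := P) t
  have six := mw_six fun S => ub b (Q + S)
  generalize tq 1 3 = G0 at g1 g3 hI six
  have g4 : ∀ R, (3 : O) • (G0 + R) = (3 : O) • R := fun R => by rw [smul_add, g3, zero_add]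
  have e1 : ∏ P ∈ Im (3 * t.π) with xco ((3 : O) • P) ^ 3 = xco ((3 : O) • Q) ^ 3, ub b P =
      ∏ S ∈ (En t.π).erase 0 with xco S ^ 3 = xco Q ^ 3, ub b (G0 + S) := by
    refine (prod_bij (fun S _ => G0 + S) (fun S hS => ?_) (fun _ _ _ _ e => add_left_cancel e)
      (fun P hP => ?_) fun _ _ => rfl).symm
    · obtain ⟨s0, s⟩ := (EW.mem_En0 p0).1 (mem_filter.1 hS).1
      rw [mem_filter, hI, g4, smul_add, g1, s, add_zero, mw_can c3 s0 s h0 h]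
      exact ⟨⟨rfl, fun e => s0 (EW.cop_smul c3 s e)⟩, (mem_filter.1 hS).2⟩
    · obtain ⟨S, rfl⟩ : ∃ S, P = G0 + S := ⟨P - G0, (add_sub_cancel _ _).symm⟩
      rw [mem_filter, hI, g4, smul_add, g1, add_eq_left] at hP
      have s0 : S ≠ 0 := fun e => hP.1.2 (by rw [e, smul_zero])
      exact ⟨S, mem_filter.2 ⟨(EW.mem_En0 p0).2 ⟨s0, hP.1.1⟩,
        (mw_can c3 s0 hP.1.1 h0 h).1 hP.2⟩, rfl⟩
  have e2 : ∀ k, ub b (G0 + (-om) ^ k • Q) = ub b (Q + (-om) ^ (5 * k) • G0) := fun k => by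
    rw [← mw_ubk b0 k (Q + _), smul_add, smul_smul, ← pow_add, show k + 5 * k = 6 * k by omega,
      pow_mul, show (-om) ^ 6 = 1 by decide, one_pow, one_smul, add_comm]
  rw [e1, mw_fib _ t.red (t.prime.irreducible.coprime_iff_not_dvd.2 h2).symm h0 h,
    prod_congr rfl fun k _ => e2 k, six,
    ← EW.ub_norm hb (EW.cop_w hb) fun e => h0 (EW.cop_smul (EW.cop_w t.red) h e),
    ← EW.ub_norm hb (EW.cop_three hb) fun e => h0 (EW.cop_smul c3 h e)]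
  refine prod_sdiff fun S hS => ?_
  rw [EW.mem_En g1_w.ne_zero] at hS
  rw [EW.mem_En mw_w3, show (3 : O) = -w * w by decide, mul_smul, hS, smul_zero]

theorem Ix.nd2 {t : TP} {s : ℕ} (x : Ix t s) : ¬ t.π ∣ 2 := fun ⟨c, e⟩ => by
  have h1 : nm t.π ∣ 4 := ⟨nm c, by rw [← g1_nm_mul, ← e]; decide⟩
  have h2 : 3 ^ 2 ∣ nm t.π - 1 := (pow_dvd_pow 3 (by have := x.pos; omega)).trans x.dvd
  have h3 := mt g1_nm_one.1 t.prime.not_isUnit
  have h4 := Nat.le_of_dvd four_pos h1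
  have h5 := Nat.pos_of_dvd_of_pos h1 four_pos
  omega

end Pool.Agent.Lib.MP_696deb_nt.EV

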