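import Pool.Agent.Lib.MP_696deb_nt.EV.P1

/-! Cocycles with values in finite modules over a local ring. -/

set_option autoImplicit false

open scoped Classical NNReal
open Finset

namespace Pool.Agent.Lib.MP_696deb_nt.EV

variable {R : Type} [CommRing R] {ι : Type} {t : ι → TP} {ρ : Gam → R} {H : Subgroup Gam}
  {M : Type} [AddCommGroup M] [Module R M] {c c' : Gam → M}

theorem p2_max (R : Type) [CommRing R] [Lo2 R] :
    ∃ n : ℕ, ∀ x ∈ IsLocalRing.maximalIdeal R ^ n, x = 0 := by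
  obtain ⟨n, hn⟩ := IsArtinianRing.isNilpotent_jacobson_bot (R := R)
  rw [IsLocalRing.jacobson_eq_maximalIdeal _ bot_ne_top] at hn
  exact ⟨n, fun x hx => by rwa [hn] at hx⟩

theorem Lo2.exists_rs (R : Type) [CommRing R] [Lo2 R] :
    ∃ r : R →+* ZMod 3, ∀ u, r u = 0 ↔ ¬ IsUnit u := by
  have z : ∀ u : R, IsLocalRing.residue R u = 0 ↔ ¬ IsUnit u := fun u =>
    IsLocalRing.residue_eq_zero_iff u
  have : CharP (IsLocalRing.ResidueField R) 3 :=
    (CharP.charP_iff_prime_eq_zero Nat.prime_three).2 (by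
      rw [Nat.cast_ofNat, ← map_ofNat (IsLocalRing.residue R)]
      exact (z 3).2 Lo2.three)
  have : Fact (Nat.Prime 3) := ⟨Nat.prime_three⟩
  let φ := ZMod.castHom (dvd_refl 3) (IsLocalRing.ResidueField R)
  have hφ : Function.Bijective φ := ⟨φ.injective, fun y => by
    obtain ⟨x, rfl⟩ := IsLocalRing.residue_surjective y
    rcases Lo2.res x with h | h | h
    · exact ⟨0, (map_zero φ).trans ((z x).2 h).symm⟩
    · have := (z _).2 h
      rw [map_sub, map_one, sub_eq_zero] at this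
      exact ⟨1, (map_one φ).trans this.symm⟩
    · have := (z _).2 h
      rw [map_add, map_one, add_eq_zero_iff_eq_neg] at this
      exact ⟨-1, by rw [map_neg, map_one, this]⟩⟩
  exact ⟨(RingEquiv.ofBijective φ hφ).symm.toRingHom.comp (IsLocalRing.residue R), fun u =>
    (map_eq_zero_iff _ (RingEquiv.ofBijective φ hφ).symm.injective).trans (z u)⟩

/-- The residue map. -/
noncomputable def rs (R : Type) [CommRing R] [Lo2 R] : R →+* ZMod 3 := (Lo2.exists_rs R).choose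

theorem rs_zero [Lo2 R] {u : R} : rs R u = 0 ↔ ¬ IsUnit u := (Lo2.exists_rs R).choose_spec u

theorem rs_eq [Lo2 R] {u u' : R} : rs R u = rs R u' ↔ ¬ IsUnit (u - u') := by
  rw [← rs_zero, map_sub, sub_eq_zero]

theorem rs_one [Lo2 R] {u : R} (h : ∃ n : ℕ, u ^ 3 ^ n = 1) : rs R u = 1 := by
  obtain ⟨n, hn⟩ := h
  have : Fact (Nat.Prime 3) := ⟨Nat.prime_three⟩
  rw [← ZMod.pow_card_pow (n := n) (rs R u), ← map_pow, hn, map_one]

/-- Elements of three-power order are congruent to one. -/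
theorem p2_sub [Lo2 R] {u : R} (h : ∃ n : ℕ, u ^ 3 ^ n = 1) : ¬ IsUnit (u - 1) :=
  rs_eq.1 ((rs_one h).trans (map_one _).symm)

theorem p2_two [Lo2 R] : ¬ IsUnit (3 : R) := Lo2.three

theorem p2_one_sub [Lo2 R] {r : R} (h : ¬ IsUnit r) (s : R) : IsUnit (1 - s * r) :=
  IsLocalRing.isUnit_one_sub_self_of_mem_nonunits _ fun k => h (isUnit_of_mul_isUnit_right k)

theorem Lo2.two_pow (R : Type) [CommRing R] [Lo2 R] : ∃ m : ℕ, (3 : R) ^ m = 0 := by
  obtain ⟨n, hn⟩ := p2_max R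
  exact ⟨n, hn _ (Ideal.pow_mem_pow p2_two n)⟩

theorem Lo2.kill (R : Type) [CommRing R] [Lo2 R] :
    ∃ m : ℕ, ∀ (M : Type) [AddCommGroup M] [Module R M] (x : M), 3 ^ m • x = 0 := by
  obtain ⟨m, hm⟩ := Lo2.two_pow R
  refine ⟨m, fun M _ _ x => ?_⟩
  rw [← Nat.cast_smul_eq_nsmul R, Nat.cast_pow, Nat.cast_ofNat, hm, zero_smul]

theorem Lo2.pow_one [Lo2 R] {u : R} (h : ¬ IsUnit (u - 1)) : ∃ n : ℕ, u ^ 3 ^ n = 1 := by
  obtain ⟨n, hn⟩ := p2_max R
  have k : ∀ j : ℕ, u ^ 3 ^ j - 1 ∈ IsLocalRing.maximalIdeal R ^ (j + 1) := fun j => by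
    induction j with
    | zero => simpa using h
    | succ j ih =>
      have i1 := Ideal.pow_le_self j.succ_ne_zero ih
      rw [show u ^ 3 ^ (j + 1) - 1 = (u ^ 3 ^ j - 1) *
        ((u ^ 3 ^ j - 1) * (u ^ 3 ^ j + 2) + 3) by ring, pow_succ]
      exact Ideal.mul_mem_mul ih (add_mem (Ideal.mul_mem_right _ _ i1) p2_two)
  exact ⟨n, sub_eq_zero.1 (hn _ (Ideal.pow_le_pow_right n.le_succ (k n)))⟩

/-- A submodule of index three. -/
theorem Lo2.exists_fun [Lo2 R] [Finite M] [Nontrivial M] : ∃ f : M →+ ZMod 3,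
    Function.Surjective f ∧ ∀ u x, f ((u : R) • x) = rs R u * f x := by
  obtain ⟨N, hN, -⟩ := (eq_top_or_exists_le_coatom (⊥ : Submodule R M)).resolve_left bot_ne_top
  have k0 : ∀ z, z ∉ N → ∀ y, ∃ r : R, y - r • z ∈ N := fun z hz y => by
    have e : N ⊔ Submodule.span R {z} = ⊤ := hN.2 _ (lt_of_le_of_ne le_sup_left fun e =>
      hz (e ▸ Submodule.mem_sup_right (Submodule.mem_span_singleton_self z)))
    obtain ⟨n, hn, _, hr, rfl⟩ := Submodule.mem_sup.1 (e ▸ Submodule.mem_top : y ∈ N ⊔ _)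
    obtain ⟨r, rfl⟩ := Submodule.mem_span_singleton.1 hr
    exact ⟨r, by rwa [add_sub_cancel_right]⟩
  have k1 : ∀ r : R, ¬ IsUnit r → ∀ y, r • y ∈ N := fun r hr y => by
    by_contra hz
    obtain ⟨s, hs⟩ := k0 _ hz y
    obtain ⟨a, ha⟩ := (p2_one_sub hr s).exists_left_inv
    refine hz (N.smul_mem r ?_)
    have e : y = a • (y - s • r • y) := by
      rw [smul_smul, ← one_smul R y, smul_smul, mul_one, ← sub_smul, smul_smul, ha]
    exact e ▸ N.smul_mem a hs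
  obtain ⟨z, -, hz⟩ := SetLike.exists_of_lt hN.1.lt_top
  choose r hr using k0 z hz
  have k2 : ∀ y s, y - s • z ∈ N → rs R (r y) = rs R s := fun y s h => rs_eq.2 fun hu => by
    obtain ⟨a, ha⟩ := hu.exists_left_inv
    have e : z = a • (y - s • z - (y - r y • z)) := by
      rw [sub_sub_sub_cancel_left, ← sub_smul, smul_smul, ha, one_smul]
    exact hz (e ▸ N.smul_mem a (sub_mem h (hr y)))
  refine ⟨AddMonoidHom.mk' (fun y => rs R (r y)) fun y y' => ?_, fun a => ⟨(a.val : R) • z, ?_⟩,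
    fun u x => ?_⟩
  · rw [← map_add]
    refine k2 _ _ ?_
    rw [add_smul, ← sub_add_sub_comm]
    exact add_mem (hr y) (hr y')
  · exact (k2 _ _ (by rw [sub_self]; exact N.zero_mem)).trans
      (by rw [map_natCast, ZMod.natCast_zmod_val])
  · refine (k2 _ (u * r x) ?_).trans (map_mul _ _ _)
    rw [mul_smul, ← smul_sub]
    exact N.smul_mem u (hr x)

/-- A submodule of order three. -/
theorem Lo2.exists_soc [Lo2 R] [Finite M] [Nontrivial M] : ∃ x : M, x ≠ 0 ∧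
    ∀ u : R, ¬ IsUnit u → u • x = 0 := by
  obtain ⟨N, hN, -⟩ := (eq_bot_or_exists_atom_le (⊤ : Submodule R M)).resolve_left top_ne_bot
  obtain ⟨x, hx, h0⟩ := Submodule.exists_mem_ne_zero_of_ne_bot hN.1
  have k : ∀ u : R, ¬ IsUnit u → u • x = 0 := fun u hu => by
    by_contra hz
    have e : Submodule.span R {u • x} = N := (hN.le_iff.1 ((Submodule.span_singleton_le_iff_mem
      _ _).2 (N.smul_mem u hx))).resolve_left fun k => hz (Submodule.span_singleton_eq_bot.1 k)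
    obtain ⟨s, hs⟩ := Submodule.mem_span_singleton.1 (e ▸ hx : x ∈ Submodule.span R {u • x})
    obtain ⟨a, ha⟩ := (p2_one_sub hu s).exists_left_inv
    refine h0 ?_
    rw [← one_smul R x, ← ha, mul_smul, sub_smul, one_smul, mul_smul, hs, sub_self, smul_zero]
  exact ⟨x, h0, k⟩

theorem p2_inv (h : Chr ρ) {g : Gam} (hg : g ∈ G) : ρ g * ρ g⁻¹ = 1 := by
  rw [← h.mul g hg _ (inv_mem hg), mul_inv_cancel, h.one]

theorem Chr.isUnit (h : Chr ρ) {g : Gam} (hg : g ∈ G) : IsUnit (ρ g) :=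
  IsUnit.of_mul_eq_one _ (p2_inv h hg)

theorem Chr.pow (h : Chr ρ) {g : Gam} (hg : g ∈ G) (n : ℕ) : ρ (g ^ n) = ρ g ^ n := by
  induction n with
  | zero => rw [pow_zero, pow_zero, h.one]
  | succ n ih => rw [pow_succ, h.mul _ (pow_mem hg n) g hg, ih, pow_succ]

theorem Chr.conj (h : Chr ρ) {g k : Gam} (hg : g ∈ G) (hk : k ∈ G) : ρ (g * k * g⁻¹) = ρ k := by
  rw [h.mul _ (mul_mem hg hk) _ (inv_mem hg), h.mul g hg k hk, mul_right_comm, p2_inv h hg, one_mul]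

theorem Chr.act (h : Chr ρ) (hH : H ≤ G) : Act H (sa M ρ) := by
  refine ⟨(h.sm.mono hH).comp fun r => DistribSMul.toAddMonoidHom M r, fun x => ?_,
    fun g hg k hk x => ?_, fun g hg _ => ?_⟩
  · rw [sa_apply, h.one, one_smul]
  · rw [sa_apply, sa_apply, sa_apply, h.mul g (hH hg) k (hH hk), mul_smul]
  · obtain ⟨n, hn⟩ := h.three g (hH hg)
    exact ⟨n, fun x => by rw [sa_apply, h.pow (hH hg), hn, one_smul]⟩

theorem Chr.map {R' : Type} [CommRing R'] (f : R →+* R') (h : Chr ρ) : Chr fun g => f (ρ g) :=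
  ⟨h.sm.comp f, by rw [h.one, map_one], fun g hg k hk => by rw [h.mul g hg k hk, map_mul],
    fun g hg => (h.three g hg).imp fun n hn => by rw [← map_pow, hn, map_one]⟩

theorem Chr.rs [Lo2 R] (h : Chr ρ) {g : Gam} (hg : g ∈ G) : rs R (ρ g) = 1 := rs_one (h.three g hg)

theorem Chr.res [Lo2 R] (h : Chr ρ) {g : Gam} (hg : g ∈ G) : ¬ IsUnit (ρ g - 1) :=
  p2_sub (h.three g hg)

theorem Chr.cob (h : Chr ρ) (hH : H ≤ G) (x : M) : Zc H ρ fun g => (ρ g - 1) • x :=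
  ⟨(h.sm.mono hH).comp fun r => (r - 1) • x, fun g hg k hk => by
    simp only [h.mul g (hH hg) k (hH hk)]
    module⟩

theorem Zc.mono (h : Zc H ρ c) {H' : Subgroup Gam} (k : H' ≤ H) : Zc H' ρ c :=
  ⟨h.1.mono k, fun g hg x hx => h.2 g (k hg) x (k hx)⟩

theorem Zc.add (h : Zc H ρ c) (k : Zc H ρ c') : Zc H ρ fun g => c g + c' g :=
  ⟨h.1.comp₂ k.1 (· + ·), fun g hg x hx => by
    simp only [h.2 g hg x hx, k.2 g hg x hx]
    module⟩

theorem Zc.sub (h : Zc H ρ c) (k : Zc H ρ c') : Zc H ρ fun g => c g - c' g :=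
  ⟨h.1.comp₂ k.1 (· - ·), fun g hg x hx => by
    simp only [h.2 g hg x hx, k.2 g hg x hx]
    module⟩

theorem Zc.lin (h : Zc H ρ c) {M' : Type} [AddCommGroup M'] [Module R M'] (f : M →ₗ[R] M') :
    Zc H ρ fun g => f (c g) :=
  ⟨h.1.comp f, fun g hg x hx => by simp only [h.2 g hg x hx, map_add, map_smul]⟩

theorem Zc.smul (h : Zc H ρ c) (a : R) : Zc H ρ fun g => a • c g :=
  ⟨h.1.comp (a • ·), fun g hg x hx => by
    simp only [h.2 g hg x hx]
    module⟩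

theorem Zc.map {R' : Type} [CommRing R'] (f : R →+* R') {c : Gam → R} (h : Zc H ρ c) :
    Zc H (fun g => f (ρ g)) fun g => f (c g) :=
  ⟨h.1.comp f, fun g hg x hx => by simp only [h.2 g hg x hx, map_add, smul_eq_mul, map_mul]⟩

theorem Zc.congr {ρ' : Gam → R} (h : Zc H ρ c) (k : ∀ g ∈ H, ρ' g = ρ g) (k' : ∀ g ∈ H, c' g = c g) :
    Zc H ρ' c' :=
  ⟨h.1.congr fun g hg => (k' g hg).symm, fun g hg x hx => by
    rw [k' _ (mul_mem hg hx), k' g hg, k' x hx, k g hg, h.2 g hg x hx]⟩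

theorem Adm.map {R' : Type} [CommRing R'] (f : R →+* R') (h : Adm t ρ) :
    Adm t fun g => f (ρ g) := by
  refine ⟨h.inj, h.chr.map f, fun v hv σ hσ => ?_, fun i => ?_⟩
  · show f (ρ σ) - 1 = 0
    rw [sub_eq_zero.1 (h.unr v hv σ hσ), map_one, sub_self]
  · have e := congrArg f (h.geo i)
    rw [map_sum, map_zero] at e
    simpa only [Geo, map_pow] using e

theorem Val.map [Fintype ι] {R' : Type} [CommRing R'] (f : R →+* R') {L : Gam → ι ⊕ Fin 2 → R}
    (h : Val t ρ L) : Val t (fun g => f (ρ g)) fun g j => f (L g j) := by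
  intro M _ _ _ c hc hu g hg
  let _ : Module R M := Module.compHom M f
  exact h M c hc hu g hg

/-- Devissage. -/
theorem Zc.zero_of [Lo2 R] [Finite M] (hρ : Chr ρ) (hH : H ≤ G) (h : Zc H ρ c) (S : Set Gam)
    (h0 : ∀ g ∈ S, c g = 0)
    (hd : ∀ χ, B4bG H χ → (∀ g ∈ S, g ∈ H → χ g = 0) → ∀ g ∈ H, χ g = 0) : ∀ g ∈ H, c g = 0 := by
  by_contra hc
  push Not at hc
  obtain ⟨g0, hg0, hne⟩ := hc
  have hm : ∀ g ∈ H, c g ∈ Submodule.span R (c '' H) := fun g hg =>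
    Submodule.subset_span ⟨g, hg, rfl⟩
  have : Nontrivial (Submodule.span R (c '' H)) :=
    ⟨⟨⟨c g0, hm g0 hg0⟩, 0, fun e => hne (congrArg Subtype.val e)⟩⟩
  obtain ⟨f, f1, f2⟩ := Lo2.exists_fun (R := R) (M := Submodule.span R (c '' H))
  let φ : M → ZMod 3 := fun x => if hx : x ∈ Submodule.span R (c '' H) then f ⟨x, hx⟩ else 0
  have hφ : ∀ x hx, φ x = f ⟨x, hx⟩ := fun x hx => dif_pos hx
  have k := hd (fun g => φ (c g)) ⟨h.1.comp φ, fun g hg x hx => by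
      beta_reduce
      rw [hφ _ (hm _ (mul_mem hg hx)), hφ _ (hm g hg), hφ _ (hm x hx),
        ← one_mul (f ⟨c x, _⟩), ← hρ.rs (hH hg), ← f2, ← map_add]
      exact congrArg f (Subtype.ext (h.2 g hg x hx))⟩ fun g hg _ => by
    rw [h0 g hg, hφ 0 (zero_mem _)]
    exact map_zero f
  have k2 : ∀ x hx, f ⟨x, hx⟩ = 0 := fun x hx => by
    induction hx using Submodule.span_induction with
    | mem x hx =>
      obtain ⟨g, hg, rfl⟩ := hx
      exact (hφ _ _).symm.trans (k g hg)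
    | zero => exact map_zero f
    | add x y hx hy e e' =>
      exact (map_add f ⟨x, hx⟩ ⟨y, hy⟩).trans (by rw [e, e', add_zero])
    | smul a x hx e => exact (f2 a ⟨x, hx⟩).trans (by rw [e, mul_zero])
  obtain ⟨x, hx⟩ := f1 1
  exact absurd ((k2 x.1 x.2).symm.trans hx) (by decide)

theorem Zc.zero_gen [Lo2 R] [Finite M] (hρ : Chr ρ) (h : Zc G ρ c) (hu : Unr t c)
    (h0 : ∀ j, c (gen t j) = 0) : ∀ g ∈ G, c g = 0 := by
  refine h.zero_of hρ le_rfl ({σ | ∃ v, Off t v ∧ σ ∈ Ine v} ∪ Set.range (gen t)) ?_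
    fun χ hχ k => det2 (t := t) hχ (fun v hv σ hσ => k σ (Or.inl ⟨v, hv, hσ⟩) (ine_le hv.1 hσ))
      fun j => k _ (Or.inr ⟨j, rfl⟩) (gen_mem t j)
  rintro g (⟨v, hv, hσ⟩ | ⟨j, rfl⟩)
  exacts [hu v hv g hσ, h0 j]

theorem Zc.zero_ew [Lo2 R] [Finite M] (hρ : Chr ρ) (h : Zc Hw ρ c) (h0 : ∀ j, c (ew j) = 0) :
    ∀ g ∈ Hw, c g = 0 := by
  refine h.zero_of hρ inf_le_left (Set.range ew) ?_
    fun χ hχ k => ew_spec.2 χ hχ fun j => k _ ⟨j, rfl⟩ (ew_mem j)
  rintro g ⟨j, rfl⟩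
  exact h0 j

theorem unr_mono {N : Type} [Zero N] {f : Gam → N} {t' : Option ι → TP}
    (ht : ∀ i, t' (some i) = t i) (h : Unr t f) : Unr t' f :=
  fun v hv => h v ⟨hv.1, fun i => ht i ▸ hv.2 (some i)⟩

theorem unr_of_zero [Lo2 R] [Finite M] {t' : Option ι → TP} (ht : ∀ i, t' (some i) = t i)
    (hρ : Chr ρ) (hu : Unr t fun g => ρ g - 1) (h : Zc G ρ c) (k : Unr t' c)
    (h0 : c (t' none).σ = 0) : Unr t c := by
  intro v hv σ hσ
  by_cases h1 : v.V (io (t' none).π) = 1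
  · refine k v ⟨hv.1, fun i => ?_⟩ σ hσ
    rcases i with _ | i
    exacts [h1, ht i ▸ hv.2 i]
  obtain ⟨t0, rfl⟩ := exists_tp_v hv.1
  obtain ⟨g, hg, e⟩ := (t' none).conj (t0.V_lt.2 (not_not.1 fun k => h1 (t0.V_eq.2 k)))
  obtain ⟨m, hm⟩ := Lo2.kill R
  have h2 : Off t (t' none).v := ⟨(t' none).odd, fun i => by
    rw [← hv.2 i, ← e, B2.smul_V, io_fx _ _ (inv_mem hg)]⟩
  refine H3.Coc.unr_smul (w := (t' none).v) (hρ.act le_rfl) (zc_iff.1 h) (fun τ hτ x => ?_)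
    (fun τ hτ => ?_) hg σ ⟨ine_le hv.1 hσ, e ▸ hσ⟩
  · rw [sa_apply, sub_eq_zero.1 (hu _ h2 τ hτ.2), one_smul]
  · exact (t' none).tm.zero_ine (hm M) (hρ.act inf_le_left) (zc_iff.1 (h.mono inf_le_left)) h0 hτ.2

/-- Natural expressions. -/
theorem p2_nat [Lo2 R] {J K : Type} [Fintype J] [Fintype K] (g : Gam) (a : K → R) (x : K → Gam)
    (y : J → Gam) (h : ∀ (M : Type) [AddCommGroup M] [Module R M] [Finite M] (c : Gam → M),
      Zc G ρ c → Unr t c → (∀ j, c (y j) = 0) → c g = ∑ k, a k • c (x k)) :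
    ∃ β : J → R, ∀ (M : Type) [AddCommGroup M] [Module R M] [Finite M] (c : Gam → M),
      Zc G ρ c → Unr t c → c g = ∑ k, a k • c (x k) + ∑ j, β j • c (y j) := by
  by_contra hc
  push Not at hc
  choose M i1 i2 i3 c hc hu hne using hc
  let C : Gam → ∀ β, M β := fun g β => c β g
  have hC : Zc G ρ C := ⟨B2.Sm.pi fun β => (hc β).1, fun g hg k hk =>
    funext fun β => (hc β).2 g hg k hk⟩
  let N := Submodule.span R (Set.range fun j => C (y j))
  have : Finite ((∀ β, M β) ⧸ N) := Finite.of_surjective _ N.mkQ_surjective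
  have e := h _ (fun g => N.mkQ (C g)) (hC.lin _) (fun v hv σ hσ => by
    beta_reduce
    rw [show C σ = 0 from funext fun β => hu β v hv σ hσ, map_zero]) fun j =>
      (Submodule.Quotient.mk_eq_zero N).2 (Submodule.subset_span ⟨j, rfl⟩)
  have e2 : C g - ∑ k, a k • C (x k) ∈ N := by
    rw [← Submodule.Quotient.mk_eq_zero, ← N.mkQ_apply, map_sub, e, map_sum]
    simp only [map_smul, sub_self]
  obtain ⟨β, hβ⟩ := (Submodule.mem_span_range_iff_exists_fun R).1 e2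
  have e3 := congrFun hβ β
  simp only [Finset.sum_apply, Pi.smul_apply, Pi.sub_apply] at e3
  exact hne β (sub_eq_iff_eq_add'.1 e3.symm)

theorem exists_val [Lo2 R] [Fintype ι] (t : ι → TP) (hρ : Chr ρ) : ∃ L, Val t ρ L := by
  have k := fun g (hg : g ∈ G) => p2_nat (t := t) (ρ := ρ) (K := Empty) g (fun _ => 0) (fun _ => 1)
    (gen t) fun M _ _ _ c hc hu h0 => by rw [hc.zero_gen hρ hu h0 g hg, Fintype.sum_empty]
  choose L hL using k
  refine ⟨fun g => if hg : g ∈ G then L g hg else 0, fun M _ _ _ c hc hu g hg => ?_⟩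
  beta_reduce
  rw [hL g hg M c hc hu, Fintype.sum_empty, zero_add, dif_pos hg]

theorem Val.ext [Lo2 R] [Fintype ι] {L : Gam → ι ⊕ Fin 2 → R} (h : Val t ρ L) (hρ : Chr ρ)
    (hu : Unr t fun g => ρ g - 1) {t' : Option ι → TP} (ht : ∀ i, t' (some i) = t i) :
    ∃ L', Val t' ρ L' ∧ ∀ g j, L' g (Sum.map some id j) = L g j := by
  have k := fun g (hg : g ∈ G) => p2_nat (t := t') (ρ := ρ) (J := Unit) g (L g) (gen t)
    (fun _ => (t' none).σ) fun M _ _ _ c hc hu' h0 =>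
      h M c hc (unr_of_zero ht hρ hu hc hu' (h0 ())) g hg
  choose β hβ using k
  refine ⟨fun g => Sum.elim (fun o => o.elim (if hg : g ∈ G then β g hg () else 0)
    fun i => L g (Sum.inl i)) fun j => L g (Sum.inr j), fun M _ _ _ c hc hu' g hg => ?_,
    fun g j => by rcases j with i | j <;> rfl⟩
  rw [hβ g hg M c hc hu']
  simp only [Fintype.sum_sum_type, Fintype.sum_option, Sum.elim_inl, Sum.elim_inr, Option.elim,
    gen, ht, dif_pos hg, Fintype.sum_unique]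
  abel

end Pool.Agent.Lib.MP_696deb_nt.EV
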