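import Pool.Agent.Lib.MP_696deb_nt.EV.P2

/-! Local cocycles at tame primes and at three. -/

set_option autoImplicit false

open scoped Classical NNReal
open Finset

namespace Pool.Agent.Lib.MP_696deb_nt.EV

variable {R : Type} [CommRing R] {ι : Type} {t : ι → TP} {ρ : Gam → R} {H : Subgroup Gam}
  {M : Type} [AddCommGroup M] [Module R M] {c c' : Gam → M}

theorem p3_pos (r : TP) : nm r.π = nm r.π - 1 + 1 := by
  have := r.nm_mod
  omega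

theorem p3_geo {r : TP} (hg : Geo ρ r) : ρ r.σ ^ (nm r.π - 1) = 1 := by
  have := mul_geom_sum (ρ r.σ) (nm r.π - 1)
  rw [hg, mul_zero] at this
  exact (sub_eq_zero.1 this.symm)

theorem Zc.rel [Lo2 R] [Finite M] (hρ : Chr ρ) {r : TP} (hg : Geo ρ r)
    (h : Zc (G ⊓ Dec r.v) ρ c) : (ρ r.σ - 1) • c r.φ = (ρ r.φ - 1) • c r.σ := by
  obtain ⟨m, hm⟩ := Lo2.kill R
  have ha : Act (G ⊓ Dec r.v) (sa M ρ) := hρ.act inf_le_left
  have e := r.tm.rel (hm M) ha (zc_iff.1 h) r.σ_ine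
  rw [(zc_iff.1 h).lo_pow ha r.tm.τ_mem] at e
  simp only [sa_apply, hρ.pow r.σ_mem] at e
  rw [← sum_smul, p3_pos r, sum_range_succ, hg, pow_succ, p3_geo hg, zero_add, one_mul,
    one_smul] at e
  rw [sub_smul, sub_smul, one_smul, one_smul, sub_eq_sub_iff_add_eq_add, add_comm, ← e, add_comm]

theorem Zc.cob_σ [Lo2 R] [Finite M] (hρ : Chr ρ) {r : TP} (hg : Geo ρ r)
    (h : Zc (G ⊓ Dec r.v) ρ c) : ∀ g ∈ G ⊓ Dec r.v, (ρ r.σ - 1) • c g = (ρ g - 1) • c r.σ := by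
  obtain ⟨m, hm⟩ := Lo2.kill R
  exact fun g k => r.tm.ext (hm M) (hρ.act inf_le_left) (zc_iff.1 (h.smul (ρ r.σ - 1)))
    (zc_iff.1 (hρ.cob inf_le_left (c r.σ))) rfl (h.rel hρ hg) k

theorem Zc.cob_φ [Lo2 R] [Finite M] (hρ : Chr ρ) {r : TP} (hg : Geo ρ r)
    (h : Zc (G ⊓ Dec r.v) ρ c) : ∀ g ∈ G ⊓ Dec r.v, (ρ r.φ - 1) • c g = (ρ g - 1) • c r.φ := by
  obtain ⟨m, hm⟩ := Lo2.kill R
  exact fun g k => r.tm.ext (hm M) (hρ.act inf_le_left) (zc_iff.1 (h.smul (ρ r.φ - 1)))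
    (zc_iff.1 (hρ.cob inf_le_left (c r.φ))) (h.rel hρ hg).symm rfl k

variable (R M) in
/-- Affine maps whose linear part is a scalar. -/
@[ext] structure P3A where
  t : M
  u : Rˣ

instance : Mul (P3A R M) := ⟨fun a b => ⟨a.t + (a.u : R) • b.t, a.u * b.u⟩⟩

instance : One (P3A R M) := ⟨⟨0, 1⟩⟩

instance : Inv (P3A R M) := ⟨fun a => ⟨-(((a.u⁻¹ : Rˣ) : R) • a.t), a.u⁻¹⟩⟩

theorem p3_mul_t (a b : P3A R M) : (a * b).t = a.t + (a.u : R) • b.t := rfl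

theorem p3_mul_u (a b : P3A R M) : (a * b).u = a.u * b.u := rfl

instance : Group (P3A R M) := Group.ofLeftAxioms
  (fun a b c => P3A.ext (by simp only [p3_mul_t, p3_mul_u, smul_add, Units.val_mul, mul_smul,
    add_assoc]) (mul_assoc _ _ _))
  (fun a => P3A.ext ((zero_add _).trans (one_smul R _)) (one_mul _))
  fun a => P3A.ext (neg_add_cancel _) (inv_mul_cancel _)

theorem p3_pow (a : P3A R M) (k : ℕ) :
    a ^ k = ⟨(∑ i ∈ range k, (a.u : R) ^ i) • a.t, a.u ^ k⟩ := by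
  induction k with
  | zero => exact P3A.ext (by simp; rfl) (by simp; rfl)
  | succ k ih =>
    rw [pow_succ, ih]
    exact P3A.ext (by rw [p3_mul_t, sum_range_succ, add_smul, Units.val_pow_eq_pow_val])
      (pow_succ _ _).symm

theorem p3_two [Lo2 R] (a : P3A R M) (h : ∃ n : ℕ, a.u ^ 3 ^ n = 1) : ∃ n : ℕ, a ^ 3 ^ n = 1 := by
  obtain ⟨m, hm⟩ := Lo2.kill R
  obtain ⟨n, hn⟩ := h
  refine ⟨n + m, ?_⟩
  have e : (a ^ 3 ^ n).u = 1 := by rw [p3_pow, hn]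
  rw [pow_add, pow_mul, p3_pow, e]
  refine P3A.ext ?_ (one_pow _)
  simp only [Units.val_one, one_pow, sum_const, card_range, smul_assoc, one_smul]
  exact hm M _

theorem p3_cm {F : Type} [Group F] {a b : F} (hc : Commute a b) (h : ∃ n : ℕ, a ^ 3 ^ n = 1)
    (k : ∃ n : ℕ, b ^ 3 ^ n = 1) : ∃ n : ℕ, (a * b) ^ 3 ^ n = 1 := by
  obtain ⟨m, hm⟩ := h
  obtain ⟨n, hn⟩ := k
  exact ⟨m + n, by rw [hc.mul_pow, pow_add, pow_mul, hm, mul_comm (3 ^ m), pow_mul b, hn, one_pow,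
    one_pow, mul_one]⟩

theorem p3_pw {F : Type} [Group F] {a : F} (h : ∃ n : ℕ, a ^ 3 ^ n = 1) (k : ℕ) :
    ∃ n : ℕ, (a ^ k) ^ 3 ^ n = 1 := h.imp fun n hn => by rw [pow_right_comm, hn, one_pow]

theorem p3_add {F : Type} [Group F] {T : F} {n : ℕ} (h : T ^ 3 ^ n = 1) (a b : ZMod (3 ^ n)) :
    T ^ (a + b).val = T ^ a.val * T ^ b.val := by
  rw [ZMod.val_add, ← pow_eq_pow_mod _ h, pow_add]

theorem p3_one {F : Type} [Group F] {T : F} {n : ℕ} (h : T ^ 3 ^ n = 1) :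
    T ^ (1 : ZMod (3 ^ n)).val = T := by
  rw [ZMod.val_one_eq_one_mod, ← pow_eq_pow_mod _ h, pow_one]

/-- Homomorphisms to a three-group are determined by the values at the two generators. -/
theorem p3_ext {F : Type} [Group F] (r : TP) {π π' : Gam → F}
    (hF : ∀ g ∈ G ⊓ Dec r.v, ∃ n : ℕ, π g ^ 3 ^ n = 1)
    (hF' : ∀ g ∈ G ⊓ Dec r.v, ∃ n : ℕ, π' g ^ 3 ^ n = 1) (h1 : Sm (G ⊓ Dec r.v) π) (h2 : B2.IsMul (G ⊓ Dec r.v) π)
    (k1 : Sm (G ⊓ Dec r.v) π') (k2 : B2.IsMul (G ⊓ Dec r.v) π') (e : π r.σ = π' r.σ)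
    (e' : π r.φ = π' r.φ) {g : Gam} (hg : g ∈ G ⊓ Dec r.v) : π g = π' g := by
  have s := h1.comp₂ k1 Prod.mk
  have l := r.tm.ine_le
  obtain ⟨U, u1, -, u3⟩ := id s
  obtain ⟨n, σ, hσ, k⟩ := r.tm.dg hg u1
  have p := pow_mem r.tm.φ_mem n
  have a := Prod.mk.inj (u3 _ (mul_mem p (l hσ)) g hg k)
  obtain ⟨j, b⟩ := H3.tame_gen (π := fun g => (π g, π' g)) r.odd r.tm.gen (s.mono l)
    (fun a ha b hb => Prod.ext (h2 a (l ha) b (l hb)) (k2 a (l ha) b (l hb))) (fun a ha => by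
      obtain ⟨i, hi⟩ := hF a (l ha)
      obtain ⟨j, hj⟩ := hF' a (l ha)
      exact ⟨i + j, Prod.ext (by simp [pow_add, pow_mul, hi])
        (by simp [add_comm i, pow_add, pow_mul, hj])⟩) hσ
  have b := Prod.mk.inj b
  rw [← a.1, ← a.2, h2 _ p _ (l hσ), k2 _ p _ (l hσ), B2.b4a_pow h2 r.tm.φ_mem,
    B2.b4a_pow k2 r.tm.φ_mem, b.1, b.2, e, e']

/-- A tame character that takes the value one at the generator. -/
theorem p3_kap (r : TP) {j : ℕ} (h : 3 ^ j ∣ nm r.π - 1) :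
    ∃ κ : Gam → ZMod (3 ^ j), Sm (G ⊓ Dec r.v) κ ∧ IsHom (G ⊓ Dec r.v) κ ∧ κ r.σ = 1 := by
  obtain ⟨κ, hκ⟩ := H3.exists_kum (H := G ⊓ Dec r.v) (a := (r.v.p : Qbar)) j
    (by exact_mod_cast r.v.prime.ne_zero) fun g _ => map_natCast g _
  have hq : (nm r.π : ZMod (3 ^ j)) = 1 := by
    rw [p3_pos r, Nat.cast_succ, (ZMod.natCast_eq_zero_iff _ _).2 h, zero_add]
  obtain ⟨u, e⟩ := (H3.lo2_unit r.tm.gen r.tm.τ_mem hκ).exists_left_inv
  exact ⟨fun g => u * κ g, hκ.sm.comp _, fun g hg k hk => by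
    simp only [hκ.coc g hg k hk, r.tm.cy_one hq hg, one_mul, mul_add], e⟩

theorem p3_hom {F : Type} [Group F] (r : TP) {S Φ : F} (hF : ∃ n : ℕ, S ^ 3 ^ n = 1)
    (hF' : ∃ n : ℕ, Φ ^ 3 ^ n = 1) (hc : Commute S Φ) (hS : S ^ (nm r.π - 1) = 1) :
    ∃ π : Gam → F, Sm (G ⊓ Dec r.v) π ∧ B2.IsMul (G ⊓ Dec r.v) π ∧ π r.σ = S ∧ π r.φ = Φ ∧
      ∀ g, ∃ n : ℕ, π g ^ 3 ^ n = 1 := by
  obtain ⟨j, j1, j2⟩ : ∃ j, S ^ 3 ^ j = 1 ∧ 3 ^ j ∣ nm r.π - 1 := by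
    obtain ⟨n, hn⟩ := hF
    obtain ⟨j, -, e⟩ := (Nat.dvd_prime_pow Nat.prime_three).1 (orderOf_dvd_of_pow_eq_one hn)
    exact ⟨j, e ▸ pow_orderOf_eq_one S, e ▸ orderOf_dvd_of_pow_eq_one hS⟩
  obtain ⟨κ, k1, k2, k3⟩ := p3_kap r j2
  obtain ⟨n, hn⟩ := p3_cm (hc.pow_left (κ r.φ).val).inv_left
    ((p3_pw hF _).imp fun n hn => by rw [inv_pow, hn, inv_one]) hF'
  obtain ⟨ω, o1, o2, o3, o4⟩ := r.tm.exists_om n
  have hc' : Commute S ((S ^ (κ r.φ).val)⁻¹ * Φ) :=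
    ((Commute.refl S).pow_right _).inv_right.mul_right hc
  refine ⟨fun g => S ^ (κ g).val * ((S ^ (κ r.φ).val)⁻¹ * Φ) ^ (ω g).val,
    k1.comp₂ o1 fun a b => S ^ a.val * ((S ^ (κ r.φ).val)⁻¹ * Φ) ^ b.val, fun g hg k hk => ?_,
    ?_, ?_, fun g => p3_cm (hc'.pow_pow _ _) (p3_pw hF _) (p3_pw ⟨n, hn⟩ _)⟩
  · simp only [k2 g hg k hk, o2 g hg k hk, p3_add j1, p3_add hn]
    exact (hc'.pow_pow _ _).mul_mul_mul_comm _ _
  · simp only [k3, o4 _ r.σ_ine, p3_one j1, ZMod.val_zero, pow_zero, mul_one]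
  · simp only [o3, p3_one hn, mul_inv_cancel_left]

theorem exists_tame [Lo2 R] [Finite M] (hρ : Chr ρ) {r : TP} (hg : Geo ρ r) {x y : M}
    (h : (ρ r.σ - 1) • y = (ρ r.φ - 1) • x) :
    ∃ c : Gam → M, Zc (G ⊓ Dec r.v) ρ c ∧ c r.φ = y ∧ c r.σ = x := by
  let U : R → Rˣ := fun a => if h : IsUnit a then h.unit else 1
  have hU {g : Gam} (k : g ∈ G) : (U (ρ g) : R) = ρ g := by
    simp only [U, dif_pos (hρ.isUnit k), IsUnit.unit_spec]
  have h3 {g : Gam} (k : g ∈ G) : ∃ n : ℕ, U (ρ g) ^ 3 ^ n = 1 := (hρ.three g k).imp fun n hn =>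
    Units.ext (by rw [Units.val_pow_eq_pow_val, hU k, hn, Units.val_one])
  obtain ⟨π, p1, p2, p3, p4, p5⟩ := p3_hom (F := P3A R M) r (S := ⟨x, U (ρ r.σ)⟩)
    (Φ := ⟨y, U (ρ r.φ)⟩) (p3_two _ (h3 r.σ_mem)) (p3_two _ (h3 r.φ_mem)) (P3A.ext (by
      simp only [p3_mul_t, hU r.σ_mem, hU r.φ_mem]
      rw [sub_smul, sub_smul, one_smul, one_smul, sub_eq_sub_iff_add_eq_add] at h
      rw [add_comm, h, add_comm]) (mul_comm _ _)) (by
      rw [p3_pow]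
      refine P3A.ext ?_ (Units.ext ?_)
      · simp only [hU r.σ_mem]
        rw [hg, zero_smul]
        rfl
      · rw [Units.val_pow_eq_pow_val, hU r.σ_mem, p3_geo hg]
        rfl)
  have e {g : Gam} (k : g ∈ G ⊓ Dec r.v) : (π g).u = U (ρ g) :=
    p3_ext r (π := fun g => (π g).u) (π' := fun g => U (ρ g)) (fun g _ => (p5 g).imp fun n hn => by
        rw [p3_pow] at hn
        exact congrArg P3A.u hn) (fun g hg => h3 hg.1) (p1.comp _)
      (fun a ha b hb => congrArg P3A.u (p2 a ha b hb)) ((hρ.sm.mono inf_le_left).comp U)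
      (fun a ha b hb => Units.ext (by
        rw [Units.val_mul, hU ha.1, hU hb.1, hU (mul_mem ha.1 hb.1), hρ.mul a ha.1 b hb.1]))
      (congrArg P3A.u p3) (congrArg P3A.u p4) k
  exact ⟨fun g => (π g).t, ⟨p1.comp _, fun a ha b hb => by
    simp only [p2 a ha b hb, p3_mul_t, e ha, hU ha.1]⟩, congrArg P3A.t p4, congrArg P3A.t p3⟩

theorem p3_zeta (e : ℕ) : zeta (e + 1) ^ 3 ^ e = zeta 1 := by
  induction e with
  | zero => rw [pow_zero, pow_one]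
  | succ e ih => rw [pow_succ', pow_mul, H3.zeta_succ_cube, ih]

theorem p3_par (hH : H ≤ G) {e : ℕ} {x : Qbar} {κ : Gam → ZMod (3 ^ (e + 1))}
    (h : Kum (e + 1) H x κ) {g : Gam} (hg : g ∈ H) : chC x g = ((κ g).val : ZMod 3) := by
  obtain ⟨r, r0, r1, r2⟩ := h
  refine chC_eq (hH hg) (pow_ne_zero (3 ^ e) r0) (by rw [← pow_mul, ← pow_succ, r1]) ?_
  rw [map_pow, r2 g hg, mul_pow, pow_right_comm, p3_zeta, ZMod.val_natCast,
    ← pow_eq_pow_mod (n := 3) _ (H3.zeta_prim 1).pow_eq_one]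

theorem p3_rs [Lo2 R] {e : ℕ} (f : ZMod (3 ^ e) →+* R) (a : ZMod (3 ^ e)) :
    rs R (f a) = (a.val : ZMod 3) := by
  conv_lhs => rw [← ZMod.natCast_zmod_val a, map_natCast, map_natCast]

theorem p3_isUnit [Lo2 R] {e : ℕ} (f : ZMod (3 ^ e) →+* R) (a : ZMod (3 ^ e)) :
    IsUnit (f a) ↔ ¬ 3 ∣ a.val := by
  rw [← ZMod.natCast_eq_zero_iff, ← p3_rs f, rs_zero, not_not]

/-- If all vectors are values of local cocycles at three, the character is cyclotomic. -/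
theorem lw [Lo2 R] [Finite M] (hρ : Chr ρ) {e : ℕ} (f : ZMod (3 ^ e) →+* R) (m : M)
    (h : ∀ x : Fin 4 → R, ∃ c : Gam → M, Zc Hw ρ c ∧ ∀ i, c (ew i) = x i • m) :
    ∀ g ∈ Hw, (ρ g - f (cy e g)) • m = 0 := by
  cases e with
  | zero => exact absurd (f.codomain_trivial (α := ZMod 1)) (not_subsingleton R)
  | succ e =>
  let N := Submodule.span R {y | ∃ g ∈ Hw, y = (ρ g - f (cy (e + 1) g)) • m}
  have hN {g : Gam} (k : g ∈ Hw) : (ρ g - f (cy (e + 1) g)) • m ∈ N :=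
    Submodule.subset_span ⟨g, k, rfl⟩
  rcases subsingleton_or_nontrivial N with k | k
  · exact fun g hg => congrArg Subtype.val (Subsingleton.elim (⟨_, hN hg⟩ : N) 0)
  exfalso
  obtain ⟨φ, f1, f2⟩ := Lo2.exists_fun (R := R) (M := N)
  let Φ : M → ZMod 3 := fun y => if h : y ∈ N then φ ⟨y, h⟩ else 0
  have a0 {y : M} (h : y ∈ N) : Φ y = φ ⟨y, h⟩ := dif_pos h
  have a1 {y z : M} (hy : y ∈ N) (hz : z ∈ N) : Φ (y + z) = Φ y + Φ z := by
    rw [a0 hy, a0 hz, a0 (add_mem hy hz), ← map_add]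
    rfl
  have a2 (u : R) {y : M} (hy : y ∈ N) : Φ (u • y) = rs R u * Φ y := by
    rw [a0 hy, a0 (N.smul_mem u hy), ← f2 u ⟨y, hy⟩]
    rfl
  have sρ := hρ.sm.mono (inf_le_left : Hw ≤ G)
  have uc {g : Gam} (hg : g ∈ G) : rs R (f (cy (e + 1) g)) = 1 :=
    rs_one ⟨e + 1, by rw [← map_pow, cy_three hg, map_one]⟩
  have z := nondeg_w3 (χ := fun g => Φ ((ρ g - f (cy (e + 1) g)) • m))
    ⟨sρ.comp₂ (H3.sm_cy (e + 1)) fun a b => Φ ((a - f b) • m), fun g hg k hk => by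
      have : (ρ (g * k) - f (cy (e + 1) (g * k))) • m = f (cy (e + 1) k) •
          (ρ g - f (cy (e + 1) g)) • m + ρ g • (ρ k - f (cy (e + 1) k)) • m := by
        rw [hρ.mul g hg.1 k hk.1, H3.b3b_cy, map_mul]
        module
      simp only [this]
      rw [a1 (N.smul_mem _ (hN hg)) (N.smul_mem _ (hN hk)), a2 _ (hN hg), a2 _ (hN hk), uc hk.1,
        hρ.rs hg.1, one_mul, one_mul]⟩ fun a a0 => by
    obtain ⟨κ, hκ⟩ := H3.exists_kum (H := Hw) (e + 1) (EW.io_ne a0) fun g hg => io_fx a g hg.1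
    obtain ⟨c, c1, c2⟩ := h fun i => f (κ (ew i))
    have sd : Sm Hw fun g => c g - f (κ g) • m := c1.1.comp₂ hκ.sm fun a b => a - f b • m
    have md {g k : Gam} (hg : g ∈ Hw) (hk : k ∈ Hw) : c (g * k) - f (κ (g * k)) • m =
        c g - f (κ g) • m + ρ g • (c k - f (κ k) • m) +
          f (κ k) • (ρ g - f (cy (e + 1) g)) • m := by
      rw [c1.2 g hg k hk, hκ.coc g hg k hk, map_add, map_mul]
      module
    have : Finite (M ⧸ N) := .of_surjective _ N.mkQ_surjective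
    have hd := Zc.zero_ew (c := fun g => N.mkQ (c g - f (κ g) • m)) hρ
      ⟨sd.comp _, fun g hg k hk => by
        simp only [md hg hk, map_add, map_smul]
        rw [← map_smul N.mkQ _ m, N.mkQ_apply ((ρ g - _) • m),
          (Submodule.Quotient.mk_eq_zero N).2 (hN hg), smul_zero, add_zero]⟩
      fun j => by simp only [c2 j, sub_self, map_zero]
    have hd' {g : Gam} (hg : g ∈ Hw) : c g - f (κ g) • m ∈ N :=
      (Submodule.Quotient.mk_eq_zero N).1 (hd g hg)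
    refine ⟨fun g => -Φ (c g - f (κ g) • m), sd.comp fun y => -Φ y, fun g hg k hk => ?_⟩
    simp only [cup, cy_one_G hg.1, md hg hk]
    rw [a1 (add_mem (hd' hg) (N.smul_mem _ (hd' hk))) (N.smul_mem _ (hN hg)),
      a1 (hd' hg) (N.smul_mem _ (hd' hk)), a2 _ (hd' hk), a2 _ (hN hg), hρ.rs hg.1, p3_rs,
      p3_par inf_le_left hκ hk]
    ring
  obtain ⟨⟨y, hy⟩, e1⟩ := f1 1
  have : Φ y = 0 := by
    clear e1
    induction hy using Submodule.span_induction with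
    | mem y k =>
      obtain ⟨g, hg, rfl⟩ := k
      exact z g hg
    | zero => rw [a0 N.zero_mem]; exact map_zero φ
    | add y y' hy hy' i i' => rw [a1 hy hy', i, i', add_zero]
    | smul u y hy i =>
      rw [a2 u hy, i, mul_zero]
  rw [a0 hy, e1] at this
  exact absurd this (by decide)

end Pool.Agent.Lib.MP_696deb_nt.EV
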