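import Pool.Agent.Lib.MP_696deb_nt.EV.S2
import Pool.Agent.Lib.MP_696deb_nt.EV.C4

/-! Kummer cocycles of families of points. -/

set_option autoImplicit false

open scoped Classical NNReal
open Finset

namespace Pool.Agent.Lib.MP_696deb_nt.EV

variable {H : Subgroup Gam} {e n : ℕ} {S : Finset A} {ω : A → A → ZMod (3 ^ e)} {Q Q' : A → A}
  {κ : Gam → A → ZMod (3 ^ e)} {g : Gam} {P T T' : A} {b d m : O}

instance charZeroO : CharZero O := RingHom.charZero io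

theorem sm_inv {α : Type} {f : Gam → α} (h : Sm H f) : Sm H fun g => f g⁻¹ := by
  obtain ⟨U, h1, h2, h3⟩ := h
  refine ⟨U, h1, h2, fun g hg k hk e => h3 _ (inv_mem hg) _ (inv_mem hk) ?_⟩
  rw [show g⁻¹⁻¹ * k⁻¹ = g * (g⁻¹ * k)⁻¹ * g⁻¹ by group]
  exact h2.conj_mem _ (inv_mem e) _

theorem st_Im (hH : H ≤ G) (hm : m ≠ 0) (k : (3 : O) ∣ m) : St H (Im m) :=
  ⟨fun _ hg _ hP => act_Im hm k (hH hg) hP, fun P _ => sm_inv (sm_act H P)⟩

theorem two_ne (e : ℕ) : (3 : O) ^ e ≠ 0 := pow_ne_zero _ s2_ne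

theorem act_kill (hg : g ∈ G) (h : m • T = 0) : m • g • T = 0 := by
  rw [← act_smul hg, h, smul_zero]

/-- Equivariant coordinates on the points of order dividing `3 ^ e`. -/
structure Wt (H : Subgroup Gam) (S : Finset A) (ω : A → A → ZMod (3 ^ e)) : Prop where
  add : ∀ P T T', (3 : O) ^ e • T = 0 → (3 : O) ^ e • T' = 0 → ω P (T + T') = ω P T + ω P T'
  act : ∀ g ∈ H, ∀ P ∈ S, ∀ T, (3 : O) ^ e • T = 0 → ω P (g • T) = ω (g⁻¹ • P) T

/-- Families whose multiple is equivariant. -/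
def Eqv (e : ℕ) (H : Subgroup Gam) (S : Finset A) (Q : A → A) : Prop :=
  ∀ g ∈ H, ∀ P ∈ S, (3 : O) ^ e • (g • Q (g⁻¹ • P) - Q P) = 0

/-- The Kummer cocycle of a family of points. -/
noncomputable def XC (ω : A → A → ZMod (3 ^ e)) (Q : A → A) (g : Gam) (P : A) : ZMod (3 ^ e) :=
  ω P (g • Q (g⁻¹ • P) - Q P)

theorem Wt.sub (h : Wt H S ω) (P : A) (h1 : (3 : O) ^ e • T = 0) (h2 : (3 : O) ^ e • T' = 0) :
    ω P (T - T') = ω P T - ω P T' := by
  rw [eq_sub_iff_add_eq, ← h.add P _ _ (by rw [smul_sub, h1, h2, sub_zero]) h2, sub_add_cancel]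

theorem Eqv.add (h : Eqv e H S Q) (k : Eqv e H S Q') : Eqv e H S fun P => Q P + Q' P :=
  fun g hg P hP => by
    rw [smul_add g, add_sub_add_comm, smul_add, h g hg P hP, k g hg P hP, add_zero]

theorem Eqv.sub (h : Eqv e H S Q) (k : Eqv e H S Q') : Eqv e H S fun P => Q P - Q' P :=
  fun g hg P hP => by
    rw [smul_sub g, sub_sub_sub_comm, smul_sub, h g hg P hP, k g hg P hP, sub_zero]

theorem Eqv.act (hH : H ≤ G) (h : Eqv e H S Q) (hg : g ∈ H) (hP : P ∈ S) :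
    g • (3 : O) ^ e • Q (g⁻¹ • P) = (3 : O) ^ e • Q P := by
  rw [act_smul (hH hg), ← sub_eq_zero, ← smul_sub, h g hg P hP]

theorem Wt.xc_add (hω : Wt H S ω) (h : Eqv e H S Q) (k : Eqv e H S Q') (hg : g ∈ H) (hP : P ∈ S) :
    XC ω (fun P => Q P + Q' P) g P = 1 * XC ω Q g P + 1 * XC ω Q' g P := by
  simp only [XC]
  rw [smul_add g, add_sub_add_comm, hω.add P _ _ (h g hg P hP) (k g hg P hP), one_mul, one_mul]

theorem Wt.xc_sub (hω : Wt H S ω) (h : Eqv e H S Q) (k : Eqv e H S Q') (hg : g ∈ H) (hP : P ∈ S) :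
    XC ω (fun P => Q P - Q' P) g P = 1 * XC ω Q g P + -1 * XC ω Q' g P := by
  simp only [XC]
  rw [smul_sub g, sub_sub_sub_comm, hω.sub P (h g hg P hP) (k g hg P hP)]
  ring

theorem Wt.pc (hω : Wt H S ω) (hH : H ≤ G) (hS : St H S) (h : Eqv e H S Q) : PC H S (XC ω Q) := by
  refine ⟨fun P hP => (hS.sm_comp (f := fun g R => g • Q R) (fun R _ => sm_act H _) hP).comp
    fun R => ω P (R - Q P), fun g hg k hk P hP => ?_⟩
  have h1 := h k hk _ (hS.inv hg hP)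
  simp only [XC]
  rw [← hω.act g hg P hP _ h1, ← hω.add P _ _ (h g hg P hP) (act_kill (hH hg) h1), mul_inv_rev,
    mul_smul, mul_smul, smul_sub g]
  congr 1
  abel

theorem ss_congr {X : Type} [MulAction Gam X] {S : Finset X} {x x' κ : Gam → X → ZMod (3 ^ e)}
    (h : Spl e H (SS S x κ)) (k : ∀ g ∈ H, ∀ P ∈ S, x' g P = x g P) : Spl e H (SS S x' κ) :=
  spl_congr h fun g hg _ _ => sum_congr rfl fun P hP => by rw [k g hg P hP]

theorem cop_two_pow (hb : CU.red b ≠ 0) (e : ℕ) : IsCoprime ((3 : O) ^ e) b :=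
  (EW.cop_three hb).pow_left

/-- The symbol of a point and the value of the elliptic unit at the point vanishes. -/
theorem Wt.spl (hω : Wt H S ω) (hH : H ≤ G) (hS : St H S) (h : Eqv e H S Q) (hb : CU.red b ≠ 0)
    (h0 : ∀ P ∈ S, b • (3 : O) ^ e • Q P ≠ 0) (k : KF H S (fun P => ub b ((3 : O) ^ e • Q P)) κ) :
    Spl e H (SS S (XC ω Q) κ) := by
  have b0 := EW.ne_of_red hb
  let Y : Finset (A × A) := (S ×ˢ En (3 ^ e)).image fun p => (p.1, Q p.1 + p.2)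
  have mem : ∀ p : A × A, p ∈ Y ↔ p.1 ∈ S ∧ (3 : O) ^ e • (p.2 - Q p.1) = 0 := fun p => by
    simp only [Y, mem_image, mem_product, EW.mem_En (two_ne e)]
    refine ⟨?_, fun k => ⟨(p.1, p.2 - Q p.1), k, by simp⟩⟩
    rintro ⟨q, hq, rfl⟩
    simpa using hq
  have hY : St H Y := by
    refine ⟨fun g hg p hp => ?_, fun p _ =>
      (sm_inv (sm_act H p.1)).comp₂ (sm_inv (sm_act H p.2)) Prod.mk⟩
    rw [mem] at hp ⊢
    have h1 := hS.mem g hg _ hp.1
    have h2 := h g hg _ h1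
    rw [inv_smul_smul] at h2
    refine ⟨h1, ?_⟩
    rw [Prod.smul_snd, Prod.smul_fst, ← sub_add_sub_cancel _ (g • Q p.1), smul_add, h2, ← smul_sub,
      act_kill (hH hg) hp.2, add_zero]
  refine k.spl_norm hS (hω.pc hH hS h) hY (π := Prod.fst) (fun p hp => ((mem p).1 hp).1)
    (fun _ _ _ _ => rfl) (b := fun p => ub b p.2) (fun p hp => EW.ub_ne hb fun e0 => ?_)
    (fun g hg p _ => ?_) (fun P hP => ?_) (fun p => ω p.1 (p.2 - Q p.1)) fun g hg p hp => ?_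
  · obtain ⟨h1, h2⟩ := (mem p).1 hp
    rw [smul_sub, sub_eq_zero] at h2
    exact h0 _ h1 (by rw [← h2, smul_comm, e0, smul_zero])
  · rw [← ub_act b0 (hH hg), Prod.smul_snd, smul_inv_smul]
  · rw [← EW.ub_norm hb (cop_two_pow hb e) fun e0 => h0 P hP (by rw [e0, smul_zero])]
    refine prod_nbij' (fun T => (P, Q P + T)) (fun p => p.2 - Q P) (fun T hT => ?_)
      (fun p hp => ?_) (fun T _ => add_sub_cancel_left _ _) (fun p hp => ?_) fun _ _ => rfl
    · simp only [mem_filter, mem]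
      exact ⟨⟨hP, by simpa using (EW.mem_En (two_ne e)).1 hT⟩, trivial⟩
    · simp only [mem_filter, mem] at hp
      obtain ⟨h1, rfl⟩ := hp
      exact (EW.mem_En (two_ne e)).2 h1.2
    · simp only [mem_filter] at hp
      obtain ⟨-, rfl⟩ := hp
      simp
  · obtain ⟨h1, h2⟩ := (mem p).1 hp
    have h3 := ((mem _).1 (hY.inv hg hp)).2
    rw [Prod.smul_snd, Prod.smul_fst] at h3 ⊢
    rw [← hω.act g hg _ h1 _ h3, ← hω.sub _ h2 (act_kill (hH hg) h3), XC, smul_sub g,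
      smul_inv_smul]
    congr 1
    abel

theorem tq_sub (hm : m ≠ 0) (a c : O) : tq a m - tq c m = tq (a - c) m := by
  rw [EW.tq_eq a hm, EW.tq_eq c hm, EW.tq_eq (a - c) hm, sub_smul]

theorem tq_kill (hm : m ≠ 0) (a : O) : m • tq a m = 0 := by
  rw [EW.smul_tq _ _ hm, EW.tq_eq_zero hm]
  exact dvd_mul_right _ _

theorem co_add (hm : m ≠ 0) (h1 : m • T = 0) (h2 : m • T' = 0) :
    m ∣ co m (T + T') - (co m T + co m T') := by
  rw [← EW.tq_eq_zero hm, ← tq_sub hm, co_spec hm (by rw [smul_add, h1, h2, add_zero]),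
    EW.tq_eq _ hm, add_smul, ← EW.tq_eq _ hm, ← EW.tq_eq _ hm, co_spec hm h1, co_spec hm h2,
    sub_self]

/-- Coordinates with respect to the multiple of a primary generator. -/
noncomputable def omg (l : O →+ ZMod (3 ^ e)) (V : A → O) (P T : A) : ZMod (3 ^ e) :=
  l (V P * co (3 ^ e) T)

theorem co_inv (hm : m ≠ 0) (hg : g ∈ G) (hP : m • P = 0) :
    m ∣ co m P - cm m g * co m (g⁻¹ • P) := by
  have := co_act hm hg (act_kill (inv_mem hg) hP)
  rwa [smul_inv_smul] at this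

theorem wt_om (hH : H ≤ G) (hm : m ≠ 0) (k : (3 : O) ∣ m) (h2 : 3 ^ e ∣ m) (l : O →+ ZMod (3 ^ e))
    {V : A → O} (hV : ∀ P ∈ Im m, 3 ^ e ∣ V P * co m P - 1) : Wt H (Im m) (omg l V) := by
  refine ⟨fun P T T' h1 h2 => ?_, fun g hg P hP T hT => hom_three l ?_⟩
  · rw [omg, omg, omg, ← map_add, ← mul_add]
    exact hom_three l (by rw [← mul_sub]; exact (co_add (two_ne e) h1 h2).mul_left _)
  · obtain ⟨a, ha⟩ := co_act (two_ne e) (hH hg) hT
    obtain ⟨c, hc⟩ := h2.trans (co_inv hm (hH hg) (Im_kill hm hP))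
    obtain ⟨s, hs⟩ := cm_of_dvd hm (hH hg) h2
    obtain ⟨u, hu⟩ := hV P hP
    obtain ⟨u', hu'⟩ := hV _ ((st_Im hH hm k).inv hg hP)
    exact ⟨V P * a + co (3 ^ e) T * (V (g⁻¹ • P) * (u - V P * c) - V P * (s + cm m g * u')), by
      linear_combination V P * ha + co (3 ^ e) T * (V (g⁻¹ • P) * (hu - V P * hc) -
        V P * (hs + cm m g * hu'))⟩

/-- A division point of a point of finite order. -/
noncomputable def dv (e : ℕ) (m : O) (P : A) : A := tq (co m P) (3 ^ e * m)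

theorem dv_spec (hm : m ≠ 0) (hP : m • P = 0) : (3 : O) ^ e • dv e m P = P := by
  rw [dv, EW.smul_tq _ _ (mul_ne_zero (two_ne e) hm), EW.tq_mul (two_ne e) _ hm, co_spec hm hP]

theorem eqv_dv (hH : H ≤ G) (hm : m ≠ 0) : Eqv e H (Im m) (dv e m) := fun g hg P hP => by
  have k := Im_kill hm hP
  rw [smul_sub, ← act_smul (hH hg), dv_spec hm k, dv_spec hm (act_kill (inv_mem (hH hg)) k),
    smul_inv_smul, sub_self]

theorem prim_two {a : O} (h : Prim a) : 3 ∣ a - 1 := prim_iff.1 h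

/-- The Kummer cocycle of the tautological family is a logarithm of the character. -/
theorem xc_dv (hH : H ≤ G) (hm : m ≠ 0) (k : (3 : O) ∣ m) (hd : m = d * 3 ^ n) (hn : e < n)
    (l : O →+ ZMod (3 ^ e)) {V : A → O} (hV : ∀ P ∈ Im m, 3 ^ e ∣ V P * co m P - 1) :
    ∃ (χ : Gam → ZMod (3 ^ (e + n))) (β : A → ZMod (3 ^ (e + n))), Sm H χ ∧ IsHom H χ ∧
      ∀ g ∈ H, ∀ P ∈ Im m, inc n (XC (omg (l.comp (AddMonoidHom.mulLeft d)) V) (dv e m) g P) =
        χ g + β P - β (g⁻¹ • P) := by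
  obtain ⟨l', hl⟩ := exists_lift l n
  have m0 := mul_ne_zero (two_ne e) hm
  have m2 : (3 : O) ^ (e + n) ∣ 3 ^ e * m := ⟨d, by rw [hd]; ring⟩
  have c2 : ∀ g ∈ H, 3 ∣ cm (3 ^ e * m) g - 1 := fun g hg =>
    prim_two (cm_prim m0 (hH hg) (k.mul_left _))
  have p2 : ∀ P ∈ Im m, 3 ∣ co m P - 1 := fun P hP => prim_two (co_prim hm k hP)
  refine ⟨fun g => l' (lo (e + n) (cm (3 ^ e * m) g)), fun P => -l' (lo (e + n) (co m P)),
    ((sm_cm m0).mono hH).comp fun a => l' (lo (e + n) a), fun g hg h hh => ?_, fun g hg P hP => ?_⟩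
  · beta_reduce
    rw [← map_add, ← hom_three l' (lo_mul (c2 g hg) (c2 h hh))]
    exact hom_three l' (lo_congr (c2 _ (mul_mem hg hh)) (three_dvd_mul (c2 g hg) (c2 h hh))
      (m2.trans (cm_mul m0 (hH hg) (hH hh))))
  have hP' := (st_Im hH hm k).inv hg hP
  obtain ⟨y, hy⟩ := (co_inv hm (hH hg) (Im_kill hm hP))
  obtain ⟨s, hs⟩ := cm_of_dvd m0 (hH hg) (dvd_mul_left m _)
  obtain ⟨u, hu⟩ := hV P hP
  obtain ⟨Y, hY⟩ : ∃ Y, cm (3 ^ e * m) g * co m (g⁻¹ • P) - co m P = m * Y :=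
    ⟨s * co m (g⁻¹ • P) - y, by linear_combination co m (g⁻¹ • P) * hs - hy⟩
  have e1 : g • dv e m (g⁻¹ • P) - dv e m P = tq Y (3 ^ e) := by
    rw [dv, dv, cm_spec m0 (hH hg) (tq_kill m0 _), EW.smul_tq _ _ m0, tq_sub m0, hY, mul_comm _ m,
      EW.tq_mul hm _ (two_ne e)]
  have x2 : (3 : O) ^ n ∣ m * (V P * Y) := ⟨d * (V P * Y), by rw [hd]; ring⟩
  have x3 : 3 ∣ 1 + m * (V P * Y) - 1 := by
    rw [add_sub_cancel_left]
    exact (dvd_pow_self 3 (by omega)).trans x2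
  have e2 : l' (lo (e + n) (cm (3 ^ e * m) g * co m (g⁻¹ • P))) =
      l' (lo (e + n) (co m P * (1 + m * (V P * Y)))) :=
    hom_three l' (lo_congr (three_dvd_mul (c2 g hg) (p2 _ hP')) (three_dvd_mul (p2 P hP) x3)
      (m2.trans ⟨-u * Y, by linear_combination hY - m * Y * hu⟩))
  rw [hom_three l' (lo_mul (c2 g hg) (p2 _ hP')), hom_three l' (lo_mul (p2 P hP) x3), map_add, map_add,
    hom_three l' (lo_small hn x2)] at e2
  obtain ⟨z, hz⟩ := co_tq (two_ne e) Y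
  rw [XC, e1, omg, AddMonoidHom.comp_apply, hl, AddMonoidHom.coe_mulLeft,
    hom_three l' (b := m * (V P * Y)) (m2.trans ⟨V P * z, by
      rw [eq_add_of_sub_eq hz, hd]; ring⟩)]
  linear_combination -e2

end Pool.Agent.Lib.MP_696deb_nt.EV
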