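import Pool.Agent.Lib.MP_696deb_nt.EV.C7
import Pool.Agent.Lib.MP_696deb_nt.CK.Lk

/-! Unramified classes are local coboundaries. -/

set_option autoImplicit false

open scoped Classical NNReal
open Finset

namespace Pool.Agent.Lib.MP_696deb_nt.EV

theorem selg_one (r : TP) (u : O) : ¬ r.π ∣ u * r.π - 1 := fun k =>
  r.prime.not_isUnit (isUnit_of_dvd_one ((dvd_sub_right (dvd_mul_left _ _)).1 k))

theorem selg_three (r : TP) (e : ℕ) : ¬ r.π ∣ 3 ^ e :=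
  r.V_eq.1 (by rw [map_pow, map_pow, map_ofNat, EW.V_three r.odd, one_pow])

theorem selg_cob (t : Tw) (r : TP) {m : O} {S : A} (h : ¬ r.π ∣ m) (k : m • S = 0) :
    t.cob S r.φ = (un (kk t.N r.φ) * r.π - 1) • S := by
  rw [Tw.cob, tw_eq t r.φ_mem, act_frob r h k, sub_smul, one_smul, mul_smul]

/-- Unramified cocycles at a good place away from three come from points. -/
theorem unr_kum (t : Tw) {v : Plc} (hv : v.p ≠ 3) (hN : ¬ v.p ∣ t.N) {e : ℕ} {ξ : Gam → A}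
    (sm : Sm (G ⊓ Dec v) ξ) (tor : ∀ g ∈ G ⊓ Dec v, (3 : O) ^ e • ξ g = 0)
    (coc : ∀ g ∈ G ⊓ Dec v, ∀ h ∈ G ⊓ Dec v, ξ (g * h) = ξ g + t.tw g (ξ h))
    (unr : ∀ σ ∈ Ine v, ξ σ = 0) : ∃ S, ∀ g ∈ G ⊓ Dec v, ξ g = t.cob S g := by
  obtain ⟨r, rfl⟩ := exists_tp_v hv
  have h1 := selg_one r (un (kk t.N r.φ))
  have h3 := r.prime.not_dvd_mul (selg_three r e) h1
  obtain ⟨S, hS⟩ := exists_div (ne_of_apply_ne (r.π ∣ ·) (by simpa using h1)) (ξ r.φ)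
  have h4 : (3 ^ e * (un (kk t.N r.φ) * r.π - 1)) • S = 0 := by
    rw [mul_smul, hS, tor _ r.tm.φ_mem]
  have h5 := (selg_cob t r h3 h4).trans hS
  have h6 : ∀ σ ∈ Ine r.v, t.cob S σ = 0 := fun σ hσ => by
    have k := rho0_ine t hv hN hσ
    rw [rho0, psi_ine hv hσ, mul_one] at k
    rw [Tw.cob, tw_eq t (ine_le hv hσ), act_ine hv (r.V_eq.2 h3) hσ h4,
      oW_inj (k.trans (map_one oW).symm), one_smul, sub_self]
  obtain ⟨c1, c2⟩ := CU.coc_cob t.N 1 (G ⊓ Dec r.v) S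
  replace c2 : ∀ g ∈ G ⊓ Dec r.v, ∀ h ∈ G ⊓ Dec r.v,
    t.cob S (g * h) = t.cob S g + t.tw g (t.cob S h) := c2
  have h7 : ∀ n : ℕ, ξ (r.φ ^ n) = t.cob S (r.φ ^ n) := fun n => by
    induction n with
    | zero => rw [pow_zero, unr 1 (one_mem _), h6 1 (one_mem _)]
    | succ n ih =>
      have k := pow_mem r.tm.φ_mem n
      rw [pow_succ, coc _ k _ r.tm.φ_mem, c2 _ k _ r.tm.φ_mem, ih, h5]
  refine ⟨S, fun g hg => ?_⟩
  obtain ⟨U, u1, -, u3⟩ := sm.comp₂ c1 (· - ·)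
  obtain ⟨n, σ, hσ, k⟩ := r.tm.dg hg u1
  have h8 := u3 _ (mul_mem (pow_mem r.tm.φ_mem n) (r.tm.ine_le hσ)) g hg k
  simp only [← t.cob_eq, coc _ (pow_mem r.tm.φ_mem n) _ (r.tm.ine_le hσ),
    c2 _ (pow_mem r.tm.φ_mem n) _ (r.tm.ine_le hσ), h7, unr σ hσ, h6 σ hσ, sub_self] at h8
  exact sub_eq_zero.1 h8.symm

/-- Selmer cocycles over the rational numbers are killed by a fixed power of three. -/
theorem sel_kill (t : Tw) (h : CU.Gro t.N 2) : ∃ n : ℕ, ∀ (e : ℕ) (ξ : Gam → A),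
    Sm ⊤ ξ → (∀ g, (3 : O) ^ e • ξ g = 0) → (∀ g h, ξ (g * h) = ξ g + t.tw g (ξ h)) →
    (∀ v : Plc, ∃ S, ∀ g ∈ Dec v, ξ g = t.cob S g) →
    ∃ S : A, (3 : O) ^ e • S = 0 ∧ ∀ g, (3 : O) ^ n • ξ g = t.cob S g := by
  obtain ⟨C, hC⟩ := h
  obtain ⟨v, hv⟩ := B2.exists_plc Nat.prime_two
  obtain ⟨r, -⟩ := exists_tp_v (v := v) (by omega)
  have h1 : un (kk t.N r.φ) * r.π - 1 ≠ 0 := fun k => selg_one r _ (k ▸ dvd_zero _)
  refine ⟨C * (En (un (kk t.N r.φ) * r.π - 1)).card, fun e ξ sm tor coc loc => ?_⟩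
  have c3 : ∀ (k : ℕ) (P : A), (3 : O) ^ k • P = 3 ^ k • P := fun k P => by
    rw [← Nat.cast_smul_eq_nsmul O, Nat.cast_pow, Nat.cast_ofNat]
  have c4 : ∀ P : A, (3 : O) ^ e • P = 0 ↔ w ^ (2 * e) • P = 0 := fun P => by
    rw [c3, CU.three_pow_iff]
  have : Finite (CU.Zs t.N 1 (2 * e)) := (CU.finite_Zs t.ne 1 _).to_subtype
  have h2 : Nat.card (CK.lkD t.N e).ker ≤ (En (un (kk t.N r.φ) * r.π - 1)).card := by
    rw [← Nat.card_eq_finsetCard]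
    exact Nat.card_le_card_of_injective (fun x => ⟨x.1.1, (EW.mem_En h1).2
      ((selg_cob t r (selg_three r e) ((c4 _).2 x.1.2)).symm.trans
        (congrFun (congrArg Subtype.val x.2) _))⟩)
      fun x y k => Subtype.ext (Subtype.ext (Subtype.mk.inj k))
  have h3 := hC e
  rw [AddSubgroup.card_eq_card_quotient_mul_card_addSubgroup (CK.lkD t.N e).range,
    ← CK.lk_mul t.N e, mul_left_comm, mul_comm] at h3
  let x : CU.Zs t.N 1 (2 * e) := ⟨ξ, CK.mem_Zs_of_loc ⟨sm, fun g _ k _ => coc g k⟩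
    (fun g => (c4 _).1 (tor g)) fun q _ => loc _⟩
  obtain ⟨j, -, hj⟩ := (Nat.dvd_prime_pow Nat.prime_three).1 (addOrderOf_dvd_of_nsmul_eq_zero
    (x := (x : CU.Zs t.N 1 (2 * e) ⧸ (CK.lkD t.N e).range)) (n := 3 ^ e) (by
      rw [← QuotientAddGroup.mk_nsmul, show 3 ^ e • x = 0 from
        Subtype.ext (funext fun g => (c3 _ _).symm.trans (tor g)), QuotientAddGroup.mk_zero]))
  have h4 := addOrderOf_dvd_iff_nsmul_eq_zero.1 (hj ▸ pow_dvd_pow 3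
    ((Nat.lt_pow_self (by norm_num)).le.trans ((hj ▸ addOrderOf_le_card).trans
      ((Nat.le_of_mul_le_mul_left h3 Nat.card_pos).trans (Nat.mul_le_mul_left C h2)))))
  rw [← QuotientAddGroup.mk_nsmul, QuotientAddGroup.eq_zero_iff] at h4
  obtain ⟨S, hS⟩ := h4
  exact ⟨S, (c4 _).2 S.2, fun g => (c3 _ _).trans (congrFun (congrArg Subtype.val hS) g).symm⟩

end Pool.Agent.Lib.MP_696deb_nt.EV
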