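import Pool.Agent.Lib.MP_696deb_nt.EV.T1

/-! The tower: the data of the limit argument. -/

set_option autoImplicit false

open scoped Classical NNReal
open Finset PowerSeries

namespace Pool.Agent.Lib.MP_696deb_nt.EV

namespace Cx

variable (c : Cx)

/-- The elements that may be approximated by Frobenius elements of new primes. -/
noncomputable def Stg.N {c : Cx} {n : ℕ} (s : c.Stg n) : Subgroup GG where
  carrier := {x | ∀ k, s.InN k (x k)}
  one_mem' k := Stg.InN.one s k
  mul_mem' h h' k := (h k).mul (h' k) (Subtype.prop _) (Subtype.prop _)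
  inv_mem' h k := (h k).inv (Subtype.prop _)

/-- The data. -/
noncomputable def dat : Dat GG c.κ where
  ρ b := limH (c.ρ b) (c.chr b)
  g0 := fun _ => ⟨c.g0, c.g0_mem⟩
  e := ewL
  St := c.Stg
  gen s := genL s.t
  φ s := φL s.t
  L s b := LL (s.L b)
  Z s b := ZL s.t (c.ρ b)
  u s := uL s.t
  N s := s.N
  kap s b := lim (s.kp b)
  W := WL (c.ρ false)
  s0 := c.exists_s0.some
  F b := lim (c.Fk b)
  cc b := ul (c.ck b)
  k i := ul fun k => c.ks k (ew i)

end Cx

end Pool.Agent.Lib.MP_696deb_nt.EV
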