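import Pool.Agent.Lib.MP_696deb_nt.EV.TopA

/-! Existence of a dual class. -/

set_option autoImplicit false

open scoped Classical NNReal
open Finset Matrix PowerSeries

namespace Pool.Agent.Lib.MP_696deb_nt.EV

namespace Dat

variable {Γ κ : Type} [Group Γ] [Fintype κ] {D : Dat Γ κ} {n : ℕ} {s : D.St n} {b : Bool}
  {I : Ideal La} {c c' : Γ → La}

theorem topb_indep {μ : Type} {m : ℕ} {x y : Fin m → μ → La} (h : Indep I x)
    (k : ∀ a j, y a j - x a j ∈ I) : Indep I y := fun t ht => h t fun j => by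
  have := I.sub_mem (ht j) (I.sum_mem fun a (_ : a ∈ univ) => I.mul_mem_left (t a) (k a j))
  rwa [← sum_sub_distrib, sum_congr rfl fun a _ => show _ = t a * x a j by ring] at this

/-- A nonzero dual cocycle that is trivial at three and at the Frobenius elements of the old primes. -/
theorem Ok.count (h : D.Ok) (hI : Pr I) (s : D.St (n + 2)) :
    ∃ c ∈ D.Z s false I, (∃ j, c (D.gen s j) ∉ I) ∧ (∀ i, c (D.e i) ∈ I) ∧
      ∀ i : Jx κ n, i.deep → c (D.φ s (some (some i))) ∈ I := by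
  obtain ⟨x, x1, x2⟩ := exists_indep (m := 4) hI.1 (Matrix.of fun i : Jx κ n =>
    if i.deep then D.L s false (D.φ s (some (some i)))
    else relR (D.ρ false) (D.gen s) (D.φ s) (D.L s false) (some (some i))) (by
      simp only [Fintype.card_sum, Jx.card, Fintype.card_fin]
      omega)
  have z (i : Jx κ (n + 2)) (hi : i.deep) (a : Fin 4) :
      relR (D.ρ false) (D.gen s) (D.φ s) (D.L s false) i ⬝ᵥ x a ∈ I :=
    I.sum_mem fun j _ => I.mul_mem_right _ (by
      rw [relR, (h.deep s false i hi).1, (h.deep s false i hi).2, sub_self, zero_mul, zero_mul,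
        sub_self]
      exact I.zero_mem)
  choose c c1 c2 using fun a => (h.pres s false).ex I hI (x a) fun i => by
    by_cases hi : i.deep
    · exact z i hi a
    rcases i with _ | _ | i
    · exact absurd trivial hi
    · exact absurd trivial hi
    · have := x2 a i
      rwa [mulVec, show (Matrix.of _ : Matrix _ _ La) i = _ from if_neg hi] at this
  have nI : ¬ Indep I fun a i => c a (D.e i) := fun k => by
    obtain ⟨d, d1, d2⟩ := k.span hI.1
    refine h.lw I hI d d1 fun y => (d2 y).elim fun t ht => ⟨∑ a, t a • fun i => c a (D.e i),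
      Submodule.sum_mem _ fun a _ => Submodule.smul_mem _ _ (h.W_mem s I _ (c1 a)), fun i => ?_⟩
    simpa only [Finset.sum_apply, Pi.smul_apply, smul_eq_mul] using ht i
  obtain ⟨t, ht⟩ := not_forall.1 nI
  obtain ⟨t1, t2⟩ := Classical.not_imp.1 ht
  have ev (g : Γ) : (∑ a, t a • c a) g = ∑ a, t a * c a g := by
    simp only [Finset.sum_apply, Pi.smul_apply, smul_eq_mul]
  refine ⟨∑ a, t a • c a, Submodule.sum_mem _ fun a _ => Submodule.smul_mem _ _ (c1 a),
    not_forall.1 fun k => t2 (topb_indep x1 c2 t fun j => ev _ ▸ k j), fun i => ev _ ▸ t1 i,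
    fun i hi => ev _ ▸ I.sum_mem fun a _ => I.mul_mem_left _ ?_⟩
  have k1 := x2 a i
  rw [mulVec, show (Matrix.of _ : Matrix _ _ La) i = _ from if_pos hi] at k1
  have k2 : D.L s false (D.φ s (some (some i))) ⬝ᵥ ((fun j => c a (D.gen s j)) - x a) ∈ I :=
    I.sum_mem fun j _ => I.mul_mem_left _ (c2 a j)
  rw [dotProduct_sub] at k2
  have k3 := I.add_mem (I.add_mem
    ((h.pres s false).val I hI _ (c1 a) (D.φ s (some (some i)))) k2) k1
  rwa [sub_add_sub_cancel, sub_add_cancel] at k3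

theorem Ok.hat_ne (h : D.Ok) (hI : Pr I) (hc : c ∈ D.Z s false I) (h0 : ∃ j, c (D.gen s j) ∉ I)
    (he : ∀ i, c (D.e i) ∈ I) : ∃ g, D.hat false c g ∉ I := by
  have _ := hc
  by_contra! k
  obtain ⟨j, hj⟩ := h0
  obtain ⟨i, hi⟩ := h.ne I hI
  have k1 : c D.g0 ∈ I := (hI.1.mem_or_mem (by
    simpa [hat] using
      I.sub_mem (I.mul_mem_left (D.ρ false D.g0 - 1) (he i)) (k (D.e i)))).resolve_left hi
  exact hj ((hI.1.mem_or_mem (by
    simpa [hat] using I.add_mem (k (D.gen s j))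
      (I.mul_mem_left (D.ρ false (D.gen s j) - 1) k1))).resolve_left (h.vp false I hI))

/-- The reciprocity law removes the ramification at the new prime. -/
theorem Ok.topb_unr (h : D.Ok) (hI : Pr I) {s' : D.St (n + 1)} (E : D.Ext s s')
    (hc : c ∈ D.Z s true I) (hc' : c' ∈ D.Z s' false I) (he : ∀ i, c' (D.e i) ∈ I)
    (h0 : c (D.φ s' none) ∉ I) (ht : ∀ i : Jx κ n, i.deep → c (D.φ s i) ∈ I ∧
      (c' (D.φ s i) ∈ I ∨ c (D.gen s (.inl i)) ∈ I)) : c' ∈ D.Z s false I := by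
  have k := h.recip I hI s' c (E.le _ _ hc) c' hc' he
  rw [sum_deep_succ, I.add_mem_iff_left (I.sum_mem fun i hi => I.mul_mem_left _ ?_),
    I.unit_mul_mem_iff_mem (h.unit s' none trivial),
    I.sub_mem_iff_right (I.mul_mem_left _ (E.zero _ _ c hc))] at k
  · exact E.unr _ _ hI c' hc' ((hI.1.mem_or_mem k).resolve_right h0)
  · obtain ⟨k1, k2⟩ := ht i (mem_filter.1 hi).2
    rw [E.φ, show D.gen s' (.inl (some i)) = _ from E.gen (.inl i)]
    exact I.sub_mem (k2.elim (I.mul_mem_right _) (I.mul_mem_left _)) (I.mul_mem_left _ k1)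

theorem Ok.dual (h : D.Ok) (hI : Pr I) (hz : D.Zr s I 3) :
    (∃ c ∈ D.Z s true I, D.Tr s I c ∧ ∃ g, D.hat true c g ∉ I) ∧
    ∃ c ∈ D.Z s false I, D.Tr s I c ∧ (∀ i, c (D.e i) ∈ I) ∧ ∃ g, D.hat false c g ∉ I := by
  obtain ⟨x, x1, x2⟩ := hz
  choose y y1 y2 y3 using fun a => h.of_ker hI (x2 a)
  obtain ⟨a, a', T⟩ := h.two hI y y1 (topb_indep x1 y3)
  have n1 : ∃ g, D.hat true (y a) g ∉ I := not_forall.1 fun k =>
    hI.ne_top ((Ideal.eq_top_iff_one I).2 (T 1 0 fun g => by simpa using k g).1)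
  refine ⟨⟨_, y1 a, y2 a, n1⟩, ?_⟩
  obtain ⟨s₁, E₁, e₁⟩ := h.new s (fun _ : Fin 1 => y a) (fun _ => true) (fun _ => I)
    (fun _ => ⟨hI, y1 a⟩) fun _ => n1
  let c := y a (D.φ s₁ none) • y a' - y a' (D.φ s₁ none) • y a
  have c1 : c ∈ D.Z s true I :=
    sub_mem (Submodule.smul_mem _ _ (y1 a')) (Submodule.smul_mem _ _ (y1 a))
  have n2 : ∃ g, D.hat true c g ∉ I := not_forall.1 fun k =>
    e₁ 0 (T (-y a' (D.φ s₁ none)) _ fun g => by
      convert k g using 1
      simp only [hat, c, Pi.sub_apply, Pi.smul_apply, smul_eq_mul]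
      ring).2
  obtain ⟨s₂, E₂, e₂⟩ := h.new s₁ (fun _ : Fin 1 => c) (fun _ => true) (fun _ => I)
    (fun _ => ⟨hI, E₁.le _ _ c1⟩) fun _ => n2
  obtain ⟨d, d1, d2, d3, d4⟩ := h.count hI s₂
  have d5 : D.Tr s I d := fun i hi => ((E₂.φ (some i)).trans (E₁.φ i)) ▸ d4 i hi
  have d6 : d ∈ D.Z s₁ false I := by
    refine h.topb_unr hI E₂ (E₁.le _ _ c1) d1 d3 (e₂ 0) ?_
    rintro (_ | i) hi
    · refine ⟨?_, .inr (E₁.zero _ _ c c1)⟩
      change _ * _ - _ * _ ∈ I
      rw [mul_comm, sub_self]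
      exact I.zero_mem
    · rw [E₁.φ]
      exact ⟨I.sub_mem (I.mul_mem_left _ (y2 a' i hi)) (I.mul_mem_left _ (y2 a i hi)),
        .inl (d5 i hi)⟩
  exact ⟨d, h.topb_unr hI E₁ (y1 a) d6 d3 (e₁ 0) fun i hi => ⟨y2 a i hi, .inl (d5 i hi)⟩, d5, d3,
    h.hat_ne hI d1 d2 d3⟩

end Dat

end Pool.Agent.Lib.MP_696deb_nt.EV
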